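import Mathlib
import Pool.Agent.H162R2.Sparse.Main

/-!
# List edge colourings of dense graphs: the statements

`LC G L`, `dg G v` (degree), `nb G v` (neighbours, a `Finset`) come from
`Pool.Agent.H162R2.Sparse`.
-/

set_option autoImplicit false

namespace Pool.Agent.H162R2.AG

open Finset Pool.Agent.H162R2.Sparse

/-- signs -/
def sg (b : Bool) : ℝ := if b then 1 else -1

open Classical in
/-- the number of elements with a property -/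
noncomputable def cnt {Ω : Type} [Fintype Ω] (P : Ω → Prop) : ℝ := ((univ.filter P).card : ℝ)

theorem cnt_nonneg {Ω : Type} [Fintype Ω] (P : Ω → Prop) : 0 ≤ cnt P := by
  unfold cnt
  positivity

theorem cnt_mono {Ω : Type} [Fintype Ω] {P Q : Ω → Prop} (h : ∀ ω, P ω → Q ω) :
    cnt P ≤ cnt Q := by
  unfold cnt
  exact_mod_cast Finset.card_le_card (fun ω hω => by
    simp only [Finset.mem_filter, Finset.mem_univ, true_and] at hω ⊢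
    exact h ω hω)

theorem cnt_le_card {Ω : Type} [Fintype Ω] (P : Ω → Prop) : cnt P ≤ Fintype.card Ω := by
  unfold cnt
  exact_mod_cast Finset.card_le_univ _

open Classical in
theorem cnt_eq_sum {Ω : Type} [Fintype Ω] (P : Ω → Prop) :
    cnt P = ∑ ω, if P ω then (1 : ℝ) else 0 := by
  unfold cnt
  rw [Finset.sum_boole]

theorem cnt_eq_card {Ω : Type} [Fintype Ω] (P : Ω → Prop) [DecidablePred P] :
    cnt P = ((univ.filter P).card : ℝ) := by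
  unfold cnt
  congr!

theorem cnt_or_le {Ω : Type} [Fintype Ω] (P Q : Ω → Prop) :
    cnt (fun ω => P ω ∨ Q ω) ≤ cnt P + cnt Q := by
  classical
  rw [cnt_eq_sum, cnt_eq_sum, cnt_eq_sum, ← Finset.sum_add_distrib]
  apply Finset.sum_le_sum
  intro ω _
  by_cases h1 : P ω <;> by_cases h2 : Q ω <;> simp [h1, h2]

theorem cnt_exists_le {Ω : Type} [Fintype Ω] {J : Type} (s : Finset J) (P : J → Ω → Prop) :
    cnt (fun ω => ∃ j ∈ s, P j ω) ≤ ∑ j ∈ s, cnt (P j) := by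
  classical
  induction s using Finset.induction_on with
  | empty => simp [cnt]
  | insert a s ha ih =>
    rw [Finset.sum_insert ha]
    refine le_trans (cnt_mono (Q := fun ω => P a ω ∨ ∃ j ∈ s, P j ω) ?_)
      (le_trans (cnt_or_le _ _) (by linarith))
    rintro ω ⟨j, hj, h⟩
    rcases Finset.mem_insert.1 hj with rfl | hj
    · exact Or.inl h
    · exact Or.inr ⟨j, hj, h⟩

theorem exists_of_cnt_lt {Ω : Type} [Fintype Ω] (P : Ω → Prop)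
    (h : cnt P < Fintype.card Ω) : ∃ ω, ¬ P ω := by
  classical
  by_contra hcon
  push Not at hcon
  apply absurd h
  rw [not_lt, cnt_eq_sum, Finset.sum_congr rfl (g := fun _ => (1 : ℝ))]
  · simp
  · intro ω _
    rw [if_pos (hcon ω)]

theorem cnt_not {Ω : Type} [Fintype Ω] (P : Ω → Prop) :
    cnt P + cnt (fun ω => ¬ P ω) = Fintype.card Ω := by
  classical
  rw [cnt_eq_sum, cnt_eq_sum, ← Finset.sum_add_distrib]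
  rw [Finset.sum_congr rfl (g := fun _ => (1 : ℝ))]
  · simp
  · intro ω _
    by_cases h1 : P ω <;> simp [h1]

theorem card_signs (ι : Type) [Fintype ι] [DecidableEq ι] :
    Fintype.card (ι → Bool) = 2 ^ Fintype.card ι := by
  simp

theorem sg_sq (b : Bool) : sg b ^ 2 = 1 := by
  cases b <;> norm_num [sg]

theorem abs_sg (b : Bool) : |sg b| = 1 := by
  cases b <;> norm_num [sg]

/-- `√(n ln n)` -/
noncomputable def Lam (n : ℕ) : ℝ := Real.sqrt (n * Real.log n)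

/-- linear tail -/
def T_P1 : Prop := ∀ (ι : Type) [Fintype ι] [DecidableEq ι] (w : ι → ℝ) (v t : ℝ), 0 < v → 0 ≤ t →
  ∑ c, w c ^ 2 ≤ v →
  cnt (fun χ : ι → Bool => t ≤ |∑ c, w c * sg (χ c)|) ≤
    2 * Real.exp (-(t ^ 2) / (2 * v)) * 2 ^ Fintype.card ι

/-- antipodal pairs in big sets -/
def T_P3 : Prop := ∀ (ι : Type) [Fintype ι] [DecidableEq ι] (S : Finset (ι → Bool)) (a : ℝ),
  0 ≤ a → (2 : ℝ) ^ Fintype.card ι * Real.exp (-a) ≤ S.card →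
  ∃ χ ∈ S, ∃ χ' ∈ S,
    ((univ.filter (fun c => χ c = χ' c)).card : ℝ) ≤ Real.sqrt (2 * a * Fintype.card ι)

/-- quadratic tail -/
def T_P4 : Prop := ∀ (ι : Type) [Fintype ι] [DecidableEq ι] (J : Type) [Fintype J] [DecidableEq J]
  (w : J → ι → ℝ) (ρ T t : ℝ), 0 < ρ →
  (∀ i j, i ≠ j → ∑ c, w i c * w j c = 0) → (∀ i, ∑ c, w i c ^ 2 ≤ ρ) →
  (∑ i, ∑ c, w i c ^ 2 ≤ T) →
  cnt (fun χ : ι → Bool => t ≤ ∑ i, (∑ c, w i c * sg (χ c)) ^ 2) ≤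
    Real.exp (T / (2 * ρ) - t / (4 * ρ)) * 2 ^ Fintype.card ι

/-- spectral decomposition -/
def T_P5 : Prop := ∀ (ι : Type) [Fintype ι] [DecidableEq ι] (n : ℕ) (L : Fin n → Finset ι),
  ∃ w : Fin n → ι → ℝ, (∀ i j, i ≠ j → ∑ c, w i c * w j c = 0) ∧
    (∑ i, ∑ c, w i c ^ 2 = ∑ i, ((L i).card : ℝ)) ∧
    ∀ x : ι → ℝ, ∑ i, (∑ c ∈ L i, x c) ^ 2 = ∑ i, (∑ c, w i c * x c) ^ 2

/-- pigeonhole -/
def T_P6a : Prop := ∀ (Ω : Type) [Fintype Ω] (J : Type) [Fintype J] (m Q k : ℕ)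
  (g : J → Ω → ℝ) (h : ℝ) (A : Finset Ω), 0 < h → Fintype.card J ≤ m →
  (∀ j ω, |g j ω| ≤ 2 * h * Q) → (3 / 4 * (Fintype.card Ω : ℝ) ≤ A.card) →
  (4 * ∑ j, cnt (fun ω => h < |g j ω|) ≤ k * Fintype.card Ω) →
  ∃ S ⊆ A, (Fintype.card Ω : ℝ) ≤ 2 * ((m : ℝ) * (2 * Q + 1) + 1) ^ k * S.card ∧
    ∀ ω ∈ S, ∀ ω' ∈ S, ∀ j, |g j ω - g j ω'| ≤ 2 * h

/-- one round of the partial colouring -/
def T_P6 : Prop := ∀ θ : ℝ, 0 < θ → θ ≤ 1 → ∃ n₀ : ℕ, ∀ n : ℕ, n₀ ≤ n →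
  ∀ (ι : Type) [Fintype ι] [DecidableEq ι], Fintype.card ι ≤ n ^ 4 →
  ∀ L : Fin n → Fin n → Finset ι, (∀ v i, (L v i).card ≤ 2 * n) →
  ∃ ψ : ι → ℝ, (∀ c, ψ c = 0 ∨ ψ c = 1 ∨ ψ c = -1) ∧
    cnt (fun c => ψ c = 0) ≤ Real.sqrt (2 * (n : ℝ) ^ (1 - θ ^ 2 / 5) * Fintype.card ι) ∧
    (∀ v, ∑ i, (∑ c ∈ L v i, ψ c) ^ 2 ≤ 18 * θ * n ^ 2 * Real.log n) ∧
    ∀ v i, |∑ c ∈ L v i, ψ c| ≤ 4 * Lam n

/-- low discrepancy in quadratic mean for all vertices -/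
def T_LQ : Prop := ∀ η : ℝ, 0 < η → ∃ κ : ℝ, 0 < κ ∧ ∃ Y : ℝ, 1 ≤ Y ∧ κ * Y ^ 4 ≤ η ∧
  ∃ n₀ : ℕ, ∀ n : ℕ, n₀ ≤ n → ∀ (ι : Type) [Fintype ι] [DecidableEq ι],
  Fintype.card ι ≤ n ^ 4 → ∀ L : Fin n → Fin n → Finset ι, (∀ v i, (L v i).card ≤ 2 * n) →
  ∃ χ : ι → Bool, (∀ v, ∑ i, (∑ c ∈ L v i, sg (χ c)) ^ 2 ≤ κ ^ 3 * n ^ 2 * Real.log n) ∧
    ∀ v i, |∑ c ∈ L v i, sg (χ c)| ≤ Y * Lam n

/-- halving of the vertices and of the colours -/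
def Avail (n d l : ℕ) (a b g : ℝ) : Prop :=
  ∀ G : SimpleGraph (Fin n), (∀ v, dg G v ≤ d) →
  ∀ L : Fin n → Fin n → Finset ℕ, (∀ v w, (L v w).card ≤ l) →
  ∃ (σ : Fin n → Bool) (χ : ℕ → Bool),
    (∀ v, |∑ w ∈ nb G v, sg (σ w)| ≤ a) ∧
    (∀ v, cnt (fun w => a < |∑ c ∈ L v w, sg (χ c)|) ≤ g) ∧
    ∀ v w, |∑ c ∈ L v w, sg (χ c)| ≤ b

def T_AvLQ : Prop := ∀ η : ℝ, 0 < η → ∃ κ : ℝ, 0 < κ ∧ ∃ Y : ℝ, 1 ≤ Y ∧ κ * Y ^ 4 ≤ η ∧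
  ∃ n₀ : ℕ, ∀ n : ℕ, n₀ ≤ n → Avail n n (2 * n) (κ * Lam n) (Y * Lam n) (κ * n)

def T_AvR : Prop := ∃ C : ℝ, 1 ≤ C ∧ ∀ n : ℕ, 2 ≤ n → ∀ d l : ℕ, d ≤ l →
  Avail n d l (C * Real.sqrt (l * Real.log n)) (C * Real.sqrt (l * Real.log n)) 0

/-- random subsets -/
def T_R : Prop := ∃ C : ℝ, 1 ≤ C ∧ ∀ n : ℕ, 2 ≤ n → ∀ p : ℝ, 0 ≤ p → p ≤ 1 →
  ∀ L : Fin n → Fin n → Finset ℕ, ∃ R : Finset ℕ, ∀ v w,
    |((L v w ∩ R).card : ℝ) - p * (L v w).card| ≤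
      C * Real.sqrt (p * (L v w).card * Real.log n) + C * Real.log n

/-- König -/
def T_K1 : Prop := ∀ (V : Type) [Fintype V] [DecidableEq V] (E : Finset (V × V)) (D : ℕ),
  (∀ u, (E.filter (fun e => e.1 = u)).card ≤ D) → (∀ u, (E.filter (fun e => e.2 = u)).card ≤ D) →
  ∃ c : V × V → ℕ, (∀ e ∈ E, c e < D) ∧
    ∀ e ∈ E, ∀ e' ∈ E, e ≠ e' → (e.1 = e'.1 ∨ e.2 = e'.2) → c e ≠ c e'

open Classical in
/-- Galvin's theorem with some shorter lists -/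
def T_K2 : Prop := ∀ (V : Type) [Fintype V] [DecidableEq V] (E : Finset (V × V)) (D y φ : ℕ)
  (c : V × V → ℕ) (h : ℕ → ℕ) (F : V × V → Prop) (L : V × V → Finset ℕ),
  (∀ e ∈ E, c e < D) →
  (∀ e ∈ E, ∀ e' ∈ E, e ≠ e' → (e.1 = e'.1 ∨ e.2 = e'.2) → c e ≠ c e') →
  (∀ i < D, y ≤ ((range D).filter (fun j => h j = h i)).card) →
  (∀ u i, (E.filter (fun e => e.1 = u ∧ F e ∧ h (c e) = i)).card ≤ φ) →
  (∀ u i, (E.filter (fun e => e.2 = u ∧ F e ∧ h (c e) = i)).card ≤ φ) →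
  (∀ e ∈ E, ¬ F e → D + 4 * φ ≤ (L e).card) →
  (∀ e ∈ E, F e → D + 4 * φ ≤ (L e).card + y) →
  ∃ col : V × V → ℕ, (∀ e ∈ E, col e ∈ L e) ∧
    ∀ e ∈ E, ∀ e' ∈ E, e ≠ e' → (e.1 = e'.1 ∨ e.2 = e'.2) → col e ≠ col e'

/-- random blocks -/
def T_K3 : Prop := ∃ C : ℝ, 1 ≤ C ∧ ∀ n : ℕ, 2 ≤ n → ∀ D : ℕ, 1 ≤ D → D ≤ n → ∀ f y φ : ℝ,
  0 ≤ y → y ≤ D → C * (f * (y + Real.log n) / D + Real.log n) ≤ φ →
  ∀ A : Fin n ⊕ Fin n → Finset ℕ, (∀ w, A w ⊆ range D) → (∀ w, ((A w).card : ℝ) ≤ f) →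
  ∃ h : ℕ → ℕ, (∀ i < D, y ≤ ((range D).filter (fun j => h j = h i)).card) ∧
    ∀ w i, (((A w).filter (fun j => h j = i)).card : ℝ) ≤ φ

/-- bipartite graphs: lists a bit longer than the maximum degree, some shorter -/
def T_RGX : Prop := ∃ C : ℝ, 1 ≤ C ∧ ∀ n : ℕ, 2 ≤ n → ∀ D : ℕ, 1 ≤ D → D ≤ n →
  ∀ (G : SimpleGraph (Fin n)) (σ : Fin n → Bool), (∀ a b, G.Adj a b → σ a ≠ σ b) →
  (∀ v, dg G v ≤ D) → ∀ L : Fin n → Fin n → Finset ℕ, (∀ a b, L a b = L b a) →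
  ∀ F : Fin n → Fin n → Prop, (∀ a b, F a b → F b a) → ∀ f y φ : ℝ, 0 ≤ y → y ≤ D →
  (∀ v, cnt (fun w => G.Adj v w ∧ F v w) ≤ f) →
  C * (f * (y + Real.log n) / D + Real.log n) ≤ φ →
  (∀ a b, G.Adj a b → ¬ F a b → (D : ℝ) + φ ≤ (L a b).card) →
  (∀ a b, G.Adj a b → F a b → (D : ℝ) + φ - y ≤ (L a b).card) → LC G L

/-- greedy colouring -/
def T_GR : Prop := ∀ (V : Type) [Fintype V] [DecidableEq V] (G : SimpleGraph V) (d : ℕ),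
  (∀ v, dg G v ≤ d) → ∀ L : V → V → Finset ℕ, (∀ a b, L a b = L b a) →
  (∀ a b, G.Adj a b → 2 * d ≤ (L a b).card) → LC G L

/-- splitting edges and colours -/
def T_LR : Prop := ∀ (V : Type) [Fintype V] [DecidableEq V] (G G₁ G₂ : SimpleGraph V)
  (L : V → V → Finset ℕ) (P : ℕ → Prop) [DecidablePred P],
  (∀ a b, G.Adj a b → G₁.Adj a b ∨ G₂.Adj a b) →
  LC G₁ (fun a b => (L a b).filter P) → LC G₂ (fun a b => (L a b).filter (fun c => ¬ P c)) →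
  LC G L

/-- colourability with slack `s` and with at most `f` deficient edges at every vertex, whose
lists may be shorter by `y` -/
def Col (n d : ℕ) (s f y : ℝ) : Prop :=
  ∀ G : SimpleGraph (Fin n), (∀ v, dg G v ≤ d) →
  ∀ L : Fin n → Fin n → Finset ℕ, (∀ a b, L a b = L b a) →
  ∀ F : Fin n → Fin n → Prop, (∀ a b, F a b → F b a) →
  (∀ v, cnt (fun w => G.Adj v w ∧ F v w) ≤ f) →
  (∀ a b, G.Adj a b → ¬ F a b → (d : ℝ) + s ≤ (L a b).card) →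
  (∀ a b, G.Adj a b → F a b → (d : ℝ) + s - y ≤ (L a b).card) → LC G L

/-- one level of the recursion -/
def T_STEP : Prop := ∃ C : ℝ, 1 ≤ C ∧ ∀ n : ℕ, 2 ≤ n → ∀ d d₁ l : ℕ,
  ∀ a b g s f y s₁ f₁ y₁ φ : ℝ, 0 ≤ a → a ≤ b → 0 ≤ g → 0 ≤ f → 0 ≤ y → 0 ≤ s₁ →
  1 ≤ d₁ → d₁ ≤ n → (d : ℝ) + s + 1 ≤ l → Avail n d l a b g →
  (d : ℝ) + a ≤ 2 * d₁ → f + g ≤ f₁ → 3 / 4 * y + b ≤ y₁ → y₁ ≤ d₁ →
  C * (f₁ * (y₁ + Real.log n) / d₁ + Real.log n) ≤ φ →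
  s₁ + (2 * d₁ - d) + 2 * φ + a + C * Real.sqrt ((s + 1) * Real.log n) + C * Real.log n ≤ s →
  (s ≤ d ∨ y = 0) → Col n d₁ s₁ f₁ y₁ → Col n d s f y

/-- the simple bound -/
def T_S : Prop := ∃ K : ℝ, 1 ≤ K ∧ ∀ n : ℕ, 2 ≤ n → ∀ d : ℕ,
  Col n d (K * Real.sqrt (d * Real.log n) + K * Real.log n) 0 0

/-- asymptotic colourability -/
def Q (δ lam σ β γ : ℝ) : Prop := ∃ n₀ : ℕ, ∀ n : ℕ, n₀ ≤ n → ∀ d : ℕ, lam * n ≤ d →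
  (d : ℝ) ≤ δ * n → Col n d (σ * Lam n) (β * n) (γ * Lam n)

/-- one level, asymptotic form -/
def T_AS : Prop := ∃ C : ℝ, 1 ≤ C ∧ ∀ δ lam a₀ b₀ g₀ σ σ' β β' γ γ' : ℝ,
  0 < lam → lam ≤ δ → δ ≤ 1 → 0 < a₀ → a₀ ≤ b₀ → 0 ≤ g₀ → 0 ≤ β → 0 ≤ γ → 0 ≤ σ' →
  (∃ n₀ : ℕ, ∀ n : ℕ, n₀ ≤ n → ∀ d : ℕ, (d : ℝ) ≤ δ * n → lam * n ≤ d →
    Avail n d (2 * d) (a₀ * Lam n) (b₀ * Lam n) (g₀ * n)) →
  β + g₀ ≤ β' → 3 / 4 * γ + b₀ ≤ γ' → σ' + 3 * a₀ + C * β' * γ' / lam ≤ σ →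
  Q (51 / 100 * δ) (lam / 2) σ' β' γ' → Q δ lam σ β γ

/-- the phase with random halvings -/
def T_RP : Prop := ∃ C : ℝ, 1 ≤ C ∧ ∀ (m : ℕ) (δ lam σ β γ : ℝ), 0 < lam → lam ≤ δ → δ ≤ 1 →
  0 ≤ β → 0 ≤ γ →
  C * Real.sqrt δ + C * (β / lam) * (γ + 1) * 2 ^ m + (3 / 4) ^ m * γ ≤ σ → Q δ lam σ β γ

/-- **Theorem D** -/
def T_D : Prop := ∀ ε : ℝ, 0 < ε → ∃ n₀ : ℕ, ∀ n : ℕ, n₀ ≤ n → ∀ d : ℕ,
  ∀ G : SimpleGraph (Fin n), (∀ v, dg G v ≤ d) →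
  ∀ L : Fin n → Fin n → Finset ℕ, (∀ a b, L a b = L b a) →
  (∀ a b, G.Adj a b → (d : ℝ) + ε * Lam n ≤ (L a b).card) → LC G L

/-- **Theorem A** -/
def T_A : Prop := ∀ ε : ℝ, 0 < ε → ∃ n₀ : ℕ, ∀ n : ℕ, n₀ ≤ n →
  ∀ (G : SimpleGraph (Fin n)) (D : ℕ), (∀ v, dg G v ≤ D) → ((n : ℝ) ^ (2 / 3 : ℝ) ≤ D) →
  (∀ v, cnt (fun w => G.Adj v w ∧ (D : ℝ) - ε * Lam n < dg G w) ≤ ε / 8 * Lam n) →
  ∀ L : Fin n → Fin n → Finset ℕ, (∀ a b, L a b = L b a) →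
  (∀ a b, G.Adj a b → D ≤ (L a b).card) → LC G L

open Classical in
/-- neighbourhoods outside a set are independent and uniform -/
def T_G0 : Prop := ∀ (n : ℕ) (A : Finset (Fin n)) (P : Fin n → Finset (Fin n) → Prop),
  cnt (fun G : SimpleGraph (Fin n) => ∀ v ∈ A, P v (nb G v \ A)) *
      ((2 : ℝ) ^ (Aᶜ).card) ^ A.card =
    Fintype.card (SimpleGraph (Fin n)) *
      ∏ v ∈ A, (((Aᶜ).powerset.filter (fun s => P v s)).card : ℝ)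

/-- binomial tail from below -/
def T_G1a : Prop := ∃ m₀ : ℕ, ∀ m : ℕ, m₀ ≤ m →
  (m : ℝ) ^ (-(9 / 10) : ℝ) * 2 ^ m ≤
    cnt (fun s : Finset (Fin m) => (m : ℝ) / 2 + 61 / 100 * Lam m ≤ s.card)

/-- almost all graphs have a vertex of large degree -/
def T_G1 : Prop := ∀ δ : ℝ, 0 < δ → ∃ n₀ : ℕ, ∀ n : ℕ, n₀ ≤ n →
  cnt (fun G : SimpleGraph (Fin n) => ∀ v, (dg G v : ℝ) < n / 2 + 6 / 10 * Lam n) ≤
    δ * Fintype.card (SimpleGraph (Fin n))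

/-- almost all graphs have few vertices of very large degree -/
def T_G2 : Prop := ∀ δ : ℝ, 0 < δ → ∃ n₀ : ℕ, ∀ n : ℕ, n₀ ≤ n →
  cnt (fun G : SimpleGraph (Fin n) =>
    (n : ℝ) ^ (45 / 100 : ℝ) < cnt (fun v => (n : ℝ) / 2 + 55 / 100 * Lam n < dg G v)) ≤
    δ * Fintype.card (SimpleGraph (Fin n))

/-- **almost all graphs** -/
def T_AA : Prop := ∀ δ : ℝ, 0 < δ → ∃ n₀ : ℕ, ∀ n : ℕ, n₀ ≤ n →
  cnt (fun G : SimpleGraph (Fin n) => ¬ ∀ D : ℕ, (∀ v, dg G v ≤ D) →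
    ∀ L : Fin n → Fin n → Finset ℕ, (∀ a b, L a b = L b a) →
    (∀ a b, G.Adj a b → D ≤ (L a b).card) → LC G L) ≤
    δ * Fintype.card (SimpleGraph (Fin n))

end Pool.Agent.H162R2.AG
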