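import Mathlib
import Pool.Agent.H162R2.AG.Stmts

/-!
# Theorem A from Theorem D (helper640)
-/

set_option autoImplicit false

namespace Pool.Agent.H162R2.AG

open Finset Pool.Agent.H162R2.Sparse

/-- the graph of the edges meeting `T` -/
def A_meetX {V : Type} (G : SimpleGraph V) (T : Finset V) : SimpleGraph V where
  Adj a b := G.Adj a b ∧ (a ∈ T ∨ b ∈ T)
  symm := ⟨fun _ _ h => ⟨h.1.symm, h.2.symm⟩⟩
  loopless := ⟨fun _ h => h.1.ne rfl⟩

theorem A_meetX_adj {V : Type} (G : SimpleGraph V) (T : Finset V) (a b : V) :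
    (A_meetX G T).Adj a b ↔ G.Adj a b ∧ (a ∈ T ∨ b ∈ T) := Iff.rfl

theorem A_dens {V : Type} [Fintype V] [DecidableEq V] (G : SimpleGraph V) (T : Finset V) (t : ℝ)
    (h : ∀ v, (((nb G v).filter (fun w => w ∈ T)).card : ℝ) ≤ t) :
    Dens (A_meetX G T) (2 * t) := by
  classical
  intro X
  have h1 : ((pr (A_meetX G T)).filter (fun e => e.1 ∈ X ∧ e.2 ∈ X)).card ≤
      ∑ v ∈ X, 2 * ((nb G v).filter (fun w => w ∈ T)).card := by
    have h2 : (pr (A_meetX G T)).filter (fun e => e.1 ∈ X ∧ e.2 ∈ X) ⊆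
        (X.sigma fun v => (nb G v).filter (fun w => w ∈ T)).image (fun p => (p.1, p.2)) ∪
        (X.sigma fun v => (nb G v).filter (fun w => w ∈ T)).image (fun p => (p.2, p.1)) := by
      rintro ⟨a, b⟩ he
      rw [mem_filter, mem_pr, A_meetX_adj] at he
      obtain ⟨⟨hab, hT⟩, ha, hb⟩ := he
      rw [mem_union, mem_image, mem_image]
      rcases hT with hT | hT
      · right
        exact ⟨⟨b, a⟩, by
          rw [mem_sigma]
          exact ⟨hb, mem_filter.2 ⟨(mem_nb G b a).2 hab.symm, hT⟩⟩, rfl⟩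
      · left
        exact ⟨⟨a, b⟩, by
          rw [mem_sigma]
          exact ⟨ha, mem_filter.2 ⟨(mem_nb G a b).2 hab, hT⟩⟩, rfl⟩
    refine (card_le_card h2).trans ((card_union_le _ _).trans ?_)
    have h3 : ∀ g : (_ : V) × V → V × V,
        ((X.sigma fun v => (nb G v).filter (fun w => w ∈ T)).image g).card ≤
          ∑ v ∈ X, ((nb G v).filter (fun w => w ∈ T)).card := by
      intro g
      refine card_image_le.trans ?_
      rw [card_sigma]
    rw [← mul_sum]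
    have := h3 (fun p => (p.1, p.2))
    have := h3 (fun p => (p.2, p.1))
    omega
  have h4 : ((∑ v ∈ X, 2 * ((nb G v).filter (fun w => w ∈ T)).card : ℕ) : ℝ) ≤
      2 * t * X.card := by
    push_cast
    calc ∑ v ∈ X, 2 * (((nb G v).filter (fun w => w ∈ T)).card : ℝ) ≤ ∑ v ∈ X, 2 * t :=
          sum_le_sum fun v _ => by linarith [h v]
      _ = 2 * t * X.card := by rw [sum_const, nsmul_eq_mul]; ring
  exact le_trans (by exact_mod_cast h1) h4

/-- combining a colouring of the edges meeting `T` with a colouring of the other edges -/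
theorem A_comb {V : Type} [Fintype V] [DecidableEq V] (G : SimpleGraph V) (T : Finset V)
    (L : V → V → Finset ℕ) (f₁ : V → V → ℕ)
    (h1 : ∀ a b, (A_meetX G T).Adj a b → f₁ a b = f₁ b a)
    (h2 : ∀ a b, (A_meetX G T).Adj a b → f₁ a b ∈ L a b)
    (h3 : ∀ a b c, (A_meetX G T).Adj a b → (A_meetX G T).Adj a c → b ≠ c → f₁ a b ≠ f₁ a c)
    (IH : LC (cutX G T) (fun a b => L a b \ (((nb G a).filter (fun w => w ∈ T)).image (f₁ a) ∪
      ((nb G b).filter (fun w => w ∈ T)).image (f₁ b)))) : LC G L := by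
  classical
  obtain ⟨f₂, k1, k2, k3⟩ := IH
  have hmix : ∀ a b c, G.Adj a b → G.Adj a c → (a ∈ T ∨ b ∈ T) → ¬ (a ∈ T ∨ c ∈ T) →
      f₁ a b ≠ f₂ a c := by
    intro a b c hab hac hT hT'
    rw [not_or] at hT'
    have hb : b ∈ T := hT.resolve_left hT'.1
    have hk := k2 a c ((cutX_adj G T a c).2 ⟨hac, hT'.1, hT'.2⟩)
    rw [mem_sdiff, mem_union, not_or] at hk
    intro h
    apply hk.2.1
    rw [← h]
    exact mem_image_of_mem _ (mem_filter.2 ⟨(mem_nb G a b).2 hab, hb⟩)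
  refine ⟨fun a b => if a ∈ T ∨ b ∈ T then f₁ a b else f₂ a b, ?_, ?_, ?_⟩
  · intro a b hab
    simp only
    by_cases h : a ∈ T ∨ b ∈ T
    · rw [if_pos h, if_pos h.symm]
      exact h1 a b ⟨hab, h⟩
    · rw [if_neg h, if_neg (fun h' => h h'.symm)]
      rw [not_or] at h
      exact k1 a b ((cutX_adj G T a b).2 ⟨hab, h.1, h.2⟩)
  · intro a b hab
    simp only
    by_cases h : a ∈ T ∨ b ∈ T
    · rw [if_pos h]
      exact h2 a b ⟨hab, h⟩
    · rw [if_neg h]
      rw [not_or] at h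
      exact (mem_sdiff.1 (k2 a b ((cutX_adj G T a b).2 ⟨hab, h.1, h.2⟩))).1
  · intro a b c hab hac hbc
    simp only
    by_cases h : a ∈ T ∨ b ∈ T
    · rw [if_pos h]
      by_cases h' : a ∈ T ∨ c ∈ T
      · rw [if_pos h']
        exact h3 a b c ⟨hab, h⟩ ⟨hac, h'⟩ hbc
      · rw [if_neg h']
        exact hmix a b c hab hac h h'
    · rw [if_neg h]
      by_cases h' : a ∈ T ∨ c ∈ T
      · rw [if_pos h']
        exact (hmix a c b hac hab h' h).symm
      · rw [if_neg h']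
        rw [not_or] at h h'
        exact k3 a b c ((cutX_adj G T a b).2 ⟨hab, h.1, h.2⟩)
          ((cutX_adj G T a c).2 ⟨hac, h'.1, h'.2⟩) hbc

theorem A_Lam_nonneg (n : ℕ) : 0 ≤ Lam n := Real.sqrt_nonneg _

/-- `√(n ln n)` is small compared with `n^{11/18}` -/
theorem A_small (K : ℝ) (hK : 0 < K) : ∃ n₀ : ℕ, ∀ n : ℕ, n₀ ≤ n →
    1 ≤ n ∧ K * Lam n ≤ (n : ℝ) ^ (11 / 18 : ℝ) := by
  have h1 := isLittleO_log_rpow_atTop (show (0 : ℝ) < 2 / 9 by norm_num)
  have h2 := h1.bound (c := 1 / K ^ 2) (by positivity)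
  have h3 := tendsto_natCast_atTop_atTop (R := ℝ).eventually h2
  obtain ⟨n₀, hn₀⟩ := Filter.eventually_atTop.1 h3
  refine ⟨max n₀ 1, fun n hn => ?_⟩
  have hn1 : 1 ≤ n := le_trans (le_max_right _ _) hn
  have hnr : (1 : ℝ) ≤ n := by exact_mod_cast hn1
  refine ⟨hn1, ?_⟩
  have h4 := hn₀ n (le_trans (le_max_left _ _) hn)
  rw [Real.norm_eq_abs, Real.norm_eq_abs, abs_of_nonneg (Real.log_nonneg hnr),
    abs_of_nonneg (by positivity)] at h4
  unfold Lam
  have h5 : K * Real.sqrt (n * Real.log n) = Real.sqrt (K ^ 2 * (n * Real.log n)) := by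
    rw [Real.sqrt_mul (x := K ^ 2) (by positivity), Real.sqrt_sq hK.le]
  rw [h5]
  apply Real.sqrt_le_iff.2
  refine ⟨by positivity, ?_⟩
  have h6 : ((n : ℝ) ^ (11 / 18 : ℝ)) ^ 2 = n * (n : ℝ) ^ (2 / 9 : ℝ) := by
    rw [← Real.rpow_natCast, ← Real.rpow_mul (by positivity)]
    nth_rewrite 2 [← Real.rpow_one (n : ℝ)]
    rw [← Real.rpow_add (by linarith)]
    norm_num
  rw [h6]
  have h7 : K ^ 2 * (n * Real.log n) ≤ K ^ 2 * (n * (1 / K ^ 2 * (n : ℝ) ^ (2 / 9 : ℝ))) := by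
    gcongr
  refine h7.trans (le_of_eq ?_)
  field_simp

theorem A_log {x : ℝ} (hx : 1 ≤ x) : 1 + Real.log x ≤ 13 * x ^ (1 / 12 : ℝ) := by
  have h0 : 0 < x := by linarith
  have h1 : Real.log x = 12 * Real.log (x ^ (1 / 12 : ℝ)) := by
    rw [Real.log_rpow h0]; ring
  have h2 : (1 : ℝ) ≤ x ^ (1 / 12 : ℝ) := Real.one_le_rpow hx (by norm_num)
  have h3 := Real.log_le_sub_one_of_pos (show 0 < x ^ (1 / 12 : ℝ) by positivity)
  rw [h1]
  linarith

theorem A_of (h : T_D) : T_A := by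
  classical
  intro ε hε
  obtain ⟨n₁, hn₁⟩ := h (ε / 2) (by linarith)
  obtain ⟨n₂, hn₂⟩ := A_small (13 * 34 * (ε / 4) + ε) (by positivity)
  refine ⟨max n₁ n₂, fun n hn G D hdeg hD hcnt L hsym hL => ?_⟩
  obtain ⟨hn1, hsm⟩ := hn₂ n (le_trans (le_max_right _ _) hn)
  have hLam := A_Lam_nonneg n
  have hnr : (1 : ℝ) ≤ n := by exact_mod_cast hn1
  -- `D` is large
  have hD1 : (1 : ℝ) ≤ D := le_trans (Real.one_le_rpow hnr (by norm_num)) hD
  have hD11 : (n : ℝ) ^ (11 / 18 : ℝ) ≤ (D : ℝ) ^ (11 / 12 : ℝ) := by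
    have h1 : (n : ℝ) ^ (11 / 18 : ℝ) = ((n : ℝ) ^ (2 / 3 : ℝ)) ^ (11 / 12 : ℝ) := by
      rw [← Real.rpow_mul (by positivity)]
      norm_num
    rw [h1]
    exact Real.rpow_le_rpow (by positivity) hD (by norm_num)
  have hD12 : (D : ℝ) ^ (11 / 12 : ℝ) * (D : ℝ) ^ (1 / 12 : ℝ) = D := by
    rw [← Real.rpow_add (by linarith)]
    norm_num
  have hDa : 34 * (2 * (ε / 8 * Lam n)) * (1 + Real.log D) ≤ D := by
    have h1 := A_log hD1
    have h2 : (1 : ℝ) ≤ (D : ℝ) ^ (1 / 12 : ℝ) := Real.one_le_rpow hD1 (by norm_num)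
    have h3 : 13 * 34 * (ε / 4) * Lam n ≤ (D : ℝ) ^ (11 / 12 : ℝ) := by
      have : 0 ≤ ε * Lam n := by positivity
      nlinarith
    calc 34 * (2 * (ε / 8 * Lam n)) * (1 + Real.log D)
        ≤ 34 * (2 * (ε / 8 * Lam n)) * (13 * (D : ℝ) ^ (1 / 12 : ℝ)) := by gcongr
      _ = (13 * 34 * (ε / 4) * Lam n) * (D : ℝ) ^ (1 / 12 : ℝ) := by ring
      _ ≤ (D : ℝ) ^ (11 / 12 : ℝ) * (D : ℝ) ^ (1 / 12 : ℝ) := by gcongr
      _ = D := hD12
  have hDe : ε * Lam n ≤ D := by
    have h2 : (1 : ℝ) ≤ (D : ℝ) ^ (1 / 12 : ℝ) := Real.one_le_rpow hD1 (by norm_num)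
    have h3 : ε * Lam n ≤ (D : ℝ) ^ (11 / 12 : ℝ) := by
      have : 0 ≤ 13 * 34 * (ε / 4) * Lam n := by positivity
      nlinarith
    have h4 : (D : ℝ) ^ (11 / 12 : ℝ) ≤ D := by
      nth_rewrite 2 [← Real.rpow_one (D : ℝ)]
      exact Real.rpow_le_rpow_of_exponent_le hD1 (by norm_num)
    linarith
  -- the set `T`
  set T : Finset (Fin n) := univ.filter (fun w => (D : ℝ) - ε * Lam n < dg G w) with hT
  have hNT : ∀ v, (((nb G v).filter (fun w => w ∈ T)).card : ℝ) ≤ ε / 8 * Lam n := by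
    intro v
    refine le_trans (le_of_eq ?_) (hcnt v)
    rw [cnt_eq_card]
    congr 2
    ext w
    rw [mem_filter, mem_nb, hT, mem_filter, mem_filter]
    simp
  obtain ⟨f₁, h1, h2, h3⟩ := main_edge D (2 * (ε / 8 * Lam n)) hDa L hsym
    (pr (A_meetX G T)).card (A_meetX G T) rfl
    (fun v => (dg_mono (G := G) (H := A_meetX G T)
      (fun a b hab => ((A_meetX_adj G T a b).1 hab).1) v).trans (hdeg v)) (A_dens G T _ hNT)
    (fun u v huv => hL u v huv.1)
  refine A_comb G T L f₁ h1 h2 h3 ?_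
  refine hn₁ n (le_trans (le_max_left _ _) hn) ⌊(D : ℝ) - ε * Lam n⌋₊ (cutX G T) ?_ _ ?_ ?_
  · intro v
    by_cases hv : v ∈ T
    · have : dg (cutX G T) v = 0 := by
        unfold dg
        rw [card_eq_zero, eq_empty_iff_forall_notMem]
        intro w hw
        rw [mem_nb, cutX_adj] at hw
        exact hw.2.1 hv
      rw [this]
      exact Nat.zero_le _
    · apply Nat.le_floor
      rw [hT, mem_filter] at hv
      have h4 : (dg G v : ℝ) ≤ D - ε * Lam n := by
        by_contra hcon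
        exact hv ⟨mem_univ _, not_le.1 hcon⟩
      have h5 : (dg (cutX G T) v : ℝ) ≤ dg G v := by
        exact_mod_cast dg_mono (fun a b hab => ((cutX_adj G T a b).1 hab).1) v
      linarith
  · intro a b
    rw [hsym a b, union_comm]
  · intro a b hab
    have hG := ((cutX_adj G T a b).1 hab).1
    have h4 : (D : ℝ) ≤ (L a b).card := by exact_mod_cast hL a b hG
    have h5 : (L a b).card ≤ (L a b \ (((nb G a).filter (fun w => w ∈ T)).image (f₁ a) ∪
        ((nb G b).filter (fun w => w ∈ T)).image (f₁ b))).card +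
        (((nb G a).filter (fun w => w ∈ T)).card + ((nb G b).filter (fun w => w ∈ T)).card) := by
      have e1 := le_card_sdiff (((nb G a).filter (fun w => w ∈ T)).image (f₁ a) ∪
        ((nb G b).filter (fun w => w ∈ T)).image (f₁ b)) (L a b)
      have e2 := card_union_le (((nb G a).filter (fun w => w ∈ T)).image (f₁ a))
        (((nb G b).filter (fun w => w ∈ T)).image (f₁ b))
      have e3 := card_image_le (s := (nb G a).filter (fun w => w ∈ T)) (f := f₁ a)
      have e4 := card_image_le (s := (nb G b).filter (fun w => w ∈ T)) (f := f₁ b)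
      omega
    have h6 : ((L a b).card : ℝ) ≤ ((L a b \ (((nb G a).filter (fun w => w ∈ T)).image (f₁ a) ∪
        ((nb G b).filter (fun w => w ∈ T)).image (f₁ b))).card : ℝ) +
        ((((nb G a).filter (fun w => w ∈ T)).card : ℝ) +
          (((nb G b).filter (fun w => w ∈ T)).card : ℝ)) := by exact_mod_cast h5
    have h7 : (⌊(D : ℝ) - ε * Lam n⌋₊ : ℝ) ≤ D - ε * Lam n := Nat.floor_le (by linarith)
    have h8 := hNT a
    have h9 := hNT b
    have h10 : 0 ≤ ε * Lam n := by positivity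
    linarith

end Pool.Agent.H162R2.AG
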