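import Mathlib
import Pool.Agent.H162R2.AG.Stmts

/-!
# Task AA: almost all graphs (helper497)
-/

set_option autoImplicit false

namespace Pool.Agent.H162R2.AG

open Finset Pool.Agent.H162R2.Sparse

theorem AA_growth : ∃ n₀ : ℕ, ∀ n : ℕ, n₀ ≤ n →
    (n : ℝ) ^ (45 / 100 : ℝ) ≤ (1 / 20) / 8 * Lam n ∧ (n : ℝ) ^ (2 / 3 : ℝ) ≤ n / 2 := by
  refine ⟨160 ^ 20, fun n hn => ?_⟩
  have hn' : (160 : ℝ) ^ 20 ≤ n := by exact_mod_cast hn
  have hn0 : (0 : ℝ) < n := lt_of_lt_of_le (by positivity) hn'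
  have hn1 : (1 : ℝ) ≤ n := le_trans (one_le_pow₀ (by norm_num)) hn'
  have h160 : (160 : ℝ) ≤ (n : ℝ) ^ (5 / 100 : ℝ) := by
    have h1 : ((160 : ℝ) ^ 20) ^ (5 / 100 : ℝ) ≤ (n : ℝ) ^ (5 / 100 : ℝ) :=
      Real.rpow_le_rpow (by positivity) hn' (by norm_num)
    have h2 : ((160 : ℝ) ^ 20) ^ (5 / 100 : ℝ) = 160 := by
      rw [← Real.rpow_natCast, ← Real.rpow_mul (by norm_num)]
      norm_num
    rwa [h2] at h1
  constructor
  · have h3 : (n : ℝ) ^ (1 / 2 : ℝ) ≤ Lam n := by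
      unfold Lam
      rw [← Real.sqrt_eq_rpow]
      apply Real.sqrt_le_sqrt
      have h4 : 1 ≤ Real.log n := by
        rw [Real.le_log_iff_exp_le hn0]
        have := Real.exp_one_lt_d9
        have h5 : (3 : ℝ) ≤ 160 ^ 20 := by norm_num
        linarith
      nlinarith
    have h5 : (n : ℝ) ^ (1 / 2 : ℝ) = (n : ℝ) ^ (45 / 100 : ℝ) * (n : ℝ) ^ (5 / 100 : ℝ) := by
      rw [← Real.rpow_add hn0]
      norm_num
    have h6 : 0 ≤ (n : ℝ) ^ (45 / 100 : ℝ) := Real.rpow_nonneg hn0.le _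
    rw [h5] at h3
    nlinarith
  · have h7 : (n : ℝ) = (n : ℝ) ^ (2 / 3 : ℝ) * (n : ℝ) ^ (1 / 3 : ℝ) := by
      rw [← Real.rpow_add hn0]
      norm_num
    have h8 : (n : ℝ) ^ (5 / 100 : ℝ) ≤ (n : ℝ) ^ (1 / 3 : ℝ) :=
      Real.rpow_le_rpow_of_exponent_le hn1 (by norm_num)
    have h9 : 0 ≤ (n : ℝ) ^ (2 / 3 : ℝ) := Real.rpow_nonneg hn0.le _
    have h10 : (2 : ℝ) ≤ (n : ℝ) ^ (1 / 3 : ℝ) := by linarith
    nlinarith

theorem AA_of (hA : T_A) (h1 : T_G1) (h2 : T_G2) : T_AA := by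
  classical
  intro δ hδ
  obtain ⟨nA, hA⟩ := hA (1 / 20) (by norm_num)
  obtain ⟨n1, h1⟩ := h1 (δ / 2) (by positivity)
  obtain ⟨n2, h2⟩ := h2 (δ / 2) (by positivity)
  obtain ⟨n3, h3⟩ := AA_growth
  refine ⟨max (max nA n1) (max n2 n3), fun n hn => ?_⟩
  have hnA : nA ≤ n := le_trans (le_trans (le_max_left _ _) (le_max_left _ _)) hn
  have hn1 : n1 ≤ n := le_trans (le_trans (le_max_right _ _) (le_max_left _ _)) hn
  have hn2 : n2 ≤ n := le_trans (le_trans (le_max_left _ _) (le_max_right _ _)) hn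
  have hn3 : n3 ≤ n := le_trans (le_trans (le_max_right _ _) (le_max_right _ _)) hn
  obtain ⟨g1, g2⟩ := h3 n hn3
  have b1 := h1 n hn1
  have b2 := h2 n hn2
  have hL : 0 ≤ Lam n := Real.sqrt_nonneg _
  refine le_trans (cnt_mono (Q := fun G : SimpleGraph (Fin n) =>
    (∀ v, (dg G v : ℝ) < n / 2 + 6 / 10 * Lam n) ∨
    ((n : ℝ) ^ (45 / 100 : ℝ) < cnt (fun v => (n : ℝ) / 2 + 55 / 100 * Lam n < dg G v))) ?_)
    (le_trans (cnt_or_le _ _) (by linarith))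
  intro G hG
  by_contra hcon
  rw [not_or] at hcon
  obtain ⟨c1, c2⟩ := hcon
  apply hG
  intro D hD L hLs hLc
  push Not at c1 c2
  obtain ⟨v₀, hv₀⟩ := c1
  obtain ⟨v₁, -, hv₁⟩ := Finset.exists_max_image Finset.univ (fun v => dg G v)
    ⟨v₀, Finset.mem_univ _⟩
  have hmax : ∀ v, dg G v ≤ dg G v₁ := fun v => hv₁ v (Finset.mem_univ v)
  have hge : (n : ℝ) / 2 + 6 / 10 * Lam n ≤ dg G v₁ :=
    le_trans hv₀ (by exact_mod_cast hmax v₀)
  refine hA n hnA G (dg G v₁) hmax (by linarith) ?_ L hLs fun a b hab =>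
    le_trans (hD v₁) (hLc a b hab)
  intro v
  refine le_trans (cnt_mono (Q := fun w => (n : ℝ) / 2 + 55 / 100 * Lam n < dg G w) ?_)
    (le_trans c2 g1)
  rintro w ⟨-, hw⟩
  linarith

end Pool.Agent.H162R2.AG
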