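import Pool.Agent.H162R2.AG.Stmts
import Pool.Agent.H162R2.Sparse.PTotal

/-!
# Total colourings and (p,1)-total labellings of dense graphs: statements

`LP p G L M`: edges coloured from `L`, vertices from `M`, proper, the colour of a vertex and of
an edge at it differ by at least `p` (for `p = 1`: total colouring).
-/

set_option autoImplicit false

namespace Pool.Agent.H162R2.AG

open Finset Pool.Agent.H162R2.Sparse

/-- Theorem A for (p,1)-total labellings -/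
def T_AP : Prop := ∀ p : ℕ, 1 ≤ p → ∀ ε : ℝ, 0 < ε → ∃ n₀ : ℕ, ∀ n : ℕ, n₀ ≤ n →
  ∀ (G : SimpleGraph (Fin n)) (D : ℕ), (∀ v, dg G v ≤ D) → ((n : ℝ) ^ (2 / 3 : ℝ) ≤ D) →
  (∀ v, cnt (fun w => G.Adj v w ∧ (D : ℝ) - ε * Lam n < dg G w) ≤ ε / (8 * p) * Lam n) →
  ∀ (L : Fin n → Fin n → Finset ℕ) (M : Fin n → Finset ℕ), (∀ a b, L a b = L b a) →
  (∀ a b, G.Adj a b → D + 2 * p ≤ (L a b).card + 1) →
  (∀ v, D + 2 * p ≤ (M v).card + 1) → LP p G L M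

/-- almost all graphs, (p,1)-total labellings -/
def T_AAP : Prop := ∀ p : ℕ, 1 ≤ p → ∀ δ : ℝ, 0 < δ → ∃ n₀ : ℕ, ∀ n : ℕ, n₀ ≤ n →
  cnt (fun G : SimpleGraph (Fin n) => ¬ ∀ D : ℕ, (∀ v, dg G v ≤ D) →
    ∀ (L : Fin n → Fin n → Finset ℕ) (M : Fin n → Finset ℕ), (∀ a b, L a b = L b a) →
    (∀ a b, G.Adj a b → D + 2 * p ≤ (L a b).card + 1) →
    (∀ v, D + 2 * p ≤ (M v).card + 1) → LP p G L M) ≤
    δ * Fintype.card (SimpleGraph (Fin n))

end Pool.Agent.H162R2.AG
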