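import Pool.Agent.H162R2.AG.Stmts2

/-!
# The exact (p,1)-total labelling number of almost all graphs: statements
-/

set_option autoImplicit false

namespace Pool.Agent.H162R2.AG

open Finset Pool.Agent.H162R2.Sparse

/-- binomial tail from below, 0.65 -/
def T_G1b : Prop := ∃ m₀ : ℕ, ∀ m : ℕ, m₀ ≤ m →
  (m : ℝ) ^ (-(9 / 10) : ℝ) * 2 ^ m ≤
    cnt (fun s : Finset (Fin m) => (m : ℝ) / 2 + 65 / 100 * Lam m ≤ s.card)

/-- almost all graphs have a vertex of large degree, 0.64 -/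
def T_G1c : Prop := ∀ δ : ℝ, 0 < δ → ∃ n₀ : ℕ, ∀ n : ℕ, n₀ ≤ n →
  cnt (fun G : SimpleGraph (Fin n) => ∀ v, (dg G v : ℝ) < n / 2 + 64 / 100 * Lam n) ≤
    δ * Fintype.card (SimpleGraph (Fin n))

/-- in almost all graphs one vertex has a degree which exceeds the others by `g` -/
def T_G3 : Prop := ∀ g : ℕ, ∀ δ : ℝ, 0 < δ → ∃ n₀ : ℕ, ∀ n : ℕ, n₀ ≤ n →
  cnt (fun G : SimpleGraph (Fin n) => ¬ ∃ v₀, ∀ v, v ≠ v₀ → dg G v + g ≤ dg G v₀) ≤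
    δ * Fintype.card (SimpleGraph (Fin n))

/-- (p,1)-total labellings of span `D + p - 1` -/
def T_EX : Prop := ∀ p : ℕ, 1 ≤ p → ∀ ε : ℝ, 0 < ε → ∃ n₀ : ℕ, ∀ n : ℕ, n₀ ≤ n →
  ∀ (G : SimpleGraph (Fin n)) (D : ℕ) (v₀ : Fin n), dg G v₀ = D →
  (∀ v, v ≠ v₀ → dg G v + p ≤ D + 1) → ((n : ℝ) ^ (2 / 3 : ℝ) ≤ D) →
  (∀ v, cnt (fun w => G.Adj v w ∧ (D : ℝ) - ε * Lam n < dg G w) ≤ ε / (8 * p) * Lam n) →
  LP p G (fun _ _ => range (D + p)) (fun _ => range (D + p))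

/-- almost all graphs: (p,1)-total labellings of span `D + p - 1` -/
def T_AEX : Prop := ∀ p : ℕ, 1 ≤ p → ∀ δ : ℝ, 0 < δ → ∃ n₀ : ℕ, ∀ n : ℕ, n₀ ≤ n →
  cnt (fun G : SimpleGraph (Fin n) => ¬ ∃ D : ℕ, (∀ v, dg G v ≤ D) ∧ (∃ v, dg G v = D) ∧
    LP p G (fun _ _ => range (D + p)) (fun _ => range (D + p))) ≤
    δ * Fintype.card (SimpleGraph (Fin n))

end Pool.Agent.H162R2.AG
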