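import Mathlib
import Pool.Agent.H162R2.AG.Stmts3
import Pool.Agent.H162R2.AG.AAP

/-!
# Task AEX: almost all graphs, span `D + p - 1` (helper793, after AAP.lean of helper662)
-/

set_option autoImplicit false

namespace Pool.Agent.H162R2.AG

open Finset Pool.Agent.H162R2.Sparse

theorem AEX_of (hE : T_EX) (h1 : T_G1c) (h2 : T_G2) (h3 : T_G3) : T_AEX := by
  classical
  intro p hp δ hδ
  obtain ⟨nE, hE⟩ := hE p hp (1 / 20) (by norm_num)
  obtain ⟨n1, h1⟩ := h1 (δ / 3) (by positivity)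
  obtain ⟨n2, h2⟩ := h2 (δ / 3) (by positivity)
  obtain ⟨n3, h3⟩ := h3 p (δ / 3) (by positivity)
  obtain ⟨n4, h4⟩ := AAP_growth p hp
  refine ⟨max (max nE n1) (max n2 (max n3 n4)), fun n hn => ?_⟩
  have hnE : nE ≤ n := le_trans (le_trans (le_max_left _ _) (le_max_left _ _)) hn
  have hn1 : n1 ≤ n := le_trans (le_trans (le_max_right _ _) (le_max_left _ _)) hn
  have hn2 : n2 ≤ n := le_trans (le_trans (le_max_left _ _) (le_max_right _ _)) hn
  have hn3 : n3 ≤ n := le_trans (le_trans (le_trans (le_max_left _ _) (le_max_right _ _))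
    (le_max_right _ _)) hn
  have hn4 : n4 ≤ n := le_trans (le_trans (le_trans (le_max_right _ _) (le_max_right _ _))
    (le_max_right _ _)) hn
  obtain ⟨g1, g2⟩ := h4 n hn4
  have b1 := h1 n hn1
  have b2 := h2 n hn2
  have b3 := h3 n hn3
  have hL : 0 ≤ Lam n := Real.sqrt_nonneg _
  have hor : cnt (fun G : SimpleGraph (Fin n) =>
      (∀ v, (dg G v : ℝ) < n / 2 + 64 / 100 * Lam n) ∨
      ((n : ℝ) ^ (45 / 100 : ℝ) < cnt (fun v => (n : ℝ) / 2 + 55 / 100 * Lam n < dg G v)) ∨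
      (¬ ∃ v₀, ∀ v, v ≠ v₀ → dg G v + p ≤ dg G v₀)) ≤
      δ * Fintype.card (SimpleGraph (Fin n)) := by
    refine le_trans (cnt_or_le _ _) ?_
    have h5 := cnt_or_le (fun G : SimpleGraph (Fin n) =>
      (n : ℝ) ^ (45 / 100 : ℝ) < cnt (fun v => (n : ℝ) / 2 + 55 / 100 * Lam n < dg G v))
      (fun G : SimpleGraph (Fin n) => ¬ ∃ v₀, ∀ v, v ≠ v₀ → dg G v + p ≤ dg G v₀)
    linarith
  refine le_trans (cnt_mono ?_) hor
  intro G hG
  by_contra hcon
  rw [not_or, not_or] at hcon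
  obtain ⟨c1, c2, c3⟩ := hcon
  apply hG
  push Not at c1 c2 c3
  obtain ⟨v₁, hv₁⟩ := c1
  obtain ⟨v₀, hv₀⟩ := c3
  have hmax : ∀ v, dg G v ≤ dg G v₀ := by
    intro v
    by_cases hv : v = v₀
    · rw [hv]
    · have := hv₀ v hv
      omega
  have hge : (n : ℝ) / 2 + 64 / 100 * Lam n ≤ dg G v₀ :=
    le_trans hv₁ (by exact_mod_cast hmax v₁)
  refine ⟨dg G v₀, hmax, ⟨v₀, rfl⟩, ?_⟩
  refine hE n hnE G (dg G v₀) v₀ rfl (fun v hv => le_trans (hv₀ v hv) (Nat.le_succ _))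
    (by linarith) ?_
  intro v
  refine le_trans (cnt_mono (Q := fun w => (n : ℝ) / 2 + 55 / 100 * Lam n < dg G w) ?_)
    (le_trans c2 g1)
  rintro w ⟨-, hw⟩
  linarith

end Pool.Agent.H162R2.AG
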