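import Mathlib
import Pool.Agent.H162R2.AG.Stmts2

/-!
Theorem A for (p,1)-total labellings.
-/

set_option autoImplicit false

namespace Pool.Agent.H162R2.AG

open Finset Pool.Agent.H162R2.Sparse

section comb

variable {V : Type} [Fintype V] [DecidableEq V]

/-- extending the vertex labels from `T` to all vertices -/
theorem ap_labels (p : ℕ) (hp : 1 ≤ p) (G : SimpleGraph V) (T : Finset V) (t : ℕ)
    (M : V → Finset ℕ) (f0 : V → V → ℕ) (g0 : V → ℕ)
    (hT : ∀ v, ((nb G v).filter (fun w => w ∈ T)).card ≤ t)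
    (hdeg : ∀ v, v ∉ T → dg G v + t * (2 * p - 1) < (M v).card)
    (hg1 : ∀ a, g0 a ∈ M a) (hg2 : ∀ a b, a ∈ T → b ∈ T → G.Adj a b → g0 a ≠ g0 b) :
    ∀ S : Finset V, ∃ g : V → ℕ, (∀ a ∈ T, g a = g0 a) ∧ (∀ a, g a ∈ M a) ∧
      (∀ a b, a ∈ T ∪ S → b ∈ T ∪ S → G.Adj a b → g a ≠ g b) ∧
      ∀ a b, a ∉ T → a ∈ S → b ∈ T → G.Adj a b → Far p (g a) (f0 a b) := by
  intro S
  induction S using Finset.induction_on with
  | empty =>
    refine ⟨g0, fun a _ => rfl, hg1, ?_, ?_⟩
    · intro a b ha hb hab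
      rw [Finset.union_empty] at ha hb
      exact hg2 a b ha hb hab
    · intro a b _ ha
      exact absurd ha (Finset.notMem_empty a)
  | insert v S hv ih =>
    obtain ⟨g, h1, h2, h3, h4⟩ := ih
    by_cases hvT : v ∈ T
    · refine ⟨g, h1, h2, ?_, ?_⟩
      · have hTS : T ∪ insert v S = T ∪ S := by
          ext x
          simp only [Finset.mem_union, Finset.mem_insert]
          constructor
          · rintro (h | rfl | h)
            · exact Or.inl h
            · exact Or.inl hvT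
            · exact Or.inr h
          · rintro (h | h)
            · exact Or.inl h
            · exact Or.inr (Or.inr h)
        rw [hTS]
        exact h3
      · intro a b haT ha hb hab
        rcases Finset.mem_insert.1 ha with rfl | ha
        · exact absurd hvT haT
        · exact h4 a b haT ha hb hab
    · obtain ⟨m, hm1, hm2⟩ : ∃ m ∈ M v, m ∉ (nb G v).image g ∪
          ((nb G v).filter (fun w => w ∈ T)).biUnion (fun b => blk p (f0 v b)) := by
        apply Finset.exists_mem_notMem_of_card_lt_card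
        have k1 := Finset.card_union_le ((nb G v).image g)
          (((nb G v).filter (fun w => w ∈ T)).biUnion (fun b => blk p (f0 v b)))
        have k2 := Finset.card_image_le (s := nb G v) (f := g)
        have k3 := card_biUnion_blk p hp ((nb G v).filter (fun w => w ∈ T)) (f0 v)
        have k4 := Nat.mul_le_mul_right (2 * p - 1) (hT v)
        have k5 := hdeg v hvT
        unfold dg at k5
        omega
      rw [Finset.mem_union, not_or] at hm2
      have hm3 : ∀ b, G.Adj v b → g b ≠ m := by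
        intro b hb h
        apply hm2.1
        rw [← h]
        exact Finset.mem_image_of_mem _ ((mem_nb G v b).2 hb)
      have hm4 : ∀ b, b ∈ T → G.Adj v b → Far p m (f0 v b) := by
        intro b hbT hb
        apply far_of_notMem
        intro h
        apply hm2.2
        rw [Finset.mem_biUnion]
        exact ⟨b, Finset.mem_filter.2 ⟨(mem_nb G v b).2 hb, hbT⟩, h⟩
      refine ⟨fun a => if a = v then m else g a, ?_, ?_, ?_, ?_⟩
      · intro a ha
        have hav : a ≠ v := fun h => hvT (h ▸ ha)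
        simp only [if_neg hav]
        exact h1 a ha
      · intro a
        by_cases ha : a = v
        · simp only [if_pos ha]
          rw [ha]
          exact hm1
        · simp only [if_neg ha]
          exact h2 a
      · intro a b ha hb hab
        by_cases hav : a = v
        · have hbv : b ≠ v := by
            rintro rfl
            exact hab.ne hav
          simp only [if_pos hav, if_neg hbv]
          rw [hav] at hab
          exact (hm3 b hab).symm
        · by_cases hbv : b = v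
          · simp only [if_neg hav, if_pos hbv]
            rw [hbv] at hab
            exact hm3 a hab.symm
          · simp only [if_neg hav, if_neg hbv]
            apply h3 a b _ _ hab
            · rcases Finset.mem_union.1 ha with h | h
              · exact Finset.mem_union_left _ h
              · exact Finset.mem_union_right _ (Finset.mem_of_mem_insert_of_ne h hav)
            · rcases Finset.mem_union.1 hb with h | h
              · exact Finset.mem_union_left _ h
              · exact Finset.mem_union_right _ (Finset.mem_of_mem_insert_of_ne h hbv)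
      · intro a b haT ha hb hab
        by_cases hav : a = v
        · simp only [if_pos hav]
          rw [hav] at hab ⊢
          exact hm4 b hb hab
        · simp only [if_neg hav]
          exact h4 a b haT (Finset.mem_of_mem_insert_of_ne ha hav) hb hab

theorem ap_sdiff_adj (G : SimpleGraph V) (T : Finset V) (a b : V) :
    (G \ cutX G T).Adj a b ↔ G.Adj a b ∧ (a ∈ T ∨ b ∈ T) := by
  rw [SimpleGraph.sdiff_adj, cutX_adj]
  tauto

/-- the combinatorial part -/
theorem ap_comb (p : ℕ) (hp : 1 ≤ p) (G : SimpleGraph V) (T : Finset V) (t : ℕ)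
    (L : V → V → Finset ℕ) (M : V → Finset ℕ) (hsym : ∀ a b, L a b = L b a)
    (hT : ∀ v, ((nb G v).filter (fun w => w ∈ T)).card ≤ t)
    (hdeg : ∀ v, v ∉ T → dg G v + t * (2 * p - 1) < (M v).card)
    (h0 : LP p (G \ cutX G T) L M)
    (hfin : ∀ L' : V → V → Finset ℕ, (∀ a b, L' a b = L' b a) →
      (∀ a b, G.Adj a b → (L a b).card + 2 ≤ (L' a b).card + 2 * t + 4 * p) →
      LC (cutX G T) L') : LP p G L M := by
  classical
  obtain ⟨f0, g0, hf1, hf2, hf3, hg1, hg2, hg3⟩ := h0
  obtain ⟨g, k1, k2, k3, k4⟩ := ap_labels p hp G T t M f0 g0 hT hdeg hg1 (fun a b ha _ hab =>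
    hg2 a b ((ap_sdiff_adj G T a b).2 ⟨hab, Or.inl ha⟩)) Finset.univ
  let W : V → Finset ℕ := fun a =>
    blk p (g a) ∪ ((nb G a).filter (fun w => w ∈ T)).image (f0 a)
  have hW : ∀ a, (W a).card + 1 ≤ t + 2 * p := by
    intro a
    have j1 := Finset.card_union_le (blk p (g a)) (((nb G a).filter (fun w => w ∈ T)).image (f0 a))
    have j2 := Finset.card_image_le (s := (nb G a).filter (fun w => w ∈ T)) (f := f0 a)
    have j3 := hT a
    have j4 := card_blk p hp (g a)
    simp only [W]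
    omega
  obtain ⟨f1, e1, e2, e3⟩ := hfin (fun a b => L a b \ (W a ∪ W b)) (by
    intro a b
    rw [hsym a b, Finset.union_comm]) (by
    intro a b _
    have j1 := Finset.le_card_sdiff (W a ∪ W b) (L a b)
    have j2 := Finset.card_union_le (W a) (W b)
    have j3 := hW a
    have j4 := hW b
    omega)
  have hcut : ∀ a b, G.Adj a b → ¬ (a ∈ T ∨ b ∈ T) → (cutX G T).Adj a b := by
    intro a b hab h
    rw [not_or] at h
    exact (cutX_adj G T a b).2 ⟨hab, h.1, h.2⟩
  have hGT : ∀ a b, G.Adj a b → (a ∈ T ∨ b ∈ T) → (G \ cutX G T).Adj a b := fun a b hab h =>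
    (ap_sdiff_adj G T a b).2 ⟨hab, h⟩
  have hmix : ∀ a b c, G.Adj a b → G.Adj a c → (a ∈ T ∨ b ∈ T) → ¬ (a ∈ T ∨ c ∈ T) →
      f0 a b ≠ f1 a c := by
    intro a b c hab hac h h' heq
    have hbT : b ∈ T := by tauto
    have j1 := e2 a c (hcut a c hac h')
    simp only [Finset.mem_sdiff, Finset.mem_union, not_or] at j1
    have j2 := j1.2.1
    simp only [W] at j2
    apply j2
    rw [← heq]
    exact Finset.mem_union_right _ (Finset.mem_image_of_mem _
      (Finset.mem_filter.2 ⟨(mem_nb G a b).2 hab, hbT⟩))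
  refine ⟨fun a b => if a ∈ T ∨ b ∈ T then f0 a b else f1 a b, g, ?_, ?_, ?_, k2, ?_, ?_⟩
  · intro a b hab
    by_cases h : a ∈ T ∨ b ∈ T
    · simp only [if_pos h, if_pos h.symm]
      exact hf1 a b (hGT a b hab h)
    · have h' : ¬ (b ∈ T ∨ a ∈ T) := fun h' => h h'.symm
      simp only [if_neg h, if_neg h']
      exact e1 a b (hcut a b hab h)
  · intro a b hab
    by_cases h : a ∈ T ∨ b ∈ T
    · simp only [if_pos h]
      exact hf2 a b (hGT a b hab h)
    · simp only [if_neg h]
      exact (Finset.mem_sdiff.1 (e2 a b (hcut a b hab h))).1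
  · intro a b c hab hac hbc
    by_cases h : a ∈ T ∨ b ∈ T
    · by_cases h' : a ∈ T ∨ c ∈ T
      · simp only [if_pos h, if_pos h']
        exact hf3 a b c (hGT a b hab h) (hGT a c hac h') hbc
      · simp only [if_pos h, if_neg h']
        exact hmix a b c hab hac h h'
    · by_cases h' : a ∈ T ∨ c ∈ T
      · simp only [if_neg h, if_pos h']
        exact (hmix a c b hac hab h' h).symm
      · simp only [if_neg h, if_neg h']
        exact e3 a b c (hcut a b hab h) (hcut a c hac h') hbc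
  · intro a b hab
    exact k3 a b (Finset.mem_union_right _ (Finset.mem_univ _))
      (Finset.mem_union_right _ (Finset.mem_univ _)) hab
  · intro a b hab
    by_cases haT : a ∈ T
    · have h : a ∈ T ∨ b ∈ T := Or.inl haT
      simp only [if_pos h]
      rw [k1 a haT]
      exact hg3 a b (hGT a b hab h)
    · by_cases hbT : b ∈ T
      · have h : a ∈ T ∨ b ∈ T := Or.inr hbT
        simp only [if_pos h]
        exact k4 a b haT (Finset.mem_univ _) hbT hab
      · have h : ¬ (a ∈ T ∨ b ∈ T) := by tauto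
        simp only [if_neg h]
        have j1 := e2 a b (hcut a b hab h)
        simp only [Finset.mem_sdiff, Finset.mem_union, not_or] at j1
        have j2 := j1.2.1
        simp only [W] at j2
        apply Far.symm
        apply far_of_notMem
        intro hc
        exact j2 (Finset.mem_union_left _ hc)

/-- density of the graph of the edges which meet `T` -/
theorem ap_dens (G : SimpleGraph V) (T : Finset V) (τ : ℝ)
    (hT : ∀ v, (((nb G v).filter (fun w => w ∈ T)).card : ℝ) ≤ τ) :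
    Dens (G \ cutX G T) (2 * τ) := by
  classical
  intro X
  have h1 : (pr (G \ cutX G T)).filter (fun e => e.1 ∈ X ∧ e.2 ∈ X) ⊆
      (X.sigma (fun v => (nb G v).filter (fun w => w ∈ T))).image (fun e => (e.1, e.2)) ∪
      (X.sigma (fun v => (nb G v).filter (fun w => w ∈ T))).image (fun e => (e.2, e.1)) := by
    intro e he
    rw [Finset.mem_filter, mem_pr, ap_sdiff_adj] at he
    obtain ⟨⟨hadj, hor⟩, h1, h2⟩ := he
    rw [Finset.mem_union]
    rcases hor with h | h
    · right
      rw [Finset.mem_image]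
      refine ⟨⟨e.2, e.1⟩, ?_, rfl⟩
      rw [Finset.mem_sigma, Finset.mem_filter, mem_nb]
      exact ⟨h2, hadj.symm, h⟩
    · left
      rw [Finset.mem_image]
      refine ⟨⟨e.1, e.2⟩, ?_, rfl⟩
      rw [Finset.mem_sigma, Finset.mem_filter, mem_nb]
      exact ⟨h1, hadj, h⟩
  have h2 : ((X.sigma (fun v => (nb G v).filter (fun w => w ∈ T))).card : ℝ) ≤ τ * X.card := by
    rw [Finset.card_sigma]
    push_cast
    calc ∑ v ∈ X, (((nb G v).filter (fun w => w ∈ T)).card : ℝ) ≤ ∑ _v ∈ X, τ :=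
          Finset.sum_le_sum fun v _ => hT v
      _ = τ * X.card := by rw [Finset.sum_const, nsmul_eq_mul, mul_comm]
  have h3 := (Finset.card_le_card h1).trans (Finset.card_union_le _ _)
  have h4 := Finset.card_image_le (s := X.sigma (fun v => (nb G v).filter (fun w => w ∈ T)))
    (f := fun e : (_ : V) × V => (e.1, e.2))
  have h5 := Finset.card_image_le (s := X.sigma (fun v => (nb G v).filter (fun w => w ∈ T)))
    (f := fun e : (_ : V) × V => (e.2, e.1))
  have h6 : ((pr (G \ cutX G T)).filter (fun e => e.1 ∈ X ∧ e.2 ∈ X)).card ≤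
      2 * (X.sigma (fun v => (nb G v).filter (fun w => w ∈ T))).card := by omega
  have h7 : (((pr (G \ cutX G T)).filter (fun e => e.1 ∈ X ∧ e.2 ∈ X)).card : ℝ) ≤
      2 * ((X.sigma (fun v => (nb G v).filter (fun w => w ∈ T))).card : ℝ) := by
    exact_mod_cast h6
  linarith

end comb

/-- `Lam` is large -/
theorem ap_lam_ge (K : ℝ) : ∃ n₀ : ℕ, ∀ n : ℕ, n₀ ≤ n → K ≤ Lam n := by
  refine ⟨max 3 ⌈K ^ 2⌉₊, fun n hn => ?_⟩
  have h3 : 3 ≤ n := (le_max_left _ _).trans hn
  have hK : K ^ 2 ≤ n := (Nat.le_ceil _).trans (by exact_mod_cast (le_max_right _ _).trans hn)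
  have h3' : (3 : ℝ) ≤ n := by exact_mod_cast h3
  have hlog : 1 ≤ Real.log n := by
    rw [Real.le_log_iff_exp_le (by linarith)]
    exact (Real.exp_one_lt_d9.le.trans (by norm_num)).trans h3'
  unfold Lam
  apply Real.le_sqrt_of_sq_le
  nlinarith

/-- `Lam n (1 + ln D)` is small compared with `D ≥ n^{2/3}` -/
theorem ap_large (c : ℝ) (hc : 0 ≤ c) : ∃ n₀ : ℕ, ∀ n : ℕ, n₀ ≤ n → ∀ D : ℕ,
    (n : ℝ) ^ (2 / 3 : ℝ) ≤ D → c * Lam n * (1 + Real.log D) ≤ D := by
  have htend : Filter.Tendsto (fun n : ℕ => (n : ℝ) ^ (1 / 12 : ℝ)) Filter.atTop Filter.atTop :=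
    (tendsto_rpow_atTop (by norm_num)).comp tendsto_natCast_atTop_atTop
  obtain ⟨n₀, hn₀⟩ := Filter.eventually_atTop.1 (htend.eventually_ge_atTop (65 * c))
  refine ⟨max 1 n₀, fun n hn D hD => ?_⟩
  have hn1 : 1 ≤ n := (le_max_left _ _).trans hn
  have hn1' : (1 : ℝ) ≤ n := by exact_mod_cast hn1
  have hn0 : (0 : ℝ) < n := by linarith
  have hbig := hn₀ n ((le_max_right _ _).trans hn)
  have hD1 : (1 : ℝ) ≤ D := (Real.one_le_rpow hn1' (by norm_num)).trans hD
  have hD0 : (0 : ℝ) < D := by linarith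
  have hlogD : Real.log D ≤ 12 * (D : ℝ) ^ (1 / 12 : ℝ) := by
    have := Real.log_le_rpow_div hD0.le (show (0 : ℝ) < 1 / 12 by norm_num)
    linarith [this, show (D : ℝ) ^ (1 / 12 : ℝ) / (1 / 12) = 12 * (D : ℝ) ^ (1 / 12 : ℝ) by ring]
  have h1D : 1 ≤ (D : ℝ) ^ (1 / 12 : ℝ) := Real.one_le_rpow hD1 (by norm_num)
  have hlogn : Real.log n ≤ 18 * (n : ℝ) ^ (1 / 18 : ℝ) := by
    have := Real.log_le_rpow_div hn0.le (show (0 : ℝ) < 1 / 18 by norm_num)
    linarith [this, show (n : ℝ) ^ (1 / 18 : ℝ) / (1 / 18) = 18 * (n : ℝ) ^ (1 / 18 : ℝ) by ring]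
  have hLam : Lam n ≤ 5 * (n : ℝ) ^ (19 / 36 : ℝ) := by
    unfold Lam
    rw [Real.sqrt_le_left (by positivity), mul_pow, ← Real.rpow_natCast (_ ^ (19 / 36 : ℝ)),
      ← Real.rpow_mul hn0.le]
    have h2 : (n : ℝ) * (n : ℝ) ^ (1 / 18 : ℝ) = (n : ℝ) ^ (19 / 36 * ((2 : ℕ) : ℝ) : ℝ) := by
      have h3 : (19 / 36 * ((2 : ℕ) : ℝ) : ℝ) = 1 + 1 / 18 := by norm_num
      rw [h3, Real.rpow_add hn0, Real.rpow_one]
    rw [← h2]
    have h4 : (n : ℝ) * Real.log n ≤ n * (18 * (n : ℝ) ^ (1 / 18 : ℝ)) :=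
      mul_le_mul_of_nonneg_left hlogn hn0.le
    have h5 : 0 ≤ (n : ℝ) * (n : ℝ) ^ (1 / 18 : ℝ) := by positivity
    nlinarith
  have hLam0 : 0 ≤ Lam n := Real.sqrt_nonneg _
  have hD11 : (n : ℝ) ^ (22 / 36 : ℝ) ≤ (D : ℝ) ^ (11 / 12 : ℝ) := by
    have h6 := Real.rpow_le_rpow (by positivity) hD (show (0 : ℝ) ≤ 11 / 12 by norm_num)
    rw [← Real.rpow_mul hn0.le] at h6
    have h7 : (2 / 3 * (11 / 12) : ℝ) = 22 / 36 := by norm_num
    rw [h7] at h6
    exact h6
  have hsplit : (D : ℝ) = (D : ℝ) ^ (11 / 12 : ℝ) * (D : ℝ) ^ (1 / 12 : ℝ) := by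
    rw [← Real.rpow_add hD0]
    norm_num
  have hsplit2 : (n : ℝ) ^ (22 / 36 : ℝ) = (n : ℝ) ^ (1 / 12 : ℝ) * (n : ℝ) ^ (19 / 36 : ℝ) := by
    rw [← Real.rpow_add hn0]
    norm_num
  calc c * Lam n * (1 + Real.log D)
      ≤ c * (5 * (n : ℝ) ^ (19 / 36 : ℝ)) * (13 * (D : ℝ) ^ (1 / 12 : ℝ)) := by
        have h8 : 0 ≤ Real.log (D : ℝ) := Real.log_nonneg hD1
        gcongr
        linarith
    _ = (65 * c) * (n : ℝ) ^ (19 / 36 : ℝ) * (D : ℝ) ^ (1 / 12 : ℝ) := by ring
    _ ≤ (n : ℝ) ^ (1 / 12 : ℝ) * (n : ℝ) ^ (19 / 36 : ℝ) * (D : ℝ) ^ (1 / 12 : ℝ) := by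
        gcongr
    _ ≤ (D : ℝ) ^ (11 / 12 : ℝ) * (D : ℝ) ^ (1 / 12 : ℝ) := by
        rw [← hsplit2]
        gcongr
    _ = D := hsplit.symm

/-- Theorem A for (p,1)-total labellings -/
theorem AP_of (h : T_D) : T_AP := by
  classical
  intro p hp ε hε
  have hp0 : (1 : ℝ) ≤ p := by exact_mod_cast hp
  obtain ⟨n₁, hn₁⟩ := h (ε / 2) (by positivity)
  obtain ⟨n₂, hn₂⟩ := ap_large (34 * (2 * (ε / (8 * p)))) (by positivity)
  obtain ⟨n₃, hn₃⟩ := ap_large ε hε.le
  obtain ⟨n₄, hn₄⟩ := ap_lam_ge (4 * (2 * p) / ε)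
  refine ⟨max (max n₁ n₂) (max n₃ n₄), ?_⟩
  intro n hn G D hD hnD hTc L M hsym hL hM
  have g1 : n₁ ≤ n := ((le_max_left _ _).trans (le_max_left _ _)).trans hn
  have g2 : n₂ ≤ n := ((le_max_right _ _).trans (le_max_left _ _)).trans hn
  have g3 : n₃ ≤ n := ((le_max_left _ _).trans (le_max_right _ _)).trans hn
  have g4 : n₄ ≤ n := ((le_max_right _ _).trans (le_max_right _ _)).trans hn
  have e2 := hn₂ n g2 D hnD
  have e3 := hn₃ n g3 D hnD
  have e4 := hn₄ n g4
  rw [div_le_iff₀ hε] at e4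
  have hLam0 : 0 ≤ Lam n := Real.sqrt_nonneg _
  set τ : ℝ := ε / (8 * p) * Lam n with hτ
  have hτ0 : 0 ≤ τ := by positivity
  have hpτ : 8 * p * τ = ε * Lam n := by
    rw [hτ]
    field_simp
  set T : Finset (Fin n) := univ.filter (fun w => (D : ℝ) - ε * Lam n < dg G w) with hTdef
  have hmT : ∀ w, w ∈ T ↔ (D : ℝ) - ε * Lam n < dg G w := by
    intro w
    simp [hTdef]
  have hTR : ∀ v, (((nb G v).filter (fun w => w ∈ T)).card : ℝ) ≤ τ := by
    intro v
    refine le_trans (le_of_eq ?_) (hTc v)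
    unfold cnt
    congr 2
    ext w
    simp only [Finset.mem_filter, mem_nb, Finset.mem_univ, true_and, hmT]
  have hT : ∀ v, ((nb G v).filter (fun w => w ∈ T)).card ≤ ⌊τ⌋₊ := fun v => Nat.le_floor (hTR v)
  have hfl : ((⌊τ⌋₊ : ℕ) : ℝ) ≤ τ := Nat.floor_le hτ0
  have hlogD : 0 ≤ Real.log (D : ℝ) := Real.log_natCast_nonneg D
  have hεD : ε * Lam n ≤ D := by
    refine le_trans ?_ e3
    have : 0 ≤ ε * Lam n * Real.log D := by positivity
    linarith
  -- labels of the graph of the edges meeting `T`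
  have h0 : LP p (G \ cutX G T) L M := by
    refine main_p p hp D (2 * τ) ?_ ?_ L M hsym hM _ (G \ cutX G T) rfl ?_ (ap_dens G T τ hTR) ?_
    · refine le_trans (le_of_eq ?_) e2
      rw [hτ]
      ring
    · have : 4 * (p : ℝ) * (2 * τ) = ε * Lam n := by rw [← hpτ]; ring
      rw [this]
      exact hεD
    · intro v
      exact (dg_mono (fun a b hab => ((ap_sdiff_adj G T a b).1 hab).1) v).trans (hD v)
    · intro u v huv
      exact hL u v ((ap_sdiff_adj G T u v).1 huv).1
  refine ap_comb p hp G T ⌊τ⌋₊ L M hsym hT ?_ h0 ?_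
  · intro v hv
    rw [hmT, not_lt] at hv
    have k1 : ((D : ℝ) + 2 * p) ≤ (M v).card + 1 := by exact_mod_cast hM v
    have k2 : ((2 * p - 1 : ℕ) : ℝ) = 2 * p - 1 := by
      rw [Nat.cast_sub (by omega)]
      push_cast
      ring
    have k3 : ((dg G v + ⌊τ⌋₊ * (2 * p - 1) : ℕ) : ℝ) < (M v).card := by
      push_cast [k2]
      have k4 : ((⌊τ⌋₊ : ℕ) : ℝ) * (2 * p - 1) ≤ τ * (2 * p - 1) :=
        mul_le_mul_of_nonneg_right hfl (by linarith)
      have k5 : τ * (2 * p - 1) ≤ ε * Lam n := by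
        rw [← hpτ]
        nlinarith
      linarith
    exact_mod_cast k3
  · intro L' hsym' hL'
    refine hn₁ n g1 ⌊(D : ℝ) - ε * Lam n⌋₊ (cutX G T) ?_ L' hsym' ?_
    · intro v
      by_cases hv : v ∈ T
      · have : dg (cutX G T) v = 0 := by
          unfold dg
          rw [Finset.card_eq_zero, Finset.eq_empty_iff_forall_notMem]
          intro w hw
          rw [mem_nb, cutX_adj] at hw
          exact hw.2.1 hv
        rw [this]
        exact Nat.zero_le _
      · apply Nat.le_floor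
        rw [hmT, not_lt] at hv
        refine le_trans ?_ hv
        exact_mod_cast dg_mono (fun a b hab => ((cutX_adj G T a b).1 hab).1) v
    · intro a b hab
      rw [cutX_adj] at hab
      have k1 := hL' a b hab.1
      have k2 := hL a b hab.1
      have k3 : ((L a b).card : ℝ) + 2 ≤ (L' a b).card + 2 * (⌊τ⌋₊ : ℕ) + 4 * p := by
        exact_mod_cast k1
      have k4 : (D : ℝ) + 2 * p ≤ (L a b).card + 1 := by exact_mod_cast k2
      have k5 : ((⌊(D : ℝ) - ε * Lam n⌋₊ : ℕ) : ℝ) ≤ (D : ℝ) - ε * Lam n :=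
        Nat.floor_le (by linarith)
      have k6 : 8 * τ ≤ ε * Lam n := by
        rw [← hpτ]
        nlinarith
      linarith

end Pool.Agent.H162R2.AG
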