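import Mathlib
import Pool.Agent.H162R2.AG.Stmts

/-!
# AS (helper231): one level of the recursion, asymptotic form
-/

set_option autoImplicit false

namespace Pool.Agent.H162R2.AG

open Finset Pool.Agent.H162R2.Sparse Filter

theorem as_log (c : ℝ) (hc : 0 < c) : ∀ᶠ n : ℕ in atTop, Real.log n ≤ c * n := by
  have h := (Real.isLittleO_log_id_atTop.comp_tendsto (tendsto_natCast_atTop_atTop (R := ℝ))).def hc
  filter_upwards [h] with n hn
  simp only [Function.comp_apply, id, Real.norm_eq_abs] at hn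
  rw [abs_of_nonneg (Nat.cast_nonneg n : (0:ℝ) ≤ n)] at hn
  exact (le_abs_self _).trans hn

theorem as_log_one : ∀ᶠ n : ℕ in atTop, 1 ≤ Real.log n := by
  filter_upwards [eventually_ge_atTop 3] with n hn
  rw [Real.le_log_iff_exp_le (by positivity)]
  have : (3:ℝ) ≤ n := by exact_mod_cast hn
  linarith [Real.exp_one_lt_d9]

theorem as_Lam_le (c : ℝ) (hc : 0 < c) : ∀ᶠ n : ℕ in atTop, Lam n ≤ c * n := by
  filter_upwards [as_log (c ^ 2) (by positivity)] with n hn
  unfold Lam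
  apply Real.sqrt_le_iff.mpr
  have hn0 : (0:ℝ) ≤ n := Nat.cast_nonneg n
  refine ⟨by positivity, ?_⟩
  calc (n:ℝ) * Real.log n ≤ n * (c ^ 2 * n) := mul_le_mul_of_nonneg_left hn hn0
    _ = (c * n) ^ 2 := by ring

theorem as_log_le (c : ℝ) (hc : 0 < c) : ∀ᶠ n : ℕ in atTop, Real.log n ≤ c * Lam n := by
  filter_upwards [as_log (c ^ 2) (by positivity), as_log_one] with n hn h1
  have h0 : (0:ℝ) ≤ Real.log n := by linarith
  have hn0 : (0:ℝ) ≤ n := Nat.cast_nonneg n
  unfold Lam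
  have h2 : Real.log n / c ≤ Real.sqrt (n * Real.log n) := by
    apply Real.le_sqrt_of_sq_le
    rw [div_pow, div_le_iff₀ (by positivity)]
    nlinarith
  rw [div_le_iff₀ hc] at h2
  linarith

theorem AS_of (h : T_STEP) : T_AS := by
  obtain ⟨C0, hC0, hstep⟩ := h
  refine ⟨4 * C0, by linarith, ?_⟩
  intro δ lam a₀ b₀ g₀ σ σ' β β' γ γ' hlam hlamδ hδ ha₀ hab hg₀ hβ hγ hσ' hAv hβ' hγ' hσ hQ
  obtain ⟨nA, hA⟩ := hAv
  obtain ⟨nQ, hQ⟩ := hQ
  have hδ0 : 0 < δ := lt_of_lt_of_le hlam hlamδ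
  have hβ'0 : 0 ≤ β' := by linarith
  have hγ'0 : 0 ≤ γ' := by linarith
  have hX0 : 0 ≤ 4 * C0 * β' * γ' / lam := by positivity
  have hσ0 : 0 ≤ σ := by linarith
  obtain ⟨K, hK⟩ : ∃ K, K = 2 * C0 * (2 * β' / lam + 1) + C0 := ⟨_, rfl⟩
  have hK0 : 0 ≤ K := by rw [hK]; positivity
  have hev : ∀ᶠ n : ℕ in atTop, ∀ d : ℕ, lam * n ≤ d → (d : ℝ) ≤ δ * n →
      Col n d (σ * Lam n) (β * n) (γ * Lam n) := by
    filter_upwards [eventually_ge_atTop nA, eventually_ge_atTop nQ, eventually_ge_atTop 2,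
      as_log_one, as_log_le 1 one_pos,
      as_log_le (a₀ / (2 * (K + 2))) (by positivity),
      as_log_le ((a₀ / (2 * C0)) ^ 2 / (σ + 1)) (by positivity),
      as_Lam_le (lam / (σ + 1)) (by positivity),
      as_Lam_le (lam / 2 / (γ' + 1)) (by positivity),
      as_Lam_le (1 / 100 * δ / (a₀ / 2 + 1)) (by positivity)] with n hnA hnQ hn2 hlog1 hlogΛ hlogK
      hlogσ hΛσ hΛγ hΛa d hd1 hd2
    have hn0 : (0:ℝ) < n := by
      have : 0 < n := by omega
      exact_mod_cast this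
    have hΛ1 : 1 ≤ Lam n := by linarith
    have hΛ0 : 0 ≤ Lam n := by linarith
    have hlog0 : 0 ≤ Real.log n := by linarith
    have hd0 : (0:ℝ) < d := lt_of_lt_of_le (by positivity) hd1
    -- consequences of the asymptotic bounds
    have e1 : σ * Lam n + 1 ≤ d := by
      have h1 : (σ + 1) * Lam n ≤ lam * n := by
        have h2 := mul_le_mul_of_nonneg_left hΛσ (by positivity : (0:ℝ) ≤ σ + 1)
        have h3 : (σ + 1) * (lam / (σ + 1) * n) = lam * n := by field_simp
        rwa [h3] at h2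
      nlinarith
    have e2 : γ' * Lam n ≤ lam / 2 * n := by
      have h2 := mul_le_mul_of_nonneg_left hΛγ (by positivity : (0:ℝ) ≤ γ' + 1)
      have h3 : (γ' + 1) * (lam / 2 / (γ' + 1) * n) = lam / 2 * n := by field_simp
      rw [h3] at h2
      nlinarith
    have e3 : a₀ / 2 * Lam n + 1 ≤ 1 / 100 * δ * n := by
      have h2 := mul_le_mul_of_nonneg_left hΛa (by positivity : (0:ℝ) ≤ a₀ / 2 + 1)
      have h3 : (a₀ / 2 + 1) * (1 / 100 * δ / (a₀ / 2 + 1) * n) = 1 / 100 * δ * n := by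
        field_simp
      rw [h3] at h2
      nlinarith
    have e4 : (K + 2) * Real.log n ≤ a₀ / 2 * Lam n := by
      have h2 := mul_le_mul_of_nonneg_left hlogK (by positivity : (0:ℝ) ≤ K + 2)
      have h3 : (K + 2) * (a₀ / (2 * (K + 2)) * Lam n) = a₀ / 2 * Lam n := by field_simp
      rwa [h3] at h2
    have e5 : C0 * Real.sqrt ((σ * Lam n + 1) * Real.log n) ≤ a₀ / 2 * Lam n := by
      have h1 : Real.sqrt ((σ * Lam n + 1) * Real.log n) ≤ a₀ / (2 * C0) * Lam n := by
        apply Real.sqrt_le_iff.mpr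
        refine ⟨by positivity, ?_⟩
        calc (σ * Lam n + 1) * Real.log n ≤ ((σ + 1) * Lam n) *
              ((a₀ / (2 * C0)) ^ 2 / (σ + 1) * Lam n) := by
              apply mul_le_mul _ hlogσ hlog0 (by positivity)
              nlinarith
          _ = (a₀ / (2 * C0) * Lam n) ^ 2 := by field_simp
      calc C0 * Real.sqrt ((σ * Lam n + 1) * Real.log n) ≤ C0 * (a₀ / (2 * C0) * Lam n) :=
            mul_le_mul_of_nonneg_left h1 (by linarith)
        _ = a₀ / 2 * Lam n := by field_simp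
    -- the new degree
    obtain ⟨d1, hd1def⟩ : ∃ d1 : ℕ, d1 = ⌈((d:ℝ) + a₀ * Lam n) / 2⌉₊ := ⟨_, rfl⟩
    have hpos : 0 < ((d:ℝ) + a₀ * Lam n) / 2 := by positivity
    have f1 : ((d:ℝ) + a₀ * Lam n) / 2 ≤ d1 := by rw [hd1def]; exact Nat.le_ceil _
    have f2 : (d1:ℝ) < ((d:ℝ) + a₀ * Lam n) / 2 + 1 := by
      rw [hd1def]; exact Nat.ceil_lt_add_one hpos.le
    have f3 : 1 ≤ d1 := by
      rw [hd1def]; exact Nat.one_le_iff_ne_zero.mpr (Nat.ceil_pos.mpr hpos).ne'
    have ha0L : 0 ≤ a₀ * Lam n := by positivity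
    have f4 : lam / 2 * n ≤ d1 := by linarith
    have f5 : (d1:ℝ) ≤ 51 / 100 * δ * n := by linarith
    have f6 : d1 ≤ n := by
      have : (d1:ℝ) ≤ n := by nlinarith
      exact_mod_cast this
    have f7 : 0 < (d1:ℝ) := by
      have : 0 < d1 := by omega
      exact_mod_cast this
    obtain ⟨φ, hφ⟩ : ∃ φ : ℝ, φ = C0 * (β' * n * (γ' * Lam n + Real.log n) / d1 + Real.log n) :=
      ⟨_, rfl⟩
    have hφle : φ ≤ C0 * (2 * β' / lam * (γ' * Lam n + Real.log n) + Real.log n) := by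
      rw [hφ]
      apply mul_le_mul_of_nonneg_left _ (by linarith)
      have hY : 0 ≤ γ' * Lam n + Real.log n := by positivity
      have : β' * n * (γ' * Lam n + Real.log n) / d1 ≤
          2 * β' / lam * (γ' * Lam n + Real.log n) := by
        rw [div_le_iff₀ f7]
        calc β' * n * (γ' * Lam n + Real.log n) =
              2 * β' / lam * (γ' * Lam n + Real.log n) * (lam / 2 * n) := by field_simp
          _ ≤ _ := mul_le_mul_of_nonneg_left f4 (by positivity)
      linarith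
    refine hstep n hn2 d d1 (2 * d) (a₀ * Lam n) (b₀ * Lam n) (g₀ * n) (σ * Lam n) (β * n)
      (γ * Lam n) (σ' * Lam n) (β' * n) (γ' * Lam n) φ ha0L
      (mul_le_mul_of_nonneg_right hab hΛ0) (by positivity) (by positivity) (by positivity)
      (by positivity) f3 f6 ?_ (hA n hnA d hd2 hd1) (by linarith) ?_ ?_ (e2.trans f4) hφ.ge ?_ ?_
      (hQ n hnQ d1 f4 f5)
    · push_cast
      linarith
    · nlinarith
    · nlinarith
    · have g1 : 2 * φ ≤ (4 * C0 * β' * γ' / lam) * Lam n +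
          2 * C0 * (2 * β' / lam + 1) * Real.log n := by
        have : C0 * (2 * β' / lam * (γ' * Lam n + Real.log n) + Real.log n) * 2 =
            (4 * C0 * β' * γ' / lam) * Lam n + 2 * C0 * (2 * β' / lam + 1) * Real.log n := by
          field_simp
          ring
        linarith
      have g2 : (σ' + 3 * a₀ + 4 * C0 * β' * γ' / lam) * Lam n ≤ σ * Lam n :=
        mul_le_mul_of_nonneg_right hσ hΛ0
      have g3 : 2 * C0 * (2 * β' / lam + 1) * Real.log n + C0 * Real.log n = K * Real.log n := by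
        rw [hK]; ring
      have g4 : (K + 2) * Real.log n = K * Real.log n + 2 * Real.log n := by ring
      have g5 : (σ' + 3 * a₀ + 4 * C0 * β' * γ' / lam) * Lam n = σ' * Lam n + 3 * (a₀ * Lam n) +
          (4 * C0 * β' * γ' / lam) * Lam n := by ring
      have g6 : a₀ / 2 * Lam n = (a₀ * Lam n) / 2 := by ring
      rw [g6] at e4 e5
      linarith
    · left
      linarith
  obtain ⟨n₀, hn₀⟩ := eventually_atTop.1 hev
  exact ⟨n₀, hn₀⟩

end Pool.Agent.H162R2.AG
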