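import Mathlib
import Pool.Agent.H162R2.AG.Stmts

/-!
# Halving data of small quadratic mean discrepancy
-/

set_option autoImplicit false

namespace Pool.Agent.H162R2.AG

open Finset Pool.Agent.H162R2.Sparse

theorem AvLQ_of (h : T_LQ) : T_AvLQ := by
  classical
  intro η hη
  obtain ⟨κ, hκ, Y, hY, hκY, n₀, H⟩ := h (min η 1) (lt_min hη one_pos)
  have hY4 : 1 ≤ Y ^ 4 := one_le_pow₀ hY
  have hκ1 : κ ≤ 1 := by
    have h1 : κ * 1 ≤ κ * Y ^ 4 := mul_le_mul_of_nonneg_left hY4 hκ.le
    have h2 : κ * Y ^ 4 ≤ 1 := le_trans hκY (min_le_right _ _)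
    linarith
  refine ⟨κ, hκ, Y, hY, le_trans hκY (min_le_left _ _), max n₀ 2, ?_⟩
  intro n hn G hd L hL
  have hn₀ : n₀ ≤ n := le_trans (le_max_left _ _) hn
  have hn2 : 2 ≤ n := le_trans (le_max_right _ _) hn
  have hnR : (2 : ℝ) ≤ n := by exact_mod_cast hn2
  have hnpos : (0 : ℝ) < n := by linarith
  have hlog : 0 < Real.log n := Real.log_pos (by linarith)
  have hLam : 0 ≤ Lam n := Real.sqrt_nonneg _
  have hLamsq : Lam n ^ 2 = n * Real.log n := by
    unfold Lam
    rw [Real.sq_sqrt (by positivity)]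
  -- the vertices
  obtain ⟨σ, hσ1, -⟩ := H n hn₀ (Fin n) (by
    rw [Fintype.card_fin]
    calc n = n ^ 1 := (pow_one n).symm
      _ ≤ n ^ 4 := Nat.pow_le_pow_right (by omega) (by norm_num))
    (fun v _ => nb G v) (by
      intro v i
      have : (nb G v).card ≤ n := hd v
      omega)
  -- the colours
  set U : Finset ℕ := (univ : Finset (Fin n × Fin n)).biUnion (fun e => L e.1 e.2) with hU
  have hmemU : ∀ v w c, c ∈ L v w → c ∈ U := by
    intro v w c hc
    rw [hU, Finset.mem_biUnion]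
    exact ⟨(v, w), Finset.mem_univ _, hc⟩
  have hUcard : U.card ≤ n ^ 4 := by
    have h1 : U.card ≤ (univ : Finset (Fin n × Fin n)).card * (2 * n) :=
      Finset.card_biUnion_le_card_mul _ _ _ (fun e _ => hL e.1 e.2)
    have h2 : (univ : Finset (Fin n × Fin n)).card = n * n := by
      rw [Finset.card_univ, Fintype.card_prod, Fintype.card_fin]
    rw [h2] at h1
    have h3 : n * n * (2 * n) ≤ n * n * (n * n) :=
      Nat.mul_le_mul_left _ (Nat.mul_le_mul_right _ hn2)
    calc U.card ≤ n * n * (2 * n) := h1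
      _ ≤ n * n * (n * n) := h3
      _ = n ^ 4 := by ring
  obtain ⟨χ, hχ1, hχ2⟩ := H n hn₀ {c // c ∈ U} (by
    rw [Fintype.card_coe]
    exact hUcard)
    (fun v w => (L v w).subtype (fun c => c ∈ U)) (by
      intro v w
      rw [Finset.card_subtype]
      exact le_trans (Finset.card_filter_le _ _) (hL v w))
  have hsum : ∀ v w, ∑ c ∈ L v w, sg (if hc : c ∈ U then χ ⟨c, hc⟩ else true) =
      ∑ c ∈ (L v w).subtype (fun c => c ∈ U), sg (χ c) := by
    intro v w
    have h1 : ∑ c ∈ (L v w).subtype (fun c => c ∈ U), sg (χ c) =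
        ∑ c ∈ (L v w).subtype (fun c => c ∈ U),
          (fun c : ℕ => sg (if hc : c ∈ U then χ ⟨c, hc⟩ else true)) c := by
      refine Finset.sum_congr rfl ?_
      intro c _
      simp
    rw [h1, Finset.sum_subtype_of_mem
      (fun c : ℕ => sg (if hc : c ∈ U then χ ⟨c, hc⟩ else true)) (fun c hc => hmemU v w c hc)]
  refine ⟨σ, fun c => if hc : c ∈ U then χ ⟨c, hc⟩ else true, ?_, ?_, ?_⟩
  · intro v
    have h1 := hσ1 v
    simp only [Finset.sum_const, Finset.card_univ, Fintype.card_fin, nsmul_eq_mul] at h1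
    set S : ℝ := ∑ w ∈ nb G v, sg (σ w) with hS
    have h2 : S ^ 2 ≤ κ ^ 3 * (n * Real.log n) := by
      have : (n : ℝ) * S ^ 2 ≤ n * (κ ^ 3 * (n * Real.log n)) := by
        calc (n : ℝ) * S ^ 2 ≤ κ ^ 3 * n ^ 2 * Real.log n := h1
          _ = n * (κ ^ 3 * (n * Real.log n)) := by ring
      exact le_of_mul_le_mul_left this hnpos
    have h3 : S ^ 2 ≤ (κ * Lam n) ^ 2 := by
      rw [mul_pow, hLamsq]
      refine le_trans h2 (mul_le_mul_of_nonneg_right ?_ (by positivity))
      calc κ ^ 3 = κ ^ 2 * κ := by ring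
        _ ≤ κ ^ 2 * 1 := mul_le_mul_of_nonneg_left hκ1 (by positivity)
        _ = κ ^ 2 := mul_one _
    exact abs_le_of_sq_le_sq h3 (by positivity)
  · intro v
    simp only [hsum]
    have h1 := hχ1 v
    set x : Fin n → ℝ := fun w => ∑ c ∈ (L v w).subtype (fun c => c ∈ U), sg (χ c) with hx
    have h2 : cnt (fun w => κ * Lam n < |x w|) * (κ * Lam n) ^ 2 ≤ ∑ w, x w ^ 2 := by
      rw [cnt_eq_sum, Finset.sum_mul]
      refine Finset.sum_le_sum ?_
      intro w _
      by_cases hw : κ * Lam n < |x w|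
      · rw [if_pos hw, one_mul, ← sq_abs (x w)]
        exact pow_le_pow_left₀ (by positivity) hw.le 2
      · rw [if_neg hw, zero_mul]
        positivity
    have h3 : cnt (fun w => κ * Lam n < |x w|) * (κ * Lam n) ^ 2 ≤
        (κ * n) * (κ * Lam n) ^ 2 := by
      refine le_trans h2 (le_trans h1 (le_of_eq ?_))
      rw [mul_pow, hLamsq]
      ring
    have h4 : 0 < (κ * Lam n) ^ 2 := by
      rw [mul_pow, hLamsq]
      positivity
    exact le_of_mul_le_mul_right h3 h4
  · intro v w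
    simp only [hsum]
    exact hχ2 v w

end Pool.Agent.H162R2.AG
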