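import Mathlib
import Pool.Agent.H162R2.AG.Stmts

set_option autoImplicit false

namespace Pool.Agent.H162R2.AG

open Finset Pool.Agent.H162R2.Sparse

/-- random signs: all sums over a family of at most `N` sets of size at most `l` are small -/
theorem avr_fam (h : T_P1) {ι : Type} [Fintype ι] [DecidableEq ι] {J : Type} [Fintype J]
    (S : J → Finset ι) (l n : ℕ) (hn : 2 ≤ n) (hl : 1 ≤ l) (hS : ∀ j, (S j).card ≤ l)
    (hJ : Fintype.card J ≤ n ^ 2) :
    ∃ χ : ι → Bool, ∀ j, |∑ c ∈ S j, sg (χ c)| ≤ 4 * Real.sqrt (l * Real.log n) := by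
  have hn1 : (1 : ℝ) < n := by exact_mod_cast (by omega : 1 < n)
  have hn0 : (0 : ℝ) < n := by linarith
  have hlog : 0 < Real.log n := Real.log_pos hn1
  have hl0 : (0 : ℝ) < l := by exact_mod_cast hl
  set t : ℝ := 4 * Real.sqrt (l * Real.log n) with ht
  have ht0 : 0 ≤ t := by positivity
  have ht2 : t ^ 2 = 16 * (l * Real.log n) := by
    rw [ht, mul_pow, Real.sq_sqrt (by positivity)]
    norm_num
  have hexp : Real.exp (-(t ^ 2) / (2 * l)) = ((n : ℝ) ^ 8)⁻¹ := by
    have h1 : -(t ^ 2) / (2 * l) = -(8 * Real.log n) := by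
      rw [ht2]
      field_simp
      ring
    rw [h1, Real.exp_neg]
    congr 1
    have h2 : (8 : ℝ) * Real.log n = Real.log ((n : ℝ) ^ 8) := by
      rw [Real.log_pow]
      norm_num
    rw [h2, Real.exp_log (by positivity)]
  have hone : ∀ j, cnt (fun χ : ι → Bool => t ≤ |∑ c ∈ S j, sg (χ c)|) ≤
      2 * ((n : ℝ) ^ 8)⁻¹ * 2 ^ Fintype.card ι := by
    intro j
    have h1 := h ι (fun c => if c ∈ S j then 1 else 0) l t hl0 ht0 (by
      have h2 : ∑ c, (if c ∈ S j then (1 : ℝ) else 0) ^ 2 = (S j).card := by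
        simp
      rw [h2]
      exact_mod_cast hS j)
    rw [hexp] at h1
    refine le_trans (cnt_mono ?_) h1
    intro χ hχ
    have h3 : ∑ c, (if c ∈ S j then (1 : ℝ) else 0) * sg (χ c) = ∑ c ∈ S j, sg (χ c) := by
      simp
    rw [h3]
    exact hχ
  have hbad : cnt (fun χ : ι → Bool => ∃ j ∈ (univ : Finset J), t ≤ |∑ c ∈ S j, sg (χ c)|) <
      Fintype.card (ι → Bool) := by
    refine lt_of_le_of_lt (cnt_exists_le (univ : Finset J) _) ?_
    calc ∑ j : J, cnt (fun χ : ι → Bool => t ≤ |∑ c ∈ S j, sg (χ c)|)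
        ≤ ∑ _j : J, 2 * ((n : ℝ) ^ 8)⁻¹ * 2 ^ Fintype.card ι := Finset.sum_le_sum fun j _ => hone j
      _ = (Fintype.card J : ℝ) * (2 * ((n : ℝ) ^ 8)⁻¹ * 2 ^ Fintype.card ι) := by
          rw [Finset.sum_const, Finset.card_univ, nsmul_eq_mul]
      _ ≤ (n : ℝ) ^ 2 * (2 * ((n : ℝ) ^ 8)⁻¹ * 2 ^ Fintype.card ι) := by
          refine mul_le_mul_of_nonneg_right ?_ (by positivity)
          exact_mod_cast hJ
      _ < 1 * 2 ^ Fintype.card ι := by
          have h4 : (n : ℝ) ^ 2 * (2 * ((n : ℝ) ^ 8)⁻¹ * 2 ^ Fintype.card ι) =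
              (2 / (n : ℝ) ^ 6) * 2 ^ Fintype.card ι := by
            field_simp
          rw [h4]
          refine mul_lt_mul_of_pos_right ?_ (by positivity)
          rw [div_lt_one (by positivity)]
          have h5 : (2 : ℝ) ≤ n := by exact_mod_cast hn
          calc (2 : ℝ) < 2 ^ 6 := by norm_num
            _ ≤ (n : ℝ) ^ 6 := pow_le_pow_left₀ (by norm_num) h5 6
      _ = _ := by
          rw [card_signs, one_mul]
          push_cast
          rfl
  obtain ⟨χ, hχ⟩ := exists_of_cnt_lt _ hbad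
  refine ⟨χ, fun j => ?_⟩
  by_contra hc
  exact hχ ⟨j, Finset.mem_univ _, (not_le.1 hc).le⟩

/-- random halvings of the vertices and of the colours -/
theorem AvR_of (h : T_P1) : T_AvR := by
  classical
  refine ⟨4, by norm_num, ?_⟩
  intro n hn d l hdl G hG L hL
  set a : ℝ := 4 * Real.sqrt (l * Real.log n) with ha
  have ha0 : 0 ≤ a := by positivity
  obtain ⟨σ, χ, h1, h2⟩ : ∃ (σ : Fin n → Bool) (χ : ℕ → Bool),
      (∀ v, |∑ w ∈ nb G v, sg (σ w)| ≤ a) ∧ ∀ v w, |∑ c ∈ L v w, sg (χ c)| ≤ a := by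
    rcases Nat.eq_zero_or_pos l with hl | hl
    · subst hl
      refine ⟨fun _ => true, fun _ => true, ?_, ?_⟩
      · intro v
        have h3 : nb G v = ∅ := by
          rw [← Finset.card_eq_zero]
          have := hG v
          unfold dg at this
          omega
        rw [h3]
        simpa using ha0
      · intro v w
        have h3 : L v w = ∅ := by
          rw [← Finset.card_eq_zero]
          have := hL v w
          omega
        rw [h3]
        simpa using ha0
    · obtain ⟨σ, hσ⟩ := avr_fam h (fun v : Fin n => nb G v) l n hn hl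
        (fun v => (hG v).trans hdl) (by
          rw [Fintype.card_fin]
          nlinarith)
      set U : Finset ℕ := univ.biUnion fun v : Fin n => univ.biUnion fun w : Fin n => L v w
        with hU
      have hsub : ∀ v w, L v w ⊆ U := by
        intro v w c hc
        rw [hU, Finset.mem_biUnion]
        exact ⟨v, Finset.mem_univ _, Finset.mem_biUnion.2 ⟨w, Finset.mem_univ _, hc⟩⟩
      obtain ⟨χ', hχ'⟩ := avr_fam h (ι := {c // c ∈ U})
        (fun p : Fin n × Fin n => (L p.1 p.2).subtype (fun c => c ∈ U)) l n hn hl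
        (fun p => by
          rw [Finset.card_subtype]
          exact (Finset.card_filter_le _ _).trans (hL _ _)) (by
          rw [Fintype.card_prod, Fintype.card_fin]
          nlinarith)
      refine ⟨σ, fun c => if hc : c ∈ U then χ' ⟨c, hc⟩ else true, hσ, ?_⟩
      intro v w
      have h3 := hχ' (v, w)
      have h4 : ∑ c ∈ L v w, sg (if hc : c ∈ U then χ' ⟨c, hc⟩ else true) =
          ∑ c ∈ (L v w).subtype (fun c => c ∈ U), sg (χ' c) := by
        rw [← Finset.sum_subtype_of_mem
          (fun c => sg (if hc : c ∈ U then χ' ⟨c, hc⟩ else true)) (fun c hc => hsub v w hc)]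
        refine Finset.sum_congr rfl fun c _ => ?_
        rw [dif_pos c.2]
      rw [h4]
      exact h3
  refine ⟨σ, χ, h1, ?_, h2⟩
  intro v
  have h5 : cnt (fun w => a < |∑ c ∈ L v w, sg (χ c)|) = 0 := by
    unfold cnt
    rw [Finset.filter_false_of_mem]
    · simp
    · intro w _
      exact not_lt.2 (h2 v w)
  rw [h5]

end Pool.Agent.H162R2.AG
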