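import Mathlib
import Pool.Agent.H162R2.AG.Stmts

/-! List edge colouring of dense graphs: Theorem D from T_AS, T_AvLQ, T_RP, T_S (helper431). -/

set_option autoImplicit false

namespace Pool.Agent.H162R2.AG

open Finset Pool.Agent.H162R2.Sparse

namespace DD

theorem Lam_nonneg (n : ℕ) : 0 ≤ Lam n := Real.sqrt_nonneg _

theorem Col_mono {n d : ℕ} {s f y s' f' y' : ℝ} (h : Col n d s f y) (hs : s ≤ s') (hf : f' ≤ f)
    (hy : s - y ≤ s' - y') : Col n d s' f' y' := by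
  intro G hG L hL F hF hc h1 h2
  refine h G hG L hL F hF (fun v => (hc v).trans hf) (fun a b hab hF' => ?_)
    (fun a b hab hF' => ?_)
  · have := h1 a b hab hF'
    linarith
  · have := h2 a b hab hF'
    linarith

theorem Q_mono {δ lam σ β γ δ' lam' σ' β' γ' : ℝ} (h : Q δ lam σ β γ) (hδ : δ' ≤ δ)
    (hl : lam ≤ lam') (hs : σ ≤ σ') (hb : β' ≤ β) (hg : γ' ≤ γ) : Q δ' lam' σ' β' γ' := by
  obtain ⟨n₀, h⟩ := h
  refine ⟨n₀, fun n hn d h1 h2 => ?_⟩
  have hn0 : (0 : ℝ) ≤ n := Nat.cast_nonneg n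
  have hL := Lam_nonneg n
  refine Col_mono (h n hn d ?_ ?_) ?_ ?_ ?_
  · exact (mul_le_mul_of_nonneg_right hl hn0).trans h1
  · exact h2.trans (mul_le_mul_of_nonneg_right hδ hn0)
  · exact mul_le_mul_of_nonneg_right hs hL
  · exact mul_le_mul_of_nonneg_right hb hn0
  · have := mul_le_mul_of_nonneg_right hs hL
    have := mul_le_mul_of_nonneg_right hg hL
    linarith

theorem Avail_mono {n d l d' l' : ℕ} {a b g : ℝ} (h : Avail n d l a b g) (hd : d' ≤ d)
    (hl : l' ≤ l) : Avail n d' l' a b g := by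
  intro G hG L hL
  exact h G (fun v => (hG v).trans hd) L (fun v w => (hL v w).trans hl)

/-- the phase with low discrepancy in quadratic mean -/
theorem LQ_phase {C κ Y : ℝ} (hC : 1 ≤ C)
    (hAS : ∀ δ lam a₀ b₀ g₀ σ σ' β β' γ γ' : ℝ,
      0 < lam → lam ≤ δ → δ ≤ 1 → 0 < a₀ → a₀ ≤ b₀ → 0 ≤ g₀ → 0 ≤ β → 0 ≤ γ → 0 ≤ σ' →
      (∃ n₀ : ℕ, ∀ n : ℕ, n₀ ≤ n → ∀ d : ℕ, (d : ℝ) ≤ δ * n → lam * n ≤ d →
        Avail n d (2 * d) (a₀ * Lam n) (b₀ * Lam n) (g₀ * n)) →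
      β + g₀ ≤ β' → 3 / 4 * γ + b₀ ≤ γ' → σ' + 3 * a₀ + C * β' * γ' / lam ≤ σ →
      Q (51 / 100 * δ) (lam / 2) σ' β' γ' → Q δ lam σ β γ)
    (hκ : 0 < κ) (hY : 1 ≤ Y) (hκY : κ ≤ Y)
    (hAv : ∃ n₀ : ℕ, ∀ n : ℕ, n₀ ≤ n → Avail n n (2 * n) (κ * Lam n) (Y * Lam n) (κ * n))
    (σJ : ℝ) (hσJ : 0 ≤ σJ) (J : ℕ) : ∀ δ lam σ β γ : ℝ, 0 < lam → lam ≤ δ → δ ≤ 1 → 0 ≤ β →
      0 ≤ γ → γ ≤ 4 * Y →
      σJ + 3 * J * κ + C * (β + J * κ) * (4 * Y) * J * 2 ^ J / lam ≤ σ →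
      Q ((51 / 100) ^ J * δ) (lam / 2 ^ J) σJ (β + J * κ) (4 * Y) → Q δ lam σ β γ := by
  induction J with
  | zero =>
    intro δ lam σ β γ hlam hlδ hδ hβ hγ hγY hσ hQ
    refine Q_mono hQ ?_ ?_ ?_ ?_ hγY
    · simp
    · simp
    · simpa using hσ
    · simp
  | succ J ih =>
    intro δ lam σ β γ hlam hlδ hδ hβ hγ hγY hσ hQ
    have hC0 : 0 < C := by linarith
    have hJ0 : (0 : ℝ) ≤ J := Nat.cast_nonneg J
    have h2J : (1 : ℝ) ≤ 2 ^ (J + 1) := one_le_pow₀ (by norm_num)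
    have hcast : ((J + 1 : ℕ) : ℝ) = J + 1 := by push_cast; ring
    rw [hcast] at hσ hQ
    -- the key inequality
    have hkey : σJ + 3 * J * κ + C * (β + κ + J * κ) * (4 * Y) * J * 2 ^ J / (lam / 2) ≤
        σ - 3 * κ - C * (β + κ) * (4 * Y) / lam := by
      have e1 : C * (β + κ + J * κ) * (4 * Y) * J * 2 ^ J / (lam / 2) =
          (C * (4 * Y) / lam) * ((β + (J + 1) * κ) * J * 2 ^ (J + 1)) := by
        field_simp
        ring
      have e2 : C * (β + κ) * (4 * Y) / lam = (C * (4 * Y) / lam) * (β + κ) := by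
        field_simp
      have e3 : C * (β + (J + 1) * κ) * (4 * Y) * (J + 1) * 2 ^ (J + 1) / lam =
          (C * (4 * Y) / lam) * ((β + (J + 1) * κ) * (J + 1) * 2 ^ (J + 1)) := by
        field_simp
      rw [e1, e2]
      rw [e3] at hσ
      have hc : 0 ≤ C * (4 * Y) / lam := by positivity
      have h3 : (β + (J + 1) * κ) * J * 2 ^ (J + 1) + (β + κ) ≤
          (β + (J + 1) * κ) * (J + 1) * 2 ^ (J + 1) := by
        have h4 : β + κ ≤ (β + (J + 1) * κ) * 2 ^ (J + 1) := by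
          have h5 : β + κ ≤ β + (J + 1) * κ := by nlinarith
          have h6 : 0 ≤ β + (J + 1) * κ := by positivity
          nlinarith
        nlinarith
      have h4 := mul_le_mul_of_nonneg_left h3 hc
      rw [mul_add] at h4
      linarith
    refine hAS δ lam κ Y κ σ (σ - 3 * κ - C * (β + κ) * (4 * Y) / lam) β (β + κ) γ (4 * Y)
      hlam hlδ hδ hκ hκY hκ.le hβ hγ ?_ ?_ le_rfl ?_ ?_ ?_
    · refine le_trans ?_ hkey
      positivity
    · obtain ⟨n₀, h⟩ := hAv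
      refine ⟨n₀, fun n hn d hd _ => Avail_mono (h n hn) ?_ ?_⟩
      · have : (d : ℝ) ≤ n := by
          have := Nat.cast_nonneg (α := ℝ) n
          nlinarith
        exact_mod_cast this
      · have : (d : ℝ) ≤ n := by
          have := Nat.cast_nonneg (α := ℝ) n
          nlinarith
        have : d ≤ n := by exact_mod_cast this
        omega
    · linarith
    · apply le_of_eq
      ring
    · refine ih (51 / 100 * δ) (lam / 2) _ (β + κ) (4 * Y) (by positivity) (by linarith)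
        (by linarith) (by positivity) (by positivity) le_rfl hkey ?_
      have e1 : (51 / 100 : ℝ) ^ J * (51 / 100 * δ) = (51 / 100) ^ (J + 1) * δ := by ring
      have e2 : lam / 2 / 2 ^ J = lam / 2 ^ (J + 1) := by
        rw [pow_succ, div_div, mul_comm (2 : ℝ) (2 ^ J)]
      have e3 : β + κ + J * κ = β + (J + 1) * κ := by ring
      rw [e1, e2, e3]
      exact hQ

/-- the number of rounds of the last phase -/
theorem exists_rounds {ε Y : ℝ} (hε : 0 < ε) (hε1 : ε ≤ 1) (hY : 1 ≤ Y) :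
    ∃ m : ℕ, (3 / 4 : ℝ) ^ m * (4 * Y) ≤ ε / 8 ∧ (2 : ℝ) ^ m ≤ 2 * (32 * Y / ε) ^ 3 := by
  classical
  have hex : ∃ m : ℕ, (3 / 4 : ℝ) ^ m * (4 * Y) ≤ ε / 8 := by
    obtain ⟨m, hm⟩ := exists_pow_lt_of_lt_one (show (0 : ℝ) < ε / 8 / (4 * Y) by positivity)
      (show (3 / 4 : ℝ) < 1 by norm_num)
    refine ⟨m, ?_⟩
    rw [lt_div_iff₀ (by positivity)] at hm
    exact hm.le
  refine ⟨Nat.find hex, Nat.find_spec hex, ?_⟩
  rcases Nat.eq_zero_or_pos (Nat.find hex) with h0 | h0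
  · have := Nat.find_spec hex
    rw [h0] at this
    norm_num at this
    linarith
  · obtain ⟨q, hq⟩ := Nat.exists_eq_succ_of_ne_zero h0.ne'
    have h1 : ¬ (3 / 4 : ℝ) ^ q * (4 * Y) ≤ ε / 8 := Nat.find_min hex (by omega)
    rw [hq, Nat.succ_eq_add_one]
    push Not at h1
    have h2 : (4 / 3 : ℝ) ^ q < 32 * Y / ε := by
      rw [lt_div_iff₀ hε]
      have h3 : (4 / 3 : ℝ) ^ q * (3 / 4) ^ q = 1 := by
        rw [← mul_pow]
        norm_num
      have h4 : (0 : ℝ) < (4 / 3 : ℝ) ^ q := by positivity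
      have h5 := mul_lt_mul_of_pos_left h1 h4
      rw [← mul_assoc, h3] at h5
      linarith
    have h3 : (2 : ℝ) ^ q ≤ ((4 / 3 : ℝ) ^ q) ^ 3 := by
      rw [← pow_mul, mul_comm, pow_mul]
      exact pow_le_pow_left₀ (by norm_num) (by norm_num) q
    have h4 : ((4 / 3 : ℝ) ^ q) ^ 3 ≤ (32 * Y / ε) ^ 3 :=
      pow_le_pow_left₀ (by positivity) h2.le 3
    rw [pow_succ]
    linarith

theorem log_small {K ε : ℝ} (hK : 0 < K) (hε : 0 < ε) :
    ∃ n₀ : ℕ, ∀ n : ℕ, n₀ ≤ n → K * Real.log n ≤ ε * Lam n := by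
  have h := (Real.isLittleO_log_id_atTop.comp_tendsto tendsto_natCast_atTop_atTop).def
    (show (0 : ℝ) < (ε / K) ^ 2 by positivity)
  rw [Filter.eventually_atTop] at h
  obtain ⟨n₀, h⟩ := h
  refine ⟨max n₀ 1, fun n hn => ?_⟩
  have h1 := h n ((le_max_left _ _).trans hn)
  have hn1 : 1 ≤ n := (le_max_right _ _).trans hn
  have hlog : 0 ≤ Real.log n := Real.log_natCast_nonneg n
  simp only [Function.comp, id, Real.norm_eq_abs, abs_of_nonneg hlog, Nat.abs_cast] at h1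
  rw [Lam]
  have h2 : K * Real.log n = Real.sqrt ((K * Real.log n) ^ 2) := by
    rw [Real.sqrt_sq (by positivity)]
  have h3 : ε * Real.sqrt (n * Real.log n) = Real.sqrt (ε ^ 2 * (n * Real.log n)) := by
    rw [Real.sqrt_mul (sq_nonneg ε), Real.sqrt_sq hε.le]
  rw [h2, h3]
  apply Real.sqrt_le_sqrt
  have h4 : K ^ 2 * Real.log n ≤ ε ^ 2 * n := by
    have := mul_le_mul_of_nonneg_left h1 (show (0 : ℝ) ≤ K ^ 2 by positivity)
    rw [div_pow, ← mul_assoc, mul_div_cancel₀ _ (by positivity)] at this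
    exact this
  nlinarith [mul_le_mul_of_nonneg_right h4 hlog]

/-- colourability without deficient edges -/
theorem Col_zero {n d : ℕ} {s : ℝ} (h : Col n d s 0 0) (G : SimpleGraph (Fin n))
    (hG : ∀ v, dg G v ≤ d) (L : Fin n → Fin n → Finset ℕ) (hL : ∀ a b, L a b = L b a)
    (h1 : ∀ a b, G.Adj a b → (d : ℝ) + s ≤ (L a b).card) : LC G L := by
  refine h G hG L hL (fun _ _ => False) (fun _ _ h => h) (fun v => ?_) (fun a b hab _ => h1 a b hab)
    (fun a b _ hF => hF.elim)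
  simp [cnt]

/-- `Q 1 lam₀ ε 0 0` -/
theorem Q_final (hA : T_AS) (hQ : T_AvLQ) (hR : T_RP) {ε lam₀ : ℝ} (hε : 0 < ε) (hε1 : ε ≤ 1)
    (hl : 0 < lam₀) (hl1 : lam₀ ≤ 1) : Q 1 lam₀ ε 0 0 := by
  obtain ⟨CA, hCA, hA⟩ := hA
  obtain ⟨CR, hCR, hR⟩ := hR
  -- choice of `J`
  obtain ⟨J, hJ⟩ : ∃ J : ℕ, CR * Real.sqrt ((51 / 100 : ℝ) ^ J) ≤ ε / 8 := by
    obtain ⟨J, hJ⟩ := exists_pow_lt_of_lt_one (show (0 : ℝ) < (ε / (8 * CR)) ^ 2 by positivity)
      (show (51 / 100 : ℝ) < 1 by norm_num)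
    refine ⟨J, ?_⟩
    have h1 : Real.sqrt ((51 / 100 : ℝ) ^ J) ≤ ε / (8 * CR) := by
      rw [← Real.sqrt_sq (show 0 ≤ ε / (8 * CR) by positivity)]
      exact Real.sqrt_le_sqrt hJ.le
    calc CR * Real.sqrt ((51 / 100 : ℝ) ^ J) ≤ CR * (ε / (8 * CR)) :=
          mul_le_mul_of_nonneg_left h1 (by linarith)
      _ = ε / 8 := by
        field_simp
  set A1 : ℝ := CR * (J / lam₀ * 2 ^ J) * (5 * (2 * (32 / ε) ^ 3)) with hA1
  set A2 : ℝ := 3 * J + CA * J * 4 * J * 2 ^ J / lam₀ with hA2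
  have hA1n : 0 ≤ A1 := by positivity
  have hA2n : 0 ≤ A2 := by positivity
  set η : ℝ := min 1 (ε / (4 * (A1 + A2 + 1))) with hη
  have hη0 : 0 < η := by
    rw [hη]
    apply lt_min one_pos
    positivity
  have hη1 : η ≤ 1 := min_le_left _ _
  have hη2 : (A1 + A2 + 1) * η ≤ ε / 4 := by
    have h1 : η ≤ ε / (4 * (A1 + A2 + 1)) := min_le_right _ _
    calc (A1 + A2 + 1) * η ≤ (A1 + A2 + 1) * (ε / (4 * (A1 + A2 + 1))) :=
          mul_le_mul_of_nonneg_left h1 (by positivity)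
      _ = ε / 4 := by
        field_simp
  obtain ⟨κ, hκ, Y, hY, hκY, hAv⟩ := hQ η hη0
  have hY4 : 1 ≤ Y ^ 4 := one_le_pow₀ hY
  have hκ1 : κ ≤ κ * Y ^ 4 := by nlinarith
  have hκY' : κ ≤ Y := by linarith
  obtain ⟨m, hm1, hm2⟩ := exists_rounds hε hε1 hY
  have hJ0 : (0 : ℝ) ≤ J := Nat.cast_nonneg J
  refine LQ_phase hCA hA hκ hY hκY' hAv (ε / 2) (by positivity) J 1 lam₀ ε 0 0 hl hl1 le_rfl
    le_rfl le_rfl (by positivity) ?_ ?_
  · have h1 : 3 * J * κ + CA * (0 + J * κ) * (4 * Y) * J * 2 ^ J / lam₀ ≤ A2 * (κ * Y ^ 4) := by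
      have h2 : 3 * J * κ ≤ 3 * J * (κ * Y ^ 4) := mul_le_mul_of_nonneg_left hκ1 (by positivity)
      have h3 : CA * (0 + J * κ) * (4 * Y) * J * 2 ^ J / lam₀ =
          (CA * J * 4 * J * 2 ^ J / lam₀) * (κ * Y) := by
        field_simp
        ring
      have h4 : κ * Y ≤ κ * Y ^ 4 := by
        apply mul_le_mul_of_nonneg_left _ hκ.le
        have : Y ^ 1 ≤ Y ^ 4 := pow_le_pow_right₀ hY (by norm_num)
        simpa using this
      have h5 : (CA * J * 4 * J * 2 ^ J / lam₀) * (κ * Y) ≤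
          (CA * J * 4 * J * 2 ^ J / lam₀) * (κ * Y ^ 4) :=
        mul_le_mul_of_nonneg_left h4 (by positivity)
      rw [h3, hA2]
      linarith
    have h6 : A2 * (κ * Y ^ 4) ≤ A2 * η := mul_le_mul_of_nonneg_left hκY hA2n
    have h7 : A2 * η ≤ (A1 + A2 + 1) * η := by
      apply mul_le_mul_of_nonneg_right _ hη0.le
      linarith
    linarith
  · have hlJ : lam₀ / 2 ^ J ≤ (51 / 100 : ℝ) ^ J * 1 := by
      rw [mul_one]
      have h1 : (1 / 2 : ℝ) ^ J ≤ (51 / 100) ^ J := pow_le_pow_left₀ (by norm_num) (by norm_num) J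
      calc lam₀ / 2 ^ J ≤ 1 / 2 ^ J := by gcongr
        _ = (1 / 2 : ℝ) ^ J := by rw [one_div_pow]
        _ ≤ _ := h1
    refine hR m ((51 / 100) ^ J * 1) (lam₀ / 2 ^ J) (ε / 2) (0 + J * κ) (4 * Y) (by positivity)
      hlJ ?_ (by positivity) (by positivity) ?_
    · rw [mul_one]
      exact pow_le_one₀ (by norm_num) (by norm_num)
    · have h1 : CR * ((0 + J * κ) / (lam₀ / 2 ^ J)) * (4 * Y + 1) * 2 ^ m ≤ A1 * (κ * Y ^ 4) := by
        have h2 : CR * ((0 + J * κ) / (lam₀ / 2 ^ J)) * (4 * Y + 1) * 2 ^ m ≤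
            CR * ((0 + J * κ) / (lam₀ / 2 ^ J)) * (5 * Y) * (2 * (32 * Y / ε) ^ 3) := by
          gcongr
          linarith
        have h3 : CR * ((0 + J * κ) / (lam₀ / 2 ^ J)) * (5 * Y) * (2 * (32 * Y / ε) ^ 3) =
            A1 * (κ * Y ^ 4) := by
          rw [hA1]
          field_simp
          ring
        linarith
      have h6 : A1 * (κ * Y ^ 4) ≤ A1 * η := mul_le_mul_of_nonneg_left hκY hA1n
      have h7 : A1 * η ≤ (A1 + A2 + 1) * η := by
        apply mul_le_mul_of_nonneg_right _ hη0.le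
        linarith
      rw [mul_one]
      linarith

end DD

open DD in
/-- Theorem D -/
theorem D_of (hA : T_AS) (hQ : T_AvLQ) (hR : T_RP) (hS : T_S) : T_D := by
  intro ε₀ hε₀
  obtain ⟨K, hK, hS⟩ := hS
  set ε : ℝ := min ε₀ 1 with hεdef
  have hε : 0 < ε := lt_min hε₀ one_pos
  have hε1 : ε ≤ 1 := min_le_right _ _
  have hεε : ε ≤ ε₀ := min_le_left _ _
  set lam₀ : ℝ := (ε / (2 * K)) ^ 2 with hlam
  have hl : 0 < lam₀ := by positivity
  have hl1 : lam₀ ≤ 1 := by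
    rw [hlam]
    apply pow_le_one₀ (by positivity)
    rw [div_le_one (by positivity)]
    linarith
  obtain ⟨n₁, h1⟩ := Q_final hA hQ hR hε hε1 hl hl1
  obtain ⟨n₂, h2⟩ := log_small (K := K) (ε := ε / 2) (by linarith) (by positivity)
  refine ⟨max (max n₁ n₂) 2, fun n hn d G hG L hL hc => ?_⟩
  have hn1 : n₁ ≤ n := (le_max_left _ _).trans ((le_max_left _ _).trans hn)
  have hn2 : n₂ ≤ n := (le_max_right _ _).trans ((le_max_left _ _).trans hn)
  have hn3 : 2 ≤ n := (le_max_right _ _).trans hn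
  have hLn := Lam_nonneg n
  have hc' : ∀ a b, G.Adj a b → (d : ℝ) + ε * Lam n ≤ (L a b).card := fun a b hab => by
    have := hc a b hab
    have := mul_le_mul_of_nonneg_right hεε hLn
    linarith
  rcases lt_or_ge (d : ℝ) (lam₀ * n) with hd | hd
  · -- few colours
    have hlog : 0 ≤ Real.log n := Real.log_natCast_nonneg n
    have h3 : K * Real.sqrt (d * Real.log n) ≤ ε / 2 * Lam n := by
      have h4 : Real.sqrt (d * Real.log n) ≤ (ε / (2 * K)) * Lam n := by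
        rw [Lam, ← Real.sqrt_sq (show 0 ≤ ε / (2 * K) by positivity),
          ← Real.sqrt_mul (by positivity)]
        apply Real.sqrt_le_sqrt
        rw [← mul_assoc]
        exact mul_le_mul_of_nonneg_right hd.le hlog
      calc K * Real.sqrt (d * Real.log n) ≤ K * ((ε / (2 * K)) * Lam n) :=
            mul_le_mul_of_nonneg_left h4 (by linarith)
        _ = ε / 2 * Lam n := by
          field_simp
    have h4 := h2 n hn2
    exact Col_zero (hS n hn3 d) G hG L hL fun a b hab => by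
      have := hc' a b hab
      linarith
  · rcases le_or_gt d n with hdn | hdn
    · have h3 := h1 n hn1 d hd (by rw [one_mul]; exact_mod_cast hdn)
      rw [zero_mul, zero_mul] at h3
      exact Col_zero h3 G hG L hL hc'
    · have h3 := h1 n hn1 n (by
        have := Nat.cast_nonneg (α := ℝ) n
        nlinarith) (by rw [one_mul])
      rw [zero_mul, zero_mul] at h3
      refine Col_zero h3 G (fun v => ?_) L hL fun a b hab => ?_
      · have h5 := Finset.card_le_univ (nb G v)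
        rw [Fintype.card_fin] at h5
        exact h5
      · have := hc' a b hab
        have h5 : (n : ℝ) ≤ d := by exact_mod_cast hdn.le
        linarith

end Pool.Agent.H162R2.AG
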