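import Mathlib
import Pool.Agent.H162R2.AG.Stmts

/-!
# Greedy colouring and splitting (task GR, helper89)
-/

set_option autoImplicit false

namespace Pool.Agent.H162R2.AG

open Finset Pool.Agent.H162R2.Sparse

theorem GR : T_GR := by
  intro V _ _ G d hdg L hsym hL
  classical
  have key : ∀ (n : ℕ) (G : SimpleGraph V), (pr G).card = n → (∀ v, dg G v ≤ d) →
      (∀ a b, G.Adj a b → 2 * d ≤ (L a b).card) → LC G L := by
    intro n
    induction n using Nat.strong_induction_on with
    | _ n ih =>
      intro G hn hdg hL
      by_cases hedge : ∃ u v, G.Adj u v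
      · obtain ⟨u, v, huv⟩ := hedge
        have hmono : ∀ a b, (cutE G u v).Adj a b → G.Adj a b := by
          intro a b h
          exact ((cutE_adj G u v a b).1 h).1
        apply ext_edge G u v huv L hsym
        · have h1 := hdg u
          have h2 := hdg v
          have h3 := hL u v huv
          omega
        · apply ih (pr (cutE G u v)).card _ (cutE G u v) rfl
          · intro w
            exact (dg_mono hmono w).trans (hdg w)
          · intro x y hxy
            exact hL x y (hmono x y hxy)
          · rw [← hn]
            apply pr_card_lt hmono u v huv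
            rw [cutE_adj]
            tauto
      · push Not at hedge
        exact ⟨fun _ _ => 0, fun x y h => absurd h (hedge x y), fun x y h => absurd h (hedge x y),
          fun x y z h => absurd h (hedge x y)⟩
  exact key _ G rfl hdg hL

theorem LR : T_LR := by
  intro V _ _ G G₁ G₂ L P _ hG h1 h2
  classical
  obtain ⟨f₁, ha1, hb1, hc1⟩ := h1
  obtain ⟨f₂, ha2, hb2, hc2⟩ := h2
  have hor : ∀ a b, G.Adj a b → ¬ G₁.Adj a b → G₂.Adj a b := by
    intro a b h h'
    exact (hG a b h).resolve_left h'
  refine ⟨fun a b => if G₁.Adj a b then f₁ a b else f₂ a b, ?_, ?_, ?_⟩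
  · intro a b hab
    simp only
    by_cases h : G₁.Adj a b
    · rw [if_pos h, if_pos h.symm]
      exact ha1 a b h
    · rw [if_neg h, if_neg (fun h' => h h'.symm)]
      exact ha2 a b (hor a b hab h)
  · intro a b hab
    simp only
    by_cases h : G₁.Adj a b
    · rw [if_pos h]
      exact (Finset.mem_filter.1 (hb1 a b h)).1
    · rw [if_neg h]
      exact (Finset.mem_filter.1 (hb2 a b (hor a b hab h))).1
  · intro a b c hab hac hbc
    simp only
    by_cases h : G₁.Adj a b
    · by_cases h' : G₁.Adj a c
      · rw [if_pos h, if_pos h']
        exact hc1 a b c h h' hbc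
      · rw [if_pos h, if_neg h']
        intro he
        have h3 := (Finset.mem_filter.1 (hb1 a b h)).2
        have h4 := (Finset.mem_filter.1 (hb2 a c (hor a c hac h'))).2
        rw [← he] at h4
        exact h4 h3
    · by_cases h' : G₁.Adj a c
      · rw [if_neg h, if_pos h']
        intro he
        have h3 := (Finset.mem_filter.1 (hb1 a c h')).2
        have h4 := (Finset.mem_filter.1 (hb2 a b (hor a b hab h))).2
        rw [he] at h4
        exact h4 h3
      · rw [if_neg h, if_neg h']
        exact hc2 a b c (hor a b hab h) (hor a c hac h') hbc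

end Pool.Agent.H162R2.AG
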