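import Pool.Agent.H162R2.AG.Stmts
import Pool.Agent.H150R2.Konig

set_option autoImplicit false

/-! König's edge colouring theorem for bipartite graphs (helper540). -/

namespace Pool.Agent.H162R2.AG

open Finset

theorem k1_fill {V : Type} [Fintype V] [DecidableEq V] (D : ℕ) : ∀ (t : ℕ) (M : V → V → ℕ),
    (∀ v, ∑ w, M v w ≤ D) → (∀ w, ∑ v, M v w ≤ D) →
    (∑ v, ∑ w, M v w) + t = D * Fintype.card V →
    ∃ M' : V → V → ℕ, (∀ v w, M v w ≤ M' v w) ∧ (∀ v, ∑ w, M' v w = D) ∧
      (∀ w, ∑ v, M' v w = D) := by
  intro t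
  induction t with
  | zero =>
    intro M hr hc ht
    have hD : ∑ _v : V, D = D * Fintype.card V := by simp [mul_comm]
    refine ⟨M, fun _ _ => le_rfl, ?_, ?_⟩
    · have h1 : ∑ v, ∑ w, M v w = ∑ _v : V, D := by rw [hD]; simpa using ht
      exact fun v => (Finset.sum_eq_sum_iff_of_le (fun v _ => hr v)).1 h1 v (mem_univ v)
    · have h1 : ∑ w, ∑ v, M v w = ∑ _w : V, D := by
        rw [Finset.sum_comm, hD]; simpa using ht
      exact fun w => (Finset.sum_eq_sum_iff_of_le (fun w _ => hc w)).1 h1 w (mem_univ w)
  | succ t ih =>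
    intro M hr hc ht
    have hD : ∑ _v : V, D = D * Fintype.card V := by simp [mul_comm]
    obtain ⟨v, -, hv⟩ : ∃ v ∈ (univ : Finset V), ∑ w, M v w < D := by
      apply Finset.exists_lt_of_sum_lt
      rw [hD]; omega
    obtain ⟨w, -, hw⟩ : ∃ w ∈ (univ : Finset V), ∑ v, M v w < D := by
      apply Finset.exists_lt_of_sum_lt
      rw [hD, Finset.sum_comm]; omega
    set M1 : V → V → ℕ := fun a b => M a b + if a = v then (if b = w then 1 else 0) else 0
      with hM1
    have hrow : ∀ a, ∑ b, M1 a b = ∑ b, M a b + if a = v then 1 else 0 := by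
      intro a
      rw [hM1, Finset.sum_add_distrib]
      congr 1
      by_cases h : a = v <;> simp [h]
    have hcol : ∀ b, ∑ a, M1 a b = ∑ a, M a b + if b = w then 1 else 0 := by
      intro b
      rw [hM1, Finset.sum_add_distrib]
      congr 1
      simp
    obtain ⟨M', h1, h2, h3⟩ := ih M1
      (by
        intro a
        rw [hrow]
        by_cases h : a = v
        · subst h; rw [if_pos rfl]; omega
        · rw [if_neg h]; exact hr a)
      (by
        intro b
        rw [hcol]
        by_cases h : b = w
        · subst h; rw [if_pos rfl]; omega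
        · rw [if_neg h]; exact hc b)
      (by
        have : ∑ a, ∑ b, M1 a b = ∑ a, ∑ b, M a b + 1 := by
          simp_rw [hrow]
          rw [Finset.sum_add_distrib]
          simp
        rw [this]; omega)
    exact ⟨M', fun a b => le_trans (Nat.le_add_right _ _) (h1 a b), h2, h3⟩

theorem K1 : T_K1 := by
  classical
  intro V _ _ E D hl hr
  set M0 : V → V → ℕ := fun v w => if (v, w) ∈ E then 1 else 0 with hM0
  have hrow : ∀ v, ∑ w, M0 v w ≤ D := by
    intro v
    refine le_trans (le_of_eq ?_) (hl v)
    rw [hM0]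
    simp only
    rw [← Finset.card_filter]
    refine Finset.card_bij (fun w _ => (v, w)) ?_ ?_ ?_
    · intro w hw
      simp only [mem_filter, mem_univ, true_and] at hw ⊢
      exact ⟨hw, trivial⟩
    · intro a _ b _ h
      exact (Prod.mk.inj h).2
    · rintro ⟨a, b⟩ h
      simp only [mem_filter] at h
      obtain ⟨h1, h2⟩ := h
      subst h2
      exact ⟨b, by simpa using h1, rfl⟩
  have hcol : ∀ w, ∑ v, M0 v w ≤ D := by
    intro w
    refine le_trans (le_of_eq ?_) (hr w)
    rw [hM0]
    simp only
    rw [← Finset.card_filter]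
    refine Finset.card_bij (fun v _ => (v, w)) ?_ ?_ ?_
    · intro v hv
      simp only [mem_filter, mem_univ, true_and] at hv ⊢
      exact ⟨hv, trivial⟩
    · intro a _ b _ h
      exact (Prod.mk.inj h).1
    · rintro ⟨a, b⟩ h
      simp only [mem_filter] at h
      obtain ⟨h1, h2⟩ := h
      subst h2
      exact ⟨a, by simpa using h1, rfl⟩
  have htot : ∑ v, ∑ w, M0 v w ≤ D * Fintype.card V := by
    calc ∑ v, ∑ w, M0 v w ≤ ∑ _v : V, D := Finset.sum_le_sum fun v _ => hrow v
      _ = D * Fintype.card V := by simp [mul_comm]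
  obtain ⟨M', h1, h2, h3⟩ := k1_fill D (D * Fintype.card V - ∑ v, ∑ w, M0 v w) M0 hrow hcol
    (by omega)
  obtain ⟨σ, hσ⟩ := Pool.Agent.H150R2.ZSF.koenig D M' h2 h3
  have hex : ∀ e ∈ E, ∃ i : Fin D, σ i e.1 = e.2 := by
    intro e he
    have h4 : 1 ≤ M' e.1 e.2 := by
      refine le_trans (le_of_eq ?_) (h1 e.1 e.2)
      rw [hM0]
      simp only
      rw [if_pos (by exact he)]
    rw [hσ] at h4
    by_contra hcon
    push Not at hcon
    simp [hcon] at h4
  refine ⟨fun e => if h : ∃ i : Fin D, σ i e.1 = e.2 then (Classical.choose h).val else 0,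
    ?_, ?_⟩
  · intro e he
    simp only
    rw [dif_pos (hex e he)]
    exact (Classical.choose (hex e he)).isLt
  · intro e he e' he' hne hsh heq
    simp only at heq
    rw [dif_pos (hex e he), dif_pos (hex e' he')] at heq
    have hi := Classical.choose_spec (hex e he)
    have hi' := Classical.choose_spec (hex e' he')
    have hij : Classical.choose (hex e he) = Classical.choose (hex e' he') := Fin.ext heq
    rw [← hij] at hi'
    clear hij heq
    generalize Classical.choose (hex e he) = i at hi hi'
    apply hne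
    rcases hsh with h | h
    · exact Prod.ext h (by rw [← hi, ← hi', h])
    · refine Prod.ext ?_ h
      apply (σ i).injective
      rw [hi, hi', h]

end Pool.Agent.H162R2.AG
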