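import Mathlib
import Pool.Agent.H162R2.AG.Stmts

/-!
# Galvin's theorem with some shorter lists (K2)
-/

set_option autoImplicit false

namespace Pool.Agent.H162R2.AG

open Finset Pool.Agent.H162R2.Sparse

private theorem K2_key {V : Type} [Fintype V] [DecidableEq V] (a b : V × V → ℕ) :
    ∃ p : V × V → ℕ, Function.Injective p ∧
      ∀ f e, p f < p e → a f < a e ∨ (a f = a e ∧ b f ≤ b e) := by
  classical
  set K := (Finset.univ.sup b) + 1 with hK
  set N := Fintype.card (V × V) with hN
  let eqv := Fintype.equivFin (V × V)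
  have hb : ∀ e, b e < K := fun e => Nat.lt_succ_of_le (Finset.le_sup (Finset.mem_univ e))
  have hi : ∀ e, (eqv e : ℕ) < N := fun e => (eqv e).2
  refine ⟨fun e => (a e * K + b e) * N + (eqv e : ℕ), ?_, ?_⟩
  · intro e f hef
    have h1 : ((a e * K + b e) * N + (eqv e : ℕ)) % N = ((a f * K + b f) * N + (eqv f : ℕ)) % N :=
      congrArg (fun t => t % N) hef
    rw [Nat.mul_add_mod', Nat.mul_add_mod', Nat.mod_eq_of_lt (hi e), Nat.mod_eq_of_lt (hi f)] at h1
    exact eqv.injective (Fin.ext h1)
  · intro f e h
    by_contra hcon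
    push Not at hcon
    obtain ⟨h1, h2⟩ := hcon
    have h3 : a e * K + b e + 1 ≤ a f * K + b f := by
      rcases Nat.lt_or_ge (a e) (a f) with h4 | h4
      · have h5 : (a e + 1) * K ≤ a f * K := Nat.mul_le_mul_right _ h4
        have := hb e
        nlinarith
      · have h5 : a f = a e := le_antisymm h4 h1
        have := h2 h5
        rw [h5]
        omega
    have h4 : (a e * K + b e + 1) * N ≤ (a f * K + b f) * N := Nat.mul_le_mul_right _ h3
    have h5 := hi e
    have h6 : (a f * K + b f) * N + (eqv f : ℕ) < (a e * K + b e) * N + (eqv e : ℕ) := h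
    rw [Nat.add_mul, Nat.one_mul] at h4
    omega

theorem K2 : T_K2 := by
  classical
  intro V _ _ E D y φ c h F L hcD hc hy hF1 hF2 hL1 hL2
  set M := Finset.univ.sup (fun e : V × V => h (c e)) with hM
  have hMle : ∀ e, h (c e) ≤ M := fun e => Finset.le_sup (f := fun e : V × V => h (c e))
    (Finset.mem_univ e)
  obtain ⟨pu, hpi, hpu⟩ := K2_key (fun e => 2 * h (c e) + (if F e then 0 else 3)) c
  obtain ⟨qw, hqi, hqw⟩ := K2_key (fun e => 2 * (M - h (c e)) + (if F e then 0 else 3))
    (fun e => D - c e)
  have hcnt1 : ∀ (u : V) (P : ℕ → Prop) [DecidablePred P],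
      (E.filter (fun f => f.1 = u ∧ P (c f))).card ≤ ((range D).filter P).card := by
    intro u P _
    apply Finset.card_le_card_of_injOn c
    · intro f hf
      have hf' := Finset.mem_filter.1 hf
      exact Finset.mem_coe.2 (Finset.mem_filter.2 ⟨Finset.mem_range.2 (hcD f hf'.1), hf'.2.2⟩)
    · intro f hf f' hf' heq
      have h1 := Finset.mem_filter.1 (Finset.mem_coe.1 hf)
      have h2 := Finset.mem_filter.1 (Finset.mem_coe.1 hf')
      by_contra hne
      exact hc f h1.1 f' h2.1 hne (Or.inl (h1.2.1.trans h2.2.1.symm)) heq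
  have hcnt2 : ∀ (u : V) (P : ℕ → Prop) [DecidablePred P],
      (E.filter (fun f => f.2 = u ∧ P (c f))).card ≤ ((range D).filter P).card := by
    intro u P _
    apply Finset.card_le_card_of_injOn c
    · intro f hf
      have hf' := Finset.mem_filter.1 hf
      exact Finset.mem_coe.2 (Finset.mem_filter.2 ⟨Finset.mem_range.2 (hcD f hf'.1), hf'.2.2⟩)
    · intro f hf f' hf' heq
      have h1 := Finset.mem_filter.1 (Finset.mem_coe.1 hf)
      have h2 := Finset.mem_filter.1 (Finset.mem_coe.1 hf')
      by_contra hne
      exact hc f h1.1 f' h2.1 hne (Or.inr (h1.2.1.trans h2.2.1.symm)) heq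
  apply list_colour pu qw hpi hqi _ E L rfl
  intro e he
  have hce := hcD e he
  by_cases hFe : F e
  · -- short lists
    have hsub : E.filter (fun f => Dom pu qw f e) ⊆
        ((E.filter (fun f => f.1 = e.1 ∧ h (c f) + 2 ≤ h (c e))) ∪
          (E.filter (fun f => f.2 = e.2 ∧ h (c e) + 2 ≤ h (c f)))) ∪
        (((E.filter (fun f => f.1 = e.1 ∧ F f ∧ h (c f) = h (c e))) ∪
            (E.filter (fun f => f.1 = e.1 ∧ F f ∧ h (c f) = h (c e) - 1))).erase e ∪
          ((E.filter (fun f => f.2 = e.2 ∧ F f ∧ h (c f) = h (c e))) ∪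
            (E.filter (fun f => f.2 = e.2 ∧ F f ∧ h (c f) = h (c e) + 1))).erase e) := by
      intro f hf
      obtain ⟨hfE, hfd⟩ := Finset.mem_filter.1 hf
      have hMf := hMle f
      have hMe := hMle e
      simp only [Finset.mem_union, Finset.mem_erase, Finset.mem_filter]
      rcases hfd with ⟨h1, h2⟩ | ⟨h1, h2⟩
      · have hfe : f ≠ e := fun h => by rw [h] at h2; exact lt_irrefl _ h2
        have h3 := hpu f e h2
        simp only [if_pos hFe] at h3
        by_cases hFf : F f
        · simp only [if_pos hFf] at h3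
          by_cases h4 : h (c f) + 2 ≤ h (c e)
          · exact Or.inl (Or.inl ⟨hfE, h1, h4⟩)
          · right; left
            refine ⟨hfe, ?_⟩
            by_cases h5 : h (c f) = h (c e)
            · exact Or.inl ⟨hfE, h1, hFf, h5⟩
            · exact Or.inr ⟨hfE, h1, hFf, by omega⟩
        · simp only [if_neg hFf] at h3
          exact Or.inl (Or.inl ⟨hfE, h1, by omega⟩)
      · have hfe : f ≠ e := fun h => by rw [h] at h2; exact lt_irrefl _ h2
        have h3 := hqw f e h2
        simp only [if_pos hFe] at h3
        by_cases hFf : F f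
        · simp only [if_pos hFf] at h3
          by_cases h4 : h (c e) + 2 ≤ h (c f)
          · exact Or.inl (Or.inr ⟨hfE, h1, h4⟩)
          · right; right
            refine ⟨hfe, ?_⟩
            by_cases h5 : h (c f) = h (c e)
            · exact Or.inl ⟨hfE, h1, hFf, h5⟩
            · exact Or.inr ⟨hfE, h1, hFf, by omega⟩
        · simp only [if_neg hFf] at h3
          exact Or.inl (Or.inr ⟨hfE, h1, by omega⟩)
    have hA := hcnt1 e.1 (fun j => h j + 2 ≤ h (c e))
    have hB := hcnt2 e.2 (fun j => h (c e) + 2 ≤ h j)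
    have hAB : ((range D).filter (fun j => h j + 2 ≤ h (c e))).card +
        ((range D).filter (fun j => h (c e) + 2 ≤ h j)).card +
        ((range D).filter (fun j => h j = h (c e))).card ≤ D := by
      rw [← Finset.card_union_of_disjoint, ← Finset.card_union_of_disjoint]
      · refine (Finset.card_le_card (?_ : _ ⊆ range D)).trans (by simp)
        intro j hj
        simp only [Finset.mem_union, Finset.mem_filter] at hj
        rcases hj with (hj | hj) | hj <;> exact hj.1
      · rw [Finset.disjoint_left]
        intro j hj1 hj2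
        simp only [Finset.mem_union, Finset.mem_filter] at hj1 hj2
        omega
      · rw [Finset.disjoint_left]
        intro j hj1 hj2
        simp only [Finset.mem_filter] at hj1 hj2
        omega
    have hy' := hy (c e) hce
    have hC : ((((E.filter (fun f => f.1 = e.1 ∧ F f ∧ h (c f) = h (c e))) ∪
            (E.filter (fun f => f.1 = e.1 ∧ F f ∧ h (c f) = h (c e) - 1))).erase e)).card + 1
            ≤ 2 * φ := by
      rw [Finset.card_erase_add_one (Finset.mem_union_left _
        (Finset.mem_filter.2 ⟨he, rfl, hFe, rfl⟩))]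
      refine (Finset.card_union_le _ _).trans ?_
      have h1 := hF1 e.1 (h (c e))
      have h2 := hF1 e.1 (h (c e) - 1)
      omega
    have hD : ((((E.filter (fun f => f.2 = e.2 ∧ F f ∧ h (c f) = h (c e))) ∪
            (E.filter (fun f => f.2 = e.2 ∧ F f ∧ h (c f) = h (c e) + 1))).erase e)).card + 1
            ≤ 2 * φ := by
      rw [Finset.card_erase_add_one (Finset.mem_union_left _
        (Finset.mem_filter.2 ⟨he, rfl, hFe, rfl⟩))]
      refine (Finset.card_union_le _ _).trans ?_
      have h1 := hF2 e.2 (h (c e))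
      have h2 := hF2 e.2 (h (c e) + 1)
      omega
    have h0 := Finset.card_le_card hsub
    have h1 := h0.trans (Finset.card_union_le _ _)
    have h2 := Finset.card_union_le
      (E.filter (fun f => f.1 = e.1 ∧ h (c f) + 2 ≤ h (c e)))
      (E.filter (fun f => f.2 = e.2 ∧ h (c e) + 2 ≤ h (c f)))
    have h3 := Finset.card_union_le
      (((E.filter (fun f => f.1 = e.1 ∧ F f ∧ h (c f) = h (c e))) ∪
            (E.filter (fun f => f.1 = e.1 ∧ F f ∧ h (c f) = h (c e) - 1))).erase e)
      (((E.filter (fun f => f.2 = e.2 ∧ F f ∧ h (c f) = h (c e))) ∪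
            (E.filter (fun f => f.2 = e.2 ∧ F f ∧ h (c f) = h (c e) + 1))).erase e)
    have h4 := hL2 e he hFe
    omega
  · -- full lists
    have hsub : E.filter (fun f => Dom pu qw f e) ⊆
        ((E.filter (fun f => f.1 = e.1 ∧ (h (c f) < h (c e) ∨ (h (c f) = h (c e) ∧ c f < c e)))) ∪
          (E.filter (fun f => f.2 = e.2 ∧
            (h (c e) < h (c f) ∨ (h (c f) = h (c e) ∧ c e < c f))))) ∪
        (((E.filter (fun f => f.1 = e.1 ∧ F f ∧ h (c f) = h (c e))) ∪
            (E.filter (fun f => f.1 = e.1 ∧ F f ∧ h (c f) = h (c e) + 1))) ∪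
          ((E.filter (fun f => f.2 = e.2 ∧ F f ∧ h (c f) = h (c e))) ∪
            (E.filter (fun f => f.2 = e.2 ∧ F f ∧ h (c f) = h (c e) - 1)))) := by
      intro f hf
      obtain ⟨hfE, hfd⟩ := Finset.mem_filter.1 hf
      have hMf := hMle f
      have hMe := hMle e
      have hcf := hcD f hfE
      simp only [Finset.mem_union, Finset.mem_filter]
      rcases hfd with ⟨h1, h2⟩ | ⟨h1, h2⟩
      · have hfe : f ≠ e := fun h => by rw [h] at h2; exact lt_irrefl _ h2
        have hcfe : c f ≠ c e := hc f hfE e he hfe (Or.inl h1)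
        have h3 := hpu f e h2
        simp only [if_neg hFe] at h3
        by_cases hFf : F f
        · simp only [if_pos hFf] at h3
          by_cases h4 : h (c f) < h (c e)
          · exact Or.inl (Or.inl ⟨hfE, h1, Or.inl h4⟩)
          · right; left
            by_cases h5 : h (c f) = h (c e)
            · exact Or.inl ⟨hfE, h1, hFf, h5⟩
            · exact Or.inr ⟨hfE, h1, hFf, by omega⟩
        · simp only [if_neg hFf] at h3
          exact Or.inl (Or.inl ⟨hfE, h1, by omega⟩)
      · have hfe : f ≠ e := fun h => by rw [h] at h2; exact lt_irrefl _ h2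
        have hcfe : c f ≠ c e := hc f hfE e he hfe (Or.inr h1)
        have h3 := hqw f e h2
        simp only [if_neg hFe] at h3
        by_cases hFf : F f
        · simp only [if_pos hFf] at h3
          by_cases h4 : h (c e) < h (c f)
          · exact Or.inl (Or.inr ⟨hfE, h1, Or.inl h4⟩)
          · right; right
            by_cases h5 : h (c f) = h (c e)
            · exact Or.inl ⟨hfE, h1, hFf, h5⟩
            · exact Or.inr ⟨hfE, h1, hFf, by omega⟩
        · simp only [if_neg hFf] at h3
          exact Or.inl (Or.inr ⟨hfE, h1, by omega⟩)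
    have hA := hcnt1 e.1 (fun j => h j < h (c e) ∨ (h j = h (c e) ∧ j < c e))
    have hB := hcnt2 e.2 (fun j => h (c e) < h j ∨ (h j = h (c e) ∧ c e < j))
    have hAB : ((range D).filter (fun j => h j < h (c e) ∨ (h j = h (c e) ∧ j < c e))).card +
        ((range D).filter (fun j => h (c e) < h j ∨ (h j = h (c e) ∧ c e < j))).card + 1
         ≤ D := by
      rw [← Finset.card_union_of_disjoint]
      · have h1 : ((range D).filter (fun j => h j < h (c e) ∨ (h j = h (c e) ∧ j < c e))) ∪
          ((range D).filter (fun j => h (c e) < h j ∨ (h j = h (c e) ∧ c e < j))) ⊆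
            (range D).erase (c e) := by
          intro j hj
          simp only [Finset.mem_union, Finset.mem_filter] at hj
          rw [Finset.mem_erase]
          refine ⟨?_, by rcases hj with hj | hj <;> exact hj.1⟩
          rintro rfl
          omega
        have h2 := Finset.card_le_card h1
        rw [Finset.card_erase_of_mem (Finset.mem_range.2 hce), Finset.card_range] at h2
        omega
      · rw [Finset.disjoint_left]
        intro j hj1 hj2
        simp only [Finset.mem_filter] at hj1 hj2
        omega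
    have hC := Finset.card_union_le (E.filter (fun f => f.1 = e.1 ∧ F f ∧ h (c f) = h (c e)))
            (E.filter (fun f => f.1 = e.1 ∧ F f ∧ h (c f) = h (c e) + 1))
    have hD := Finset.card_union_le (E.filter (fun f => f.2 = e.2 ∧ F f ∧ h (c f) = h (c e)))
            (E.filter (fun f => f.2 = e.2 ∧ F f ∧ h (c f) = h (c e) - 1))
    have e1 := hF1 e.1 (h (c e))
    have e2 := hF1 e.1 (h (c e) + 1)
    have e3 := hF2 e.2 (h (c e))
    have e4 := hF2 e.2 (h (c e) - 1)
    have h0 := Finset.card_le_card hsub
    have h1 := h0.trans (Finset.card_union_le _ _)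
    have h2 := Finset.card_union_le
      (E.filter (fun f => f.1 = e.1 ∧ (h (c f) < h (c e) ∨ (h (c f) = h (c e) ∧ c f < c e))))
      (E.filter (fun f => f.2 = e.2 ∧ (h (c e) < h (c f) ∨ (h (c f) = h (c e) ∧ c e < c f))))
    have h3 := Finset.card_union_le
      ((E.filter (fun f => f.1 = e.1 ∧ F f ∧ h (c f) = h (c e))) ∪
            (E.filter (fun f => f.1 = e.1 ∧ F f ∧ h (c f) = h (c e) + 1)))
      ((E.filter (fun f => f.2 = e.2 ∧ F f ∧ h (c f) = h (c e))) ∪
            (E.filter (fun f => f.2 = e.2 ∧ F f ∧ h (c f) = h (c e) - 1)))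
    have h4 := hL1 e he hFe
    omega

end Pool.Agent.H162R2.AG
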