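import Mathlib
import Pool.Agent.H162R2.AG.Stmts

/-!
# Random blocks of colours (task K3, helper439)
-/

set_option autoImplicit false

namespace Pool.Agent.H162R2.AG

open Finset

/-- exponential moment of the number of elements of `S` which are mapped to `i` -/
theorem k3_mgf (D B : ℕ) (hB : 0 < B) (S : Finset (Fin D)) (i : Fin B) (t : ℝ) :
    ∑ ω : Fin D → Fin B, Real.exp (t * ((S.filter (fun j => ω j = i)).card : ℝ)) ≤
      (B : ℝ) ^ D * Real.exp (S.card * ((Real.exp t - 1) / B)) := by
  classical
  have hB' : (0 : ℝ) < B := by exact_mod_cast hB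
  have h1 : ∀ ω : Fin D → Fin B,
      Real.exp (t * ((S.filter (fun j => ω j = i)).card : ℝ)) =
        ∏ j : Fin D, (if j ∈ S ∧ ω j = i then Real.exp t else 1) := by
    intro ω
    rw [Finset.prod_ite, Finset.prod_const, Finset.prod_const_one, mul_one, mul_comm,
      Real.exp_nat_mul]
    congr 2
    ext j
    simp
  have h2 : ∑ ω : Fin D → Fin B, Real.exp (t * ((S.filter (fun j => ω j = i)).card : ℝ)) =
      ∏ j : Fin D, ∑ b : Fin B, (if j ∈ S ∧ b = i then Real.exp t else 1) := by
    rw [Finset.prod_univ_sum, Fintype.piFinset_univ]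
    exact Finset.sum_congr rfl (fun ω _ => h1 ω)
  rw [h2]
  have h3 : ∀ j : Fin D, ∑ b : Fin B, (if j ∈ S ∧ b = i then Real.exp t else 1) ≤
      (B : ℝ) * (if j ∈ S then Real.exp ((Real.exp t - 1) / B) else 1) := by
    intro j
    by_cases hj : j ∈ S
    · have h4 : ∑ b : Fin B, (if j ∈ S ∧ b = i then Real.exp t else 1) =
          (B : ℝ) + (Real.exp t - 1) := by
        have h5 : ∀ b : Fin B, (if j ∈ S ∧ b = i then Real.exp t else (1 : ℝ)) =
            1 + (if b = i then Real.exp t - 1 else 0) := by
          intro b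
          by_cases hb : b = i
          · simp [hj, hb]
          · simp [hb]
        rw [Finset.sum_congr rfl (fun b _ => h5 b), Finset.sum_add_distrib]
        simp
      rw [h4, if_pos hj]
      have h6 := Real.add_one_le_exp ((Real.exp t - 1) / B)
      calc (B : ℝ) + (Real.exp t - 1) = B * ((Real.exp t - 1) / B + 1) := by
            field_simp
            ring
        _ ≤ B * Real.exp ((Real.exp t - 1) / B) := by
            exact mul_le_mul_of_nonneg_left h6 hB'.le
    · simp [hj]
  refine le_trans (Finset.prod_le_prod (fun j _ => ?_) (fun j _ => h3 j)) (le_of_eq ?_)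
  · refine Finset.sum_nonneg (fun b _ => ?_)
    split_ifs
    · exact (Real.exp_pos _).le
    · exact zero_le_one
  · rw [Finset.prod_mul_distrib, Finset.prod_const, Finset.prod_ite, Finset.prod_const,
      Finset.prod_const_one, mul_one, ← Real.exp_nat_mul]
    simp

/-- upper tail -/
theorem k3_up (D B : ℕ) (hB : 0 < B) (S : Finset (Fin D)) (i : Fin B) (φ : ℝ) :
    cnt (fun ω : Fin D → Fin B => φ < ((S.filter (fun j => ω j = i)).card : ℝ)) ≤
      (B : ℝ) ^ D * Real.exp (2 * S.card / B - φ) := by
  classical
  have hB' : (0 : ℝ) < B := by exact_mod_cast hB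
  have h1 := k3_mgf D B hB S i 1
  have h2 : Real.exp φ *
      cnt (fun ω : Fin D → Fin B => φ < ((S.filter (fun j => ω j = i)).card : ℝ)) ≤
      ∑ ω : Fin D → Fin B, Real.exp (1 * ((S.filter (fun j => ω j = i)).card : ℝ)) := by
    rw [cnt_eq_sum, Finset.mul_sum]
    refine Finset.sum_le_sum (fun ω _ => ?_)
    split_ifs with h
    · rw [mul_one, one_mul]
      exact Real.exp_le_exp.2 h.le
    · rw [mul_zero]
      exact (Real.exp_pos _).le
  have h3 : Real.exp (S.card * ((Real.exp 1 - 1) / B)) ≤ Real.exp (2 * S.card / B) := by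
    apply Real.exp_le_exp.2
    have h4 : Real.exp 1 - 1 ≤ 2 := by
      have := Real.exp_one_lt_d9
      linarith
    calc (S.card : ℝ) * ((Real.exp 1 - 1) / B) ≤ S.card * (2 / B) := by
          apply mul_le_mul_of_nonneg_left _ (Nat.cast_nonneg _)
          exact div_le_div_of_nonneg_right h4 hB'.le
      _ = 2 * S.card / B := by ring
  have h5 : (0 : ℝ) < Real.exp φ := Real.exp_pos _
  rw [Real.exp_sub, ← mul_div_assoc, le_div_iff₀ h5, mul_comm]
  refine le_trans h2 (le_trans h1 ?_)
  exact mul_le_mul_of_nonneg_left h3 (by positivity)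

/-- lower tail -/
theorem k3_low (D B : ℕ) (hB : 0 < B) (i : Fin B) (y : ℝ) :
    cnt (fun ω : Fin D → Fin B => (((univ.filter (fun j => ω j = i)).card : ℝ)) < y) ≤
      (B : ℝ) ^ D * Real.exp (y - D / (2 * B)) := by
  classical
  have hB' : (0 : ℝ) < B := by exact_mod_cast hB
  have h1 := k3_mgf D B hB univ i (-1)
  have h2 : Real.exp (-y) *
      cnt (fun ω : Fin D → Fin B => (((univ.filter (fun j => ω j = i)).card : ℝ)) < y) ≤
      ∑ ω : Fin D → Fin B, Real.exp ((-1) * ((univ.filter (fun j => ω j = i)).card : ℝ)) := by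
    rw [cnt_eq_sum, Finset.mul_sum]
    refine Finset.sum_le_sum (fun ω _ => ?_)
    split_ifs with h
    · rw [mul_one]
      apply Real.exp_le_exp.2
      linarith
    · rw [mul_zero]
      exact (Real.exp_pos _).le
  have h3 : Real.exp (((univ : Finset (Fin D)).card : ℝ) * ((Real.exp (-1) - 1) / B)) ≤
      Real.exp (-(D / (2 * B) : ℝ)) := by
    apply Real.exp_le_exp.2
    have h4 : Real.exp (-1) - 1 ≤ -(1 / 2) := by
      have h5 : Real.exp (-1) * Real.exp 1 = 1 := by
        rw [← Real.exp_add]
        simp
      have h6 : (2 : ℝ) ≤ Real.exp 1 := by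
        have := Real.add_one_le_exp (1 : ℝ)
        linarith
      have h7 : 0 < Real.exp (-1) := Real.exp_pos _
      nlinarith
    rw [Finset.card_univ, Fintype.card_fin]
    calc (D : ℝ) * ((Real.exp (-1) - 1) / B) ≤ D * (-(1 / 2) / B) := by
          apply mul_le_mul_of_nonneg_left _ (Nat.cast_nonneg _)
          exact div_le_div_of_nonneg_right h4 hB'.le
      _ = -(D / (2 * B) : ℝ) := by
          field_simp
  have h5 : (0 : ℝ) < Real.exp (-y) := Real.exp_pos _
  have h6 : Real.exp (y - D / (2 * B)) = Real.exp (-(D / (2 * B) : ℝ)) / Real.exp (-y) := by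
    rw [← Real.exp_sub]
    congr 1
    ring
  rw [h6, ← mul_div_assoc, le_div_iff₀ h5, mul_comm]
  refine le_trans h2 (le_trans h1 ?_)
  exact mul_le_mul_of_nonneg_left h3 (by positivity)

theorem K3 : T_K3 := by
  classical
  refine ⟨40, by norm_num, ?_⟩
  intro n hn D hD1 hDn f y φ hy0 hyD hφ A hA hAf
  have hn' : (2 : ℝ) ≤ n := by exact_mod_cast hn
  have hDpos : (0 : ℝ) < D := by exact_mod_cast hD1
  have hDn' : (D : ℝ) ≤ n := by exact_mod_cast hDn
  have hlog : (1 : ℝ) / 2 < Real.log n := by
    have h1 : Real.log 2 ≤ Real.log n := Real.log_le_log (by norm_num) hn'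
    have := Real.log_two_gt_d9
    linarith
  have hM : 0 < y + Real.log n := by linarith
  have hf : 0 ≤ f := by
    have := hAf (Sum.inl ⟨0, by omega⟩)
    exact le_trans (Nat.cast_nonneg _) this
  have hφ0 : 0 ≤ φ := by
    refine le_trans ?_ hφ
    have : 0 ≤ f * (y + Real.log n) / D := by positivity
    nlinarith
  by_cases hcase : (D : ℝ) < 16 * (y + Real.log n)
  · -- one block
    refine ⟨fun _ => 0, ?_, ?_⟩
    · intro i _
      simpa using hyD
    · intro w i
      have h1 : (((A w).filter (fun _ => (0 : ℕ) = i)).card : ℝ) ≤ (A w).card := by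
        exact_mod_cast Finset.card_filter_le _ _
      refine le_trans h1 (le_trans (hAf w) (le_trans ?_ hφ))
      have h2 : f / 16 ≤ f * (y + Real.log n) / D := by
        rw [div_le_div_iff₀ (by norm_num) hDpos]
        nlinarith
      linarith
  · push Not at hcase
    -- number of blocks
    set x : ℝ := D / (8 * (y + Real.log n)) with hx
    have hx2 : 2 ≤ x := by
      rw [hx, le_div_iff₀ (by positivity)]
      linarith
    set B : ℕ := ⌊x⌋₊ with hBdef
    have hBx : (B : ℝ) ≤ x := Nat.floor_le (by linarith)
    have hBx' : x / 2 ≤ B := by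
      have := Nat.lt_floor_add_one x
      rw [← hBdef] at this
      linarith
    have hB1 : (1 : ℝ) ≤ B := by linarith
    have hB0 : 0 < B := by exact_mod_cast (lt_of_lt_of_le zero_lt_one hB1)
    have hBpos : (0 : ℝ) < B := by linarith
    have hxD : x ≤ D := by
      rw [hx]
      apply div_le_self hDpos.le
      linarith
    have hBn : (B : ℝ) ≤ n := by linarith
    -- D / (2 B) ≥ 4 (y + log n)
    have hDB : 4 * (y + Real.log n) ≤ D / (2 * B) := by
      rw [le_div_iff₀ (by positivity)]
      have h1 : (B : ℝ) * (8 * (y + Real.log n)) ≤ D := by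
        have := mul_le_mul_of_nonneg_right hBx (by positivity : 0 ≤ 8 * (y + Real.log n))
        rwa [hx, div_mul_cancel₀ _ (by positivity : 8 * (y + Real.log n) ≠ 0)] at this
      linarith
    have hfB : 2 * f / B ≤ 32 * (f * (y + Real.log n) / D) := by
      rw [div_le_iff₀ hBpos]
      have h1 : (D : ℝ) / (16 * (y + Real.log n)) ≤ B := by
        have : (D : ℝ) / (16 * (y + Real.log n)) = x / 2 := by
          rw [hx]
          field_simp
          ring
        rw [this]
        exact hBx'
      have h2 : 32 * (f * (y + Real.log n) / D) * ((D : ℝ) / (16 * (y + Real.log n))) = 2 * f := by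
        field_simp
        ring
      rw [← h2]
      exact mul_le_mul_of_nonneg_left h1 (by positivity)
    -- the bad events
    let SA : Fin n ⊕ Fin n → Finset (Fin D) := fun w => univ.filter (fun j => (j : ℕ) ∈ A w)
    have hSA : ∀ w, ((SA w).card : ℝ) ≤ f := by
      intro w
      refine le_trans ?_ (hAf w)
      have : (SA w).card ≤ (A w).card := by
        apply Finset.card_le_card_of_injOn (fun j : Fin D => (j : ℕ))
        · intro j hj
          simpa [SA] using hj
        · intro j _ k _ h
          exact Fin.ext h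
      exact_mod_cast this
    let bad : (Fin D → Fin B) → Prop := fun ω =>
      (∃ i ∈ (univ : Finset (Fin B)),
          (((univ.filter (fun j => ω j = i)).card : ℝ)) < y) ∨
        ∃ p ∈ (univ : Finset ((Fin n ⊕ Fin n) × Fin B)),
          φ < (((SA p.1).filter (fun j => ω j = p.2)).card : ℝ)
    have hexp : Real.exp (-(4 * Real.log n)) = 1 / (n : ℝ) ^ 4 := by
      have h1 : (4 : ℝ) * Real.log n = Real.log ((n : ℝ) ^ 4) := by
        rw [Real.log_pow]
        norm_num
      rw [h1, Real.exp_neg, Real.exp_log (by positivity), one_div]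
    have hlowb : ∀ i : Fin B, cnt (fun ω : Fin D → Fin B =>
        (((univ.filter (fun j => ω j = i)).card : ℝ)) < y) ≤ (B : ℝ) ^ D * (1 / (n : ℝ) ^ 4) := by
      intro i
      refine le_trans (k3_low D B hB0 i y) ?_
      apply mul_le_mul_of_nonneg_left _ (by positivity)
      rw [← hexp]
      apply Real.exp_le_exp.2
      linarith
    have hupb : ∀ p : (Fin n ⊕ Fin n) × Fin B, cnt (fun ω : Fin D → Fin B =>
        φ < (((SA p.1).filter (fun j => ω j = p.2)).card : ℝ)) ≤
          (B : ℝ) ^ D * (1 / (n : ℝ) ^ 4) := by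
      intro p
      refine le_trans (k3_up D B hB0 (SA p.1) p.2 φ) ?_
      apply mul_le_mul_of_nonneg_left _ (by positivity)
      rw [← hexp]
      apply Real.exp_le_exp.2
      have h1 : 2 * ((SA p.1).card : ℝ) / B ≤ 2 * f / B := by
        apply div_le_div_of_nonneg_right _ hBpos.le
        have := hSA p.1
        linarith
      have h2 : 0 ≤ f * (y + Real.log n) / D := by positivity
      linarith
    have hbad : cnt bad < Fintype.card (Fin D → Fin B) := by
      have h1 : cnt bad ≤ (B : ℝ) * ((B : ℝ) ^ D * (1 / (n : ℝ) ^ 4)) +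
          (2 * n * B) * ((B : ℝ) ^ D * (1 / (n : ℝ) ^ 4)) := by
        refine le_trans (cnt_or_le _ _) (add_le_add ?_ ?_)
        · refine le_trans (cnt_exists_le _ _) (le_trans (Finset.sum_le_sum (fun i _ => hlowb i)) ?_)
          simp
        · refine le_trans (cnt_exists_le _ _) (le_trans (Finset.sum_le_sum (fun i _ => hupb i)) ?_)
          simp only [Finset.sum_const, Finset.card_univ, Fintype.card_prod, Fintype.card_sum,
            Fintype.card_fin, nsmul_eq_mul]
          push_cast
          apply le_of_eq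
          ring
      have h2 : ((Fintype.card (Fin D → Fin B) : ℕ) : ℝ) = (B : ℝ) ^ D := by
        simp
      rw [h2]
      refine lt_of_le_of_lt h1 ?_
      have hP : (0 : ℝ) < (B : ℝ) ^ D := by positivity
      have h3 : (B : ℝ) * ((B : ℝ) ^ D * (1 / (n : ℝ) ^ 4)) +
          (2 * n * B) * ((B : ℝ) ^ D * (1 / (n : ℝ) ^ 4)) =
            (B : ℝ) ^ D * ((B + 2 * n * B) / (n : ℝ) ^ 4) := by
        ring
      rw [h3]
      have h4 : ((B : ℝ) + 2 * n * B) / (n : ℝ) ^ 4 < 1 := by
        rw [div_lt_one (by positivity)]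
        have h5 : (B : ℝ) + 2 * n * B ≤ n + 2 * n * n := by nlinarith
        have h6 : (n : ℝ) + 2 * n * n < (n : ℝ) ^ 4 := by
          have h7 : (4 : ℝ) ≤ (n : ℝ) ^ 2 := by nlinarith
          have h8 : (n : ℝ) ^ 4 = (n : ℝ) ^ 2 * (n : ℝ) ^ 2 := by ring
          rw [h8]
          nlinarith
        linarith
      calc (B : ℝ) ^ D * ((B + 2 * n * B) / (n : ℝ) ^ 4) < (B : ℝ) ^ D * 1 :=
            mul_lt_mul_of_pos_left h4 hP
        _ = (B : ℝ) ^ D := mul_one _
    obtain ⟨ω, hω⟩ := exists_of_cnt_lt bad hbad
    have hω1 : ∀ i : Fin B, y ≤ (((univ.filter (fun j => ω j = i)).card : ℝ)) := by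
      intro i
      by_contra hcon
      push Not at hcon
      exact hω (Or.inl ⟨i, Finset.mem_univ _, hcon⟩)
    have hω2 : ∀ (w : Fin n ⊕ Fin n) (i : Fin B),
        (((SA w).filter (fun j => ω j = i)).card : ℝ) ≤ φ := by
      intro w i
      by_contra hcon
      push Not at hcon
      exact hω (Or.inr ⟨(w, i), Finset.mem_univ _, hcon⟩)
    refine ⟨fun j => if hj : j < D then ((ω ⟨j, hj⟩ : Fin B) : ℕ) else 0, ?_, ?_⟩
    · intro i hi
      refine le_trans (hω1 (ω ⟨i, hi⟩)) ?_
      have : (univ.filter (fun j => ω j = ω ⟨i, hi⟩)).card ≤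
          ((range D).filter (fun j => (if hj : j < D then ((ω ⟨j, hj⟩ : Fin B) : ℕ) else 0) =
            (if hj : i < D then ((ω ⟨i, hj⟩ : Fin B) : ℕ) else 0))).card := by
        apply Finset.card_le_card_of_injOn (fun j : Fin D => (j : ℕ))
        · intro j hj
          simp only [Finset.coe_filter, Finset.mem_univ, true_and, Set.mem_ofPred_eq] at hj
          simp only [Finset.coe_filter, Finset.mem_range, Set.mem_ofPred_eq]
          refine ⟨j.2, ?_⟩
          rw [dif_pos j.2, dif_pos hi]
          exact congrArg _ hj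
        · intro j _ k _ h
          exact Fin.ext h
      exact_mod_cast this
    · intro w i
      by_cases hi : i < B
      · refine le_trans ?_ (hω2 w ⟨i, hi⟩)
        have : ((A w).filter (fun j => (if hj : j < D then ((ω ⟨j, hj⟩ : Fin B) : ℕ) else 0) =
            i)).card ≤ ((SA w).filter (fun j => ω j = ⟨i, hi⟩)).card := by
          apply Finset.card_le_card_of_injOn
            (fun j : ℕ => if hj : j < D then (⟨j, hj⟩ : Fin D) else ⟨0, by omega⟩)
          · intro j hj
            simp only [Finset.coe_filter, Set.mem_ofPred_eq] at hj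
            have hjD : j < D := Finset.mem_range.1 (hA w hj.1)
            have h2 := hj.2
            rw [dif_pos hjD] at h2
            simp only [dif_pos hjD, Finset.coe_filter, Set.mem_ofPred_eq]
            refine ⟨?_, Fin.ext h2⟩
            simp only [SA, Finset.mem_filter, Finset.mem_univ, true_and]
            exact hj.1
          · intro j hj k hk h
            simp only [Finset.coe_filter, Set.mem_ofPred_eq] at hj hk
            have hjD : j < D := Finset.mem_range.1 (hA w hj.1)
            have hkD : k < D := Finset.mem_range.1 (hA w hk.1)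
            simp only [dif_pos hjD, dif_pos hkD] at h
            exact congrArg Fin.val h
        exact_mod_cast this
      · have : ((A w).filter (fun j => (if hj : j < D then ((ω ⟨j, hj⟩ : Fin B) : ℕ) else 0) =
            i)) = ∅ := by
          apply Finset.filter_eq_empty_iff.2
          intro j hj
          have hjD : j < D := Finset.mem_range.1 (hA w hj)
          rw [dif_pos hjD]
          intro h
          exact hi (h ▸ (ω ⟨j, hjD⟩).2)
        rw [this]
        simpa using hφ0

end Pool.Agent.H162R2.AG
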