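import Mathlib
import Pool.Agent.H162R2.AG.Stmts

set_option autoImplicit false

namespace Pool.Agent.H162R2.AG

open Finset Pool.Agent.H162R2.Sparse

theorem lq_sum_sq {J : Type} [Fintype J] (a b : J → ℝ) (K : ℝ) (j : ℕ) (hK : 0 ≤ K)
    (ha : ∑ i, a i ^ 2 ≤ (j : ℝ) ^ 2 * K) (hb : ∑ i, b i ^ 2 ≤ K) :
    ∑ i, (a i + b i) ^ 2 ≤ ((j : ℝ) + 1) ^ 2 * K := by
  have hcs : (∑ i, a i * b i) ^ 2 ≤ (∑ i, a i ^ 2) * (∑ i, b i ^ 2) :=
    Finset.sum_mul_sq_le_sq_mul_sq _ _ _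
  have hb0 : 0 ≤ ∑ i, b i ^ 2 := Finset.sum_nonneg fun i _ => sq_nonneg _
  have h1 : (∑ i, a i * b i) ^ 2 ≤ ((j : ℝ) * K) ^ 2 := by
    calc (∑ i, a i * b i) ^ 2 ≤ (∑ i, a i ^ 2) * (∑ i, b i ^ 2) := hcs
      _ ≤ ((j : ℝ) ^ 2 * K) * K := by
        apply mul_le_mul ha hb hb0 (by positivity)
      _ = ((j : ℝ) * K) ^ 2 := by ring
  have h2 : ∑ i, a i * b i ≤ (j : ℝ) * K := by
    have := abs_le_of_sq_le_sq h1 (by positivity)
    exact (abs_le.1 this).2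
  have h3 : ∑ i, (a i + b i) ^ 2 = ∑ i, a i ^ 2 + 2 * ∑ i, a i * b i + ∑ i, b i ^ 2 := by
    rw [Finset.mul_sum, ← Finset.sum_add_distrib, ← Finset.sum_add_distrib]
    exact Finset.sum_congr rfl fun i _ => by ring
  rw [h3]; nlinarith

open Classical in
/-- merge a colouring of the uncoloured elements into a partial colouring -/
noncomputable def lqMrg {ι : Type} (φ : ι → ℝ) (ψ : {c // φ c = 0} → ℝ) (c : ι) : ℝ :=
  if h : φ c = 0 then ψ ⟨c, h⟩ else φ c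

open Classical in
theorem lq_sum_sub {ι : Type} (φ : ι → ℝ) (ψ : {c // φ c = 0} → ℝ) (s : Finset ι) :
    ∑ c ∈ s, (if h : φ c = 0 then ψ ⟨c, h⟩ else 0) =
      ∑ c ∈ s.subtype (fun c => φ c = 0), ψ c := by
  have h1 : ∑ c ∈ s.subtype (fun c => φ c = 0), ψ c =
      ∑ c ∈ s.subtype (fun c => φ c = 0),
        (fun c : ι => if h : φ c = 0 then ψ ⟨c, h⟩ else 0) c := by
    refine Finset.sum_congr rfl fun x _ => ?_
    have hx : φ x.1 = 0 := x.2
    simp [hx]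
  have h2 := Finset.sum_subtype_eq_sum_filter (s := s) (p := fun c => φ c = 0)
    (fun c : ι => if h : φ c = 0 then ψ ⟨c, h⟩ else 0)
  rw [h1]
  refine Eq.trans ?_ h2.symm
  rw [Finset.sum_filter]
  refine Finset.sum_congr rfl fun c _ => ?_
  by_cases h : φ c = 0 <;> simp [h]

open Classical in
theorem lqMrg_sum {ι : Type} (φ : ι → ℝ) (ψ : {c // φ c = 0} → ℝ) (s : Finset ι) :
    ∑ c ∈ s, lqMrg φ ψ c = ∑ c ∈ s, φ c + ∑ c ∈ s.subtype (fun c => φ c = 0), ψ c := by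
  rw [← lq_sum_sub, ← Finset.sum_add_distrib]
  refine Finset.sum_congr rfl fun c _ => ?_
  unfold lqMrg
  by_cases h : φ c = 0 <;> simp [h]

open Classical in
theorem lqMrg_cnt {ι : Type} [Fintype ι] (φ : ι → ℝ) (ψ : {c // φ c = 0} → ℝ) :
    cnt (fun c => lqMrg φ ψ c = 0) = cnt (fun x => ψ x = 0) := by
  rw [cnt_eq_sum, cnt_eq_sum]
  have h := lq_sum_sub φ (fun x => if ψ x = 0 then (1 : ℝ) else 0) univ
  rw [Finset.subtype_univ] at h
  rw [← h]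
  refine Finset.sum_congr rfl fun c _ => ?_
  unfold lqMrg
  by_cases h : φ c = 0 <;> simp [h]

open Classical in
theorem lq_card_sub {ι : Type} [Fintype ι] (φ : ι → ℝ) :
    (Fintype.card {c // φ c = 0} : ℝ) = cnt (fun c => φ c = 0) := by
  rw [Fintype.card_subtype, cnt_eq_card]

theorem lq_rounds (h6 : T_P6) (θ : ℝ) (hθ0 : 0 < θ) (hθ1 : θ ≤ 1) :
    ∃ n₀ : ℕ, ∀ n : ℕ, n₀ ≤ n → 1 ≤ n → ∀ (ι : Type) [Fintype ι] [DecidableEq ι],
    Fintype.card ι ≤ n ^ 4 → ∀ L : Fin n → Fin n → Finset ι, (∀ v i, (L v i).card ≤ 2 * n) →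
    ∀ j : ℕ, ∃ φ : ι → ℝ, (∀ c, φ c = 0 ∨ φ c = 1 ∨ φ c = -1) ∧
      cnt (fun c => φ c = 0) ≤ 2 * (n : ℝ) ^ (1 - θ ^ 2 / 5) *
        (n : ℝ) ^ ((3 + θ ^ 2 / 5) / 2 ^ j) ∧
      (∀ v, ∑ i, (∑ c ∈ L v i, φ c) ^ 2 ≤ (j : ℝ) ^ 2 * (18 * θ * n ^ 2 * Real.log n)) ∧
      ∀ v i, |∑ c ∈ L v i, φ c| ≤ 4 * j * Lam n := by
  classical
  obtain ⟨n₀, hn₀⟩ := h6 θ hθ0 hθ1
  refine ⟨n₀, fun n hn hn1 ι _ _ hcard L hL j => ?_⟩
  have hnpos : (0 : ℝ) < n := by exact_mod_cast hn1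
  have hlog : 0 ≤ Real.log n := Real.log_nonneg (by exact_mod_cast hn1)
  induction j with
  | zero =>
    refine ⟨fun _ => 0, fun c => Or.inl rfl, ?_, ?_, ?_⟩
    · have h1 : cnt (fun _ : ι => (0 : ℝ) = 0) ≤ Fintype.card ι := cnt_le_card _
      have h2 : (Fintype.card ι : ℝ) ≤ (n : ℝ) ^ (4 : ℕ) := by exact_mod_cast hcard
      have h3 : (n : ℝ) ^ (4 : ℕ) = (n : ℝ) ^ (1 - θ ^ 2 / 5) *
        (n : ℝ) ^ ((3 + θ ^ 2 / 5) / 2 ^ 0) := by
        rw [← Real.rpow_add hnpos, ← Real.rpow_natCast]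
        congr 1
        push_cast
        ring
      have h4 : 0 ≤ (n : ℝ) ^ (1 - θ ^ 2 / 5) * (n : ℝ) ^ ((3 + θ ^ 2 / 5) / 2 ^ 0) := by
        positivity
      refine le_trans h1 ?_
      linarith
    · intro v; simp
    · intro v i; simp
  | succ j ih =>
    obtain ⟨φ, hφ, hcnt, hsq, hmax⟩ := ih
    have hc' : Fintype.card {c // φ c = 0} ≤ n ^ 4 :=
      le_trans (Fintype.card_subtype_le _) hcard
    have hL' : ∀ v i, ((L v i).subtype (fun c => φ c = 0)).card ≤ 2 * n := by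
      intro v i
      rw [Finset.card_subtype]
      exact le_trans (Finset.card_filter_le _ _) (hL v i)
    obtain ⟨ψ, hψ, hcnt', hsq', hmax'⟩ := hn₀ n hn {c // φ c = 0} hc'
      (fun v i => (L v i).subtype (fun c => φ c = 0)) hL'
    refine ⟨lqMrg φ ψ, ?_, ?_, ?_, ?_⟩
    · intro c
      unfold lqMrg
      by_cases h : φ c = 0
      · simp only [h, dif_pos]
        exact hψ _
      · simp only [h, dif_neg, not_false_eq_true, false_or]
        have := hφ c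
        simpa [h] using this
    · rw [lqMrg_cnt]
      refine le_trans hcnt' ?_
      rw [lq_card_sub]
      have hA : (0 : ℝ) < (n : ℝ) ^ (1 - θ ^ 2 / 5) := Real.rpow_pos_of_pos hnpos _
      have hB : (0 : ℝ) < (n : ℝ) ^ ((3 + θ ^ 2 / 5) / 2 ^ (j + 1)) :=
        Real.rpow_pos_of_pos hnpos _
      have hBB : (n : ℝ) ^ ((3 + θ ^ 2 / 5) / 2 ^ j) =
          (n : ℝ) ^ ((3 + θ ^ 2 / 5) / 2 ^ (j + 1)) *
          (n : ℝ) ^ ((3 + θ ^ 2 / 5) / 2 ^ (j + 1)) := by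
        rw [← Real.rpow_add hnpos]
        congr 1
        rw [pow_succ]
        field_simp
        ring
      apply Real.sqrt_le_iff.2
      refine ⟨by positivity, ?_⟩
      calc 2 * (n : ℝ) ^ (1 - θ ^ 2 / 5) * cnt (fun c => φ c = 0)
          ≤ 2 * (n : ℝ) ^ (1 - θ ^ 2 / 5) * (2 * (n : ℝ) ^ (1 - θ ^ 2 / 5) *
            (n : ℝ) ^ ((3 + θ ^ 2 / 5) / 2 ^ j)) := by
            apply mul_le_mul_of_nonneg_left hcnt (by positivity)
        _ = (2 * (n : ℝ) ^ (1 - θ ^ 2 / 5) *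
            (n : ℝ) ^ ((3 + θ ^ 2 / 5) / 2 ^ (j + 1))) ^ 2 := by
            rw [hBB]; ring
    · intro v
      have := lq_sum_sq (fun i => ∑ c ∈ L v i, φ c)
        (fun i => ∑ c ∈ (L v i).subtype (fun c => φ c = 0), ψ c)
        (18 * θ * n ^ 2 * Real.log n) j (by positivity) (hsq v) (hsq' v)
      simp only [lqMrg_sum]
      push_cast
      exact this
    · intro v i
      rw [lqMrg_sum]
      refine le_trans (abs_add_le _ _) ?_
      have h1 := hmax v i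
      have h2 := hmax' v i
      push_cast
      have : 4 * ((j : ℝ) + 1) * Lam n = 4 * j * Lam n + 4 * Lam n := by ring
      rw [this]
      exact add_le_add h1 h2

/-- existence of the parameter `s` -/
theorem lq_param (η : ℝ) (hη : 0 < η) : ∃ s : ℕ, 1 ≤ s ∧
    18 * (2 * (s : ℝ) + 7) ^ 2 * (1 / 2) ^ s * (8 * (s : ℝ) + 25) ^ 12 ≤ η ^ 3 := by
  have ht := tendsto_pow_const_mul_const_pow_of_abs_lt_one 14
    (r := (1 / 2 : ℝ)) (by rw [abs_of_pos (by norm_num)]; norm_num)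
  have hpos : 0 < η ^ 3 / (18 * 9 ^ 2 * 33 ^ 12) := by positivity
  have hev := (ht.eventually (gt_mem_nhds hpos)).and (Filter.eventually_ge_atTop 1)
  obtain ⟨s, hs, hs1⟩ := hev.exists
  refine ⟨s, hs1, ?_⟩
  have hs1' : (1 : ℝ) ≤ s := by exact_mod_cast hs1
  have h1 : 18 * (2 * (s : ℝ) + 7) ^ 2 * (1 / 2) ^ s * (8 * (s : ℝ) + 25) ^ 12 ≤
      18 * (9 * (s : ℝ)) ^ 2 * (1 / 2) ^ s * (33 * (s : ℝ)) ^ 12 := by
    gcongr
    · linarith
    · linarith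
  have h2 : 18 * (9 * (s : ℝ)) ^ 2 * (1 / 2) ^ s * (33 * (s : ℝ)) ^ 12 =
      (18 * 9 ^ 2 * 33 ^ 12) * ((s : ℝ) ^ 14 * (1 / 2) ^ s) := by ring
  rw [h2] at h1
  have h3 : (18 * 9 ^ 2 * 33 ^ 12) * ((s : ℝ) ^ 14 * (1 / 2) ^ s) ≤
      (18 * 9 ^ 2 * 33 ^ 12) * (η ^ 3 / (18 * 9 ^ 2 * 33 ^ 12)) := by
    apply mul_le_mul_of_nonneg_left hs.le (by positivity)
  have h4 : (18 * 9 ^ 2 * 33 ^ 12) * (η ^ 3 / (18 * 9 ^ 2 * 33 ^ 12)) = η ^ 3 := by
    field_simp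
  linarith

/-- `n` large -/
theorem lq_large (θ : ℝ) (hθ0 : 0 < θ) : ∃ n₁ : ℕ, ∀ n : ℕ, n₁ ≤ n →
    2 * (n : ℝ) ^ (1 - θ ^ 2 / 5 / 2) ≤ θ ^ 2 * n / 6 := by
  have hc : 0 < θ ^ 2 / 5 / 2 := by positivity
  have ht : Filter.Tendsto (fun n : ℕ => (n : ℝ) ^ (θ ^ 2 / 5 / 2)) Filter.atTop
      Filter.atTop := (tendsto_rpow_atTop hc).comp tendsto_natCast_atTop_atTop
  have hev := (ht.eventually_ge_atTop (12 / θ ^ 2)).and (Filter.eventually_ge_atTop 1)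
  obtain ⟨n₁, hn₁⟩ := Filter.eventually_atTop.1 hev
  refine ⟨n₁, fun n hn => ?_⟩
  obtain ⟨h1, h2⟩ := hn₁ n hn
  have hnpos : (0 : ℝ) < n := by exact_mod_cast h2
  have h3 : (n : ℝ) ^ (1 - θ ^ 2 / 5 / 2) * (n : ℝ) ^ (θ ^ 2 / 5 / 2) = n := by
    rw [← Real.rpow_add hnpos]
    simp
  have h4 : (0 : ℝ) < (n : ℝ) ^ (1 - θ ^ 2 / 5 / 2) := Real.rpow_pos_of_pos hnpos _
  have h5 : (n : ℝ) ^ (1 - θ ^ 2 / 5 / 2) * (12 / θ ^ 2) ≤ (n : ℝ) := by
    refine le_trans (mul_le_mul_of_nonneg_left h1 h4.le) (le_of_eq h3)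
  have h6 : (n : ℝ) ^ (1 - θ ^ 2 / 5 / 2) * (12 / θ ^ 2) * θ ^ 2 ≤ n * θ ^ 2 := by
    apply mul_le_mul_of_nonneg_right h5 (by positivity)
  have h7 : (n : ℝ) ^ (1 - θ ^ 2 / 5 / 2) * (12 / θ ^ 2) * θ ^ 2 =
      12 * (n : ℝ) ^ (1 - θ ^ 2 / 5 / 2) := by
    field_simp
  linarith

/-- the last random signs -/
theorem lq_last (h1 : T_P1) (n : ℕ) (hn : 3 ≤ n) (θ : ℝ) (hθ0 : 0 < θ)
    (ι : Type) [Fintype ι] [DecidableEq ι] (L : Fin n → Fin n → Finset ι)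
    (hι : (Fintype.card ι : ℝ) ≤ θ ^ 2 * n / 6) :
    ∃ χ : ι → Bool, ∀ v i, |∑ c ∈ L v i, sg (χ c)| ≤ θ * Lam n := by
  classical
  have hnpos : (0 : ℝ) < n := by
    have : 0 < n := by omega
    exact_mod_cast this
  have hn3 : (3 : ℝ) ≤ n := by exact_mod_cast hn
  have hlog : 0 ≤ Real.log n := Real.log_nonneg (by linarith)
  have hw : ∀ (p : Fin n × Fin n),
      cnt (fun χ : ι → Bool => θ * Lam n ≤ |∑ c ∈ L p.1 p.2, sg (χ c)|) ≤
        2 * ((n : ℝ) ^ 3)⁻¹ * 2 ^ Fintype.card ι := by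
    intro p
    have h := h1 ι (fun c => if c ∈ L p.1 p.2 then 1 else 0) (θ ^ 2 * n / 6) (θ * Lam n)
      (by positivity) (mul_nonneg hθ0.le (Real.sqrt_nonneg _)) (by
        refine le_trans ?_ hι
        calc ∑ c, (if c ∈ L p.1 p.2 then (1 : ℝ) else 0) ^ 2 ≤ ∑ c : ι, (1 : ℝ) := by
              apply Finset.sum_le_sum
              intro c _
              split_ifs <;> norm_num
          _ = Fintype.card ι := by simp)
    have he : Real.exp (-((θ * Lam n) ^ 2) / (2 * (θ ^ 2 * n / 6))) = ((n : ℝ) ^ 3)⁻¹ := by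
      have h5 : (θ * Lam n) ^ 2 = θ ^ 2 * (n * Real.log n) := by
        unfold Lam
        rw [mul_pow, Real.sq_sqrt (by positivity)]
      rw [h5]
      have h6 : -(θ ^ 2 * (n * Real.log n)) / (2 * (θ ^ 2 * n / 6)) = -(3 * Real.log n) := by
        field_simp
        ring
      rw [h6, Real.exp_neg, mul_comm, Real.exp_mul, Real.exp_log hnpos]
      norm_cast
    rw [he] at h
    refine le_trans (cnt_mono ?_) h
    intro χ hχ
    have : ∑ c, (if c ∈ L p.1 p.2 then (1 : ℝ) else 0) * sg (χ c) =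
        ∑ c ∈ L p.1 p.2, sg (χ c) := by
      simp [Finset.sum_ite_mem]
    rw [this]
    exact hχ
  have hall : cnt (fun χ : ι → Bool => ∃ p ∈ (univ : Finset (Fin n × Fin n)),
      θ * Lam n ≤ |∑ c ∈ L p.1 p.2, sg (χ c)|) < Fintype.card (ι → Bool) := by
    refine lt_of_le_of_lt (cnt_exists_le _ (fun (p : Fin n × Fin n) (χ : ι → Bool) =>
      θ * Lam n ≤ |∑ c ∈ L p.1 p.2, sg (χ c)|)) ?_
    refine lt_of_le_of_lt (Finset.sum_le_sum fun p _ => hw p) ?_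
    rw [Finset.sum_const, card_signs, Finset.card_univ, Fintype.card_prod, Fintype.card_fin,
      nsmul_eq_mul]
    push_cast
    have h2 : (n : ℝ) * n * (2 * ((n : ℝ) ^ 3)⁻¹ * 2 ^ Fintype.card ι) =
      (2 / n) * 2 ^ Fintype.card ι := by
      field_simp
    rw [h2]
    have h3 : (2 : ℝ) / n < 1 := by
      rw [div_lt_one hnpos]; linarith
    have h4 : (0 : ℝ) < 2 ^ Fintype.card ι := by positivity
    nlinarith
  obtain ⟨χ, hχ⟩ := exists_of_cnt_lt _ hall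
  refine ⟨χ, fun v i => ?_⟩
  by_contra hcon
  exact hχ ⟨(v, i), Finset.mem_univ _, (not_le.1 hcon).le⟩

theorem LQ_of (h1 : T_P1) (h6 : T_P6) : T_LQ := by
  classical
  intro η hη
  obtain ⟨s, hs1, hs⟩ := lq_param η hη
  set θ : ℝ := (1 / 2) ^ s with hθ
  have hθ0 : 0 < θ := by positivity
  have hθ1 : θ ≤ 1 := pow_le_one₀ (by norm_num) (by norm_num)
  set r : ℕ := 2 * s + 6 with hr
  set κ : ℝ := (18 * ((r : ℝ) + 1) ^ 2 * θ) ^ ((1 : ℝ) / 3) with hκ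
  have hκ0 : 0 < κ := by positivity
  have hκ3 : κ ^ 3 = 18 * ((r : ℝ) + 1) ^ 2 * θ := by
    rw [hκ, ← Real.rpow_natCast, ← Real.rpow_mul (by positivity)]
    norm_num
  refine ⟨κ, hκ0, 4 * r + 1, ?_, ?_, ?_⟩
  · have : (0 : ℝ) ≤ r := by positivity
    linarith
  · have h2 : (κ * (4 * (r : ℝ) + 1) ^ 4) ^ 3 ≤ η ^ 3 := by
      refine le_trans (le_of_eq ?_) hs
      rw [mul_pow, hκ3, hr, hθ]
      push_cast
      ring
    exact le_of_pow_le_pow_left₀ (by norm_num) hη.le h2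
  · obtain ⟨n₀, hn₀⟩ := lq_rounds h6 θ hθ0 hθ1
    obtain ⟨n₁, hn₁⟩ := lq_large θ hθ0
    refine ⟨max (max n₀ n₁) 3, fun n hn ι _ _ hcard L hL => ?_⟩
    have hn0 : n₀ ≤ n := le_trans (le_trans (le_max_left _ _) (le_max_left _ _)) hn
    have hn1 : n₁ ≤ n := le_trans (le_trans (le_max_right _ _) (le_max_left _ _)) hn
    have hn3 : 3 ≤ n := le_trans (le_max_right _ _) hn
    have hnpos : (0 : ℝ) < n := by
      have : 0 < n := by omega
      exact_mod_cast this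
    have hn1' : (1 : ℝ) ≤ n := by
      have : 1 ≤ n := by omega
      exact_mod_cast this
    have hlog : 0 ≤ Real.log n := Real.log_nonneg hn1'
    obtain ⟨φ, hφ, hcnt, hsq, hmax⟩ := hn₀ n hn0 (by omega) ι hcard L hL r
    have hexp : (1 - θ ^ 2 / 5) + (3 + θ ^ 2 / 5) / 2 ^ r ≤ 1 - θ ^ 2 / 5 / 2 := by
      have h2r : (2 : ℝ) ^ r = 64 / θ ^ 2 := by
        have h64 : (2 : ℝ) ^ (2 * s + 6) = 64 * (2 ^ s) ^ 2 := by
          rw [pow_add, mul_comm 2 s, pow_mul]; norm_num; ring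
        rw [hθ, hr, h64, one_div, inv_pow]
        field_simp
      rw [h2r]
      have h3 : (3 + θ ^ 2 / 5) / (64 / θ ^ 2) = (3 + θ ^ 2 / 5) * θ ^ 2 / 64 := by
        field_simp
      rw [h3]
      have hθ2 : θ ^ 2 ≤ 1 := pow_le_one₀ hθ0.le hθ1
      nlinarith [sq_nonneg θ]
    have hZ : (Fintype.card {c // φ c = 0} : ℝ) ≤ θ ^ 2 * n / 6 := by
      rw [lq_card_sub]
      refine le_trans hcnt (le_trans ?_ (hn₁ n hn1))
      rw [mul_assoc, ← Real.rpow_add hnpos]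
      apply mul_le_mul_of_nonneg_left _ (by norm_num)
      exact Real.rpow_le_rpow_of_exponent_le hn1' hexp
    obtain ⟨χ', hχ'⟩ := lq_last h1 n hn3 θ hθ0 {c // φ c = 0}
      (fun v i => (L v i).subtype (fun c => φ c = 0)) hZ
    refine ⟨fun c => if h : φ c = 0 then χ' ⟨c, h⟩ else decide (φ c = 1), ?_⟩
    have hsg : ∀ c, sg (if h : φ c = 0 then χ' ⟨c, h⟩ else decide (φ c = 1)) =
        lqMrg φ (fun x => sg (χ' x)) c := by
      intro c
      unfold lqMrg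
      by_cases h : φ c = 0
      · simp [h]
      · rcases hφ c with h0 | h1' | h1'
        · exact absurd h0 h
        · simp [h1', sg]
        · rw [dif_neg h, dif_neg h, h1']
          have : ¬ ((-1 : ℝ) = 1) := by norm_num
          simp [this, sg]
    simp only [hsg]
    refine ⟨?_, ?_⟩
    · intro v
      have hb : ∑ i, (∑ c ∈ (L v i).subtype (fun c => φ c = 0), sg (χ' c)) ^ 2 ≤
          18 * θ * n ^ 2 * Real.log n := by
        have h3 : ∀ i ∈ (univ : Finset (Fin n)),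
            (∑ c ∈ (L v i).subtype (fun c => φ c = 0), sg (χ' c)) ^ 2 ≤
            θ ^ 2 * (n * Real.log n) := by
          intro i _
          have h4 := hχ' v i
          have h5 : (∑ c ∈ (L v i).subtype (fun c => φ c = 0), sg (χ' c)) ^ 2 ≤
              (θ * Lam n) ^ 2 := by
            rw [← sq_abs]
            exact pow_le_pow_left₀ (abs_nonneg _) h4 2
          refine le_trans h5 (le_of_eq ?_)
          unfold Lam
          rw [mul_pow, Real.sq_sqrt (by positivity)]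
        refine le_trans (Finset.sum_le_sum h3) ?_
        rw [Finset.sum_const, Finset.card_univ, Fintype.card_fin, nsmul_eq_mul]
        have h6 : θ ^ 2 ≤ 18 * θ := by nlinarith
        have h7 : 0 ≤ (n : ℝ) ^ 2 * Real.log n := by positivity
        calc (n : ℝ) * (θ ^ 2 * (n * Real.log n)) = θ ^ 2 * (n ^ 2 * Real.log n) := by ring
          _ ≤ 18 * θ * (n ^ 2 * Real.log n) := mul_le_mul_of_nonneg_right h6 h7
          _ = 18 * θ * n ^ 2 * Real.log n := by ring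
      have h8 := lq_sum_sq (fun i => ∑ c ∈ L v i, φ c)
        (fun i => ∑ c ∈ (L v i).subtype (fun c => φ c = 0), sg (χ' c))
        (18 * θ * n ^ 2 * Real.log n) r (by positivity) (hsq v) hb
      simp only [lqMrg_sum]
      refine le_trans h8 (le_of_eq ?_)
      rw [hκ3]
      ring
    · intro v i
      rw [lqMrg_sum]
      refine le_trans (abs_add_le _ _) ?_
      have h3 := hmax v i
      have h4 := hχ' v i
      have h5 : θ * Lam n ≤ 1 * Lam n :=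
        mul_le_mul_of_nonneg_right hθ1 (Real.sqrt_nonneg _)
      have h6 : (4 * (r : ℝ) + 1) * Lam n = 4 * r * Lam n + 1 * Lam n := by ring
      rw [h6]
      exact add_le_add h3 (le_trans h4 h5)

end Pool.Agent.H162R2.AG
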