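import Mathlib
import Pool.Agent.H162R2.AG.Stmts

/-!
P1: linear tail of random signs.
-/

set_option autoImplicit false

namespace Pool.Agent.H162R2.AG

open Finset

/-- moment generating function of a random signed sum -/
theorem P1_mgf (ι : Type) [Fintype ι] [DecidableEq ι] (w : ι → ℝ) (l : ℝ) :
    ∑ χ : ι → Bool, Real.exp (l * ∑ c, w c * sg (χ c)) ≤
      2 ^ Fintype.card ι * Real.exp (l ^ 2 * (∑ c, w c ^ 2) / 2) := by
  have h1 : ∀ χ : ι → Bool, Real.exp (l * ∑ c, w c * sg (χ c)) =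
      ∏ c, Real.exp (l * (w c * sg (χ c))) := by
    intro χ
    rw [← Real.exp_sum, Finset.mul_sum]
  rw [Finset.sum_congr rfl (fun χ _ => h1 χ)]
  have h2 : ∑ χ : ι → Bool, ∏ c, Real.exp (l * (w c * sg (χ c))) =
      ∏ c, ∑ b : Bool, Real.exp (l * (w c * sg b)) := by
    rw [Finset.prod_univ_sum, Fintype.piFinset_univ]
  rw [h2]
  have h3 : ∀ c, ∑ b : Bool, Real.exp (l * (w c * sg b)) ≤
      2 * Real.exp (l ^ 2 * w c ^ 2 / 2) := by
    intro c
    rw [Fintype.sum_bool]
    have h4 := Real.cosh_le_exp_half_sq (l * w c)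
    rw [Real.cosh_eq] at h4
    simp only [sg]
    norm_num
    rw [show l ^ 2 * w c ^ 2 / 2 = (l * w c) ^ 2 / 2 by ring]
    have h5 : Real.exp (l * w c) + Real.exp (-(l * w c)) ≤ 2 * Real.exp ((l * w c) ^ 2 / 2) := by
      linarith
    exact h5
  calc ∏ c, ∑ b : Bool, Real.exp (l * (w c * sg b))
      ≤ ∏ c : ι, 2 * Real.exp (l ^ 2 * w c ^ 2 / 2) := by
        apply Finset.prod_le_prod
        · intro c _
          exact Finset.sum_nonneg (fun b _ => (Real.exp_pos _).le)
        · intro c _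
          exact h3 c
    _ = 2 ^ Fintype.card ι * Real.exp (l ^ 2 * (∑ c, w c ^ 2) / 2) := by
        rw [Finset.prod_mul_distrib, Finset.prod_const, Finset.card_univ, ← Real.exp_sum]
        congr 2
        rw [Finset.mul_sum, Finset.sum_div]

theorem P1_one (ι : Type) [Fintype ι] [DecidableEq ι] (w : ι → ℝ) (v t : ℝ) (hv : 0 < v)
    (ht : 0 ≤ t) (hw : ∑ c, w c ^ 2 ≤ v) :
    cnt (fun χ : ι → Bool => t ≤ ∑ c, w c * sg (χ c)) ≤
      Real.exp (-(t ^ 2) / (2 * v)) * 2 ^ Fintype.card ι := by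
  classical
  set l : ℝ := t / v with hl
  have hl0 : 0 ≤ l := by positivity
  calc cnt (fun χ : ι → Bool => t ≤ ∑ c, w c * sg (χ c))
      = ∑ χ : ι → Bool, (if t ≤ ∑ c, w c * sg (χ c) then (1 : ℝ) else 0) := by
        rw [cnt_eq_sum]
    _ ≤ ∑ χ : ι → Bool, Real.exp (-(l * t)) * Real.exp (l * ∑ c, w c * sg (χ c)) := by
        apply Finset.sum_le_sum
        intro χ _
        rw [← Real.exp_add]
        split_ifs with h
        · apply Real.one_le_exp
          have := mul_le_mul_of_nonneg_left h hl0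
          linarith
        · exact (Real.exp_pos _).le
    _ = Real.exp (-(l * t)) * ∑ χ : ι → Bool, Real.exp (l * ∑ c, w c * sg (χ c)) := by
        rw [Finset.mul_sum]
    _ ≤ Real.exp (-(l * t)) * (2 ^ Fintype.card ι * Real.exp (l ^ 2 * (∑ c, w c ^ 2) / 2)) := by
        gcongr
        exact P1_mgf ι w l
    _ ≤ Real.exp (-(l * t)) * (2 ^ Fintype.card ι * Real.exp (l ^ 2 * v / 2)) := by
        gcongr
    _ = Real.exp (-(t ^ 2) / (2 * v)) * 2 ^ Fintype.card ι := by
        have h1 : -(t ^ 2) / (2 * v) = -(l * t) + l ^ 2 * v / 2 := by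
          rw [hl]
          field_simp
          ring
        rw [h1, Real.exp_add]
        ring

theorem P1 : T_P1 := by
  intro ι _ _ w v t hv ht hw
  have h1 := P1_one ι w v t hv ht hw
  have h2 := P1_one ι (fun c => - w c) v t hv ht (by simpa using hw)
  calc cnt (fun χ : ι → Bool => t ≤ |∑ c, w c * sg (χ c)|)
      ≤ cnt (fun χ : ι → Bool => t ≤ ∑ c, w c * sg (χ c) ∨ t ≤ ∑ c, - w c * sg (χ c)) := by
        apply cnt_mono
        intro χ h
        rcases le_abs.1 h with h | h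
        · exact Or.inl h
        · refine Or.inr ?_
          simpa [neg_mul, Finset.sum_neg_distrib] using h
    _ ≤ cnt (fun χ : ι → Bool => t ≤ ∑ c, w c * sg (χ c)) +
        cnt (fun χ : ι → Bool => t ≤ ∑ c, - w c * sg (χ c)) := cnt_or_le _ _
    _ ≤ 2 * Real.exp (-(t ^ 2) / (2 * v)) * 2 ^ Fintype.card ι := by linarith

end Pool.Agent.H162R2.AG
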