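import Mathlib
import Pool.Agent.H162R2.AG.Stmts

/-!
Antipodal pairs in big subsets of the cube (helper267).
-/

set_option autoImplicit false

namespace Pool.Agent.H162R2.AG

open Finset Pool.Agent.H162R2.Sparse

namespace P3aux

/-- `f` changes by at most `1` when one coordinate changes. -/
def Lip {ι : Type} (f : (ι → Bool) → ℝ) : Prop :=
  ∀ (χ χ' : ι → Bool) (c : ι), (∀ d, d ≠ c → χ d = χ' d) → f χ ≤ f χ' + 1

theorem two_pt {x y l : ℝ} (h1 : x ≤ y + 1) (h2 : y ≤ x + 1) :
    Real.exp (l * x) + Real.exp (l * y) ≤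
      2 * Real.exp (l ^ 2 / 8) * Real.exp (l * ((x + y) / 2)) := by
  have h3 := Real.cosh_le_exp_half_sq (l * ((x - y) / 2))
  have h4 : Real.exp ((l * ((x - y) / 2)) ^ 2 / 2) ≤ Real.exp (l ^ 2 / 8) := by
    apply Real.exp_le_exp.mpr
    have h5 : (x - y) ^ 2 ≤ 1 := by
      rw [sq_le_one_iff_abs_le_one, abs_le]
      constructor <;> linarith
    nlinarith [sq_nonneg l, mul_le_mul_of_nonneg_left h5 (sq_nonneg l)]
  have h6 : Real.exp (l * x) + Real.exp (l * y) =
      2 * Real.cosh (l * ((x - y) / 2)) * Real.exp (l * ((x + y) / 2)) := by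
    rw [Real.cosh_eq, mul_div_cancel₀ _ (two_ne_zero), add_mul, ← Real.exp_add, ← Real.exp_add]
    congr 2 <;> ring
  rw [h6]
  have h7 := h3.trans h4
  gcongr

theorem mgf_fin (n : ℕ) : ∀ (f : (Fin n → Bool) → ℝ) (_ : Lip f) (l : ℝ),
    ∑ χ, Real.exp (l * f χ) ≤ 2 ^ n * Real.exp (l * ((∑ χ, f χ) / 2 ^ n) + l ^ 2 * n / 8) := by
  induction n with
  | zero =>
    intro f _ l
    simp
  | succ n ih =>
    intro f hf l
    have e1 : ∀ g : (Fin (n + 1) → Bool) → ℝ, ∑ χ, g χ =
        ∑ χ : Fin n → Bool, (g (Fin.cons true χ) + g (Fin.cons false χ)) := by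
      intro g
      rw [← (Fin.consEquiv (fun _ => Bool)).sum_comp, Fintype.sum_prod_type_right]
      simp [Fin.consEquiv]
    set fb : (Fin n → Bool) → ℝ := fun χ =>
      (f (Fin.cons true χ) + f (Fin.cons false χ)) / 2 with hfb
    have hlip : Lip fb := by
      intro χ χ' c h
      have h1 : ∀ b : Bool, f (Fin.cons b χ) ≤ f (Fin.cons b χ') + 1 := by
        intro b
        refine hf _ _ c.succ ?_
        intro d hd
        rcases Fin.eq_zero_or_eq_succ d with rfl | ⟨j, rfl⟩
        · simp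
        · simp only [Fin.cons_succ]
          exact h j (fun hj => hd (by rw [hj]))
      have h2 := h1 true
      have h3 := h1 false
      simp only [hfb]
      linarith
    have h01 : ∀ χ : Fin n → Bool, ∀ b b' : Bool, f (Fin.cons b χ) ≤ f (Fin.cons b' χ) + 1 := by
      intro χ b b'
      refine hf _ _ 0 ?_
      intro d hd
      obtain ⟨j, rfl⟩ := Fin.exists_succ_eq.mpr hd
      simp
    have ih' := ih fb hlip l
    have hmean : (∑ χ, fb χ) / 2 ^ n = (∑ χ, f χ) / 2 ^ (n + 1) := by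
      rw [e1 f, hfb, ← Finset.sum_div, pow_succ]
      field_simp
    rw [hmean] at ih'
    rw [e1]
    calc ∑ χ : Fin n → Bool, (Real.exp (l * f (Fin.cons true χ)) +
          Real.exp (l * f (Fin.cons false χ)))
        ≤ ∑ χ : Fin n → Bool, 2 * Real.exp (l ^ 2 / 8) * Real.exp (l * fb χ) :=
          Finset.sum_le_sum (fun χ _ => two_pt (h01 χ _ _) (h01 χ _ _))
      _ = 2 * Real.exp (l ^ 2 / 8) * ∑ χ : Fin n → Bool, Real.exp (l * fb χ) := by
          rw [Finset.mul_sum]
      _ ≤ 2 * Real.exp (l ^ 2 / 8) * (2 ^ n * Real.exp (l * ((∑ χ, f χ) / 2 ^ (n + 1)) +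
            l ^ 2 * n / 8)) := by gcongr
      _ = 2 ^ (n + 1) * (Real.exp (l ^ 2 / 8) * Real.exp (l * ((∑ χ, f χ) / 2 ^ (n + 1)) +
            l ^ 2 * n / 8)) := by ring
      _ = _ := by
          rw [← Real.exp_add]
          congr 2
          push_cast
          ring

theorem mgf (ι : Type) [Fintype ι] [DecidableEq ι] (f : (ι → Bool) → ℝ) (hf : Lip f) (l : ℝ) :
    ∑ χ, Real.exp (l * f χ) ≤ 2 ^ Fintype.card ι *
      Real.exp (l * ((∑ χ, f χ) / 2 ^ Fintype.card ι) + l ^ 2 * Fintype.card ι / 8) := by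
  set e : ι ≃ Fin (Fintype.card ι) := Fintype.equivFin ι with he
  have h := mgf_fin (Fintype.card ι) (fun χ => f (χ ∘ e)) (by
    intro χ χ' c hc
    refine hf _ _ (e.symm c) ?_
    intro d hd
    refine hc (e d) ?_
    rintro rfl
    exact hd (by simp)) l
  have e1 : ∀ g : (ι → Bool) → ℝ, ∑ χ, g χ = ∑ χ : Fin (Fintype.card ι) → Bool, g (χ ∘ e) := by
    intro g
    exact ((e.arrowCongr (Equiv.refl Bool)).symm.sum_comp g).symm
  rw [e1 (fun χ => Real.exp (l * f χ)), e1 f]
  exact h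

variable {ι : Type} [Fintype ι] [DecidableEq ι]

/-- Number of agreements. -/
noncomputable def agr (χ ω : ι → Bool) : ℝ := ((univ.filter (fun c => χ c = ω c)).card : ℝ)

theorem agr_lip (ω : ι → Bool) : Lip (fun χ => agr χ ω) := by
  intro χ χ' c h
  unfold agr
  have h1 : univ.filter (fun d => χ d = ω d) ⊆ insert c (univ.filter (fun d => χ' d = ω d)) := by
    intro d hd
    rw [mem_filter] at hd
    by_cases hdc : d = c
    · exact mem_insert.mpr (Or.inl hdc)
    · refine mem_insert.mpr (Or.inr ?_)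
      rw [mem_filter, ← h d hdc]
      exact hd
  have h2 := (card_le_card h1).trans (card_insert_le _ _)
  simp only
  exact_mod_cast h2

end P3aux

open P3aux in
theorem P3 : T_P3 := by
  intro ι _ _ S a ha hS
  have hSne : S.Nonempty := by
    rw [← Finset.card_pos]
    have : (0:ℝ) < S.card := lt_of_lt_of_le (by positivity) hS
    exact_mod_cast this
  set N : ℕ := Fintype.card ι with hN
  set f : (ι → Bool) → ℝ := fun χ => S.inf' hSne (fun ω => agr χ ω) with hf
  have hf0 : ∀ χ, 0 ≤ f χ := by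
    intro χ
    obtain ⟨ω, -, hω2⟩ := S.exists_mem_eq_inf' hSne (fun ω => agr χ ω)
    rw [hf]
    simp only
    rw [hω2]
    unfold agr
    positivity
  have hlip : Lip f := by
    intro χ χ' c h
    obtain ⟨ω, hω, hω2⟩ := S.exists_mem_eq_inf' hSne (fun ω => agr χ' ω)
    have h1 : f χ ≤ agr χ ω := Finset.inf'_le _ hω
    have h2 := agr_lip ω χ χ' c h
    have h3 : f χ' = agr χ' ω := hω2
    simp only at h2
    linarith
  obtain ⟨ω0, hω0, hmin⟩ := Finset.exists_min_image S f hSne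
  obtain ⟨χ', hχ', hχ2⟩ := S.exists_mem_eq_inf' hSne (fun ω => agr ω0 ω)
  have hR : f ω0 = agr ω0 χ' := hχ2
  refine ⟨ω0, hω0, χ', hχ', ?_⟩
  change agr ω0 χ' ≤ _
  rw [← hR]
  rcases Nat.eq_zero_or_pos N with hN0 | hNpos
  · -- no coordinates
    have hem : IsEmpty ι := Fintype.card_eq_zero_iff.mp hN0
    have : agr ω0 χ' = 0 := by
      unfold agr
      simp
    rw [hR, this]
    positivity
  set μ : ℝ := (∑ χ, f χ) / 2 ^ N with hμ
  have hμ0 : 0 ≤ μ := by
    rw [hμ]
    exact div_nonneg (Finset.sum_nonneg fun χ _ => hf0 χ) (by positivity)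
  have hNp : (0:ℝ) < N := by exact_mod_cast hNpos
  -- general consequence
  have key : ∀ (l R : ℝ) (T : Finset (ι → Bool)), S.card = T.card → (∀ χ ∈ T, l * R ≤ l * f χ) →
      -a ≤ l * (μ - R) + l ^ 2 * N / 8 := by
    intro l R T hT h
    have h1 := mgf ι f hlip l
    rw [← hN, ← hμ] at h1
    have h2 : (S.card : ℝ) * Real.exp (l * R) ≤ ∑ χ, Real.exp (l * f χ) := by
      calc (S.card : ℝ) * Real.exp (l * R) = ∑ χ ∈ T, Real.exp (l * R) := by
            rw [Finset.sum_const, nsmul_eq_mul, hT]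
        _ ≤ ∑ χ ∈ T, Real.exp (l * f χ) :=
            Finset.sum_le_sum fun χ hχ => Real.exp_le_exp.mpr (h χ hχ)
        _ ≤ ∑ χ, Real.exp (l * f χ) :=
            Finset.sum_le_sum_of_subset_of_nonneg (Finset.subset_univ _)
              (fun _ _ _ => (Real.exp_pos _).le)
    have h3 : (2:ℝ) ^ N * (Real.exp (-a) * Real.exp (l * R)) ≤
        2 ^ N * Real.exp (l * μ + l ^ 2 * N / 8) := by
      rw [← mul_assoc]
      exact ((mul_le_mul_of_nonneg_right hS (Real.exp_pos _).le).trans h2).trans h1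
    have h4 := le_of_mul_le_mul_left h3 (by positivity)
    rw [← Real.exp_add, Real.exp_le_exp] at h4
    linarith
  -- the mean is small
  have hmu : μ ^ 2 ≤ a * N / 2 := by
    have h1 := key (-(4 * μ / N)) 0 (S.image (fun ω c => !(ω c))) (by
      rw [Finset.card_image_of_injective]
      intro x y hxy
      funext c
      have := congrFun hxy c
      simpa using this) (by
      intro χ hχ
      rw [Finset.mem_image] at hχ
      obtain ⟨ω, hω, rfl⟩ := hχ
      have h2 : f (fun c => !(ω c)) ≤ 0 := by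
        refine (Finset.inf'_le _ hω).trans ?_
        unfold agr
        simp
      have h3 : f (fun c => !(ω c)) = 0 := le_antisymm h2 (hf0 _)
      rw [h3])
    have h2 : -(4 * μ / N) * (μ - 0) + (-(4 * μ / N)) ^ 2 * N / 8 = -(2 * μ ^ 2 / N) := by
      field_simp
      ring
    rw [h2] at h1
    have h3 : 2 * μ ^ 2 / N ≤ a := by linarith
    rw [div_le_iff₀ hNp] at h3
    linarith
  apply Real.le_sqrt_of_sq_le
  rcases le_total (f ω0) μ with hle | hle
  · have h1 : (f ω0) ^ 2 ≤ μ ^ 2 := pow_le_pow_left₀ (hf0 _) hle 2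
    have h2 : 0 ≤ a * N := by positivity
    linarith
  · have h1 := key (4 * (f ω0 - μ) / N) (f ω0) S rfl (by
      intro χ hχ
      apply mul_le_mul_of_nonneg_left (hmin χ hχ)
      have : 0 ≤ f ω0 - μ := by linarith
      positivity)
    have h2 : (4 * (f ω0 - μ) / N) * (μ - f ω0) + (4 * (f ω0 - μ) / N) ^ 2 * N / 8 =
        -(2 * (f ω0 - μ) ^ 2 / N) := by
      field_simp
      ring
    rw [h2] at h1
    have h3 : 2 * (f ω0 - μ) ^ 2 / N ≤ a := by linarith
    rw [div_le_iff₀ hNp] at h3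
    have h4 : (f ω0) ^ 2 ≤ 2 * ((f ω0 - μ) ^ 2 + μ ^ 2) := by nlinarith [sq_nonneg (f ω0 - 2 * μ)]
    linarith

end Pool.Agent.H162R2.AG
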