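import Pool.Agent.H162R2.AG.Stmts

/-!
# Task P5: spectral decomposition of an incidence matrix
-/

set_option autoImplicit false

namespace Pool.Agent.H162R2.AG

open Finset

theorem p5_aux {ι : Type} [Fintype ι] {n : ℕ} (A : Fin n → ι → ℝ) :
    ∃ w : Fin n → ι → ℝ, (∀ i j, i ≠ j → ∑ c, w i c * w j c = 0) ∧
      (∑ i, ∑ c, w i c ^ 2 = ∑ i, ∑ c, A i c ^ 2) ∧
      ∀ x : ι → ℝ, ∑ i, (∑ c, A i c * x c) ^ 2 = ∑ i, (∑ c, w i c * x c) ^ 2 := by
  classical
  let M : Matrix (Fin n) ι ℝ := Matrix.of A
  have hB : (M * M.conjTranspose).IsHermitian := Matrix.isHermitian_mul_conjTranspose_self M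
  let u : Fin n → Fin n → ℝ := fun j i => (hB.eigenvectorBasis j) i
  -- Parseval
  have pars : ∀ y : Fin n → ℝ, ∑ j, (∑ i, u j i * y i) ^ 2 = ∑ i, y i ^ 2 := by
    intro y
    have h := hB.eigenvectorBasis.sum_sq_norm_inner_right (WithLp.toLp 2 y)
    rw [EuclideanSpace.norm_sq_eq] at h
    simp only [Real.norm_eq_abs, sq_abs, PiLp.inner_apply, RCLike.inner_apply, conj_trivial] at h
    rw [← h]
    refine Finset.sum_congr rfl fun j _ => ?_
    congr 1
    refine Finset.sum_congr rfl fun i _ => ?_
    simp only [u]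
    ring
  refine ⟨fun j c => ∑ i, u j i * A i c, ?_, ?_, ?_⟩
  · intro j k hjk
    have h1 : ∑ i, u j i * u k i = 0 := by
      have h := hB.eigenvectorBasis.orthonormal.inner_eq_zero hjk
      simp only [PiLp.inner_apply, RCLike.inner_apply, conj_trivial] at h
      rw [← h]
      refine Finset.sum_congr rfl fun i _ => ?_
      simp only [u]
      ring
    have h2 : ∀ i, ∑ i', (∑ c, A i c * A i' c) * u k i' = hB.eigenvalues k * u k i := by
      intro i
      have h := congrFun (hB.mulVec_eigenvectorBasis k) i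
      simp only [Matrix.mulVec, dotProduct, Matrix.mul_apply, Matrix.conjTranspose_apply,
        star_trivial, Pi.smul_apply, smul_eq_mul, M, Matrix.of_apply] at h
      exact h
    calc ∑ c, (∑ i, u j i * A i c) * (∑ i, u k i * A i c)
        = ∑ c, ∑ i, ∑ i', (u j i * A i c) * (u k i' * A i' c) := by
          refine Finset.sum_congr rfl fun c _ => ?_
          rw [Finset.sum_mul_sum]
      _ = ∑ i, ∑ i', ∑ c, (u j i * A i c) * (u k i' * A i' c) := by
          rw [Finset.sum_comm]
          refine Finset.sum_congr rfl fun i _ => ?_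
          rw [Finset.sum_comm]
      _ = ∑ i, u j i * ∑ i', (∑ c, A i c * A i' c) * u k i' := by
          refine Finset.sum_congr rfl fun i _ => ?_
          rw [Finset.mul_sum]
          refine Finset.sum_congr rfl fun i' _ => ?_
          rw [Finset.sum_mul, Finset.mul_sum]
          refine Finset.sum_congr rfl fun c _ => ?_
          ring
      _ = hB.eigenvalues k * ∑ i, u j i * u k i := by
          rw [Finset.mul_sum]
          refine Finset.sum_congr rfl fun i _ => ?_
          rw [h2]
          ring
      _ = 0 := by rw [h1, mul_zero]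
  · rw [Finset.sum_comm, Finset.sum_comm (f := fun i c => A i c ^ 2)]
    refine Finset.sum_congr rfl fun c _ => ?_
    exact pars (fun i => A i c)
  · intro x
    rw [← pars (fun i => ∑ c, A i c * x c)]
    refine Finset.sum_congr rfl fun j _ => ?_
    congr 1
    simp only [Finset.mul_sum, Finset.sum_mul]
    rw [Finset.sum_comm]
    refine Finset.sum_congr rfl fun c _ => ?_
    refine Finset.sum_congr rfl fun i _ => ?_
    ring

theorem P5 : T_P5 := by
  intro ι _ _ n L
  obtain ⟨w, h1, h2, h3⟩ := p5_aux (fun (i : Fin n) (c : ι) => if c ∈ L i then (1:ℝ) else 0)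
  refine ⟨w, h1, ?_, ?_⟩
  · rw [h2]
    refine Finset.sum_congr rfl fun i _ => ?_
    simp
  · intro x
    rw [← h3 x]
    refine Finset.sum_congr rfl fun i _ => ?_
    congr 1
    simp

end Pool.Agent.H162R2.AG
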