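import Mathlib
import Pool.Agent.H162R2.AG.Stmts

/-!
# P6: one round of the low discrepancy partial colouring
-/

set_option autoImplicit false

namespace Pool.Agent.H162R2.AG

open Finset Pool.Agent.H162R2.Sparse

namespace P6aux

lemma exp_neg_four_log {x : ℝ} (hx : 0 < x) : Real.exp (-(4 * Real.log x)) = (x ^ 4)⁻¹ := by
  rw [Real.exp_neg, show (4 : ℝ) * Real.log x = ((4 : ℕ) : ℝ) * Real.log x by norm_num,
    Real.exp_nat_mul, Real.exp_log hx]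

lemma num (θ : ℝ) (h0 : 0 < θ) (h1 : θ ≤ 1) : ∃ n₀ : ℕ, ∀ n : ℕ, n₀ ≤ n →
    3 ≤ n ∧ (n : ℝ) ^ 2 * (2 * Real.exp (-(4 * Real.log n))) ≤ 1 / 8 ∧
    n * Real.exp (1 / θ - 4 * Real.log n) ≤ 1 / 8 ∧
    1 ≤ θ ^ 2 * (n * Real.log n) ∧
    2 * ((⌊2 * n / θ⌋₊ : ℝ) * (2 * n + 1) + 1) ^ (⌈16 / θ * (n : ℝ) ^ (1 - θ ^ 2 / 4)⌉₊) ≤
      Real.exp ((n : ℝ) ^ (1 - θ ^ 2 / 5)) := by
  have hev : ∀ᶠ x : ℝ in Filter.atTop, 52 / θ * Real.log x ≤ x ^ (θ ^ 2 / 20) := by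
    have h := (isLittleO_log_rpow_atTop (r := θ ^ 2 / 20) (by positivity)).def
      (c := θ / 52) (by positivity)
    filter_upwards [h, Filter.eventually_ge_atTop (1 : ℝ)] with x hx hx1
    rw [Real.norm_of_nonneg (Real.log_nonneg hx1), Real.norm_of_nonneg (by positivity)] at hx
    rw [div_mul_eq_mul_div, div_le_iff₀ h0]
    rw [div_mul_eq_mul_div, le_div_iff₀ (by norm_num)] at hx
    linarith
  have hev2 := tendsto_natCast_atTop_atTop (R := ℝ) |>.eventually hev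
  obtain ⟨N1, hN1⟩ := Filter.eventually_atTop.1 hev2
  obtain ⟨N2, hN2⟩ := exists_nat_gt (8 * Real.exp (1 / θ))
  obtain ⟨N3, hN3⟩ := exists_nat_gt (1 / θ ^ 2)
  obtain ⟨N4, hN4⟩ := exists_nat_gt (7 / θ)
  refine ⟨N1 + N2 + N3 + N4 + 4, fun n hn => ?_⟩
  have hn4 : (4 : ℝ) ≤ n := by exact_mod_cast (by omega : 4 ≤ n)
  have hnpos : (0 : ℝ) < n := by linarith
  have hn1 : (1 : ℝ) ≤ n := by linarith
  have hnN2 : (N2 : ℝ) ≤ n := by exact_mod_cast (by omega : N2 ≤ n)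
  have hnN3 : (N3 : ℝ) ≤ n := by exact_mod_cast (by omega : N3 ≤ n)
  have hnN4 : (N4 : ℝ) ≤ n := by exact_mod_cast (by omega : N4 ≤ n)
  have hlog1 : 1 ≤ Real.log n := by
    rw [Real.le_log_iff_exp_le hnpos]
    have := Real.exp_one_lt_d9
    linarith
  refine ⟨by omega, ?_, ?_, ?_, ?_⟩
  · rw [exp_neg_four_log hnpos]
    have e : (n : ℝ) ^ 2 * (2 * ((n : ℝ) ^ 4)⁻¹) = 2 / (n : ℝ) ^ 2 := by
      field_simp
    rw [e, div_le_iff₀ (by positivity)]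
    nlinarith
  · have e : Real.exp (1 / θ - 4 * Real.log n) = Real.exp (1 / θ) * ((n : ℝ) ^ 4)⁻¹ := by
      rw [sub_eq_add_neg, Real.exp_add, exp_neg_four_log hnpos]
    rw [e]
    have e2 : (n : ℝ) * (Real.exp (1 / θ) * ((n : ℝ) ^ 4)⁻¹) = Real.exp (1 / θ) / (n : ℝ) ^ 3 := by
      field_simp
    rw [e2, div_le_iff₀ (by positivity)]
    have h3 : (n : ℝ) ≤ (n : ℝ) ^ 3 := by
      have : (1 : ℝ) ≤ (n : ℝ) ^ 2 := one_le_pow₀ hn1
      nlinarith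
    linarith
  · have h2 : 1 < θ ^ 2 * n := by
      have : 1 / θ ^ 2 < n := lt_of_lt_of_le hN3 hnN3
      rw [div_lt_iff₀ (by positivity)] at this
      linarith
    have h3 : θ ^ 2 * n * 1 ≤ θ ^ 2 * n * Real.log n :=
      mul_le_mul_of_nonneg_left hlog1 (by positivity)
    nlinarith
  · set E : ℝ := (n : ℝ) ^ (1 - θ ^ 2 / 4) with hE
    have hE1 : 1 ≤ E := Real.one_le_rpow hn1 (by nlinarith)
    set k : ℕ := ⌈16 / θ * E⌉₊ with hk
    have hk1 : (k : ℝ) ≤ 17 / θ * E := by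
      have h2 : (k : ℝ) < 16 / θ * E + 1 := Nat.ceil_lt_add_one (by positivity)
      have h3 : 1 ≤ 1 / θ * E := by
        have : 1 ≤ 1 / θ := by rw [le_div_iff₀ h0]; linarith
        nlinarith
      have h4 : 17 / θ * E = 16 / θ * E + 1 / θ * E := by ring
      linarith
    have hm : (⌊2 * n / θ⌋₊ : ℝ) ≤ 2 * n / θ := Nat.floor_le (by positivity)
    have h7 : 7 < n * θ := by
      have : 7 / θ < n := lt_of_lt_of_le hN4 hnN4
      rwa [div_lt_iff₀ h0] at this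
    have hM : (⌊2 * n / θ⌋₊ : ℝ) * (2 * n + 1) + 1 ≤ (n : ℝ) ^ 3 := by
      have h2 : (⌊2 * n / θ⌋₊ : ℝ) * (2 * n + 1) ≤ 2 * n / θ * (3 * n) :=
        mul_le_mul hm (by linarith) (by positivity) (by positivity)
      have h3 : 2 * n / θ * (3 * n) = 6 * n ^ 2 / θ := by ring
      have h4 : 6 * (n : ℝ) ^ 2 / θ + 1 ≤ 7 * (n : ℝ) ^ 2 / θ := by
        have : 1 ≤ (n : ℝ) ^ 2 / θ := by
          rw [le_div_iff₀ h0]
          have : (1 : ℝ) ≤ (n : ℝ) ^ 2 := one_le_pow₀ hn1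
          linarith
        have e : 7 * (n : ℝ) ^ 2 / θ = 6 * (n : ℝ) ^ 2 / θ + (n : ℝ) ^ 2 / θ := by ring
        linarith
      have h5 : 7 * (n : ℝ) ^ 2 / θ ≤ (n : ℝ) ^ 3 := by
        rw [div_le_iff₀ h0]
        have : 7 * (n : ℝ) ^ 2 ≤ (n * θ) * (n : ℝ) ^ 2 :=
          mul_le_mul_of_nonneg_right h7.le (by positivity)
        calc 7 * (n : ℝ) ^ 2 ≤ (n * θ) * (n : ℝ) ^ 2 := this
          _ = (n : ℝ) ^ 3 * θ := by ring
      linarith
    have hMpos : (0 : ℝ) < (⌊2 * n / θ⌋₊ : ℝ) * (2 * n + 1) + 1 := by positivity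
    have hlogM : Real.log ((⌊2 * n / θ⌋₊ : ℝ) * (2 * n + 1) + 1) ≤ 3 * Real.log n := by
      have := Real.log_le_log hMpos hM
      rwa [Real.log_pow] at this
    have key : Real.log 2 + k * Real.log ((⌊2 * n / θ⌋₊ : ℝ) * (2 * n + 1) + 1) ≤
        (n : ℝ) ^ (1 - θ ^ 2 / 5) := by
      have h2 : (k : ℝ) * Real.log ((⌊2 * n / θ⌋₊ : ℝ) * (2 * n + 1) + 1) ≤
          17 / θ * E * (3 * Real.log n) :=
        mul_le_mul hk1 hlogM (Real.log_nonneg (by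
          have : (0 : ℝ) ≤ (⌊2 * n / θ⌋₊ : ℝ) * (2 * n + 1) := by positivity
          linarith)) (by positivity)
      have h3 : Real.log 2 ≤ 1 / θ * E * Real.log n := by
        have h4 := Real.log_two_lt_d9
        have h5 : 1 ≤ 1 / θ := by rw [le_div_iff₀ h0]; linarith
        have h6 : 1 ≤ 1 / θ * E := by nlinarith
        nlinarith
      have h4 : 1 / θ * E * Real.log n + 17 / θ * E * (3 * Real.log n) =
          E * (52 / θ * Real.log n) := by ring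
      have h5 : 52 / θ * Real.log n ≤ (n : ℝ) ^ (θ ^ 2 / 20) := hN1 n (by omega)
      have h6 : E * (52 / θ * Real.log n) ≤ E * (n : ℝ) ^ (θ ^ 2 / 20) :=
        mul_le_mul_of_nonneg_left h5 (by linarith)
      have h7 : E * (n : ℝ) ^ (θ ^ 2 / 20) = (n : ℝ) ^ (1 - θ ^ 2 / 5) := by
        rw [hE, ← Real.rpow_add hnpos]
        congr 1
        ring
      linarith
    have h8 : (2 : ℝ) * ((⌊2 * n / θ⌋₊ : ℝ) * (2 * n + 1) + 1) ^ k =
        Real.exp (Real.log 2 + k * Real.log ((⌊2 * n / θ⌋₊ : ℝ) * (2 * n + 1) + 1)) := by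
      rw [Real.exp_add, Real.exp_log (by norm_num), Real.exp_nat_mul, Real.exp_log hMpos]
    rw [h8]
    exact Real.exp_le_exp.2 key

lemma Lam_sq (n : ℕ) (hn : 1 ≤ n) : Lam n ^ 2 = n * Real.log n := by
  unfold Lam
  rw [Real.sq_sqrt]
  exact mul_nonneg (by positivity) (Real.log_nonneg (by exact_mod_cast hn))

lemma sgd (a b : Bool) : (sg a - sg b) / 2 = 0 ∨ (sg a - sg b) / 2 = 1 ∨
    (sg a - sg b) / 2 = -1 := by
  cases a <;> cases b <;> norm_num [sg]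

lemma sgd_zero (a b : Bool) : (sg a - sg b) / 2 = 0 ↔ a = b := by
  cases a <;> cases b <;> norm_num [sg]

lemma sum_subtype_le {α : Type} [Fintype α] (p : α → Prop) [Fintype {a // p a}] (f : α → ℝ)
    (hf : ∀ a, 0 ≤ f a) : ∑ a : {a // p a}, f a ≤ ∑ a, f a := by
  classical
  rw [← Finset.sum_subtype (univ.filter p) (by simp) f]
  exact sum_le_sum_of_subset_of_nonneg (filter_subset _ _) fun a _ _ => hf a

lemma card_subtype_le {α : Type} [Fintype α] (p : α → Prop) [Fintype {a // p a}] (f : α → ℝ)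
    (hf : ∀ a, 0 ≤ f a) (ρ T : ℝ) (hρ : 0 < ρ) (hp : ∀ a, p a → ρ ≤ f a) (hT : ∑ a, f a ≤ T) :
    (Fintype.card {a // p a} : ℝ) ≤ T / ρ := by
  rw [le_div_iff₀ hρ]
  calc (Fintype.card {a // p a} : ℝ) * ρ = ∑ _a : {a // p a}, ρ := by simp
    _ ≤ ∑ a : {a // p a}, f a := sum_le_sum fun a _ => hp a a.2
    _ ≤ ∑ a, f a := sum_subtype_le p f hf
    _ ≤ T := hT

lemma sum_sq_split {α : Type} [Fintype α] (p : α → Prop) [Fintype {a // p a}]
    [Fintype {a // ¬ p a}] (f : α → ℝ) :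
    ∑ a, f a = ∑ a : {a // p a}, f a + ∑ a : {a // ¬ p a}, f a := by
  classical
  rw [← Finset.sum_subtype (univ.filter p) (by simp) f,
    ← Finset.sum_subtype (univ.filter fun a => ¬ p a) (by simp) f]
  exact (sum_filter_add_sum_filter_not univ p f).symm

open Classical in
lemma main (h1 : T_P1) (h3 : T_P3) (h4 : T_P4) (h5 : T_P5) (h6 : T_P6a) (θ : ℝ) (hθ0 : 0 < θ)
    (hθ1 : θ ≤ 1) (n : ℕ) (hn : 3 ≤ n)
    (c2 : (n : ℝ) ^ 2 * (2 * Real.exp (-(4 * Real.log n))) ≤ 1 / 8)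
    (c3 : n * Real.exp (1 / θ - 4 * Real.log n) ≤ 1 / 8)
    (c4 : 1 ≤ θ ^ 2 * (n * Real.log n))
    (c5 : 2 * ((⌊2 * n / θ⌋₊ : ℝ) * (2 * n + 1) + 1) ^ (⌈16 / θ * (n : ℝ) ^ (1 - θ ^ 2 / 4)⌉₊) ≤
      Real.exp ((n : ℝ) ^ (1 - θ ^ 2 / 5)))
    (ι : Type) [Fintype ι] [DecidableEq ι]
    (L : Fin n → Fin n → Finset ι) (hL : ∀ v i, (L v i).card ≤ 2 * n) :
    ∃ ψ : ι → ℝ, (∀ c, ψ c = 0 ∨ ψ c = 1 ∨ ψ c = -1) ∧
      cnt (fun c => ψ c = 0) ≤ Real.sqrt (2 * (n : ℝ) ^ (1 - θ ^ 2 / 5) * Fintype.card ι) ∧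
      (∀ v, ∑ i, (∑ c ∈ L v i, ψ c) ^ 2 ≤ 18 * θ * n ^ 2 * Real.log n) ∧
      ∀ v i, |∑ c ∈ L v i, ψ c| ≤ 4 * Lam n := by
  have hnpos : (0 : ℝ) < n := by exact_mod_cast (by omega : 0 < n)
  have hn1 : (1 : ℝ) ≤ n := by exact_mod_cast (by omega : 1 ≤ n)
  have hlog0 : 0 ≤ Real.log n := Real.log_nonneg hn1
  have hLam0 : 0 ≤ Lam n := Real.sqrt_nonneg _
  have hLam2 := Lam_sq n (by omega)
  choose w hw1 hw2 hw3 using fun v => h5 ι n (L v)
  set N := Fintype.card ι with hN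
  have h2N : (0 : ℝ) < 2 ^ N := by positivity
  have hcardΩ : (Fintype.card (ι → Bool) : ℝ) = 2 ^ N := by
    rw [card_signs]; push_cast; rfl
  -- norms
  have hnr : ∀ v, ∑ j, ∑ c, w v j c ^ 2 ≤ 2 * (n : ℝ) ^ 2 := by
    intro v
    rw [hw2 v]
    calc ∑ i, ((L v i).card : ℝ) ≤ ∑ _i : Fin n, (2 * n : ℝ) :=
          sum_le_sum fun i _ => by exact_mod_cast hL v i
      _ = 2 * (n : ℝ) ^ 2 := by
          rw [sum_const, card_univ, Fintype.card_fin, nsmul_eq_mul]; ring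
  have hnr0 : ∀ v j, 0 ≤ ∑ c, w v j c ^ 2 := fun v j => sum_nonneg fun c _ => sq_nonneg _
  have hnr1 : ∀ v j, ∑ c, w v j c ^ 2 ≤ 2 * (n : ℝ) ^ 2 := fun v j =>
    (single_le_sum (f := fun j => ∑ c, w v j c ^ 2) (fun j _ => hnr0 v j) (mem_univ j)).trans
      (hnr v)
  -- (a)
  have ha : ∀ v i, cnt (fun χ : ι → Bool => 4 * Lam n ≤ |∑ c ∈ L v i, sg (χ c)|) ≤
      2 * Real.exp (-(4 * Real.log n)) * 2 ^ N := by
    intro v i
    have h := h1 ι (fun c => if c ∈ L v i then 1 else 0) (2 * n) (4 * Lam n) (by positivity)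
      (by positivity) (by
        have : ∑ c, (if c ∈ L v i then (1 : ℝ) else 0) ^ 2 = (L v i).card := by
          simp [ite_pow]
        rw [this]
        exact_mod_cast hL v i)
    have e1 : -((4 * Lam n) ^ 2) / (2 * (2 * (n : ℝ))) = -(4 * Real.log n) := by
      rw [mul_pow, hLam2]
      field_simp
      ring
    rw [e1] at h
    refine le_trans (le_of_eq ?_) h
    congr 1
    funext χ
    simp
  -- (b)
  have hb : ∀ v, cnt (fun χ : ι → Bool => 16 * θ * n ^ 2 * Real.log n ≤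
      ∑ j : {j : Fin n // ¬ θ * n ^ 2 < ∑ c, w v j c ^ 2}, (∑ c, w v j c * sg (χ c)) ^ 2) ≤
      Real.exp (1 / θ - 4 * Real.log n) * 2 ^ N := by
    intro v
    have h := h4 ι {j : Fin n // ¬ θ * n ^ 2 < ∑ c, w v j c ^ 2} (fun j => w v j) (θ * n ^ 2)
      (2 * n ^ 2) (16 * θ * n ^ 2 * Real.log n) (by positivity)
      (fun i j hij => hw1 v i j (fun h => hij (Subtype.ext h)))
      (fun i => not_lt.1 i.2) (by
        exact (sum_subtype_le _ _ (hnr0 v)).trans (hnr v))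
    have e1 : 2 * (n : ℝ) ^ 2 / (2 * (θ * n ^ 2)) - 16 * θ * n ^ 2 * Real.log n / (4 * (θ * n ^ 2)) =
        1 / θ - 4 * Real.log n := by
      field_simp
      ring
    rw [e1] at h
    exact h
  -- the good set
  set A : Finset (ι → Bool) := univ.filter (fun χ =>
    (∀ v i, |∑ c ∈ L v i, sg (χ c)| ≤ 4 * Lam n) ∧
    ∀ v, ∑ j : {j : Fin n // ¬ θ * n ^ 2 < ∑ c, w v j c ^ 2}, (∑ c, w v j c * sg (χ c)) ^ 2 ≤
      16 * θ * n ^ 2 * Real.log n) with hA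
  have hAcard : 3 / 4 * (Fintype.card (ι → Bool) : ℝ) ≤ A.card := by
    have g1 : cnt (fun χ : ι → Bool => ∃ p ∈ (univ : Finset (Fin n × Fin n)),
        4 * Lam n ≤ |∑ c ∈ L p.1 p.2, sg (χ c)|) ≤ 1 / 8 * 2 ^ N := by
      refine (cnt_exists_le _ _).trans ?_
      calc ∑ p : Fin n × Fin n, cnt (fun χ : ι → Bool => 4 * Lam n ≤ |∑ c ∈ L p.1 p.2, sg (χ c)|)
          ≤ ∑ _p : Fin n × Fin n, 2 * Real.exp (-(4 * Real.log n)) * 2 ^ N :=
            sum_le_sum fun p _ => ha p.1 p.2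
        _ = ((n : ℝ) ^ 2 * (2 * Real.exp (-(4 * Real.log n)))) * 2 ^ N := by
            rw [sum_const, card_univ, Fintype.card_prod, Fintype.card_fin, nsmul_eq_mul]
            push_cast
            ring
        _ ≤ 1 / 8 * 2 ^ N := mul_le_mul_of_nonneg_right c2 h2N.le
    have g2 : cnt (fun χ : ι → Bool => ∃ v ∈ (univ : Finset (Fin n)),
        16 * θ * n ^ 2 * Real.log n ≤ ∑ j : {j : Fin n // ¬ θ * n ^ 2 < ∑ c, w v j c ^ 2},
          (∑ c, w v j c * sg (χ c)) ^ 2) ≤ 1 / 8 * 2 ^ N := by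
      refine (cnt_exists_le _ _).trans ?_
      calc ∑ v : Fin n, cnt (fun χ : ι → Bool => 16 * θ * n ^ 2 * Real.log n ≤
            ∑ j : {j : Fin n // ¬ θ * n ^ 2 < ∑ c, w v j c ^ 2}, (∑ c, w v j c * sg (χ c)) ^ 2)
          ≤ ∑ _v : Fin n, Real.exp (1 / θ - 4 * Real.log n) * 2 ^ N :=
            sum_le_sum fun v _ => hb v
        _ = (n * Real.exp (1 / θ - 4 * Real.log n)) * 2 ^ N := by
            rw [sum_const, card_univ, Fintype.card_fin, nsmul_eq_mul]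
            ring
        _ ≤ 1 / 8 * 2 ^ N := mul_le_mul_of_nonneg_right c3 h2N.le
    have g3 : cnt (fun χ : ι → Bool => ¬ ((∀ v i, |∑ c ∈ L v i, sg (χ c)| ≤ 4 * Lam n) ∧
        ∀ v, ∑ j : {j : Fin n // ¬ θ * n ^ 2 < ∑ c, w v j c ^ 2}, (∑ c, w v j c * sg (χ c)) ^ 2 ≤
          16 * θ * n ^ 2 * Real.log n)) ≤ 1 / 8 * 2 ^ N + 1 / 8 * 2 ^ N := by
      refine le_trans (cnt_mono ?_) ((cnt_or_le _ _).trans (add_le_add g1 g2))
      intro χ hχ
      rw [not_and_or] at hχ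
      rcases hχ with hχ | hχ
      · left
        push Not at hχ
        obtain ⟨v, i, h⟩ := hχ
        exact ⟨(v, i), mem_univ _, h.le⟩
      · right
        push Not at hχ
        obtain ⟨v, h⟩ := hχ
        exact ⟨v, mem_univ _, h.le⟩
    have g4 := cnt_not (fun χ : ι → Bool => (∀ v i, |∑ c ∈ L v i, sg (χ c)| ≤ 4 * Lam n) ∧
        ∀ v, ∑ j : {j : Fin n // ¬ θ * n ^ 2 < ∑ c, w v j c ^ 2}, (∑ c, w v j c * sg (χ c)) ^ 2 ≤
          16 * θ * n ^ 2 * Real.log n)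
    have g5 : (A.card : ℝ) = cnt (fun χ : ι → Bool => (∀ v i, |∑ c ∈ L v i, sg (χ c)| ≤ 4 * Lam n) ∧
        ∀ v, ∑ j : {j : Fin n // ¬ θ * n ^ 2 < ∑ c, w v j c ^ 2}, (∑ c, w v j c * sg (χ c)) ^ 2 ≤
          16 * θ * n ^ 2 * Real.log n) := by
      rw [hA]
      unfold cnt
      congr!
    rw [hcardΩ] at g4 ⊢
    rw [g5]
    linarith
  -- (c)
  set h : ℝ := θ * n * Real.sqrt (Real.log n) with hh
  have hlogpos : 0 < Real.log n := Real.log_pos (by exact_mod_cast (by omega : 1 < n))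
  have hh0 : 0 < h := by
    rw [hh]
    have := Real.sqrt_pos.2 hlogpos
    positivity
  have hh2 : h ^ 2 = θ ^ 2 * n ^ 2 * Real.log n := by
    rw [hh, mul_pow, mul_pow, Real.sq_sqrt hlog0]
  let J : Type := {p : Fin n × Fin n // θ * n ^ 2 < ∑ c, w p.1 p.2 c ^ 2}
  set m : ℕ := ⌊2 * n / θ⌋₊ with hm
  set k : ℕ := ⌈16 / θ * (n : ℝ) ^ (1 - θ ^ 2 / 4)⌉₊ with hk
  let g : J → (ι → Bool) → ℝ := fun p χ => ∑ c, w p.1.1 p.1.2 c * sg (χ c)
  have hJcard : (Fintype.card J : ℝ) ≤ 2 * n / θ := by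
    have e : (2 * n / θ : ℝ) = (2 * (n : ℝ) ^ 3) / (θ * n ^ 2) := by field_simp
    rw [e]
    refine card_subtype_le (fun p : Fin n × Fin n => θ * n ^ 2 < ∑ c, w p.1 p.2 c ^ 2)
      (fun p => ∑ c, w p.1 p.2 c ^ 2) (fun p => hnr0 _ _) (θ * n ^ 2) (2 * (n : ℝ) ^ 3)
      (by positivity) (fun p hp => hp.le) ?_
    rw [Fintype.sum_prod_type]
    calc ∑ v, ∑ j, ∑ c, w v j c ^ 2 ≤ ∑ _v : Fin n, 2 * (n : ℝ) ^ 2 := sum_le_sum fun v _ => hnr v
      _ = 2 * (n : ℝ) ^ 3 := by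
          rw [sum_const, card_univ, Fintype.card_fin, nsmul_eq_mul]; ring
  have hJm : Fintype.card J ≤ m := Nat.le_floor hJcard
  have hgsq : ∀ (p : J) (χ : ι → Bool), (g p χ) ^ 2 ≤ 4 * (n : ℝ) ^ 3 := by
    intro p χ
    have e1 := hw3 p.1.1 (fun c => sg (χ c))
    have e2 : (g p χ) ^ 2 ≤ ∑ i, (∑ c, w p.1.1 i c * sg (χ c)) ^ 2 :=
      single_le_sum (f := fun i => (∑ c, w p.1.1 i c * sg (χ c)) ^ 2) (fun i _ => sq_nonneg _)
        (mem_univ p.1.2)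
    rw [← e1] at e2
    refine e2.trans ?_
    calc ∑ i, (∑ c ∈ L p.1.1 i, sg (χ c)) ^ 2 ≤ ∑ _i : Fin n, (2 * (n : ℝ)) ^ 2 := by
          refine sum_le_sum fun i _ => ?_
          rw [← sq_abs]
          refine pow_le_pow_left₀ (abs_nonneg _) ?_ 2
          refine (abs_sum_le_sum_abs _ _).trans ?_
          rw [sum_congr rfl (fun c _ => abs_sg (χ c))]
          rw [sum_const, nsmul_eq_mul, mul_one]
          exact_mod_cast hL p.1.1 i
      _ = 4 * (n : ℝ) ^ 3 := by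
          rw [sum_const, card_univ, Fintype.card_fin, nsmul_eq_mul]; ring
  have hgabs : ∀ (p : J) (χ : ι → Bool), |g p χ| ≤ 2 * h * n := by
    intro p χ
    refine abs_le_of_sq_le_sq ?_ (by positivity)
    refine (hgsq p χ).trans ?_
    have e1 : (2 * h * n) ^ 2 = 4 * (n : ℝ) ^ 3 * (θ ^ 2 * (n * Real.log n)) := by
      rw [mul_pow, mul_pow, hh2]; ring
    rw [e1]
    have e2 : (0 : ℝ) ≤ 4 * (n : ℝ) ^ 3 := by positivity
    nlinarith
  have hgcnt : ∀ p : J, cnt (fun χ : ι → Bool => h < |g p χ|) ≤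
      2 * Real.exp (-(θ ^ 2 / 4 * Real.log n)) * 2 ^ N := by
    intro p
    have e := h1 ι (w p.1.1 p.1.2) (2 * n ^ 2) h (by positivity) hh0.le (hnr1 _ _)
    have e1 : -(h ^ 2) / (2 * (2 * (n : ℝ) ^ 2)) = -(θ ^ 2 / 4 * Real.log n) := by
      rw [hh2]
      field_simp
      ring
    rw [e1] at e
    exact le_trans (cnt_mono fun χ hχ => le_of_lt hχ) e
  have hgsum : 4 * ∑ p : J, cnt (fun χ : ι → Bool => h < |g p χ|) ≤
      k * (Fintype.card (ι → Bool) : ℝ) := by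
    rw [hcardΩ]
    have e0 : ∑ p : J, cnt (fun χ : ι → Bool => h < |g p χ|) ≤
        (2 * n / θ) * (2 * Real.exp (-(θ ^ 2 / 4 * Real.log n)) * 2 ^ N) := by
      calc ∑ p : J, cnt (fun χ : ι → Bool => h < |g p χ|)
          ≤ ∑ _p : J, 2 * Real.exp (-(θ ^ 2 / 4 * Real.log n)) * 2 ^ N :=
            sum_le_sum fun p _ => hgcnt p
        _ = (Fintype.card J : ℝ) * (2 * Real.exp (-(θ ^ 2 / 4 * Real.log n)) * 2 ^ N) := by
            rw [sum_const, card_univ, nsmul_eq_mul]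
        _ ≤ _ := mul_le_mul_of_nonneg_right hJcard (by positivity)
    have e1 : (n : ℝ) * Real.exp (-(θ ^ 2 / 4 * Real.log n)) = (n : ℝ) ^ (1 - θ ^ 2 / 4) := by
      rw [Real.rpow_def_of_pos hnpos]
      conv_lhs => rw [← Real.exp_log hnpos]
      rw [Real.log_exp, ← Real.exp_add]
      congr 1
      ring
    have e2 : 16 / θ * (n : ℝ) ^ (1 - θ ^ 2 / 4) ≤ k := Nat.le_ceil _
    calc 4 * ∑ p : J, cnt (fun χ : ι → Bool => h < |g p χ|)
        ≤ 4 * ((2 * n / θ) * (2 * Real.exp (-(θ ^ 2 / 4 * Real.log n)) * 2 ^ N)) := by linarith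
      _ = (16 / θ * (n * Real.exp (-(θ ^ 2 / 4 * Real.log n)))) * 2 ^ N := by ring
      _ = (16 / θ * (n : ℝ) ^ (1 - θ ^ 2 / 4)) * 2 ^ N := by rw [e1]
      _ ≤ k * 2 ^ N := mul_le_mul_of_nonneg_right e2 h2N.le
  obtain ⟨S, hSA, hScard, hSclose⟩ := h6 (ι → Bool) J m n k g h A hh0 hJm hgabs hAcard hgsum
  -- (d)
  have hS2 : (2 : ℝ) ^ N * Real.exp (-((n : ℝ) ^ (1 - θ ^ 2 / 5))) ≤ S.card := by
    rw [hcardΩ] at hScard
    have e1 : (2 : ℝ) ^ N ≤ Real.exp ((n : ℝ) ^ (1 - θ ^ 2 / 5)) * S.card :=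
      hScard.trans (mul_le_mul_of_nonneg_right c5 (by positivity))
    rw [Real.exp_neg, ← div_eq_mul_inv, div_le_iff₀ (Real.exp_pos _)]
    linarith
  obtain ⟨χ, hχ, χ', hχ', hagree⟩ := h3 ι S ((n : ℝ) ^ (1 - θ ^ 2 / 5)) (by positivity) hS2
  obtain ⟨-, hA1, hA2⟩ := mem_filter.1 (hSA hχ)
  obtain ⟨-, hA1', hA2'⟩ := mem_filter.1 (hSA hχ')
  refine ⟨fun c => (sg (χ c) - sg (χ' c)) / 2, ?_, ?_, ?_, ?_⟩
  · intro c
    exact sgd _ _
  · have e : cnt (fun c => (sg (χ c) - sg (χ' c)) / 2 = 0) =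
        ((univ.filter (fun c => χ c = χ' c)).card : ℝ) := by
      rw [← cnt_eq_card]
      congr 1
      funext c
      exact propext (sgd_zero _ _)
    rw [e]
    exact hagree
  · intro v
    have e1 := hw3 v (fun c => (sg (χ c) - sg (χ' c)) / 2)
    rw [e1]
    have e2 : ∀ j, ∑ c, w v j c * ((sg (χ c) - sg (χ' c)) / 2) =
        (∑ c, w v j c * sg (χ c) - ∑ c, w v j c * sg (χ' c)) / 2 := by
      intro j
      rw [← sum_sub_distrib, sum_div]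
      exact sum_congr rfl fun c _ => by ring
    rw [sum_sq_split (fun j : Fin n => θ * n ^ 2 < ∑ c, w v j c ^ 2)]
    have f1 : ∑ j : {j : Fin n // θ * n ^ 2 < ∑ c, w v j c ^ 2},
        (∑ c, w v j c * ((sg (χ c) - sg (χ' c)) / 2)) ^ 2 ≤ 2 * θ * n ^ 2 * Real.log n := by
      have f2 : (Fintype.card {j : Fin n // θ * n ^ 2 < ∑ c, w v j c ^ 2} : ℝ) ≤
          (2 * (n : ℝ) ^ 2) / (θ * n ^ 2) :=
        card_subtype_le (fun j : Fin n => θ * n ^ 2 < ∑ c, w v j c ^ 2)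
          (fun j => ∑ c, w v j c ^ 2) (hnr0 v) (θ * n ^ 2) (2 * (n : ℝ) ^ 2)
          (by positivity) (fun p hp => hp.le) (hnr v)
      have f3 : (2 * (n : ℝ) ^ 2) / (θ * n ^ 2) = 2 / θ := by field_simp
      rw [f3] at f2
      calc ∑ j : {j : Fin n // θ * n ^ 2 < ∑ c, w v j c ^ 2},
            (∑ c, w v j c * ((sg (χ c) - sg (χ' c)) / 2)) ^ 2
          ≤ ∑ _j : {j : Fin n // θ * n ^ 2 < ∑ c, w v j c ^ 2}, h ^ 2 := by
            refine sum_le_sum fun j _ => ?_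
            rw [e2]
            have f4 := hSclose χ hχ χ' hχ' ⟨(v, j.1), j.2⟩
            rw [← sq_abs]
            refine pow_le_pow_left₀ (abs_nonneg _) ?_ 2
            rw [abs_div, abs_two, div_le_iff₀ (by norm_num)]
            linarith
        _ = (Fintype.card {j : Fin n // θ * n ^ 2 < ∑ c, w v j c ^ 2} : ℝ) * h ^ 2 := by
            rw [sum_const, card_univ, nsmul_eq_mul]
        _ ≤ 2 / θ * h ^ 2 := mul_le_mul_of_nonneg_right f2 (sq_nonneg _)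
        _ = 2 * θ * n ^ 2 * Real.log n := by
            rw [hh2]
            field_simp
    have f5 : ∑ j : {j : Fin n // ¬ θ * n ^ 2 < ∑ c, w v j c ^ 2},
        (∑ c, w v j c * ((sg (χ c) - sg (χ' c)) / 2)) ^ 2 ≤ 16 * θ * n ^ 2 * Real.log n := by
      calc ∑ j : {j : Fin n // ¬ θ * n ^ 2 < ∑ c, w v j c ^ 2},
            (∑ c, w v j c * ((sg (χ c) - sg (χ' c)) / 2)) ^ 2
          ≤ ∑ j : {j : Fin n // ¬ θ * n ^ 2 < ∑ c, w v j c ^ 2},
            ((∑ c, w v j c * sg (χ c)) ^ 2 / 2 + (∑ c, w v j c * sg (χ' c)) ^ 2 / 2) := by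
            refine sum_le_sum fun j _ => ?_
            rw [e2]
            nlinarith [sq_nonneg (∑ c, w v j c * sg (χ c) + ∑ c, w v j c * sg (χ' c))]
        _ = (∑ j : {j : Fin n // ¬ θ * n ^ 2 < ∑ c, w v j c ^ 2},
            (∑ c, w v j c * sg (χ c)) ^ 2) / 2 +
            (∑ j : {j : Fin n // ¬ θ * n ^ 2 < ∑ c, w v j c ^ 2},
            (∑ c, w v j c * sg (χ' c)) ^ 2) / 2 := by
            rw [sum_add_distrib, sum_div, sum_div]
        _ ≤ 16 * θ * n ^ 2 * Real.log n := by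
            have := hA2 v
            have := hA2' v
            linarith
    linarith
  · intro v i
    have e : ∑ c ∈ L v i, (sg (χ c) - sg (χ' c)) / 2 =
        (∑ c ∈ L v i, sg (χ c) - ∑ c ∈ L v i, sg (χ' c)) / 2 := by
      rw [← sum_sub_distrib, sum_div]
    rw [e, abs_div, abs_two, div_le_iff₀ (by norm_num)]
    have f1 := hA1 v i
    have f2 := hA1' v i
    refine (abs_sub _ _).trans ?_
    linarith

end P6aux

theorem P6_of (h1 : T_P1) (h3 : T_P3) (h4 : T_P4) (h5 : T_P5) (h6 : T_P6a) : T_P6 := by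
  intro θ hθ0 hθ1
  obtain ⟨n₀, hn₀⟩ := P6aux.num θ hθ0 hθ1
  refine ⟨n₀, fun n hn ι _ _ _ L hL => ?_⟩
  obtain ⟨c1, c2, c3, c4, c5⟩ := hn₀ n hn
  exact P6aux.main h1 h3 h4 h5 h6 θ hθ0 hθ1 n c1 c2 c3 c4 c5 ι L hL

end Pool.Agent.H162R2.AG
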