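import Pool.Agent.H162R2.AG.Stmts

/-!
Task P6a: pigeonhole over cells.
-/

set_option autoImplicit false

namespace Pool.Agent.H162R2.AG

open Finset Pool.Agent.H162R2.Sparse

/-- the integer part of `x / (2h)`, in `[-Q, Q]` -/
noncomputable def P6aFl (Q : ℕ) (h x : ℝ) (h0 : 0 < h) (hx : |x| ≤ 2 * h * Q) :
    {z : ℤ // z ∈ Finset.Icc (-(Q : ℤ)) Q} :=
  ⟨⌊x / (2 * h)⌋, by
    have h2 : (0 : ℝ) < 2 * h := by linarith
    obtain ⟨h3, h4⟩ := abs_le.mp hx
    rw [Finset.mem_Icc]
    constructor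
    · rw [Int.le_floor, le_div_iff₀ h2]
      push_cast
      linarith
    · have h5 : x / (2 * h) ≤ Q := by
        rw [div_le_iff₀ h2]; linarith
      have h6 : (⌊x / (2 * h)⌋ : ℝ) ≤ Q := (Int.floor_le _).trans h5
      exact_mod_cast h6⟩

/-- codes of the cells -/
theorem P6a_code (J : Type) [Fintype J] (Q k : ℕ) (x : J → ℝ) (h : ℝ) (h0 : 0 < h)
    (hx : ∀ j, |x j| ≤ 2 * h * Q) (hk : ∀ [DecidableEq J] [DecidablePred fun j => h < |x j|],
      (univ.filter (fun j => h < |x j|)).card ≤ k) :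
    ∃ c : Fin k → Option (J × {z : ℤ // z ∈ Finset.Icc (-(Q : ℤ)) Q}),
      (∀ j, h < |x j| → ∃ i, c i = some (j, P6aFl Q h (x j) h0 (hx j))) ∧
      ∀ i j v, c i = some (j, v) → h < |x j| ∧ v = P6aFl Q h (x j) h0 (hx j) := by
  classical
  have hcard : Fintype.card {j // h < |x j|} ≤ Fintype.card (Fin k) := by
    rw [Fintype.card_subtype, Fintype.card_fin]
    exact hk
  obtain ⟨f⟩ := Function.Embedding.nonempty_of_card_le hcard
  refine ⟨fun i => if hi : ∃ j : {j // h < |x j|}, f j = i then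
    some (hi.choose.1, P6aFl Q h (x hi.choose.1) h0 (hx _)) else none, ?_, ?_⟩
  · intro j hj
    refine ⟨f ⟨j, hj⟩, ?_⟩
    have hi : ∃ j' : {j // h < |x j|}, f j' = f ⟨j, hj⟩ := ⟨⟨j, hj⟩, rfl⟩
    have he : hi.choose = ⟨j, hj⟩ := f.injective hi.choose_spec
    beta_reduce
    rw [dif_pos hi]
    have he' : hi.choose.1 = j := congrArg Subtype.val he
    congr 1
    refine Prod.ext he' ?_
    simp only
    congr 1
    exact congrArg x he'
  · intro i j v hc
    beta_reduce at hc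
    split_ifs at hc with hi
    rw [Option.some.injEq, Prod.mk.injEq] at hc
    obtain ⟨rfl, rfl⟩ := hc
    exact ⟨hi.choose.2, rfl⟩

theorem P6a : T_P6a := by
  classical
  intro Ω _ J _ m Q k g h A h0 hJ hg hA hsum
  set N : Ω → ℕ := fun ω => (univ.filter (fun j => h < |g j ω|)).card with hN
  have hNsum : ∑ ω, (N ω : ℝ) = ∑ j, cnt (fun ω => h < |g j ω|) := by
    simp only [hN, cnt_eq_sum, card_filter]
    push_cast
    rw [sum_comm]
  set B : Finset Ω := univ.filter (fun ω => k < N ω) with hB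
  have hBc : 4 * (B.card : ℝ) ≤ Fintype.card Ω := by
    have h1 : ((k : ℝ) + 1) * B.card ≤ ∑ ω, (N ω : ℝ) := by
      have h2 : (B.card : ℝ) * ((k : ℝ) + 1) ≤ ∑ ω ∈ B, (N ω : ℝ) := by
        rw [← nsmul_eq_mul]
        refine card_nsmul_le_sum _ _ _ fun ω hω => ?_
        have := (mem_filter.mp hω).2
        exact_mod_cast this
      have h3 : ∑ ω ∈ B, (N ω : ℝ) ≤ ∑ ω, (N ω : ℝ) :=
        sum_le_sum_of_subset_of_nonneg (subset_univ _) fun _ _ _ => by positivity
      linarith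
    rw [hNsum] at h1
    have h4 : ((k : ℝ) + 1) * (4 * B.card) ≤ ((k : ℝ) + 1) * Fintype.card Ω := by
      have h5 : (0 : ℝ) ≤ Fintype.card Ω := by positivity
      nlinarith
    exact le_of_mul_le_mul_left h4 (by positivity)
  set A' := A \ B with hA'
  have hA'c : (Fintype.card Ω : ℝ) ≤ 2 * A'.card := by
    have h1 : A.card ≤ A'.card + B.card := by
      have h2 : A ⊆ A' ∪ B := by
        intro ω hω
        rw [mem_union, hA', mem_sdiff]
        by_cases h3 : ω ∈ B
        · exact Or.inr h3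
        · exact Or.inl ⟨hω, h3⟩
      exact (card_le_card h2).trans (card_union_le _ _)
    have h2 : (A.card : ℝ) ≤ A'.card + B.card := by exact_mod_cast h1
    linarith
  have hcode : ∀ ω ∈ A', ∃ c : Fin k → Option (J × {z : ℤ // z ∈ Finset.Icc (-(Q : ℤ)) Q}),
      (∀ j, h < |g j ω| → ∃ i, c i = some (j, P6aFl Q h (g j ω) h0 (hg j ω))) ∧
      ∀ i j v, c i = some (j, v) → h < |g j ω| ∧ v = P6aFl Q h (g j ω) h0 (hg j ω) := by
    intro ω hω
    refine P6a_code J Q k (fun j => g j ω) h h0 (fun j => hg j ω) ?_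
    intro _ _
    have h1 := (mem_sdiff.mp hω).2
    have h2 : ¬ k < N ω := fun hlt => h1 (mem_filter.mpr ⟨mem_univ _, hlt⟩)
    have h3 : N ω ≤ k := not_lt.mp h2
    convert h3
  choose! c hc1 hc2 using hcode
  set T : Finset (Fin k → Option (J × {z : ℤ // z ∈ Finset.Icc (-(Q : ℤ)) Q})) := univ with hT
  have hTne : T.Nonempty := ⟨fun _ => none, mem_univ _⟩
  have hTcard : (T.card : ℝ) ≤ ((m : ℝ) * (2 * Q + 1) + 1) ^ k := by
    have h1 : T.card = (Fintype.card J * (2 * Q + 1) + 1) ^ k := by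
      rw [hT, card_univ, Fintype.card_fun, Fintype.card_option, Fintype.card_prod,
        Fintype.card_coe, Int.card_Icc, Fintype.card_fin]
      congr 3
      omega
    rw [h1]
    push_cast
    have h2 : (Fintype.card J : ℝ) ≤ m := by exact_mod_cast hJ
    apply pow_le_pow_left₀ (by positivity)
    have : (0 : ℝ) ≤ 2 * Q + 1 := by positivity
    nlinarith
  have hT0 : (0 : ℝ) < T.card := by exact_mod_cast card_pos.mpr hTne
  obtain ⟨y, -, hy⟩ := exists_le_card_fiber_of_nsmul_le_card_of_maps_to (s := A') (t := T)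
    (f := c) (b := (A'.card : ℝ) / T.card) (fun _ _ => mem_univ _) hTne
    (by rw [nsmul_eq_mul, mul_div_cancel₀ _ hT0.ne'])
  refine ⟨A'.filter (fun ω => c ω = y), (filter_subset _ _).trans sdiff_subset, ?_, ?_⟩
  · rw [div_le_iff₀ hT0] at hy
    have h1 : (A'.card : ℝ) ≤ ((m : ℝ) * (2 * Q + 1) + 1) ^ k *
        (A'.filter (fun ω => c ω = y)).card := by
      refine hy.trans ?_
      rw [mul_comm]
      exact mul_le_mul_of_nonneg_right hTcard (by positivity)
    linarith
  · intro ω hω ω' hω' j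
    obtain ⟨hωA, hωy⟩ := mem_filter.mp hω
    obtain ⟨hωA', hωy'⟩ := mem_filter.mp hω'
    by_cases hb : h < |g j ω|
    · obtain ⟨i, hi⟩ := hc1 ω hωA j hb
      rw [hωy, ← hωy'] at hi
      obtain ⟨hb', hv⟩ := hc2 ω' hωA' i j _ hi
      have hfl : ⌊g j ω / (2 * h)⌋ = ⌊g j ω' / (2 * h)⌋ := congrArg Subtype.val hv
      have h2 : (0 : ℝ) < 2 * h := by linarith
      have h3 := Int.abs_sub_lt_one_of_floor_eq_floor hfl
      rw [← sub_div, abs_div, abs_of_pos h2, div_lt_one h2] at h3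
      exact h3.le
    · by_cases hb' : h < |g j ω'|
      · obtain ⟨i, hi⟩ := hc1 ω' hωA' j hb'
        rw [hωy', ← hωy] at hi
        exact absurd (hc2 ω hωA i j _ hi).1 hb
      · have h1 := abs_sub (g j ω) (g j ω')
        rw [not_lt] at hb hb'
        linarith

end Pool.Agent.H162R2.AG
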