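import Pool.Agent.H162R2.AG.Stmts

set_option autoImplicit false

/-!
# Random subsets of density `p` (Chernoff-Bernstein)
-/

namespace Pool.Agent.H162R2.AG

open Finset Pool.Agent.H162R2.Sparse

/-- product weight of a subset -/
noncomputable def rW (U : Finset ℕ) (p : ℝ) (R : Finset ℕ) : ℝ :=
  (∏ _i ∈ R, p) * ∏ _i ∈ U \ R, (1 - p)

theorem rW_nonneg (U : Finset ℕ) (p : ℝ) (h0 : 0 ≤ p) (h1 : p ≤ 1) (R : Finset ℕ) :
    0 ≤ rW U p R := by
  unfold rW
  exact mul_nonneg (prod_nonneg fun _ _ => h0) (prod_nonneg fun _ _ => by linarith)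

theorem R_mgf (U L : Finset ℕ) (hL : L ⊆ U) (p x : ℝ) :
    ∑ R ∈ U.powerset, rW U p R * Real.exp (x * ((L ∩ R).card : ℝ)) =
      (1 + p * (Real.exp x - 1)) ^ L.card := by
  have h := Finset.prod_add (fun i => p * (if i ∈ L then Real.exp x else 1)) (fun _ => 1 - p) U
  have h1 : ∏ i ∈ U, (p * (if i ∈ L then Real.exp x else 1) + (1 - p)) =
      (1 + p * (Real.exp x - 1)) ^ L.card := by
    have e : ∀ i ∈ U, (p * (if i ∈ L then Real.exp x else 1) + (1 - p)) =
        if i ∈ L then (1 + p * (Real.exp x - 1)) else 1 := by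
      intro i _
      split_ifs <;> ring
    rw [prod_congr rfl e, prod_ite_mem, inter_eq_right.2 hL, prod_const]
  rw [← h1, h]
  refine sum_congr rfl fun R _ => ?_
  unfold rW
  rw [prod_mul_distrib]
  have e : ∏ i ∈ R, (if i ∈ L then Real.exp x else 1) = Real.exp (x * ((L ∩ R).card : ℝ)) := by
    rw [prod_ite_mem, prod_const, inter_comm, ← Real.exp_nat_mul, mul_comm]
  rw [e]
  ring

theorem R_total (U : Finset ℕ) (p : ℝ) : ∑ R ∈ U.powerset, rW U p R = 1 := by
  have h := R_mgf U ∅ (empty_subset _) p 0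
  simpa using h

theorem R_tail (U L : Finset ℕ) (hL : L ⊆ U) (p : ℝ) (h0 : 0 ≤ p) (h1 : p ≤ 1) (x lam t : ℝ)
    (hx : |x| = lam) (hlam : lam ≤ 1) :
    ∑ R ∈ U.powerset, rW U p R * Real.exp (x * (((L ∩ R).card : ℝ) - p * L.card) - lam * t) ≤
      Real.exp (p * L.card * lam ^ 2 - lam * t) := by
  have e : ∀ R ∈ U.powerset,
      rW U p R * Real.exp (x * (((L ∩ R).card : ℝ) - p * L.card) - lam * t) =
      (rW U p R * Real.exp (x * ((L ∩ R).card : ℝ))) * Real.exp (-(x * (p * L.card)) - lam * t) := by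
    intro R _
    rw [mul_assoc, ← Real.exp_add]
    congr 2
    ring
  rw [sum_congr rfl e, ← sum_mul, R_mgf U L hL]
  have hx2 : x ^ 2 = lam ^ 2 := by rw [← hx, sq_abs]
  have hexp : Real.exp x - 1 ≤ x + lam ^ 2 := by
    have := (abs_le.1 (Real.abs_exp_sub_one_sub_id_le (x := x) (by rw [hx]; exact hlam))).2
    rw [← hx2]
    linarith
  have hb : (1 + p * (Real.exp x - 1)) ^ L.card ≤ Real.exp (p * L.card * (x + lam ^ 2)) := by
    have hpos : 0 ≤ 1 + p * (Real.exp x - 1) := by
      have := Real.exp_pos x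
      nlinarith
    have h2 : 1 + p * (Real.exp x - 1) ≤ Real.exp (p * (x + lam ^ 2)) := by
      have h3 := Real.add_one_le_exp (p * (x + lam ^ 2))
      nlinarith
    calc (1 + p * (Real.exp x - 1)) ^ L.card ≤ (Real.exp (p * (x + lam ^ 2))) ^ L.card :=
          pow_le_pow_left₀ hpos h2 _
      _ = Real.exp (p * L.card * (x + lam ^ 2)) := by
          rw [← Real.exp_nat_mul]
          congr 1
          ring
  calc _ ≤ Real.exp (p * L.card * (x + lam ^ 2)) * Real.exp (-(x * (p * L.card)) - lam * t) :=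
        mul_le_mul_of_nonneg_right hb (Real.exp_pos _).le
    _ = Real.exp (p * L.card * lam ^ 2 - lam * t) := by
        rw [← Real.exp_add]
        congr 1
        ring

theorem R_lam (μ l : ℝ) (hμ : 0 ≤ μ) (hl : 0 < l) :
    ∃ lam : ℝ, 0 ≤ lam ∧ lam ≤ 1 ∧
      μ * lam ^ 2 - lam * (6 * Real.sqrt (μ * l) + 6 * l) ≤ -(5 * l) := by
  by_cases h : μ ≤ l
  · refine ⟨1, by norm_num, le_refl _, ?_⟩
    have := Real.sqrt_nonneg (μ * l)
    nlinarith
  · push Not at h
    have hμ' : 0 < μ := hl.trans h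
    have hs : 0 < Real.sqrt μ := Real.sqrt_pos.2 hμ'
    refine ⟨Real.sqrt l / Real.sqrt μ, by positivity, ?_, ?_⟩
    · rw [div_le_one hs]
      exact Real.sqrt_le_sqrt h.le
    · have e1 : μ * (Real.sqrt l / Real.sqrt μ) ^ 2 = l := by
        rw [div_pow, Real.sq_sqrt hl.le, Real.sq_sqrt hμ]
        field_simp
      have e2 : (Real.sqrt l / Real.sqrt μ) * Real.sqrt (μ * l) = l := by
        rw [Real.sqrt_mul hμ]
        rw [div_mul_eq_mul_div, mul_comm (Real.sqrt μ), ← mul_assoc, Real.mul_self_sqrt hl.le]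
        field_simp
      have e3 : 0 ≤ (Real.sqrt l / Real.sqrt μ) * l := by positivity
      rw [e1]
      nlinarith

theorem R : T_R := by
  classical
  refine ⟨6, by norm_num, ?_⟩
  intro n hn p h0 h1 L
  set U : Finset ℕ := univ.biUnion fun v : Fin n => univ.biUnion fun w : Fin n => L v w with hU
  have hLU : ∀ v w, L v w ⊆ U := by
    intro v w a ha
    rw [hU, mem_biUnion]
    exact ⟨v, mem_univ _, mem_biUnion.2 ⟨w, mem_univ _, ha⟩⟩
  have hn' : (2 : ℝ) ≤ n := by exact_mod_cast hn
  set l : ℝ := Real.log n with hl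
  have hlpos : 0 < l := Real.log_pos (by linarith)
  by_contra hcon
  push Not at hcon
  -- the tilts
  have hlam : ∀ v w, ∃ lam : ℝ, 0 ≤ lam ∧ lam ≤ 1 ∧
      (p * (L v w).card) * lam ^ 2 -
        lam * (6 * Real.sqrt ((p * (L v w).card) * l) + 6 * l) ≤ -(5 * l) :=
    fun v w => R_lam _ l (by positivity) hlpos
  choose lam hlam0 hlam1 hlam2 using hlam
  set t : Fin n → Fin n → ℝ := fun v w => 6 * Real.sqrt ((p * (L v w).card) * l) + 6 * l with ht
  have hbound : ∀ R ∈ U.powerset, rW U p R ≤ ∑ v : Fin n, ∑ w : Fin n,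
      (rW U p R * Real.exp (lam v w * (((L v w ∩ R).card : ℝ) - p * (L v w).card) - lam v w * t v w) +
       rW U p R * Real.exp (-lam v w * (((L v w ∩ R).card : ℝ) - p * (L v w).card) - lam v w * t v w)) := by
    intro R _
    obtain ⟨v, w, hvw⟩ := hcon R
    have hW := rW_nonneg U p h0 h1 R
    have key : rW U p R ≤
      (rW U p R * Real.exp (lam v w * (((L v w ∩ R).card : ℝ) - p * (L v w).card) - lam v w * t v w) +
       rW U p R * Real.exp (-lam v w * (((L v w ∩ R).card : ℝ) - p * (L v w).card) - lam v w * t v w)) := by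
      rw [← mul_add]
      refine le_mul_of_one_le_right hW ?_
      have hA := (Real.exp_pos (lam v w * (((L v w ∩ R).card : ℝ) - p * (L v w).card) - lam v w * t v w)).le
      have hB := (Real.exp_pos (-lam v w * (((L v w ∩ R).card : ℝ) - p * (L v w).card) - lam v w * t v w)).le
      rcases lt_abs.1 hvw with h | h
      · have : 1 ≤ Real.exp (lam v w * (((L v w ∩ R).card : ℝ) - p * (L v w).card) - lam v w * t v w) := by
          apply Real.one_le_exp
          rw [← mul_sub]
          exact mul_nonneg (hlam0 v w) (by rw [ht]; dsimp only; linarith)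
        linarith
      · have : 1 ≤ Real.exp (-lam v w * (((L v w ∩ R).card : ℝ) - p * (L v w).card) - lam v w * t v w) := by
          apply Real.one_le_exp
          have e : -lam v w * (((L v w ∩ R).card : ℝ) - p * (L v w).card) - lam v w * t v w =
              lam v w * (-(((L v w ∩ R).card : ℝ) - p * (L v w).card) - t v w) := by ring
          rw [e]
          exact mul_nonneg (hlam0 v w) (by rw [ht]; dsimp only; linarith)
        linarith
    refine key.trans ?_
    have hnn : ∀ v w : Fin n, 0 ≤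
      (rW U p R * Real.exp (lam v w * (((L v w ∩ R).card : ℝ) - p * (L v w).card) - lam v w * t v w) +
       rW U p R * Real.exp (-lam v w * (((L v w ∩ R).card : ℝ) - p * (L v w).card) - lam v w * t v w)) := by
      intro v w
      have := Real.exp_pos (lam v w * (((L v w ∩ R).card : ℝ) - p * (L v w).card) - lam v w * t v w)
      have := Real.exp_pos (-lam v w * (((L v w ∩ R).card : ℝ) - p * (L v w).card) - lam v w * t v w)
      positivity
    refine le_trans ?_ (single_le_sum (f := fun v : Fin n => ∑ w : Fin n, _)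
      (fun v _ => sum_nonneg fun w _ => hnn v w) (mem_univ v))
    exact single_le_sum (f := fun w : Fin n =>
      (rW U p R * Real.exp (lam v w * (((L v w ∩ R).card : ℝ) - p * (L v w).card) - lam v w * t v w) +
       rW U p R * Real.exp (-lam v w * (((L v w ∩ R).card : ℝ) - p * (L v w).card) - lam v w * t v w)))
      (fun w _ => hnn v w) (mem_univ w)
  have hsum := sum_le_sum hbound
  rw [R_total, sum_comm] at hsum
  have hfin : ∀ v w : Fin n, ∑ R ∈ U.powerset,
      (rW U p R * Real.exp (lam v w * (((L v w ∩ R).card : ℝ) - p * (L v w).card) - lam v w * t v w) +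
       rW U p R * Real.exp (-lam v w * (((L v w ∩ R).card : ℝ) - p * (L v w).card) - lam v w * t v w)) ≤
      2 * Real.exp (-(5 * l)) := by
    intro v w
    rw [sum_add_distrib]
    have a1 := R_tail U (L v w) (hLU v w) p h0 h1 (lam v w) (lam v w) (t v w)
      (abs_of_nonneg (hlam0 v w)) (hlam1 v w)
    have a2 := R_tail U (L v w) (hLU v w) p h0 h1 (-lam v w) (lam v w) (t v w)
      (by rw [abs_neg, abs_of_nonneg (hlam0 v w)]) (hlam1 v w)
    have a3 : Real.exp (p * (L v w).card * lam v w ^ 2 - lam v w * t v w) ≤ Real.exp (-(5 * l)) :=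
      Real.exp_le_exp.2 (hlam2 v w)
    linarith
  have htot : ∑ v : Fin n, ∑ R ∈ U.powerset, ∑ w : Fin n,
      (rW U p R * Real.exp (lam v w * (((L v w ∩ R).card : ℝ) - p * (L v w).card) - lam v w * t v w) +
       rW U p R * Real.exp (-lam v w * (((L v w ∩ R).card : ℝ) - p * (L v w).card) - lam v w * t v w)) ≤
      (n : ℝ) * (n * (2 * Real.exp (-(5 * l)))) := by
    calc _ = ∑ v : Fin n, ∑ w : Fin n, ∑ R ∈ U.powerset,
      (rW U p R * Real.exp (lam v w * (((L v w ∩ R).card : ℝ) - p * (L v w).card) - lam v w * t v w) +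
       rW U p R * Real.exp (-lam v w * (((L v w ∩ R).card : ℝ) - p * (L v w).card) - lam v w * t v w)) :=
          sum_congr rfl fun v _ => sum_comm
      _ ≤ ∑ v : Fin n, ∑ w : Fin n, 2 * Real.exp (-(5 * l)) :=
          sum_le_sum fun v _ => sum_le_sum fun w _ => hfin v w
      _ = (n : ℝ) * (n * (2 * Real.exp (-(5 * l)))) := by simp
  have hexp : Real.exp (-(5 * l)) = ((n : ℝ) ^ 5)⁻¹ := by
    rw [Real.exp_neg, hl]
    congr 1
    rw [show (5 : ℝ) * Real.log n = ((5 : ℕ) : ℝ) * Real.log n by norm_num, Real.exp_nat_mul,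
      Real.exp_log (by linarith)]
  have hlast : (n : ℝ) * (n * (2 * Real.exp (-(5 * l)))) < 1 := by
    rw [hexp]
    have hn0 : (0 : ℝ) < n := by linarith
    have h8 : (8 : ℝ) ≤ (n : ℝ) ^ 3 := by
      calc (8 : ℝ) = 2 ^ 3 := by norm_num
        _ ≤ (n : ℝ) ^ 3 := pow_le_pow_left₀ (by norm_num) hn' 3
    rw [show (n : ℝ) * (n * (2 * ((n : ℝ) ^ 5)⁻¹)) = 2 / (n : ℝ) ^ 3 by field_simp]
    rw [div_lt_one (by positivity)]
    linarith
  linarith

end Pool.Agent.H162R2.AG
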