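import Mathlib
import Pool.Agent.H162R2.AG.Stmts

/-!
# The cross graph step: `T_RGX` from `T_K1`, `T_K2`, `T_K3`
-/

set_option autoImplicit false

namespace Pool.Agent.H162R2.AG

open Finset Pool.Agent.H162R2.Sparse

theorem RGX_of (h1 : T_K1) (h2 : T_K2) (h3 : T_K3) : T_RGX := by
  classical
  obtain ⟨C3, hC3, h3⟩ := h3
  refine ⟨4 * C3, by linarith, ?_⟩
  intro n hn D hD hDn G σ hσ hdeg L hLs F hFs f y φ hy hyD hf hφ hL1 hL2
  have hnb : ∀ v w, w ∈ nb G v ↔ G.Adj v w := by
    intro v w
    simp [nb]
  have hf0 : 0 ≤ f := le_trans (cnt_nonneg _) (hf ⟨0, by omega⟩)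
  have hlog : 0 ≤ Real.log n := Real.log_natCast_nonneg n
  have hD0 : (0 : ℝ) < D := by exact_mod_cast hD
  have hφ0 : 0 ≤ φ := by
    refine le_trans ?_ hφ
    positivity
  -- the edges, oriented
  let E : Finset (Fin n × Fin n) := univ.filter (fun e => G.Adj e.1 e.2 ∧ σ e.1 = true)
  have hE : ∀ e, e ∈ E ↔ G.Adj e.1 e.2 ∧ σ e.1 = true := by
    intro e
    simp [E]
  have hd1 : ∀ u, (E.filter (fun e => e.1 = u)).card ≤ D := by
    intro u
    refine le_trans ?_ (hdeg u)
    unfold dg
    refine Finset.card_le_card_of_injOn (fun e => e.2) (fun e he => ?_) (fun e he e' he' hee => ?_)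
    · rw [Finset.mem_coe, Finset.mem_filter, hE] at he
      rw [Finset.mem_coe, hnb, ← he.2]
      exact he.1.1
    · rw [Finset.mem_coe, Finset.mem_filter] at he he'
      exact Prod.ext (he.2.trans he'.2.symm) hee
  have hd2 : ∀ u, (E.filter (fun e => e.2 = u)).card ≤ D := by
    intro u
    refine le_trans ?_ (hdeg u)
    unfold dg
    refine Finset.card_le_card_of_injOn (fun e => e.1) (fun e he => ?_) (fun e he e' he' hee => ?_)
    · rw [Finset.mem_coe, Finset.mem_filter, hE] at he
      rw [Finset.mem_coe, hnb, ← he.2]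
      exact he.1.1.symm
    · rw [Finset.mem_coe, Finset.mem_filter] at he he'
      exact Prod.ext hee (he.2.trans he'.2.symm)
  obtain ⟨c, hc1, hc2⟩ := h1 (Fin n) E D hd1 hd2
  -- the colours of the deficient edges at a vertex
  let A : Fin n ⊕ Fin n → Finset ℕ := fun w =>
    match w with
    | Sum.inl u => (E.filter (fun e => e.1 = u ∧ F e.1 e.2)).image c
    | Sum.inr u => (E.filter (fun e => e.2 = u ∧ F e.1 e.2)).image c
  have hA1 : ∀ w, A w ⊆ range D := by
    intro w x hx
    rw [Finset.mem_range]
    rcases w with u | u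
    · obtain ⟨e, he, rfl⟩ := Finset.mem_image.1 (show x ∈ (E.filter _).image c from hx)
      exact hc1 e (Finset.mem_filter.1 he).1
    · obtain ⟨e, he, rfl⟩ := Finset.mem_image.1 (show x ∈ (E.filter _).image c from hx)
      exact hc1 e (Finset.mem_filter.1 he).1
  have hA2 : ∀ w, ((A w).card : ℝ) ≤ f := by
    intro w
    rcases w with u | u
    · refine le_trans ?_ (hf u)
      rw [cnt_eq_card]
      norm_cast
      refine le_trans Finset.card_image_le ?_
      refine Finset.card_le_card_of_injOn (fun e => e.2) (fun e he => ?_)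
        (fun e he e' he' hee => ?_)
      · rw [Finset.mem_coe, Finset.mem_filter, hE] at he
        obtain ⟨⟨ha, hb⟩, hc, hd⟩ := he
        rw [Finset.mem_coe, Finset.mem_filter]
        subst hc
        exact ⟨Finset.mem_univ _, ha, hd⟩
      · rw [Finset.mem_coe, Finset.mem_filter] at he he'
        exact Prod.ext (he.2.1.trans he'.2.1.symm) hee
    · refine le_trans ?_ (hf u)
      rw [cnt_eq_card]
      norm_cast
      refine le_trans Finset.card_image_le ?_
      refine Finset.card_le_card_of_injOn (fun e => e.1) (fun e he => ?_)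
        (fun e he e' he' hee => ?_)
      · rw [Finset.mem_coe, Finset.mem_filter, hE] at he
        obtain ⟨⟨ha, hb⟩, hc, hd⟩ := he
        rw [Finset.mem_coe, Finset.mem_filter]
        subst hc
        exact ⟨Finset.mem_univ _, ha.symm, hFs _ _ hd⟩
      · rw [Finset.mem_coe, Finset.mem_filter] at he he'
        exact Prod.ext hee (he.2.1.trans he'.2.1.symm)
  obtain ⟨h, hh1, hh2⟩ := h3 n hn D hD hDn f y (φ / 4) hy hyD (by linarith) A hA1 hA2
  have hfl : (4 : ℝ) * ⌊φ / 4⌋₊ ≤ φ := by
    have := Nat.floor_le (show 0 ≤ φ / 4 by linarith)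
    linarith
  obtain ⟨col, hcol1, hcol2⟩ := h2 (Fin n) E D ⌊y⌋₊ ⌊φ / 4⌋₊ c h (fun e => F e.1 e.2)
    (fun e => L e.1 e.2) hc1 hc2
    (by
      intro i hi
      refine Nat.floor_le_of_le ?_
      convert hh1 i hi)
    (by
      intro u i
      apply Nat.le_floor
      refine le_trans ?_ (hh2 (Sum.inl u) i)
      norm_cast
      refine Finset.card_le_card_of_injOn c (fun e he => ?_) (fun e he e' he' hee => ?_)
      · rw [Finset.mem_coe, Finset.mem_filter] at he
        rw [Finset.mem_coe, Finset.mem_filter]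
        refine ⟨?_, he.2.2.2⟩
        exact Finset.mem_image_of_mem c (Finset.mem_filter.2 ⟨he.1, he.2.1, he.2.2.1⟩)
      · rw [Finset.mem_coe, Finset.mem_filter] at he he'
        by_contra hne
        exact hc2 e he.1 e' he'.1 hne (Or.inl (he.2.1.trans he'.2.1.symm)) hee)
    (by
      intro u i
      apply Nat.le_floor
      refine le_trans ?_ (hh2 (Sum.inr u) i)
      norm_cast
      refine Finset.card_le_card_of_injOn c (fun e he => ?_) (fun e he e' he' hee => ?_)
      · rw [Finset.mem_coe, Finset.mem_filter] at he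
        rw [Finset.mem_coe, Finset.mem_filter]
        refine ⟨?_, he.2.2.2⟩
        exact Finset.mem_image_of_mem c (Finset.mem_filter.2 ⟨he.1, he.2.1, he.2.2.1⟩)
      · rw [Finset.mem_coe, Finset.mem_filter] at he he'
        by_contra hne
        exact hc2 e he.1 e' he'.1 hne (Or.inr (he.2.1.trans he'.2.1.symm)) hee)
    (by
      intro e he hF
      have h4 := hL1 e.1 e.2 ((hE e).1 he).1 hF
      have h5 : ((D + 4 * ⌊φ / 4⌋₊ : ℕ) : ℝ) ≤ ((L e.1 e.2).card : ℝ) := by
        push_cast
        linarith
      exact_mod_cast h5)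
    (by
      intro e he hF
      have h4 := hL2 e.1 e.2 ((hE e).1 he).1 hF
      by_cases h5 : D + 4 * ⌊φ / 4⌋₊ ≤ (L e.1 e.2).card
      · omega
      · have h6 : D + 4 * ⌊φ / 4⌋₊ - (L e.1 e.2).card ≤ ⌊y⌋₊ := by
          apply Nat.le_floor
          rw [Nat.cast_sub (by omega)]
          push_cast
          linarith
        omega)
  refine ⟨fun a b => if σ a = true then col (a, b) else col (b, a), ?_, ?_, ?_⟩
  · intro a b hab
    have := hσ a b hab
    simp only
    by_cases ha : σ a = true
    · rw [if_pos ha, if_neg (fun hb => this (ha.trans hb.symm))]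
    · have hb : σ b = true := by
        rw [Bool.not_eq_true] at ha
        rw [ha] at this
        cases hsb : σ b
        · exact absurd hsb.symm this
        · rfl
      rw [if_neg ha, if_pos hb]
  · intro a b hab
    have := hσ a b hab
    simp only
    by_cases ha : σ a = true
    · rw [if_pos ha]
      exact hcol1 (a, b) ((hE (a, b)).2 ⟨hab, ha⟩)
    · have hb : σ b = true := by
        rw [Bool.not_eq_true] at ha
        rw [ha] at this
        cases hsb : σ b
        · exact absurd hsb.symm this
        · rfl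
      rw [if_neg ha, hLs a b]
      exact hcol1 (b, a) ((hE (b, a)).2 ⟨hab.symm, hb⟩)
  · intro a b d hab had hbd
    simp only
    by_cases ha : σ a = true
    · rw [if_pos ha, if_pos ha]
      refine hcol2 (a, b) ((hE (a, b)).2 ⟨hab, ha⟩) (a, d) ((hE (a, d)).2 ⟨had, ha⟩)
        (fun h => hbd (Prod.ext_iff.1 h).2) (Or.inl rfl)
    · have hb : ∀ x, G.Adj a x → σ x = true := by
        intro x hx
        have := hσ a x hx
        rw [Bool.not_eq_true] at ha
        rw [ha] at this
        cases hsb : σ x
        · exact absurd hsb.symm this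
        · rfl
      rw [if_neg ha, if_neg ha]
      refine hcol2 (b, a) ((hE (b, a)).2 ⟨hab.symm, hb b hab⟩) (d, a)
        ((hE (d, a)).2 ⟨had.symm, hb d had⟩) (fun h => hbd (Prod.ext_iff.1 h).1) (Or.inr rfl)

end Pool.Agent.H162R2.AG
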