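import Mathlib
import Pool.Agent.H162R2.AG.Stmts

/-!
# The phase with random halvings

`RP_of : T_AS → T_AvR → T_S → T_RP`.
-/

set_option autoImplicit false

namespace Pool.Agent.H162R2.AG

open Finset Pool.Agent.H162R2.Sparse

theorem Avail_mono {n d l : ℕ} {a b g a' b' g' : ℝ} (h : Avail n d l a b g) (ha : a ≤ a')
    (hb : b ≤ b') (hg : g ≤ g') : Avail n d l a' b' g' := by
  intro G hG L hL
  obtain ⟨σ, χ, h1, h2, h3⟩ := h G hG L hL
  refine ⟨σ, χ, fun v => (h1 v).trans ha, fun v => ?_, fun v w => (h3 v w).trans hb⟩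
  refine le_trans (cnt_mono ?_) ((h2 v).trans hg)
  intro w hw
  exact lt_of_le_of_lt ha hw

theorem sqrt_mul_log_le {n d : ℕ} {δ : ℝ} (hδ : 0 ≤ δ) (hn : 1 ≤ n) (hd : (d : ℝ) ≤ δ * n) :
    Real.sqrt (d * Real.log n) ≤ Real.sqrt δ * Lam n := by
  have hlog : 0 ≤ Real.log n := Real.log_nonneg (by exact_mod_cast hn)
  unfold Lam
  rw [← Real.sqrt_mul hδ]
  apply Real.sqrt_le_sqrt
  nlinarith

theorem log_le_eventually {δ : ℝ} (hδ : 0 < δ) : ∃ n₀ : ℕ, ∀ n : ℕ, n₀ ≤ n →
    Real.log n ≤ Real.sqrt δ * Lam n := by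
  have h1 : Filter.Tendsto (fun x : ℝ => Real.log x / x) Filter.atTop (nhds 0) := by
    have := Real.isLittleO_log_id_atTop.tendsto_div_nhds_zero
    simpa using this
  have h2 : Filter.Tendsto (fun n : ℕ => Real.log (n : ℝ) / (n : ℝ)) Filter.atTop (nhds 0) :=
    h1.comp tendsto_natCast_atTop_atTop
  have h3 := h2.eventually (gt_mem_nhds hδ)
  obtain ⟨N, hN⟩ := Filter.eventually_atTop.1 h3
  refine ⟨max N 1, fun n hn => ?_⟩
  have hn1 : 1 ≤ n := le_trans (le_max_right _ _) hn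
  have hnN : N ≤ n := le_trans (le_max_left _ _) hn
  have h4 := hN n hnN
  have hnpos : (0 : ℝ) < n := by exact_mod_cast hn1
  have hlog : 0 ≤ Real.log n := Real.log_nonneg (by exact_mod_cast hn1)
  rw [div_lt_iff₀ hnpos] at h4
  unfold Lam
  rw [← Real.sqrt_mul hδ.le]
  apply Real.le_sqrt_of_sq_le
  nlinarith

theorem RP_base (K : ℝ) (hK : 1 ≤ K)
    (hS : ∀ n : ℕ, 2 ≤ n → ∀ d : ℕ,
      Col n d (K * Real.sqrt (d * Real.log n) + K * Real.log n) 0 0)
    (δ lam σ β γ : ℝ) (hlam : 0 < lam) (hlδ : lam ≤ δ) (hγ : 0 ≤ γ)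
    (h : 2 * K * Real.sqrt δ + γ ≤ σ) : Q δ lam σ β γ := by
  have hδ : 0 < δ := lt_of_lt_of_le hlam hlδ
  obtain ⟨n₁, hn₁⟩ := log_le_eventually hδ
  refine ⟨max n₁ 2, fun n hn d _ hd => ?_⟩
  have hn2 : 2 ≤ n := le_trans (le_max_right _ _) hn
  have hnn : n₁ ≤ n := le_trans (le_max_left _ _) hn
  have hlog := hn₁ n hnn
  have hsq := sqrt_mul_log_le hδ.le (by omega) hd
  have hL0 : 0 ≤ Lam n := Real.sqrt_nonneg _
  intro G hG L hsym F hF hFc h1 h2
  refine hS n hn2 d G hG L hsym (fun _ _ => False) (fun _ _ h => h) ?_ ?_ ?_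
  · intro v
    have : cnt (fun w => G.Adj v w ∧ False) = 0 := by
      unfold cnt
      simp
    rw [this]
  · intro a b hab _
    have key : (d : ℝ) + (K * Real.sqrt (d * Real.log n) + K * Real.log n) ≤
        (d : ℝ) + σ * Lam n - γ * Lam n := by
      have e1 : K * Real.sqrt (d * Real.log n) ≤ K * (Real.sqrt δ * Lam n) :=
        mul_le_mul_of_nonneg_left hsq (by linarith)
      have e2 : K * Real.log n ≤ K * (Real.sqrt δ * Lam n) :=
        mul_le_mul_of_nonneg_left hlog (by linarith)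
      have e3 : (2 * K * Real.sqrt δ + γ) * Lam n ≤ σ * Lam n :=
        mul_le_mul_of_nonneg_right h hL0
      nlinarith
    by_cases hf : F a b
    · exact key.trans (h2 a b hab hf)
    · have := h1 a b hab hf
      have hγL : 0 ≤ γ * Lam n := mul_nonneg hγ hL0
      linarith
  · intro a b _ hf
    exact hf.elim

theorem sqrt_51 (δ : ℝ) (hδ : 0 ≤ δ) :
    Real.sqrt (51 / 100 * δ) ≤ 715 / 1000 * Real.sqrt δ := by
  rw [Real.sqrt_mul (by norm_num)]
  apply mul_le_mul_of_nonneg_right _ (Real.sqrt_nonneg _)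
  rw [show (715 / 1000 : ℝ) = Real.sqrt ((715 / 1000) ^ 2) by
    rw [Real.sqrt_sq (by norm_num)]]
  apply Real.sqrt_le_sqrt
  norm_num

theorem RP_of (hA : T_AS) (hR : T_AvR) (hS : T_S) : T_RP := by
  obtain ⟨CA, hCA1, hA⟩ := hA
  obtain ⟨CR, hCR1, hR⟩ := hR
  obtain ⟨K, hK1, hS⟩ := hS
  obtain ⟨c, hc⟩ : ∃ c : ℝ, c = 2 * CR := ⟨_, rfl⟩
  have hc1 : 1 ≤ c := by rw [hc]; linarith
  obtain ⟨C', hC'⟩ : ∃ C' : ℝ, C' = 2 * K + 16 * c + CA := ⟨_, rfl⟩
  have hC'K : 2 * K ≤ C' := by rw [hC']; linarith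
  have hC'c : 16 * c ≤ C' := by rw [hC']; linarith
  have hC'A : CA ≤ C' := by rw [hC']; linarith
  have hC'1 : 1 ≤ C' := by linarith
  have key : ∀ (m : ℕ) (δ lam σ β γ Γ : ℝ), 0 < lam → lam ≤ δ → δ ≤ 1 → 0 ≤ β → 0 ≤ γ →
      γ ≤ Γ → 4 * c ≤ Γ →
      C' * Real.sqrt δ + C' * (β / lam) * Γ * (2 ^ m - 1) + (3 / 4) ^ m * γ ≤ σ →
      Q δ lam σ β γ := by
    intro m
    induction m with
    | zero =>
      intro δ lam σ β γ Γ hlam hlδ _ _ hγ _ _ h
      refine RP_base K hK1 hS δ lam σ β γ hlam hlδ hγ ?_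
      have h0 : 0 ≤ Real.sqrt δ := Real.sqrt_nonneg _
      have : 2 * K * Real.sqrt δ ≤ C' * Real.sqrt δ := mul_le_mul_of_nonneg_right hC'K h0
      simp only [pow_zero, sub_self, mul_zero, one_mul, add_zero] at h
      linarith
    | succ m ih =>
      intro δ lam σ β γ Γ hlam hlδ hδ1 hβ hγ hγΓ hΓ h
      have hδ : 0 < δ := lt_of_lt_of_le hlam hlδ
      have hsδ : 0 < Real.sqrt δ := Real.sqrt_pos.2 hδ
      have hsδ1 : Real.sqrt δ ≤ 1 := by
        rw [← Real.sqrt_one]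
        exact Real.sqrt_le_sqrt hδ1
      obtain ⟨b₀, hb₀⟩ : ∃ b₀ : ℝ, b₀ = c * Real.sqrt δ := ⟨_, rfl⟩
      have hb₀pos : 0 < b₀ := by rw [hb₀]; positivity
      have hb₀c : b₀ ≤ c := by rw [hb₀]; nlinarith
      obtain ⟨γ', hγ'⟩ : ∃ γ' : ℝ, γ' = 3 / 4 * γ + b₀ := ⟨_, rfl⟩
      have hγ'0 : 0 ≤ γ' := by rw [hγ']; linarith
      have hγ'Γ : γ' ≤ Γ := by rw [hγ']; linarith
      obtain ⟨r, hr⟩ : ∃ r : ℝ, r = β / lam := ⟨_, rfl⟩
      have hr0 : 0 ≤ r := by rw [hr]; positivity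
      obtain ⟨σ', hσ'⟩ : ∃ σ' : ℝ, σ' = σ - 3 * b₀ - CA * r * γ' := ⟨_, rfl⟩
      have h2m : (1 : ℝ) ≤ 2 ^ m := one_le_pow₀ (by norm_num)
      have hp0 : (0 : ℝ) ≤ (3 / 4) ^ m := by positivity
      have hp1 : ((3 / 4 : ℝ)) ^ m ≤ 1 := pow_le_one₀ (by norm_num) (by norm_num)
      have hrΓ : 0 ≤ r * Γ := mul_nonneg hr0 (by linarith)
      -- the middle terms
      have e1 : CA * r * γ' ≤ C' * (r * Γ) := by
        have e2 : r * γ' ≤ r * Γ := mul_le_mul_of_nonneg_left hγ'Γ hr0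
        have e3 : CA * (r * γ') ≤ CA * (r * Γ) :=
          mul_le_mul_of_nonneg_left e2 (by linarith)
        have e4 : CA * (r * Γ) ≤ C' * (r * Γ) := mul_le_mul_of_nonneg_right hC'A hrΓ
        calc CA * r * γ' = CA * (r * γ') := by ring
          _ ≤ _ := e3.trans e4
      have e5 : (3 / 4 : ℝ) ^ m * b₀ ≤ b₀ := by nlinarith
      have e6 : 16 * b₀ ≤ C' * Real.sqrt δ := by
        rw [hb₀]
        nlinarith
      have e7 := sqrt_51 δ hδ.le
      have e8 : C' * Real.sqrt (51 / 100 * δ) ≤ 715 / 1000 * (C' * Real.sqrt δ) := by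
        calc C' * Real.sqrt (51 / 100 * δ) ≤ C' * (715 / 1000 * Real.sqrt δ) :=
              mul_le_mul_of_nonneg_left e7 (by linarith)
          _ = _ := by ring
      rw [← hr] at h
      have hrec : C' * Real.sqrt (51 / 100 * δ) + C' * (β / (lam / 2)) * Γ * (2 ^ m - 1) +
          (3 / 4) ^ m * γ' ≤ σ' := by
        have e9 : C' * (β / (lam / 2)) * Γ * (2 ^ m - 1) = 2 * (C' * (r * Γ)) * (2 ^ m - 1) := by
          have : β / (lam / 2) = 2 * r := by
            rw [hr]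
            field_simp
          rw [this]
          ring
        rw [e9, hσ', hγ']
        have e10 : C' * r * Γ * (2 ^ (m + 1) - 1) =
            2 * (C' * (r * Γ)) * (2 ^ m - 1) + C' * (r * Γ) := by
          rw [pow_succ]
          ring
        have e11 : (3 / 4 : ℝ) ^ (m + 1) * γ = (3 / 4) ^ m * (3 / 4 * γ) := by
          rw [pow_succ]
          ring
        rw [e10, e11] at h
        rw [← hγ']
        have e12 : (3 / 4 : ℝ) ^ m * γ' = (3 / 4) ^ m * (3 / 4 * γ) + (3 / 4) ^ m * b₀ := by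
          rw [hγ']
          ring
        rw [e12]
        linarith
      have hσ'0 : 0 ≤ σ' := by
        refine le_trans ?_ hrec
        have i1 : 0 ≤ C' * Real.sqrt (51 / 100 * δ) :=
          mul_nonneg (by linarith) (Real.sqrt_nonneg _)
        have i2 : 0 ≤ C' * (β / (lam / 2)) * Γ * (2 ^ m - 1) := by
          apply mul_nonneg
          · apply mul_nonneg
            · apply mul_nonneg (by linarith)
              positivity
            · linarith
          · linarith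
        have i3 : 0 ≤ (3 / 4 : ℝ) ^ m * γ' := mul_nonneg hp0 hγ'0
        linarith
      have hQ : Q (51 / 100 * δ) (lam / 2) σ' β γ' :=
        ih (51 / 100 * δ) (lam / 2) σ' β γ' Γ (by linarith) (by linarith) (by linarith) hβ
          hγ'0 hγ'Γ hΓ hrec
      refine hA δ lam b₀ b₀ 0 σ σ' β β γ γ' hlam hlδ hδ1 hb₀pos le_rfl le_rfl hβ hγ hσ'0 ?_
        (by linarith) hγ'.ge ?_ hQ
      · refine ⟨2, fun n hn d hd _ => ?_⟩
        have hav := hR n hn d (2 * d) (by omega)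
        have hle : CR * Real.sqrt (((2 * d : ℕ) : ℝ) * Real.log n) ≤ b₀ * Lam n := by
          have h1 : Real.sqrt (((2 * d : ℕ) : ℝ) * Real.log n) ≤
              2 * Real.sqrt (d * Real.log n) := by
            rw [show (2 : ℝ) * Real.sqrt (d * Real.log n) =
              Real.sqrt (2 ^ 2 * (d * Real.log n)) by
                rw [Real.sqrt_mul (x := 2 ^ 2) (by norm_num), Real.sqrt_sq (by norm_num)]]
            apply Real.sqrt_le_sqrt
            push_cast
            have hlog : 0 ≤ Real.log n := Real.log_nonneg (by exact_mod_cast (by omega : 1 ≤ n))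
            have hd0 : (0 : ℝ) ≤ d := Nat.cast_nonneg d
            nlinarith [mul_nonneg hd0 hlog]
          have h2 := sqrt_mul_log_le hδ.le (by omega : 1 ≤ n) hd
          have hL0 : 0 ≤ Lam n := Real.sqrt_nonneg _
          calc CR * Real.sqrt (((2 * d : ℕ) : ℝ) * Real.log n)
              ≤ CR * (2 * (Real.sqrt δ * Lam n)) := by
                apply mul_le_mul_of_nonneg_left _ (by linarith)
                linarith
            _ = b₀ * Lam n := by rw [hb₀, hc]; ring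
        exact Avail_mono hav hle hle (by simp)
      · have : CA * β * γ' / lam = CA * r * γ' := by
          rw [hr]
          ring
        rw [this, hσ']
        linarith
  refine ⟨4 * c * C', by nlinarith, ?_⟩
  intro m δ lam σ β γ hlam hlδ hδ1 hβ hγ h
  refine key m δ lam σ β γ (γ + 4 * c) hlam hlδ hδ1 hβ hγ (by linarith) (by linarith) ?_
  refine le_trans ?_ h
  have hsδ : 0 ≤ Real.sqrt δ := Real.sqrt_nonneg _
  have h1 : C' * Real.sqrt δ ≤ 4 * c * C' * Real.sqrt δ := by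
    apply mul_le_mul_of_nonneg_right _ hsδ
    nlinarith
  have h2m : (1 : ℝ) ≤ 2 ^ m := one_le_pow₀ (by norm_num)
  have hr0 : 0 ≤ β / lam := by positivity
  have h2 : C' * (β / lam) * (γ + 4 * c) * (2 ^ m - 1) ≤
      4 * c * C' * (β / lam) * (γ + 1) * 2 ^ m := by
    have i1 : γ + 4 * c ≤ 4 * c * (γ + 1) := by nlinarith
    have i2 : C' * (β / lam) * (γ + 4 * c) ≤ C' * (β / lam) * (4 * c * (γ + 1)) :=
      mul_le_mul_of_nonneg_left i1 (mul_nonneg (by linarith) hr0)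
    have i3 : 0 ≤ C' * (β / lam) * (4 * c * (γ + 1)) := by
      apply mul_nonneg (mul_nonneg (by linarith) hr0)
      apply mul_nonneg <;> linarith
    calc C' * (β / lam) * (γ + 4 * c) * (2 ^ m - 1)
        ≤ C' * (β / lam) * (4 * c * (γ + 1)) * (2 ^ m - 1) :=
          mul_le_mul_of_nonneg_right i2 (by linarith)
      _ ≤ C' * (β / lam) * (4 * c * (γ + 1)) * 2 ^ m :=
          mul_le_mul_of_nonneg_left (by linarith) i3
      _ = _ := by ring
  linarith

end Pool.Agent.H162R2.AG
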