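import Mathlib
import Pool.Agent.H162R2.AG.Stmts

/-!
# The simple bound `d + K √(d ln n) + K ln n`
-/

set_option autoImplicit false

namespace Pool.Agent.H162R2.AG

open Finset Pool.Agent.H162R2.Sparse

theorem S_noF {n d : ℕ} {s y : ℝ} (h : Col n d s 0 0) : Col n d s 0 y := by
  classical
  intro G hG L hL F hF hc h1 h2
  have hno : ∀ a b, G.Adj a b → ¬ F a b := by
    intro a b hab hf
    have h3 := hc a
    have h4 : (1 : ℝ) ≤ cnt (fun w => G.Adj a w ∧ F a w) := by
      rw [cnt_eq_card]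
      have : 0 < (univ.filter (fun w => G.Adj a w ∧ F a w)).card :=
        Finset.card_pos.mpr ⟨b, by simp [hab, hf]⟩
      exact_mod_cast this
    linarith
  apply h G hG L hL F hF hc h1
  intro a b hab hf
  exact absurd hf (hno a b hab)

theorem S_dg_le {n : ℕ} (G : SimpleGraph (Fin n)) (v : Fin n) : dg G v ≤ n := by
  unfold dg
  exact (Finset.card_le_univ _).trans (by simp)

theorem S_small (hG : T_GR) {n d : ℕ} {s : ℝ} (h : (d : ℝ) ≤ s) : Col n d s 0 0 := by
  intro G hdg L hL F hF hc h1 h2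
  apply hG (Fin n) G d hdg L hL
  intro a b hab
  have h3 : (d : ℝ) + s ≤ (L a b).card := by
    by_cases hf : F a b
    · have := h2 a b hab hf
      linarith
    · exact h1 a b hab hf
  have h4 : (2 * d : ℝ) ≤ (L a b).card := by linarith
  exact_mod_cast h4

theorem S_of (hS : T_STEP) (hA : T_AvR) (hG : T_GR) : T_S := by
  obtain ⟨C1, hC1, H1⟩ := hS
  obtain ⟨C2, hC2, H2⟩ := hA
  obtain ⟨K, hK⟩ : ∃ K : ℝ, K = 100 * (C1 + C2) := ⟨_, rfl⟩
  refine ⟨K, by linarith, ?_⟩
  intro n hn d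
  have hK1 : 200 ≤ K := by linarith
  have hℓ0 : 0.69 ≤ Real.log n := by
    have h2 : Real.log 2 ≤ Real.log n := by
      apply Real.log_le_log (by norm_num)
      exact_mod_cast hn
    have := Real.log_two_gt_d9
    linarith
  induction d using Nat.strong_induction_on with
  | _ d ih =>
  by_cases hsm : (d : ℝ) ≤ K * Real.sqrt (d * Real.log n) + K * Real.log n
  · exact S_small hG hsm
  rw [not_le] at hsm
  by_cases hdn : n < d
  · have ihn := ih n hdn
    have hle : (n : ℝ) ≤ d := by exact_mod_cast hdn.le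
    have hsq : Real.sqrt (n * Real.log n) ≤ Real.sqrt (d * Real.log n) := by
      apply Real.sqrt_le_sqrt
      apply mul_le_mul_of_nonneg_right hle
      linarith
    have hsq' : K * Real.sqrt (n * Real.log n) ≤ K * Real.sqrt (d * Real.log n) :=
      mul_le_mul_of_nonneg_left hsq (by linarith)
    intro G hdg L hL F hF hc h1 h2
    apply ihn G (fun v => S_dg_le G v) L hL F hF hc
    · intro a b hab hf
      have := h1 a b hab hf
      linarith
    · intro a b hab hf
      have := h2 a b hab hf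
      linarith
  · have hdn' : (d : ℝ) ≤ n := by exact_mod_cast (not_lt.mp hdn)
    obtain ⟨ℓ, hℓ⟩ : ∃ ℓ : ℝ, ℓ = Real.log n := ⟨_, rfl⟩
    rw [← hℓ] at hℓ0 hsm
    obtain ⟨u, hu⟩ : ∃ u : ℝ, u = Real.sqrt (d * ℓ) := ⟨_, rfl⟩
    rw [← hu] at hsm
    have hd0 : (0 : ℝ) ≤ d := Nat.cast_nonneg d
    have hdl : 0 ≤ (d : ℝ) * ℓ := by positivity
    have hu0 : 0 ≤ u := by rw [hu]; exact Real.sqrt_nonneg _
    have hu2 : u * u = d * ℓ := by rw [hu]; exact Real.mul_self_sqrt hdl
    have hKu0 : 0 ≤ K * u := by positivity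
    have hdK : K * ℓ < d := by linarith
    have hdbig : 138 ≤ (d : ℝ) := by nlinarith
    have hKu : K * u ≤ d := by nlinarith
    have hup : 0 < u := by
      rcases hu0.lt_or_eq with h | h
      · exact h
      · rw [← h] at hu2
        nlinarith
    have hKℓ : K * ℓ ≤ u := by
      have h1 : u * (K * ℓ) ≤ u * u := by
        rw [hu2]
        nlinarith
      exact le_of_mul_le_mul_left h1 hup
    have hℓu : ℓ ≤ u := by nlinarith
    -- s
    obtain ⟨s, hs⟩ : ∃ s : ℝ, s = K * u + K * ℓ := ⟨_, rfl⟩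
    have hs0 : 0 ≤ s := by rw [hs]; positivity
    have hsd : s < d := by rw [hs]; exact hsm
    -- l
    obtain ⟨l, hl⟩ : ∃ l : ℕ, l = ⌈(d : ℝ) + s + 1⌉₊ := ⟨_, rfl⟩
    have hl1 : (d : ℝ) + s + 1 ≤ l := by rw [hl]; exact Nat.le_ceil _
    have hl2 : (l : ℝ) ≤ 4 * d := by
      have : (l : ℝ) < (d : ℝ) + s + 1 + 1 := by rw [hl]; exact Nat.ceil_lt_add_one (by positivity)
      linarith
    have hdl' : d ≤ l := by
      have : (d : ℝ) ≤ l := by linarith
      exact_mod_cast this
    -- x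
    obtain ⟨x, hx⟩ : ∃ x : ℝ, x = C2 * Real.sqrt (l * Real.log n) := ⟨_, rfl⟩
    have hAv : Avail n d l x x 0 := by
      rw [hx]
      exact H2 n hn d l hdl'
    have hx0 : 0 ≤ x := by rw [hx]; positivity
    have hsql : Real.sqrt (l * Real.log n) ≤ 2 * u := by
      rw [Real.sqrt_le_iff]
      refine ⟨by positivity, ?_⟩
      rw [← hℓ]
      have h1 : (l : ℝ) * ℓ ≤ 4 * d * ℓ := mul_le_mul_of_nonneg_right hl2 (by linarith)
      have h2 : (2 * u) ^ 2 = 4 * (u * u) := by ring
      rw [h2, hu2]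
      linarith
    have hx1 : x ≤ 2 * (C2 * u) := by
      rw [hx]
      have := mul_le_mul_of_nonneg_left hsql (by linarith : 0 ≤ C2)
      linarith
    have hKu' : 100 * (C1 * u) + 100 * (C2 * u) ≤ d := by
      have : K * u = 100 * (C1 * u) + 100 * (C2 * u) := by rw [hK]; ring
      linarith
    have hp : u ≤ C1 * u := by nlinarith
    have hq : u ≤ C2 * u := by nlinarith
    -- d₁
    obtain ⟨d₁, hd₁⟩ : ∃ d₁ : ℕ, d₁ = ⌈((d : ℝ) + x) / 2⌉₊ := ⟨_, rfl⟩
    have hd1 : (d : ℝ) + x ≤ 2 * d₁ := by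
      have : ((d : ℝ) + x) / 2 ≤ d₁ := by rw [hd₁]; exact Nat.le_ceil _
      linarith
    have hd2 : (d₁ : ℝ) ≤ ((d : ℝ) + x) / 2 + 1 := by
      rw [hd₁]
      exact (Nat.ceil_lt_add_one (by positivity)).le
    have hd3 : (d₁ : ℝ) ≤ 0.6 * d := by
      have : 0 ≤ C1 * u := by positivity
      linarith
    have hd4 : d₁ < d := by
      have : (d₁ : ℝ) < d := by linarith
      exact_mod_cast this
    have hd5 : (1 : ℝ) ≤ d₁ := by linarith
    have hd6 : (d₁ : ℝ) ≤ n := by linarith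
    have hx2 : x ≤ d₁ := by
      have : 0 ≤ C1 * u := by positivity
      linarith
    have hsq1 : Real.sqrt (d₁ * Real.log n) ≤ 0.78 * u := by
      rw [Real.sqrt_le_iff]
      refine ⟨by positivity, ?_⟩
      rw [← hℓ]
      have h1 : (d₁ : ℝ) * ℓ ≤ 0.6 * d * ℓ := mul_le_mul_of_nonneg_right hd3 (by linarith)
      have h2 : (0.78 * u) ^ 2 = 0.6084 * (u * u) := by ring
      rw [h2, hu2]
      nlinarith
    have hsq2 : Real.sqrt ((s + 1) * Real.log n) ≤ 2 * u := by
      rw [Real.sqrt_le_iff]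
      refine ⟨by positivity, ?_⟩
      rw [← hℓ]
      have h1 : (s + 1) * ℓ ≤ 4 * d * ℓ := mul_le_mul_of_nonneg_right (by linarith) (by linarith)
      have h2 : (2 * u) ^ 2 = 4 * (u * u) := by ring
      rw [h2, hu2]
      linarith
    have hih := S_noF (y := x) (ih d₁ hd4)
    have hres := H1 n hn d d₁ l x x 0 s 0 0 (K * Real.sqrt (d₁ * Real.log n) + K * Real.log n) 0 x
      (C1 * ℓ) hx0 le_rfl le_rfl le_rfl le_rfl
      (by
        have : 0 ≤ Real.log n := by rw [← hℓ]; linarith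
        positivity)
      (by exact_mod_cast hd5) (by exact_mod_cast hd6) hl1 hAv hd1 (by simp) (by simp) hx2
      (by rw [← hℓ]; simp)
      (by
        have h1 : K * Real.sqrt (d₁ * Real.log n) ≤ K * (0.78 * u) :=
          mul_le_mul_of_nonneg_left hsq1 (by linarith)
        have h2 : C1 * Real.sqrt ((s + 1) * Real.log n) ≤ C1 * (2 * u) :=
          mul_le_mul_of_nonneg_left hsq2 (by linarith)
        have h3 : C1 * ℓ ≤ C1 * u := mul_le_mul_of_nonneg_left hℓu (by linarith)
        have h4 : K * u = 100 * (C1 * u) + 100 * (C2 * u) := by rw [hK]; ring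
        rw [← hℓ] at h1 h2 ⊢
        have h5 : K * (0.78 * u) = 0.78 * (100 * (C1 * u) + 100 * (C2 * u)) := by rw [← h4]; ring
        have h6 : C1 * (2 * u) = 2 * (C1 * u) := by ring
        linarith)
      (Or.inr rfl) hih
    rw [← hℓ, ← hu, ← hs]
    exact hres

end Pool.Agent.H162R2.AG
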