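import Pool.Agent.H162R2.AG.Fin
import Pool.Agent.H162R2.AG.A
import Pool.Agent.H162R2.AG.AA
import Pool.Agent.H162R2.AG.AS
import Pool.Agent.H162R2.AG.AvLQ
import Pool.Agent.H162R2.AG.AvR
import Pool.Agent.H162R2.AG.D
import Pool.Agent.H162R2.AG.GR
import Pool.Agent.H162R2.AG.K1
import Pool.Agent.H162R2.AG.K2
import Pool.Agent.H162R2.AG.K3
import Pool.Agent.H162R2.AG.LQ
import Pool.Agent.H162R2.AG.P1
import Pool.Agent.H162R2.AG.P3
import Pool.Agent.H162R2.AG.P4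
import Pool.Agent.H162R2.AG.P5
import Pool.Agent.H162R2.AG.P6
import Pool.Agent.H162R2.AG.P6a
import Pool.Agent.H162R2.AG.R
import Pool.Agent.H162R2.AG.RGX
import Pool.Agent.H162R2.AG.RP
import Pool.Agent.H162R2.AG.S
import Pool.Agent.H501R2.AG.Step

/-!
# Theorems D and A
-/

set_option autoImplicit false

namespace Pool.Agent.H162R2.AG

theorem tRGX : T_RGX := RGX_of K1 K2 K3
theorem tSTEP : T_STEP := STEP_of R tRGX LR
theorem tAvR : T_AvR := AvR_of P1
theorem tS : T_S := S_of tSTEP tAvR GR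
theorem tAS : T_AS := AS_of tSTEP
theorem tP6 : T_P6 := P6_of P1 P3 P4 P5 P6a
theorem tLQ : T_LQ := LQ_of P1 tP6
theorem tAvLQ : T_AvLQ := AvLQ_of tLQ
theorem tRP : T_RP := RP_of tAS tAvR tS
theorem tD : T_D := D_of tAS tAvLQ tRP tS
theorem tA : T_A := A_of tD

end Pool.Agent.H162R2.AG
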