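import Mathlib
import Pool.Agent.H162R2.AG.Stmts

/-!
# G0: the neighbourhoods outside a set are independent and uniform
-/

set_option autoImplicit false

namespace Pool.Agent.H162R2.AG

open Finset Pool.Agent.H162R2.Sparse

/-- graphs with all edges inside `A` or inside its complement -/
abbrev G0R {n : ℕ} (A : Finset (Fin n)) : Type :=
  {H : SimpleGraph (Fin n) // ∀ a b, H.Adj a b → (a ∈ A ↔ b ∈ A)}

/-- subsets of the complement -/
abbrev G0S {n : ℕ} (A : Finset (Fin n)) : Type := {s : Finset (Fin n) // s ⊆ Aᶜ}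

theorem G0_mem_nb {n : ℕ} (G : SimpleGraph (Fin n)) (a b : Fin n) : b ∈ nb G a ↔ G.Adj a b := by
  unfold nb
  simp

/-- a graph is given by the neighbourhoods outside `A` and by the rest -/
noncomputable def G0equiv {n : ℕ} (A : Finset (Fin n)) :
    SimpleGraph (Fin n) ≃ (A → G0S A) × G0R A where
  toFun G := (fun v => ⟨nb G v \ A, fun x hx => by
      rw [mem_compl]; exact (mem_sdiff.mp hx).2⟩,
    ⟨{ Adj := fun a b => G.Adj a b ∧ (a ∈ A ↔ b ∈ A)
       symm := by
         constructor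
         rintro a b ⟨h1, h2⟩
         exact ⟨h1.symm, h2.symm⟩
       loopless := ⟨fun a h => G.irrefl h.1⟩ }, fun a b h => h.2⟩)
  invFun x :=
    { Adj := fun a b => x.2.1.Adj a b ∨ (∃ h : a ∈ A, b ∈ (x.1 ⟨a, h⟩).1) ∨
        (∃ h : b ∈ A, a ∈ (x.1 ⟨b, h⟩).1)
      symm := by
        constructor
        rintro a b (h | h | h)
        · exact Or.inl h.symm
        · exact Or.inr (Or.inr h)
        · exact Or.inr (Or.inl h)
      loopless := by
        constructor
        rintro a (h | ⟨h, h'⟩ | ⟨h, h'⟩)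
        · exact x.2.1.irrefl h
        · exact mem_compl.mp ((x.1 ⟨a, h⟩).2 h') h
        · exact mem_compl.mp ((x.1 ⟨a, h⟩).2 h') h }
  left_inv G := by
    ext a b
    show (G.Adj a b ∧ (a ∈ A ↔ b ∈ A)) ∨ (∃ h : a ∈ A, b ∈ nb G a \ A) ∨
      (∃ h : b ∈ A, a ∈ nb G b \ A) ↔ G.Adj a b
    simp only [mem_sdiff, G0_mem_nb]
    constructor
    · rintro (h | ⟨_, h⟩ | ⟨_, h⟩)
      · exact h.1
      · exact h.1
      · exact h.1.symm
    · intro h
      by_cases ha : a ∈ A <;> by_cases hb : b ∈ A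
      · exact Or.inl ⟨h, by tauto⟩
      · exact Or.inr (Or.inl ⟨ha, h, hb⟩)
      · exact Or.inr (Or.inr ⟨hb, h.symm, ha⟩)
      · exact Or.inl ⟨h, by tauto⟩
  right_inv x := by
    apply Prod.ext
    · funext v
      apply Subtype.ext
      ext b
      show b ∈ nb _ v.1 \ A ↔ _
      rw [mem_sdiff, G0_mem_nb]
      show (x.2.1.Adj v b ∨ (∃ h : v.1 ∈ A, b ∈ (x.1 ⟨v, h⟩).1) ∨
        (∃ h : b ∈ A, v.1 ∈ (x.1 ⟨b, h⟩).1)) ∧ b ∉ A ↔ b ∈ (x.1 v).1
      constructor
      · rintro ⟨h | ⟨_, h⟩ | ⟨h, _⟩, hb⟩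
        · exact absurd ((x.2.2 _ _ h).mp v.2) hb
        · exact h
        · exact absurd h hb
      · intro h
        exact ⟨Or.inr (Or.inl ⟨v.2, h⟩), mem_compl.mp ((x.1 v).2 h)⟩
    · apply Subtype.ext
      ext a b
      show (x.2.1.Adj a b ∨ (∃ h : a ∈ A, b ∈ (x.1 ⟨a, h⟩).1) ∨
        (∃ h : b ∈ A, a ∈ (x.1 ⟨b, h⟩).1)) ∧ (a ∈ A ↔ b ∈ A) ↔ x.2.1.Adj a b
      constructor
      · rintro ⟨h | ⟨ha, h⟩ | ⟨hb, h⟩, hab⟩
        · exact h
        · exact absurd (hab.mp ha) (mem_compl.mp ((x.1 ⟨a, ha⟩).2 h))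
        · exact absurd (hab.mpr hb) (mem_compl.mp ((x.1 ⟨b, hb⟩).2 h))
      · intro h
        exact ⟨Or.inl h, x.2.2 _ _ h⟩

theorem G0_cnt {Ω : Type} [Fintype Ω] (P : Ω → Prop) : cnt P = (Nat.card {ω // P ω} : ℝ) := by
  classical
  rw [cnt_eq_card, Nat.card_eq_fintype_card, Fintype.card_subtype]

theorem G0 : T_G0 := by
  classical
  intro n A P
  have h1 : Nat.card {G : SimpleGraph (Fin n) // ∀ v ∈ A, P v (nb G v \ A)} =
      (∏ v ∈ A, ((Aᶜ).powerset.filter (fun s => P v s)).card) * Nat.card (G0R A) := by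
    have e1 : {G : SimpleGraph (Fin n) // ∀ v ∈ A, P v (nb G v \ A)} ≃
        {x : (A → G0S A) × G0R A // ∀ v : A, P v (x.1 v).1} :=
      Equiv.subtypeEquiv (G0equiv A) (fun G => by
        constructor
        · intro h v; exact h v.1 v.2
        · intro h v hv; exact h ⟨v, hv⟩)
    have e2 : {x : (A → G0S A) × G0R A // ∀ v : A, P v (x.1 v).1} ≃
        {f : A → G0S A // ∀ v : A, P v (f v).1} × G0R A :=
      { toFun := fun x => (⟨x.1.1, x.2⟩, x.1.2)
        invFun := fun x => ⟨(x.1.1, x.2), x.1.2⟩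
        left_inv := fun x => rfl
        right_inv := fun x => rfl }
    have e3 : {f : A → G0S A // ∀ v : A, P v (f v).1} ≃ ((v : A) → {s : G0S A // P v s.1}) :=
      Equiv.subtypePiEquivPi (p := fun (v : A) (s : G0S A) => P v.1 s.1)
    rw [Nat.card_congr e1, Nat.card_congr e2, Nat.card_prod, Nat.card_congr e3, Nat.card_pi]
    congr 1
    rw [← Finset.prod_coe_sort A (fun v => ((Aᶜ).powerset.filter (fun s => P v s)).card)]
    apply Finset.prod_congr rfl
    intro v _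
    rw [Nat.card_congr (Equiv.subtypeSubtypeEquivSubtypeInter (fun s => s ⊆ Aᶜ)
      (fun s => P v s))]
    rw [Nat.card_eq_fintype_card]
    apply Fintype.card_of_subtype
    intro s
    rw [mem_filter, mem_powerset]
  have h2 : Nat.card (SimpleGraph (Fin n)) = (2 ^ (Aᶜ).card) ^ A.card * Nat.card (G0R A) := by
    rw [Nat.card_congr (G0equiv A), Nat.card_prod, Nat.card_fun]
    congr 2
    · rw [Nat.card_eq_fintype_card, ← Finset.card_powerset]
      apply Fintype.card_of_subtype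
      intro s
      rw [mem_powerset]
    · simp
  rw [G0_cnt, h1, ← Nat.card_eq_fintype_card, h2]
  push_cast
  ring

end Pool.Agent.H162R2.AG
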