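import Mathlib
import Pool.Agent.H162R2.AG.Stmts

/-!
Task G1 (helper25): almost all graphs have a vertex of large degree.
-/

set_option autoImplicit false

namespace Pool.Agent.H162R2.AG

open Finset Pool.Agent.H162R2.Sparse

namespace G1P

/-- transport of the number of large subsets -/
theorem cnt_le_transport {n m : ℕ} (B : Finset (Fin n)) (hB : B.card = m) (T : ℝ) :
    cnt (fun s : Finset (Fin m) => T ≤ s.card) ≤
      ((B.powerset.filter (fun s => T ≤ (s.card : ℝ))).card : ℝ) := by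
  classical
  let e : Fin m ↪ Fin n := (B.equivFinOfCardEq hB).symm.toEmbedding.trans
    (Function.Embedding.subtype _)
  have he : ∀ i, e i ∈ B := fun i => ((B.equivFinOfCardEq hB).symm i).2
  unfold cnt
  norm_cast
  refine Finset.card_le_card_of_injOn (fun s => s.map e) ?_ ?_
  · intro s hs
    simp only [coe_filter, mem_univ, true_and, Set.mem_ofPred_eq] at hs
    simp only [coe_filter, mem_powerset, Set.mem_ofPred_eq, card_map]
    refine ⟨?_, hs⟩
    intro x hx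
    obtain ⟨i, _, rfl⟩ := Finset.mem_map.1 hx
    exact he i
  · intro s _ s' _ h
    exact Finset.map_injective e h

/-- the number of small subsets -/
theorem card_small {n m : ℕ} (B : Finset (Fin n)) (hB : B.card = m) (T q : ℝ)
    (hq : q * 2 ^ m ≤ cnt (fun s : Finset (Fin m) => T ≤ s.card)) :
    ((B.powerset.filter (fun s => (s.card : ℝ) < T)).card : ℝ) ≤ (1 - q) * 2 ^ m := by
  classical
  have h1 := cnt_le_transport B hB T
  have h2 := Finset.card_filter_add_card_filter_not (s := B.powerset)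
    (fun s => T ≤ (s.card : ℝ))
  have h3 : (B.powerset.filter (fun s => ¬ T ≤ (s.card : ℝ))) =
      B.powerset.filter (fun s => (s.card : ℝ) < T) := by
    apply Finset.filter_congr
    intro s _
    rw [not_le]
  rw [h3, Finset.card_powerset, hB] at h2
  have h4 : ((B.powerset.filter (fun s => T ≤ (s.card : ℝ))).card : ℝ) +
      ((B.powerset.filter (fun s => (s.card : ℝ) < T)).card : ℝ) = 2 ^ m := by
    exact_mod_cast h2
  linarith

/-- the first event -/
theorem ev1 (h0 : T_G0) {n m : ℕ} (A : Finset (Fin n)) (hm : (Aᶜ).card = m) (T q : ℝ)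
    (hq1 : q ≤ 1)
    (hq : q * 2 ^ m ≤ cnt (fun s : Finset (Fin m) => T ≤ s.card)) :
    cnt (fun G : SimpleGraph (Fin n) => ∀ v ∈ A, ((nb G v \ A).card : ℝ) < T) ≤
      Real.exp (-(A.card * q)) * Fintype.card (SimpleGraph (Fin n)) := by
  classical
  have h1 := h0 n A (fun _ s => (s.card : ℝ) < T)
  rw [hm] at h1
  have h2 := card_small (Aᶜ) hm T q hq
  have h3 : (∏ v ∈ A, (((Aᶜ).powerset.filter (fun s => (s.card : ℝ) < T)).card : ℝ)) ≤
      ((1 - q) * 2 ^ m) ^ A.card := by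
    rw [Finset.prod_const]
    exact pow_le_pow_left₀ (by positivity) h2 _
  have h4 : (0 : ℝ) ≤ 1 - q := by linarith
  have h5 : (1 - q) ^ A.card ≤ Real.exp (-(A.card * q)) := by
    have h6 : (1 - q) ≤ Real.exp (-q) := by
      have := Real.add_one_le_exp (-q)
      linarith
    calc (1 - q) ^ A.card ≤ Real.exp (-q) ^ A.card := pow_le_pow_left₀ h4 h6 _
      _ = Real.exp (-(A.card * q)) := by
        rw [← Real.exp_nat_mul]
        congr 1
        ring
  have h7 : (0 : ℝ) < (2 ^ m) ^ A.card := by positivity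
  refine le_of_mul_le_mul_right ?_ h7
  have h8 : (∏ v ∈ A, (((Aᶜ).powerset.filter (fun s => (s.card : ℝ) < T)).card : ℝ)) ≤
      Real.exp (-(A.card * q)) * (2 ^ m) ^ A.card := by
    refine h3.trans ?_
    rw [mul_pow]
    exact mul_le_mul_of_nonneg_right h5 h7.le
  have h9 : (0 : ℝ) ≤ Fintype.card (SimpleGraph (Fin n)) := by positivity
  calc cnt (fun G : SimpleGraph (Fin n) => ∀ v ∈ A, ((nb G v \ A).card : ℝ) < T) *
        (2 ^ m) ^ A.card
      = Fintype.card (SimpleGraph (Fin n)) *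
        ∏ v ∈ A, (((Aᶜ).powerset.filter (fun s => (s.card : ℝ) < T)).card : ℝ) := by
          rw [h1]
    _ ≤ Fintype.card (SimpleGraph (Fin n)) * (Real.exp (-(A.card * q)) * (2 ^ m) ^ A.card) :=
        mul_le_mul_of_nonneg_left h8 h9
    _ = _ := by ring

/-- the sum of the signs of a set -/
theorem sum_signs {n : ℕ} (B A s : Finset (Fin n)) (hs : s ⊆ B) :
    ∑ c : ↥B, (if c.1 ∈ A then (1 : ℝ) else 0) * sg (decide (c.1 ∈ s)) =
      2 * ((s ∩ A).card : ℝ) - ((B ∩ A).card : ℝ) := by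
  classical
  rw [Finset.sum_coe_sort B (fun c => (if c ∈ A then (1 : ℝ) else 0) * sg (decide (c ∈ s)))]
  have h1 : ∀ c, (if c ∈ A then (1 : ℝ) else 0) * sg (decide (c ∈ s)) =
      2 * (if c ∈ s ∩ A then (1 : ℝ) else 0) - (if c ∈ A then (1 : ℝ) else 0) := by
    intro c
    by_cases h1 : c ∈ A <;> by_cases h2 : c ∈ s <;> (simp [h1, h2, sg]; try norm_num)
  simp only [h1]
  rw [Finset.sum_sub_distrib, ← Finset.mul_sum]
  congr 2
  · rw [Finset.sum_ite_mem, Finset.sum_const, nsmul_eq_mul, mul_one]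
    congr 2
    rw [← Finset.inter_assoc, Finset.inter_eq_right.2 hs]
  · rw [Finset.sum_ite_mem, Finset.sum_const, nsmul_eq_mul, mul_one]

/-- the number of bad subsets -/
theorem card_bad (h1 : T_P1) {n : ℕ} (A B : Finset (Fin n)) (a t : ℝ) (ha : 0 < a) (ht : 0 ≤ t)
    (hA : ((B ∩ A).card : ℝ) ≤ a) :
    ((B.powerset.filter (fun s => ((s ∩ A).card : ℝ) < ((B ∩ A).card : ℝ) / 2 - t)).card : ℝ) ≤
      2 * Real.exp (-(2 * t ^ 2 / a)) * 2 ^ B.card := by
  classical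
  have h2 := h1 ↥B (fun c => if c.1 ∈ A then (1 : ℝ) else 0) a (2 * t) ha (by linarith) (by
    have h3 : ∀ c : ↥B, (if c.1 ∈ A then (1 : ℝ) else 0) ^ 2 = if c.1 ∈ A then (1 : ℝ) else 0 := by
      intro c
      split_ifs <;> norm_num
    simp only [h3]
    rw [Finset.sum_coe_sort B (fun c => (if c ∈ A then (1 : ℝ) else 0))]
    rw [Finset.sum_ite_mem, Finset.sum_const, nsmul_eq_mul, mul_one]
    exact hA)
  rw [Fintype.card_coe] at h2
  have h3 : -(2 * t) ^ 2 / (2 * a) = -(2 * t ^ 2 / a) := by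
    field_simp
  rw [h3] at h2
  refine le_trans ?_ h2
  unfold cnt
  rw [Nat.cast_le]
  refine Finset.card_le_card_of_injOn (fun s => fun c : ↥B => decide (c.1 ∈ s)) ?_ ?_
  · intro s hs
    simp only [coe_filter, mem_powerset, Set.mem_ofPred_eq] at hs
    simp only [coe_filter, mem_univ, true_and, Set.mem_ofPred_eq]
    rw [sum_signs B A s hs.1]
    rw [abs_of_nonpos (by linarith [hs.2])]
    linarith [hs.2]
  · intro s hs s' hs' h
    simp only [coe_filter, mem_powerset, Set.mem_ofPred_eq] at hs hs'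
    ext c
    by_cases hc : c ∈ B
    · have := congrFun h ⟨c, hc⟩
      simp only [decide_eq_decide] at this
      exact this
    · constructor
      · intro h'
        exact absurd (hs.1 h') hc
      · intro h'
        exact absurd (hs'.1 h') hc

/-- the second event -/
theorem ev2 (h0 : T_G0) (h1 : T_P1) {n : ℕ} (A : Finset (Fin n)) (v : Fin n) (hv : v ∈ A) (t : ℝ)
    (ht : 0 ≤ t) :
    cnt (fun G : SimpleGraph (Fin n) => ((nb G v ∩ A).card : ℝ) < ((A.card : ℝ) - 1) / 2 - t) ≤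
      2 * Real.exp (-(2 * t ^ 2 / A.card)) * Fintype.card (SimpleGraph (Fin n)) := by
  classical
  set B : Finset (Fin n) := ({v} : Finset (Fin n))ᶜ with hB
  have hpos : 0 < A.card := Finset.card_pos.2 ⟨v, hv⟩
  have hBA : B ∩ A = A.erase v := by
    ext c
    simp [hB, Finset.mem_erase]
  have hBAc : ((B ∩ A).card : ℝ) = (A.card : ℝ) - 1 := by
    rw [hBA, Finset.card_erase_of_mem hv, Nat.cast_sub (by omega)]
    simp
  have h2 := card_bad h1 A B (A.card : ℝ) t (by exact_mod_cast hpos) ht (by rw [hBAc]; linarith)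
  rw [hBAc] at h2
  have h3 := h0 n {v} (fun _ s => ((s ∩ A).card : ℝ) < ((A.card : ℝ) - 1) / 2 - t)
  rw [← hB] at h3
  simp only [Finset.mem_singleton, forall_eq, Finset.card_singleton, pow_one,
    Finset.prod_singleton] at h3
  have h4 : ∀ G : SimpleGraph (Fin n), nb G v \ {v} = nb G v := by
    intro G
    rw [Finset.sdiff_singleton_eq_erase]
    apply Finset.erase_eq_of_notMem
    rw [mem_nb]
    exact G.loopless.irrefl v
  simp only [h4] at h3
  have h7 : (0 : ℝ) < 2 ^ B.card := by positivity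
  refine le_of_mul_le_mul_right ?_ h7
  rw [h3]
  have h9 : (0 : ℝ) ≤ Fintype.card (SimpleGraph (Fin n)) := by positivity
  calc _ ≤ Fintype.card (SimpleGraph (Fin n)) *
        (2 * Real.exp (-(2 * t ^ 2 / A.card)) * 2 ^ B.card) := by
        refine mul_le_mul_of_nonneg_left ?_ h9
        refine le_trans (le_of_eq ?_) h2
        congr!
    _ = _ := by ring

end G1P

/-! ### the asymptotic inequalities -/

namespace G1P

open Filter Topology

theorem tendsto_rp (a : ℝ) (ha : 0 < a) : Tendsto (fun n : ℕ => (n : ℝ) ^ a) atTop atTop :=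
  (tendsto_rpow_atTop ha).comp tendsto_natCast_atTop_atTop

theorem ev_a (δ : ℝ) (hδ : 0 < δ) : ∀ᶠ n : ℕ in atTop,
    Real.exp (-((n : ℝ) ^ (5 / 100 : ℝ) - 1)) ≤ δ := by
  have h1 : Tendsto (fun n : ℕ => Real.exp (-((n : ℝ) ^ (5 / 100 : ℝ) - 1))) atTop (𝓝 0) := by
    refine Real.tendsto_exp_neg_atTop_nhds_zero.comp ?_
    exact tendsto_atTop_add_const_right _ (-1 : ℝ) (tendsto_rp _ (by norm_num))
  exact (h1.eventually (gt_mem_nhds hδ)).mono fun n hn => hn.le

theorem ev_b (δ : ℝ) (hδ : 0 < δ) : ∀ᶠ n : ℕ in atTop,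
    (n : ℝ) * (2 * Real.exp (-(2 * (n : ℝ) ^ (3 / 100 : ℝ)))) ≤ δ := by
  have h1 : Tendsto (fun n : ℕ => ((n : ℝ) ^ (3 / 100 : ℝ)) ^ 34 *
      Real.exp (-((n : ℝ) ^ (3 / 100 : ℝ)))) atTop (𝓝 0) :=
    (Real.tendsto_pow_mul_exp_neg_atTop_nhds_zero 34).comp (tendsto_rp _ (by norm_num))
  have h2 := h1.eventually (gt_mem_nhds (show (0 : ℝ) < δ / 2 by linarith))
  filter_upwards [h2, eventually_ge_atTop 1] with n hn hn1
  have hn1' : (1 : ℝ) ≤ n := by exact_mod_cast hn1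
  have h3 : (n : ℝ) ≤ ((n : ℝ) ^ (3 / 100 : ℝ)) ^ 34 := by
    rw [← Real.rpow_natCast, ← Real.rpow_mul (by linarith)]
    calc (n : ℝ) = (n : ℝ) ^ (1 : ℝ) := (Real.rpow_one _).symm
      _ ≤ _ := Real.rpow_le_rpow_of_exponent_le hn1' (by norm_num)
  have h4 : Real.exp (-(2 * (n : ℝ) ^ (3 / 100 : ℝ))) ≤ Real.exp (-((n : ℝ) ^ (3 / 100 : ℝ))) := by
    apply Real.exp_le_exp.2
    have : 0 ≤ (n : ℝ) ^ (3 / 100 : ℝ) := by positivity
    linarith
  have h5 : (n : ℝ) * Real.exp (-(2 * (n : ℝ) ^ (3 / 100 : ℝ))) ≤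
      ((n : ℝ) ^ (3 / 100 : ℝ)) ^ 34 * Real.exp (-((n : ℝ) ^ (3 / 100 : ℝ))) :=
    mul_le_mul h3 h4 (Real.exp_pos _).le (by positivity)
  linarith

theorem ev_c : ∀ᶠ n : ℕ in atTop, ∀ m : ℕ, (n : ℝ) - (n : ℝ) ^ (95 / 100 : ℝ) ≤ m →
    6 / 10 * Lam n + 1 / 2 + (n : ℝ) ^ (49 / 100 : ℝ) ≤ 61 / 100 * Lam m := by
  have h1 := (tendsto_rp (5 / 100) (by norm_num)).eventually_ge_atTop 200
  have h2 := (tendsto_rp (1 / 100) (by norm_num)).eventually_ge_atTop 1000
  have h3 := (Real.tendsto_log_atTop.comp tendsto_natCast_atTop_atTop).eventually_ge_atTop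
    (200 : ℝ)
  filter_upwards [h1, h2, h3, eventually_ge_atTop 1] with n h1 h2 h3 hn1 m hm
  have h3' : 200 ≤ Real.log n := h3
  have hn : (1 : ℝ) ≤ n := by exact_mod_cast hn1
  have hn0 : (0 : ℝ) < n := by linarith
  have h4 : (n : ℝ) ^ (95 / 100 : ℝ) * 200 ≤ n := by
    calc (n : ℝ) ^ (95 / 100 : ℝ) * 200 ≤ (n : ℝ) ^ (95 / 100 : ℝ) * (n : ℝ) ^ (5 / 100 : ℝ) :=
          mul_le_mul_of_nonneg_left h1 (by positivity)
      _ = n := by
        rw [← Real.rpow_add hn0]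
        norm_num
  have h5 : (199 / 200 : ℝ) * n ≤ m := by linarith
  have hm0 : (0 : ℝ) < m := by nlinarith
  have h6 : (199 / 200 : ℝ) * Real.log n ≤ Real.log m := by
    have h7 : Real.log ((199 / 200 : ℝ) * n) ≤ Real.log m := Real.log_le_log (by positivity) h5
    rw [Real.log_mul (by norm_num) hn0.ne'] at h7
    have h8 : -1 ≤ Real.log (199 / 200 : ℝ) := by
      have := Real.one_sub_inv_le_log_of_pos (show (0 : ℝ) < 199 / 200 by norm_num)
      have h9 : (1 : ℝ) - (199 / 200)⁻¹ = - (1 / 199) := by norm_num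
      rw [h9] at this
      linarith
    linarith
  have h10 : (199 / 200 : ℝ) * Lam n ≤ Lam m := by
    unfold Lam
    rw [← Real.sqrt_sq (show (0 : ℝ) ≤ 199 / 200 by norm_num), ← Real.sqrt_mul (by norm_num)]
    apply Real.sqrt_le_sqrt
    have h11 : ((199 / 200 : ℝ) * n) * ((199 / 200 : ℝ) * Real.log n) ≤ m * Real.log m :=
      mul_le_mul h5 h6 (by positivity) hm0.le
    nlinarith
  have h12 : (n : ℝ) ^ (49 / 100 : ℝ) * 1000 ≤ Lam n := by
    calc (n : ℝ) ^ (49 / 100 : ℝ) * 1000 ≤ (n : ℝ) ^ (49 / 100 : ℝ) * (n : ℝ) ^ (1 / 100 : ℝ) :=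
          mul_le_mul_of_nonneg_left h2 (by positivity)
      _ = (n : ℝ) ^ (1 / 2 : ℝ) := by
        rw [← Real.rpow_add hn0]
        norm_num
      _ = Real.sqrt n := (Real.sqrt_eq_rpow _).symm
      _ ≤ Lam n := by
        unfold Lam
        apply Real.sqrt_le_sqrt
        nlinarith
  have h13 : 1 ≤ (n : ℝ) ^ (49 / 100 : ℝ) := Real.one_le_rpow hn (by norm_num)
  linarith

end G1P

/-- almost all graphs have a vertex of large degree -/
theorem G1_of (h0 : T_G0) (ha : T_G1a) (h1 : T_P1) : T_G1 := by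
  classical
  intro δ hδ
  obtain ⟨m₀, hm₀⟩ := ha
  have hδ2 : 0 < δ / 2 := by linarith
  have e1 := G1P.ev_a (δ / 2) hδ2
  have e2 := G1P.ev_b (δ / 2) hδ2
  have e3 := G1P.ev_c
  have e4 := (G1P.tendsto_rp (5 / 100) (by norm_num)).eventually_ge_atTop 2
  have e5 := Filter.eventually_ge_atTop (2 * m₀ + 2)
  obtain ⟨n₀, hn₀⟩ := Filter.eventually_atTop.1 (e1.and (e2.and (e3.and (e4.and e5))))
  refine ⟨n₀, fun n hn => ?_⟩
  obtain ⟨e1, e2, e3, e4, e5⟩ := hn₀ n hn
  have hn1 : (1 : ℝ) ≤ n := by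
    have : 1 ≤ n := by omega
    exact_mod_cast this
  have hn0 : (0 : ℝ) < n := by linarith
  set α : ℕ := ⌊(n : ℝ) ^ (95 / 100 : ℝ)⌋₊ with hα
  have ha1 : (α : ℝ) ≤ (n : ℝ) ^ (95 / 100 : ℝ) := Nat.floor_le (by positivity)
  have ha2 : (n : ℝ) ^ (95 / 100 : ℝ) - 1 ≤ α := by
    have := Nat.lt_floor_add_one ((n : ℝ) ^ (95 / 100 : ℝ))
    rw [← hα] at this
    linarith
  have ha3 : (n : ℝ) ^ (95 / 100 : ℝ) * 2 ≤ n := by
    calc (n : ℝ) ^ (95 / 100 : ℝ) * 2 ≤ (n : ℝ) ^ (95 / 100 : ℝ) * (n : ℝ) ^ (5 / 100 : ℝ) :=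
          mul_le_mul_of_nonneg_left e4 (by positivity)
      _ = n := by
        rw [← Real.rpow_add hn0]
        norm_num
  have ha4 : 2 * α ≤ n := by
    have : (2 : ℝ) * α ≤ n := by linarith
    exact_mod_cast this
  obtain ⟨A, -, hA⟩ := Finset.exists_subset_card_eq
    (show α ≤ (Finset.univ : Finset (Fin n)).card by rw [Finset.card_univ, Fintype.card_fin]; omega)
  have hAc : (Aᶜ).card = n - α := by
    rw [Finset.card_compl, Fintype.card_fin, hA]
  set m := n - α with hm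
  have hmc : (m : ℝ) = n - α := by
    rw [hm, Nat.cast_sub (by omega)]
  have hmm : m₀ ≤ m := by omega
  have hm1 : 1 ≤ m := by omega
  have hm1' : (1 : ℝ) ≤ m := by exact_mod_cast hm1
  set T : ℝ := (m : ℝ) / 2 + 61 / 100 * Lam m with hT
  set t : ℝ := (n : ℝ) ^ (49 / 100 : ℝ) with ht
  have ht0 : 0 ≤ t := by positivity
  set N : ℝ := (Fintype.card (SimpleGraph (Fin n)) : ℝ) with hN
  have hN0 : 0 ≤ N := by positivity
  -- the first event
  have b1 := G1P.ev1 h0 A hAc T ((m : ℝ) ^ (-(9 / 10) : ℝ))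
    (Real.rpow_le_one_of_one_le_of_nonpos hm1' (by norm_num)) (hm₀ m hmm)
  rw [hA, ← hN] at b1
  have b2 : (n : ℝ) ^ (5 / 100 : ℝ) - 1 ≤ α * (m : ℝ) ^ (-(9 / 10) : ℝ) := by
    have c1 : (n : ℝ) ^ (-(9 / 10) : ℝ) ≤ (m : ℝ) ^ (-(9 / 10) : ℝ) := by
      apply Real.rpow_le_rpow_of_nonpos (by linarith) (by rw [hmc]; linarith [Nat.cast_nonneg (α := ℝ) α])
        (by norm_num)
    have c2 : (n : ℝ) ^ (-(9 / 10) : ℝ) ≤ 1 :=
      Real.rpow_le_one_of_one_le_of_nonpos hn1 (by norm_num)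
    have c3 : (n : ℝ) ^ (95 / 100 : ℝ) * (n : ℝ) ^ (-(9 / 10) : ℝ) = (n : ℝ) ^ (5 / 100 : ℝ) := by
      rw [← Real.rpow_add hn0]
      norm_num
    have c4 : ((n : ℝ) ^ (95 / 100 : ℝ) - 1) * (n : ℝ) ^ (-(9 / 10) : ℝ) ≤
        α * (m : ℝ) ^ (-(9 / 10) : ℝ) :=
      mul_le_mul ha2 c1 (by positivity) (by positivity)
    linarith
  have b3 : Real.exp (-(α * (m : ℝ) ^ (-(9 / 10) : ℝ))) ≤ δ / 2 :=
    (Real.exp_le_exp.2 (by linarith)).trans e1
  -- the second event
  have d1 : cnt (fun G : SimpleGraph (Fin n) => ∃ v ∈ A,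
      ((nb G v ∩ A).card : ℝ) < ((A.card : ℝ) - 1) / 2 - t) ≤ δ / 2 * N := by
    refine (cnt_exists_le A _).trans ?_
    have d2 : ∀ v ∈ A, cnt (fun G : SimpleGraph (Fin n) =>
        ((nb G v ∩ A).card : ℝ) < ((A.card : ℝ) - 1) / 2 - t) ≤
        2 * Real.exp (-(2 * (n : ℝ) ^ (3 / 100 : ℝ))) * N := by
      intro v hv
      refine (G1P.ev2 h0 h1 A v hv t ht0).trans ?_
      refine mul_le_mul_of_nonneg_right ?_ hN0
      refine mul_le_mul_of_nonneg_left ?_ (by norm_num)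
      apply Real.exp_le_exp.2
      have hpos : 0 < A.card := Finset.card_pos.2 ⟨v, hv⟩
      have hpos' : (0 : ℝ) < A.card := by exact_mod_cast hpos
      have d3 : (n : ℝ) ^ (3 / 100 : ℝ) * A.card ≤ t ^ 2 := by
        rw [hA, ht, ← Real.rpow_natCast, ← Real.rpow_mul hn0.le]
        calc (n : ℝ) ^ (3 / 100 : ℝ) * α ≤ (n : ℝ) ^ (3 / 100 : ℝ) * (n : ℝ) ^ (95 / 100 : ℝ) :=
              mul_le_mul_of_nonneg_left ha1 (by positivity)
          _ = _ := by
            rw [← Real.rpow_add hn0]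
            norm_num
      have d4 : (n : ℝ) ^ (3 / 100 : ℝ) ≤ t ^ 2 / A.card := by
        rw [le_div_iff₀ hpos']
        exact d3
      have d5 : 2 * t ^ 2 / (A.card : ℝ) = 2 * (t ^ 2 / A.card) := by ring
      rw [d5]
      linarith
    refine (Finset.sum_le_sum d2).trans ?_
    rw [Finset.sum_const, nsmul_eq_mul, hA]
    have d6 : (α : ℝ) ≤ n := by
      have : α ≤ n := by omega
      exact_mod_cast this
    have d7 : (α : ℝ) * (2 * Real.exp (-(2 * (n : ℝ) ^ (3 / 100 : ℝ)))) ≤ δ / 2 :=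
      (mul_le_mul_of_nonneg_right d6 (by positivity)).trans e2
    calc (α : ℝ) * (2 * Real.exp (-(2 * (n : ℝ) ^ (3 / 100 : ℝ))) * N) =
        (α : ℝ) * (2 * Real.exp (-(2 * (n : ℝ) ^ (3 / 100 : ℝ)))) * N := by ring
      _ ≤ δ / 2 * N := mul_le_mul_of_nonneg_right d7 hN0
  -- both
  have f1 : cnt (fun G : SimpleGraph (Fin n) => ∀ v, (dg G v : ℝ) < n / 2 + 6 / 10 * Lam n) ≤
      cnt (fun G : SimpleGraph (Fin n) => (∀ v ∈ A, ((nb G v \ A).card : ℝ) < T) ∨
        ∃ v ∈ A, ((nb G v ∩ A).card : ℝ) < ((A.card : ℝ) - 1) / 2 - t) := by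
    apply cnt_mono
    intro G hG
    by_contra hcon
    push Not at hcon
    obtain ⟨⟨v, hv, g1⟩, g2⟩ := hcon
    have g3 := g2 v hv
    have g4 := hG v
    have g5 : (dg G v : ℝ) = ((nb G v \ A).card : ℝ) + ((nb G v ∩ A).card : ℝ) := by
      unfold dg
      rw [← Finset.card_sdiff_add_card_inter (nb G v) A]
      push_cast
      ring
    have g6 := e3 m (by rw [hmc]; linarith)
    rw [hA] at g3
    rw [g5] at g4
    have g7 : (n : ℝ) = m + α := by rw [hmc]; ring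
    rw [hT] at g1
    linarith
  refine f1.trans ((cnt_or_le _ _).trans ?_)
  have f2 : Real.exp (-(α * (m : ℝ) ^ (-(9 / 10) : ℝ))) * N ≤ δ / 2 * N :=
    mul_le_mul_of_nonneg_right b3 hN0
  linarith

end Pool.Agent.H162R2.AG
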