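import Pool.Agent.H162R2.AG.Stmts

/-! Task G2: almost all graphs have few vertices of very large degree. -/

set_option autoImplicit false

namespace Pool.Agent.H162R2.AG

open Finset Pool.Agent.H162R2.Sparse

open Classical in
theorem G2_count (h1 : T_P1) (n : ℕ) (hn : 1 ≤ n) (v : Fin n) :
    ((({v}ᶜ : Finset (Fin n)).powerset.filter
      (fun s => (n : ℝ) / 2 + 55 / 100 * Lam n < s.card)).card : ℝ) ≤
      2 * (n : ℝ) ^ (-(605 / 1000) : ℝ) * 2 ^ (({v}ᶜ : Finset (Fin n)).card) := by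
  set c : Finset (Fin n) := {v}ᶜ with hc
  have hn0 : (0 : ℝ) < n := by exact_mod_cast hn
  have hcard : c.card ≤ n := (Finset.card_le_univ c).trans (by simp)
  have hcardR : (c.card : ℝ) ≤ n := by exact_mod_cast hcard
  have hL0 : 0 ≤ Lam n := Real.sqrt_nonneg _
  have hlog : 0 ≤ Real.log n := Real.log_nonneg (by exact_mod_cast hn)
  have hLsq : Lam n ^ 2 = n * Real.log n := Real.sq_sqrt (mul_nonneg hn0.le hlog)
  have h2 := h1 (↥c) (fun _ => 1) n (11 / 10 * Lam n) hn0 (by positivity) (by simpa using hcardR)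
  have h3 : ((c.powerset.filter (fun s => (n : ℝ) / 2 + 55 / 100 * Lam n < s.card)).card : ℝ) ≤
      cnt (fun χ : ↥c → Bool => 11 / 10 * Lam n ≤ |∑ i, (1 : ℝ) * sg (χ i)|) := by
    unfold cnt
    refine Nat.cast_le.2 ?_
    refine Finset.card_le_card_of_injOn (fun s => fun i : ↥c => decide (i.1 ∈ s)) ?_ ?_
    · intro s hs
      obtain ⟨hs1, hs2⟩ := Finset.mem_filter.1 (Finset.mem_coe.1 hs)
      have hs3 := Finset.mem_powerset.1 hs1
      refine Finset.mem_coe.2 (Finset.mem_filter.2 ⟨Finset.mem_univ _, ?_⟩)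
      have h4 : ∑ i : ↥c, (1 : ℝ) * sg (decide (i.1 ∈ s)) = 2 * s.card - c.card := by
        have h5 : ∑ i : ↥c, (1 : ℝ) * sg (decide (i.1 ∈ s)) =
            ∑ i ∈ c, (2 * (if i ∈ s then (1 : ℝ) else 0) - 1) := by
          rw [← Finset.sum_coe_sort c]
          refine Finset.sum_congr rfl fun i _ => ?_
          by_cases hi : i.1 ∈ s
          · simp [sg, hi]; norm_num
          · simp [sg, hi]
        rw [h5, Finset.sum_sub_distrib, ← Finset.mul_sum, Finset.sum_boole,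
          Finset.filter_mem_eq_inter, Finset.inter_eq_right.2 hs3]
        simp
      change 11 / 10 * Lam n ≤ |∑ i : ↥c, (1 : ℝ) * sg (decide (i.1 ∈ s))|
      rw [h4]
      refine le_trans ?_ (le_abs_self _)
      linarith
    · intro s hs s' hs' h
      have hs1 := Finset.mem_powerset.1 (Finset.mem_filter.1 (Finset.mem_coe.1 hs)).1
      have hs1' := Finset.mem_powerset.1 (Finset.mem_filter.1 (Finset.mem_coe.1 hs')).1
      ext i
      by_cases hi : i ∈ c
      · have h4 := congrFun h ⟨i, hi⟩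
        simpa using h4
      · exact ⟨fun h4 => absurd (hs1 h4) hi, fun h4 => absurd (hs1' h4) hi⟩
  refine h3.trans (h2.trans (le_of_eq ?_))
  have h6 : -((11 / 10 * Lam n) ^ 2) / (2 * n) = Real.log n * (-(605 / 1000)) := by
    rw [mul_pow, hLsq]
    field_simp
    ring
  rw [h6, Real.rpow_def_of_pos hn0, Fintype.card_coe]

theorem G2_vertex (h0 : T_G0) (h1 : T_P1) (n : ℕ) (hn : 1 ≤ n) (v : Fin n) :
    cnt (fun G : SimpleGraph (Fin n) => (n : ℝ) / 2 + 55 / 100 * Lam n < dg G v) ≤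
      2 * (n : ℝ) ^ (-(605 / 1000) : ℝ) * Fintype.card (SimpleGraph (Fin n)) := by
  classical
  have h2 := h0 n {v} (fun _ s => (n : ℝ) / 2 + 55 / 100 * Lam n < s.card)
  have h3 : (fun G : SimpleGraph (Fin n) => ∀ w ∈ ({v} : Finset (Fin n)),
      (n : ℝ) / 2 + 55 / 100 * Lam n < ((nb G w \ {v}).card : ℝ)) =
      (fun G : SimpleGraph (Fin n) => (n : ℝ) / 2 + 55 / 100 * Lam n < dg G v) := by
    funext G
    have h4 : nb G v \ {v} = nb G v := by
      ext w
      simp only [Finset.mem_sdiff, Finset.mem_singleton, mem_nb]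
      exact ⟨fun h => h.1, fun h => ⟨h, fun h5 => G.irrefl (h5 ▸ h)⟩⟩
    simp only [Finset.mem_singleton, forall_eq, h4]
    rfl
  rw [h3, Finset.card_singleton, pow_one, Finset.prod_singleton] at h2
  have h5 := G2_count h1 n hn v
  have hpow : (0 : ℝ) < 2 ^ (({v}ᶜ : Finset (Fin n)).card) := by positivity
  have hM : (0 : ℝ) ≤ Fintype.card (SimpleGraph (Fin n)) := by positivity
  refine le_of_mul_le_mul_right ?_ hpow
  rw [h2]
  calc (Fintype.card (SimpleGraph (Fin n)) : ℝ) *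
        ((({v}ᶜ : Finset (Fin n)).powerset.filter
          (fun s => (n : ℝ) / 2 + 55 / 100 * Lam n < s.card)).card : ℝ)
      ≤ (Fintype.card (SimpleGraph (Fin n)) : ℝ) *
        (2 * (n : ℝ) ^ (-(605 / 1000) : ℝ) * 2 ^ (({v}ᶜ : Finset (Fin n)).card)) := by
        refine mul_le_mul_of_nonneg_left ?_ hM
        convert h5
    _ = _ := by ring

theorem G2_of (h0 : T_G0) (h1 : T_P1) : T_G2 := by
  classical
  intro δ hδ
  have hlim : Filter.Tendsto (fun n : ℕ => (n : ℝ) ^ (55 / 1000 : ℝ)) Filter.atTop Filter.atTop :=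
    (tendsto_rpow_atTop (by norm_num)).comp tendsto_natCast_atTop_atTop
  obtain ⟨n0, hn0⟩ := Filter.eventually_atTop.1 (hlim.eventually_ge_atTop (2 / δ))
  refine ⟨max n0 1, fun n hn => ?_⟩
  have hn1 : 1 ≤ n := (le_max_right _ _).trans hn
  have hn2 := hn0 n ((le_max_left _ _).trans hn)
  have hnR : (0 : ℝ) < n := by exact_mod_cast hn1
  set M : ℝ := (Fintype.card (SimpleGraph (Fin n)) : ℝ) with hM
  have hM0 : 0 ≤ M := by positivity
  set T : ℝ := (n : ℝ) ^ (45 / 100 : ℝ) with hT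
  have hT0 : 0 < T := Real.rpow_pos_of_pos hnR _
  have hsum : ∑ G : SimpleGraph (Fin n),
      cnt (fun v => (n : ℝ) / 2 + 55 / 100 * Lam n < dg G v) ≤
      n * (2 * (n : ℝ) ^ (-(605 / 1000) : ℝ) * M) := by
    have h2 : ∑ G : SimpleGraph (Fin n),
        cnt (fun v => (n : ℝ) / 2 + 55 / 100 * Lam n < dg G v) =
        ∑ v : Fin n, cnt (fun G : SimpleGraph (Fin n) =>
          (n : ℝ) / 2 + 55 / 100 * Lam n < dg G v) := by
      simp_rw [cnt_eq_sum]
      exact Finset.sum_comm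
    rw [h2]
    calc ∑ v : Fin n, cnt (fun G : SimpleGraph (Fin n) =>
          (n : ℝ) / 2 + 55 / 100 * Lam n < dg G v)
        ≤ ∑ _v : Fin n, (2 * (n : ℝ) ^ (-(605 / 1000) : ℝ) * M) :=
          Finset.sum_le_sum fun v _ => G2_vertex h0 h1 n hn1 v
      _ = n * (2 * (n : ℝ) ^ (-(605 / 1000) : ℝ) * M) := by simp
  have hmarkov : cnt (fun G : SimpleGraph (Fin n) =>
      T < cnt (fun v => (n : ℝ) / 2 + 55 / 100 * Lam n < dg G v)) * T ≤
      ∑ G : SimpleGraph (Fin n), cnt (fun v => (n : ℝ) / 2 + 55 / 100 * Lam n < dg G v) := by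
    rw [cnt_eq_sum, Finset.sum_mul]
    refine Finset.sum_le_sum fun G _ => ?_
    by_cases hG : T < cnt (fun v => (n : ℝ) / 2 + 55 / 100 * Lam n < dg G v)
    · rw [if_pos hG, one_mul]; exact hG.le
    · rw [if_neg hG, zero_mul]; exact cnt_nonneg _
  refine le_of_mul_le_mul_right (hmarkov.trans (hsum.trans ?_)) hT0
  have h3 : (n : ℝ) * (n : ℝ) ^ (-(605 / 1000) : ℝ) = (n : ℝ) ^ (395 / 1000 : ℝ) := by
    nth_rewrite 1 [← Real.rpow_one (n : ℝ)]
    rw [← Real.rpow_add hnR]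
    norm_num
  have h4 : T = (n : ℝ) ^ (395 / 1000 : ℝ) * (n : ℝ) ^ (55 / 1000 : ℝ) := by
    rw [hT, ← Real.rpow_add hnR]
    norm_num
  have h5 : 2 ≤ δ * (n : ℝ) ^ (55 / 1000 : ℝ) := by
    rw [div_le_iff₀ hδ] at hn2
    linarith
  have h6 : 0 ≤ (n : ℝ) ^ (395 / 1000 : ℝ) := by positivity
  calc (n : ℝ) * (2 * (n : ℝ) ^ (-(605 / 1000) : ℝ) * M)
      = 2 * ((n : ℝ) * (n : ℝ) ^ (-(605 / 1000) : ℝ)) * M := by ring
    _ = 2 * (n : ℝ) ^ (395 / 1000 : ℝ) * M := by rw [h3]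
    _ ≤ (δ * (n : ℝ) ^ (55 / 1000 : ℝ)) * (n : ℝ) ^ (395 / 1000 : ℝ) * M := by gcongr
    _ = δ * M * T := by rw [h4]; ring

end Pool.Agent.H162R2.AG
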