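import Pool.Agent.H162R2.AG.All
import Pool.Agent.H162R2.AG.G0
import Pool.Agent.H162R2.AG.G1
import Pool.Agent.H162R2.AG.G2
import Pool.Agent.H551R2.AG.G1a

/-!
# Almost all graphs
-/

set_option autoImplicit false

namespace Pool.Agent.H162R2.AG

theorem tG1 : T_G1 := G1_of G0 G1a P1
theorem tG2 : T_G2 := G2_of G0 P1
theorem tAA : T_AA := AA_of tA tG1 tG2

/-- the final form: list edge colouring conjecture for almost all graphs -/
theorem almost_all_lecc : Filter.Tendsto (fun n : ℕ =>
    ({G : SimpleGraph (Fin n) | LECC G}.ncard : ℝ) / (Nat.card (SimpleGraph (Fin n)) : ℝ))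
    Filter.atTop (nhds 1) := almost_all tAA

end Pool.Agent.H162R2.AG
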