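import Mathlib
import Pool.Agent.H162R2.AG.Stmts3
import Pool.Agent.H551R2.AG.G1a

/-! Task G1b of h162 (helper503): a lower bound for the upper tail of the binomial distribution,
constant `0.65`; adapted from task G1a (helper551). -/

set_option autoImplicit false

namespace Pool.Agent.H162R2.AG

open Finset

theorem G1b : T_G1b := by
  have e1 : ∀ᶠ m : ℕ in Filter.atTop, (360000 : ℝ) ≤ Real.log m :=
    (Real.tendsto_log_atTop.comp tendsto_natCast_atTop_atTop).eventually_ge_atTop _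
  have e2 : ∀ᶠ m : ℕ in Filter.atTop, ‖Real.log (m : ℝ)‖ ≤ (1 / 360000 : ℝ) * ‖(m : ℝ)‖ :=
    tendsto_natCast_atTop_atTop.eventually
      (Real.isLittleO_log_id_atTop.def (by norm_num : (0 : ℝ) < 1 / 360000))
  obtain ⟨m₀, hm₀⟩ := Filter.eventually_atTop.mp (e1.and e2)
  refine ⟨max m₀ 500, fun m hm => ?_⟩
  obtain ⟨hlog, hlog2⟩ := hm₀ m ((le_max_left _ _).trans hm)
  have hm50 : 500 ≤ m := (le_max_right _ _).trans hm
  have hmR : (500 : ℝ) ≤ m := by exact_mod_cast hm50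
  rw [Real.norm_of_nonneg (by linarith), Real.norm_of_nonneg (by linarith)] at hlog2
  set s := Real.sqrt m with hs
  have hs0 : 0 ≤ s := Real.sqrt_nonneg _
  have hss : s * s = m := Real.mul_self_sqrt (by linarith)
  have hs1 : 1 ≤ s := by
    rw [hs, Real.one_le_sqrt]
    linarith
  set L := Lam m with hL
  have hL0 : 0 ≤ L := Real.sqrt_nonneg _
  have hLL : L * L = m * Real.log m := Real.mul_self_sqrt (by positivity)
  have hLs : 600 * s ≤ L := by
    refine le_of_sq_le_sq ?_ hL0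
    have : (600 * s) ^ 2 = 360000 * m := by
      rw [mul_pow, sq s, hss]
      norm_num
    rw [this, sq L, hLL]
    nlinarith
  have hLm : L ≤ m / 600 := by
    refine le_of_sq_le_sq ?_ (by positivity)
    rw [sq L, hLL]
    have : (m / 600 : ℝ) ^ 2 = m * (m / 360000) := by ring
    rw [this]
    exact mul_le_mul_of_nonneg_left (by linarith) (by linarith)
  set M := m / 2 with hM
  have hM1 : (m : ℝ) / 2 - 1 / 2 ≤ M := by
    have : m ≤ 2 * M + 1 := by omega
    have : (m : ℝ) ≤ 2 * M + 1 := by exact_mod_cast this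
    linarith
  have hM2 : 0.499 * (m : ℝ) ≤ M := by linarith
  have hMpos : (0 : ℝ) < M := by linarith
  set j₀ := ⌈(65 / 100 : ℝ) * L⌉₊ + 1 with hj₀
  set r := Nat.sqrt m with hr
  have hj1 : (65 / 100 : ℝ) * L + 1 ≤ j₀ := by
    rw [hj₀]
    push_cast
    have := Nat.le_ceil ((65 / 100 : ℝ) * L)
    linarith
  have hj2 : (j₀ : ℝ) ≤ (65 / 100 : ℝ) * L + 2 := by
    rw [hj₀]
    push_cast
    have := (Nat.ceil_lt_add_one (a := (65 / 100 : ℝ) * L) (by positivity)).le
    linarith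
  have hr1 : (r : ℝ) ≤ s := by
    rw [hr, hs]
    exact Real.nat_sqrt_le_real_sqrt
  have hr2 : s ≤ ((r + 1 : ℕ) : ℝ) := by
    push_cast
    rw [hr, hs]
    exact Real.real_sqrt_le_nat_sqrt_succ
  have hJ : ((j₀ + r : ℕ) : ℝ) ≤ 0.655 * L := by
    push_cast
    linarith
  have h4J : 4 * (j₀ + r) ≤ M := by
    have : (4 : ℝ) * ((j₀ + r : ℕ) : ℝ) ≤ M := by linarith
    exact_mod_cast this
  have hcount := G1a_count m j₀ r ((m : ℝ) / 2 + 65 / 100 * L) (by push_cast; linarith)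
  have hratio := G1a_ratio m (j₀ + r) (by omega) h4J (j₀ + r) le_rfl
  refine le_trans ?_ hcount
  have hmid := G1a_mid m (by omega)
  set C := (Nat.choose m M : ℝ) with hC
  set J : ℝ := ((j₀ + r : ℕ) : ℝ) with hJdef
  have hJ0 : 0 ≤ J := by positivity
  have hlogpos : 0 < Real.log m := by linarith
  -- the exponent
  have hJ2 : J ^ 2 / M ≤ 0.86 * Real.log m := by
    rw [div_le_iff₀ hMpos]
    have h1 : J ^ 2 ≤ (0.655 * L) ^ 2 := pow_le_pow_left₀ hJ0 hJ 2
    have h2 : (0.655 * L) ^ 2 = 0.429025 * (m * Real.log m) := by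
      rw [mul_pow, sq L, hLL]
      norm_num
    have h3 : 0.86 * Real.log m * (0.499 * m) ≤ 0.86 * Real.log m * M :=
      mul_le_mul_of_nonneg_left hM2 (by positivity)
    have h4 : 0 ≤ (m : ℝ) * Real.log m := by positivity
    nlinarith
  have hJ3 : J * (2 * J / M) ^ 2 ≤ 0.0086 * Real.log m := by
    have h1 : J * (2 * J / M) ^ 2 = (J ^ 2 / M) * (4 * J / M) := by
      field_simp
      ring
    rw [h1]
    have h2 : 4 * J / M ≤ 0.01 := by
      rw [div_le_iff₀ hMpos]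
      linarith
    calc (J ^ 2 / M) * (4 * J / M) ≤ (0.86 * Real.log m) * 0.01 :=
          mul_le_mul hJ2 h2 (by positivity) (by positivity)
      _ ≤ 0.0086 * Real.log m := by linarith
  have hlog2' : Real.log 2 ≤ 0.01 * Real.log m := by
    have := Real.log_two_lt_d9
    linarith
  have hexp : (m : ℝ) ^ (-(9 / 10) : ℝ) * 2 ≤ Real.exp (-(J ^ 2 / M + J * (2 * J / M) ^ 2)) := by
    have h2e : (2 : ℝ) = Real.exp (Real.log 2) := (Real.exp_log (by norm_num)).symm
    have hE : ∀ E : ℝ, E ≤ (0.86 + 0.0086) * Real.log m →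
        (m : ℝ) ^ (-(9 / 10) : ℝ) * 2 ≤ Real.exp (-E) := by
      intro E hE
      rw [Real.rpow_def_of_pos (by linarith), h2e, ← Real.exp_add]
      apply Real.exp_le_exp.mpr
      linarith
    exact hE _ (by linarith)
  have hrp : (0 : ℝ) ≤ (m : ℝ) ^ (-(9 / 10) : ℝ) := Real.rpow_nonneg (by linarith) _
  have hC0 : 0 ≤ C := by positivity
  calc (m : ℝ) ^ (-(9 / 10) : ℝ) * 2 ^ m
      ≤ (m : ℝ) ^ (-(9 / 10) : ℝ) * (C * (2 * s)) := mul_le_mul_of_nonneg_left hmid hrp
    _ = s * (C * ((m : ℝ) ^ (-(9 / 10) : ℝ) * 2)) := by ring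
    _ ≤ s * (C * Real.exp (-(J ^ 2 / M + J * (2 * J / M) ^ 2))) :=
        mul_le_mul_of_nonneg_left (mul_le_mul_of_nonneg_left hexp hC0) hs0
    _ ≤ ((r + 1 : ℕ) : ℝ) * (Nat.choose m (M + (j₀ + r)) : ℝ) :=
        mul_le_mul hr2 hratio (by positivity) (by positivity)

end Pool.Agent.H162R2.AG
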