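import Pool.Agent.H162R2.AG.Stmts3
import Pool.Agent.H162R2.AG.G1

/-!
Task G1c: almost all graphs have a vertex of large degree, 0.64 (after helper25).
-/

set_option autoImplicit false

namespace Pool.Agent.H162R2.AG

open Finset Pool.Agent.H162R2.Sparse

namespace G1cP

open Filter Topology

theorem ev_c : ∀ᶠ n : ℕ in atTop, ∀ m : ℕ, (n : ℝ) - (n : ℝ) ^ (95 / 100 : ℝ) ≤ m →
    64 / 100 * Lam n + 1 / 2 + (n : ℝ) ^ (49 / 100 : ℝ) ≤ 65 / 100 * Lam m := by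
  have h1 := (G1P.tendsto_rp (5 / 100) (by norm_num)).eventually_ge_atTop 200
  have h2 := (G1P.tendsto_rp (1 / 100) (by norm_num)).eventually_ge_atTop 1000
  have h3 := (Real.tendsto_log_atTop.comp tendsto_natCast_atTop_atTop).eventually_ge_atTop
    (200 : ℝ)
  filter_upwards [h1, h2, h3, eventually_ge_atTop 1] with n h1 h2 h3 hn1 m hm
  have h3' : 200 ≤ Real.log n := h3
  have hn : (1 : ℝ) ≤ n := by exact_mod_cast hn1
  have hn0 : (0 : ℝ) < n := by linarith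
  have h4 : (n : ℝ) ^ (95 / 100 : ℝ) * 200 ≤ n := by
    calc (n : ℝ) ^ (95 / 100 : ℝ) * 200 ≤ (n : ℝ) ^ (95 / 100 : ℝ) * (n : ℝ) ^ (5 / 100 : ℝ) :=
          mul_le_mul_of_nonneg_left h1 (by positivity)
      _ = n := by
        rw [← Real.rpow_add hn0]
        norm_num
  have h5 : (199 / 200 : ℝ) * n ≤ m := by linarith
  have hm0 : (0 : ℝ) < m := by nlinarith
  have h6 : (199 / 200 : ℝ) * Real.log n ≤ Real.log m := by
    have h7 : Real.log ((199 / 200 : ℝ) * n) ≤ Real.log m := Real.log_le_log (by positivity) h5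
    rw [Real.log_mul (by norm_num) hn0.ne'] at h7
    have h8 : -1 ≤ Real.log (199 / 200 : ℝ) := by
      have := Real.one_sub_inv_le_log_of_pos (show (0 : ℝ) < 199 / 200 by norm_num)
      have h9 : (1 : ℝ) - (199 / 200)⁻¹ = - (1 / 199) := by norm_num
      rw [h9] at this
      linarith
    linarith
  have h10 : (199 / 200 : ℝ) * Lam n ≤ Lam m := by
    unfold Lam
    rw [← Real.sqrt_sq (show (0 : ℝ) ≤ 199 / 200 by norm_num), ← Real.sqrt_mul (by norm_num)]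
    apply Real.sqrt_le_sqrt
    have h11 : ((199 / 200 : ℝ) * n) * ((199 / 200 : ℝ) * Real.log n) ≤ m * Real.log m :=
      mul_le_mul h5 h6 (by positivity) hm0.le
    nlinarith
  have h12 : (n : ℝ) ^ (49 / 100 : ℝ) * 1000 ≤ Lam n := by
    calc (n : ℝ) ^ (49 / 100 : ℝ) * 1000 ≤ (n : ℝ) ^ (49 / 100 : ℝ) * (n : ℝ) ^ (1 / 100 : ℝ) :=
          mul_le_mul_of_nonneg_left h2 (by positivity)
      _ = (n : ℝ) ^ (1 / 2 : ℝ) := by
        rw [← Real.rpow_add hn0]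
        norm_num
      _ = Real.sqrt n := (Real.sqrt_eq_rpow _).symm
      _ ≤ Lam n := by
        unfold Lam
        apply Real.sqrt_le_sqrt
        nlinarith
  have h13 : 1 ≤ (n : ℝ) ^ (49 / 100 : ℝ) := Real.one_le_rpow hn (by norm_num)
  linarith

end G1cP

/-- almost all graphs have a vertex of large degree, 0.64 -/
theorem G1c_of (h0 : T_G0) (hb : T_G1b) (h1 : T_P1) : T_G1c := by
  classical
  intro δ hδ
  obtain ⟨m₀, hm₀⟩ := hb
  have hδ2 : 0 < δ / 2 := by linarith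
  have e1 := G1P.ev_a (δ / 2) hδ2
  have e2 := G1P.ev_b (δ / 2) hδ2
  have e3 := G1cP.ev_c
  have e4 := (G1P.tendsto_rp (5 / 100) (by norm_num)).eventually_ge_atTop 2
  have e5 := Filter.eventually_ge_atTop (2 * m₀ + 2)
  obtain ⟨n₀, hn₀⟩ := Filter.eventually_atTop.1 (e1.and (e2.and (e3.and (e4.and e5))))
  refine ⟨n₀, fun n hn => ?_⟩
  obtain ⟨e1, e2, e3, e4, e5⟩ := hn₀ n hn
  have hn1 : (1 : ℝ) ≤ n := by
    have : 1 ≤ n := by omega
    exact_mod_cast this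
  have hn0 : (0 : ℝ) < n := by linarith
  set α : ℕ := ⌊(n : ℝ) ^ (95 / 100 : ℝ)⌋₊ with hα
  have ha1 : (α : ℝ) ≤ (n : ℝ) ^ (95 / 100 : ℝ) := Nat.floor_le (by positivity)
  have ha2 : (n : ℝ) ^ (95 / 100 : ℝ) - 1 ≤ α := by
    have := Nat.lt_floor_add_one ((n : ℝ) ^ (95 / 100 : ℝ))
    rw [← hα] at this
    linarith
  have ha3 : (n : ℝ) ^ (95 / 100 : ℝ) * 2 ≤ n := by
    calc (n : ℝ) ^ (95 / 100 : ℝ) * 2 ≤ (n : ℝ) ^ (95 / 100 : ℝ) * (n : ℝ) ^ (5 / 100 : ℝ) :=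
          mul_le_mul_of_nonneg_left e4 (by positivity)
      _ = n := by
        rw [← Real.rpow_add hn0]
        norm_num
  have ha4 : 2 * α ≤ n := by
    have : (2 : ℝ) * α ≤ n := by linarith
    exact_mod_cast this
  obtain ⟨A, -, hA⟩ := Finset.exists_subset_card_eq
    (show α ≤ (Finset.univ : Finset (Fin n)).card by rw [Finset.card_univ, Fintype.card_fin]; omega)
  have hAc : (Aᶜ).card = n - α := by
    rw [Finset.card_compl, Fintype.card_fin, hA]
  set m := n - α with hm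
  have hmc : (m : ℝ) = n - α := by
    rw [hm, Nat.cast_sub (by omega)]
  have hmm : m₀ ≤ m := by omega
  have hm1 : 1 ≤ m := by omega
  have hm1' : (1 : ℝ) ≤ m := by exact_mod_cast hm1
  set T : ℝ := (m : ℝ) / 2 + 65 / 100 * Lam m with hT
  set t : ℝ := (n : ℝ) ^ (49 / 100 : ℝ) with ht
  have ht0 : 0 ≤ t := by positivity
  set N : ℝ := (Fintype.card (SimpleGraph (Fin n)) : ℝ) with hN
  have hN0 : 0 ≤ N := by positivity
  -- the first event
  have b1 := G1P.ev1 h0 A hAc T ((m : ℝ) ^ (-(9 / 10) : ℝ))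
    (Real.rpow_le_one_of_one_le_of_nonpos hm1' (by norm_num)) (hm₀ m hmm)
  rw [hA, ← hN] at b1
  have b2 : (n : ℝ) ^ (5 / 100 : ℝ) - 1 ≤ α * (m : ℝ) ^ (-(9 / 10) : ℝ) := by
    have c1 : (n : ℝ) ^ (-(9 / 10) : ℝ) ≤ (m : ℝ) ^ (-(9 / 10) : ℝ) := by
      apply Real.rpow_le_rpow_of_nonpos (by linarith) (by rw [hmc]; linarith [Nat.cast_nonneg (α := ℝ) α])
        (by norm_num)
    have c2 : (n : ℝ) ^ (-(9 / 10) : ℝ) ≤ 1 :=
      Real.rpow_le_one_of_one_le_of_nonpos hn1 (by norm_num)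
    have c3 : (n : ℝ) ^ (95 / 100 : ℝ) * (n : ℝ) ^ (-(9 / 10) : ℝ) = (n : ℝ) ^ (5 / 100 : ℝ) := by
      rw [← Real.rpow_add hn0]
      norm_num
    have c4 : ((n : ℝ) ^ (95 / 100 : ℝ) - 1) * (n : ℝ) ^ (-(9 / 10) : ℝ) ≤
        α * (m : ℝ) ^ (-(9 / 10) : ℝ) :=
      mul_le_mul ha2 c1 (by positivity) (by positivity)
    linarith
  have b3 : Real.exp (-(α * (m : ℝ) ^ (-(9 / 10) : ℝ))) ≤ δ / 2 :=
    (Real.exp_le_exp.2 (by linarith)).trans e1
  -- the second event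
  have d1 : cnt (fun G : SimpleGraph (Fin n) => ∃ v ∈ A,
      ((nb G v ∩ A).card : ℝ) < ((A.card : ℝ) - 1) / 2 - t) ≤ δ / 2 * N := by
    refine (cnt_exists_le A _).trans ?_
    have d2 : ∀ v ∈ A, cnt (fun G : SimpleGraph (Fin n) =>
        ((nb G v ∩ A).card : ℝ) < ((A.card : ℝ) - 1) / 2 - t) ≤
        2 * Real.exp (-(2 * (n : ℝ) ^ (3 / 100 : ℝ))) * N := by
      intro v hv
      refine (G1P.ev2 h0 h1 A v hv t ht0).trans ?_
      refine mul_le_mul_of_nonneg_right ?_ hN0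
      refine mul_le_mul_of_nonneg_left ?_ (by norm_num)
      apply Real.exp_le_exp.2
      have hpos : 0 < A.card := Finset.card_pos.2 ⟨v, hv⟩
      have hpos' : (0 : ℝ) < A.card := by exact_mod_cast hpos
      have d3 : (n : ℝ) ^ (3 / 100 : ℝ) * A.card ≤ t ^ 2 := by
        rw [hA, ht, ← Real.rpow_natCast, ← Real.rpow_mul hn0.le]
        calc (n : ℝ) ^ (3 / 100 : ℝ) * α ≤ (n : ℝ) ^ (3 / 100 : ℝ) * (n : ℝ) ^ (95 / 100 : ℝ) :=
              mul_le_mul_of_nonneg_left ha1 (by positivity)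
          _ = _ := by
            rw [← Real.rpow_add hn0]
            norm_num
      have d4 : (n : ℝ) ^ (3 / 100 : ℝ) ≤ t ^ 2 / A.card := by
        rw [le_div_iff₀ hpos']
        exact d3
      have d5 : 2 * t ^ 2 / (A.card : ℝ) = 2 * (t ^ 2 / A.card) := by ring
      rw [d5]
      linarith
    refine (Finset.sum_le_sum d2).trans ?_
    rw [Finset.sum_const, nsmul_eq_mul, hA]
    have d6 : (α : ℝ) ≤ n := by
      have : α ≤ n := by omega
      exact_mod_cast this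
    have d7 : (α : ℝ) * (2 * Real.exp (-(2 * (n : ℝ) ^ (3 / 100 : ℝ)))) ≤ δ / 2 :=
      (mul_le_mul_of_nonneg_right d6 (by positivity)).trans e2
    calc (α : ℝ) * (2 * Real.exp (-(2 * (n : ℝ) ^ (3 / 100 : ℝ))) * N) =
        (α : ℝ) * (2 * Real.exp (-(2 * (n : ℝ) ^ (3 / 100 : ℝ)))) * N := by ring
      _ ≤ δ / 2 * N := mul_le_mul_of_nonneg_right d7 hN0
  -- both
  have f1 : cnt (fun G : SimpleGraph (Fin n) => ∀ v, (dg G v : ℝ) < n / 2 + 64 / 100 * Lam n) ≤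
      cnt (fun G : SimpleGraph (Fin n) => (∀ v ∈ A, ((nb G v \ A).card : ℝ) < T) ∨
        ∃ v ∈ A, ((nb G v ∩ A).card : ℝ) < ((A.card : ℝ) - 1) / 2 - t) := by
    apply cnt_mono
    intro G hG
    by_contra hcon
    push Not at hcon
    obtain ⟨⟨v, hv, g1⟩, g2⟩ := hcon
    have g3 := g2 v hv
    have g4 := hG v
    have g5 : (dg G v : ℝ) = ((nb G v \ A).card : ℝ) + ((nb G v ∩ A).card : ℝ) := by
      unfold dg
      rw [← Finset.card_sdiff_add_card_inter (nb G v) A]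
      push_cast
      ring
    have g6 := e3 m (by rw [hmc]; linarith)
    rw [hA] at g3
    rw [g5] at g4
    have g7 : (n : ℝ) = m + α := by rw [hmc]; ring
    rw [hT] at g1
    linarith
  refine f1.trans ((cnt_or_le _ _).trans ?_)
  have f2 : Real.exp (-(α * (m : ℝ) ^ (-(9 / 10) : ℝ))) * N ≤ δ / 2 * N :=
    mul_le_mul_of_nonneg_right b3 hN0
  linarith

end Pool.Agent.H162R2.AG
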