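import Pool.Agent.H162R2.AG.All2
import Pool.Agent.H162R2.AG.AP
import Pool.Agent.H162R2.AG.AAP
import Pool.Agent.H162R2.AG.G1b
import Pool.Agent.H162R2.AG.G1c

/-!
# Total colourings and (p,1)-total labellings of almost all graphs
-/

set_option autoImplicit false

namespace Pool.Agent.H162R2.AG

theorem tAP : T_AP := AP_of tD
theorem tAAP : T_AAP := AAP_of tAP tG1 tG2
theorem tG1c : T_G1c := G1c_of G0 G1b P1

end Pool.Agent.H162R2.AG
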