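import Mathlib
import Pool.Agent.H162R2.AG.Stmts3

/-!
# (p,1)-total labellings of span `D + p - 1` (task EX, helper89)
-/

set_option autoImplicit false
set_option linter.unusedSectionVars false

namespace Pool.Agent.H162R2.AG

open Finset Pool.Agent.H162R2.Sparse

namespace EX

variable {V : Type} [Fintype V] [DecidableEq V]

/-- greedy labelling of the vertices of `S` -/
theorem greedy_vertex (G : SimpleGraph V) (g₀ : V → ℕ) (N : ℕ) (F : V → Finset ℕ) (S : Finset V)
    (h : ∀ v ∈ S, dg G v + (F v).card < N) :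
    ∃ g : V → ℕ, (∀ v, v ∉ S → g v = g₀ v) ∧ (∀ v ∈ S, g v < N ∧ g v ∉ F v) ∧
      ∀ a ∈ S, ∀ b, G.Adj a b → g a ≠ g b := by
  classical
  induction S using Finset.induction_on with
  | empty => exact ⟨g₀, fun _ _ => rfl, fun v hv => absurd hv (notMem_empty v),
      fun v hv => absurd hv (notMem_empty v)⟩
  | insert a S ha ih =>
    obtain ⟨g, hg1, hg2, hg3⟩ := ih (fun v hv => h v (mem_insert_of_mem hv))
    obtain ⟨c, hc1, hc2⟩ : ∃ c ∈ range N, c ∉ (nb G a).image g ∪ F a := by
      apply Finset.exists_mem_notMem_of_card_lt_card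
      have h1 := Finset.card_union_le ((nb G a).image g) (F a)
      have h2 := Finset.card_image_le (s := nb G a) (f := g)
      have h3 := h a (mem_insert_self a S)
      unfold dg at h3
      rw [card_range]
      omega
    rw [mem_union, not_or] at hc2
    have hca : ∀ b, G.Adj a b → c ≠ g b := by
      intro b hb he
      apply hc2.1
      rw [he]
      exact mem_image_of_mem _ ((mem_nb G a b).2 hb)
    refine ⟨Function.update g a c, ?_, ?_, ?_⟩
    · intro v hv
      rw [mem_insert, not_or] at hv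
      rw [Function.update_of_ne hv.1, hg1 v hv.2]
    · intro v hv
      by_cases hva : v = a
      · subst hva
        rw [Function.update_self]
        exact ⟨mem_range.1 hc1, hc2.2⟩
      · rw [Function.update_of_ne hva]
        exact hg2 v ((mem_insert.1 hv).resolve_left hva)
    · intro v hv b hvb
      by_cases hva : v = a
      · subst hva
        rw [Function.update_self, Function.update_of_ne hvb.ne']
        exact hca b hvb
      · rw [Function.update_of_ne hva]
        by_cases hba : b = a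
        · subst hba
          rw [Function.update_self]
          exact (hca v hvb.symm).symm
        · rw [Function.update_of_ne hba]
          exact hg3 v ((mem_insert.1 hv).resolve_left hva) b hvb

theorem card_blk_range (p : ℕ) : (blk p 0).card ≤ p := by
  unfold blk
  rw [Nat.card_Ico]
  omega

theorem ex_core (hG : T_GR) (p : ℕ) (hp : 1 ≤ p) (G : SimpleGraph V)
    (T : Finset V) (D t : ℕ) (v₀ : V) (hD : dg G v₀ = D)
    (hv : ∀ v, v ≠ v₀ → dg G v + p ≤ D + 1)
    (hT : ∀ v, ((nb G v).filter (fun w => w ∈ T)).card ≤ t)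
    (hbig : ∀ w ∈ T, 17 * t ≤ dg G w)
    (h1 : 2 * t + 4 * p ≤ D)
    (hsmall : ∀ v, v ∉ T → dg G v + t * (2 * p - 1) < D + p)
    (hcol : ∀ L : V → V → Finset ℕ, (∀ a b, L a b = L b a) →
      (∀ a b, G.Adj a b → a ∉ T → b ∉ T → D + p ≤ (L a b).card + 2 * (2 * p - 1) + 2 * t) →
      LC (cutX G T) L) :
    LP p G (fun _ _ => range (D + p)) (fun _ => range (D + p)) := by
  classical
  set N : ℕ := D + p with hN
  -- the graph inside `T`
  have hadjT : ∀ a b, (cutX G Tᶜ).Adj a b ↔ G.Adj a b ∧ a ∈ T ∧ b ∈ T := by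
    intro a b
    rw [cutX_adj]
    simp
  have hdT : ∀ v, dg (cutX G Tᶜ) v ≤ t := by
    intro v
    refine le_trans ?_ (hT v)
    unfold dg
    apply Finset.card_le_card
    intro w hw
    rw [mem_nb, hadjT] at hw
    rw [mem_filter, mem_nb]
    exact ⟨hw.1, hw.2.2⟩
  -- Step 1: labels of the vertices of `T`
  obtain ⟨g₁, hg11, hg12, hg13⟩ := greedy_vertex (cutX G Tᶜ) (fun _ => 0) N (fun _ => {0})
    (T.erase v₀) (by
      intro v _
      have := hdT v
      rw [card_singleton]
      omega)
  have hg10 : g₁ v₀ = 0 := hg11 v₀ (notMem_erase v₀ T)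
  have hg1lt : ∀ v, g₁ v < N := by
    intro v
    by_cases h : v ∈ T.erase v₀
    · exact (hg12 v h).1
    · rw [hg11 v h]
      omega
  have hg1ne : ∀ a b, a ∈ T → b ∈ T → G.Adj a b → g₁ a ≠ g₁ b := by
    intro a b ha hb hab
    by_cases h : a = v₀
    · have hb0 : b ≠ v₀ := by
        rintro rfl
        exact hab.ne h
      exact (hg13 b (mem_erase.2 ⟨hb0, hb⟩) a ((hadjT b a).2 ⟨hab.symm, hb, ha⟩)).symm
    · exact hg13 a (mem_erase.2 ⟨h, ha⟩) b ((hadjT a b).2 ⟨hab, ha, hb⟩)
  -- Step 2: edges inside `T`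
  obtain ⟨f₀, hf01, hf02, hf03⟩ := hG V (cutX G Tᶜ) t hdT
    (fun a b => range N \ (blk p (g₁ a) ∪ blk p (g₁ b)))
    (fun a b => by rw [union_comm]) (by
      intro a b _
      have h2 := Finset.le_card_sdiff (blk p (g₁ a) ∪ blk p (g₁ b)) (range N)
      have h3 := Finset.card_union_le (blk p (g₁ a)) (blk p (g₁ b))
      have h4 := card_blk p hp (g₁ a)
      have h5 := card_blk p hp (g₁ b)
      rw [card_range] at h2
      omega)
  -- Step 3: edges between `T` and the rest
  set E : Finset (V × V) := univ.filter (fun e => G.Adj e.1 e.2 ∧ e.1 ∉ T ∧ e.2 ∈ T) with hE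
  have hmemE : ∀ e : V × V, e ∈ E ↔ G.Adj e.1 e.2 ∧ e.1 ∉ T ∧ e.2 ∈ T := by
    intro e
    rw [hE, mem_filter]
    simp
  have hhE : ∀ w ∈ T, hh E w + ((nb G w).filter (fun u => u ∈ T)).card = dg G w := by
    intro w hw
    have h2 : hh E w = ((nb G w).filter (fun u => ¬ u ∈ T)).card := by
      unfold hh
      apply Finset.card_bij (fun e _ => e.1)
      · intro e he
        rw [mem_filter, hmemE] at he
        rw [mem_filter, mem_nb, ← he.2]
        exact ⟨he.1.1.symm, he.1.2.1⟩
      · intro e he f hf h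
        rw [mem_filter] at he hf
        exact Prod.ext h (he.2.trans hf.2.symm)
      · intro v hv
        rw [mem_filter, mem_nb] at hv
        refine ⟨(v, w), ?_, rfl⟩
        rw [mem_filter, hmemE]
        exact ⟨⟨hv.1.symm, hv.2, hw⟩, rfl⟩
    rw [h2, add_comm]
    exact Finset.card_filter_add_card_filter_not (s := nb G w) (fun u => u ∈ T)
  obtain ⟨col, hc1, hc2⟩ := bip_list E (by
      intro u
      have h2 : ((E.filter (fun e => e.1 = u)).card) ≤ t := by
        refine le_trans ?_ (hT u)
        apply Finset.card_le_card_of_injOn (fun e => e.2)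
        · intro e he
          rw [mem_coe, mem_filter, hmemE] at he
          rw [mem_coe, mem_filter, mem_nb, ← he.2]
          exact ⟨he.1.1, he.1.2.2⟩
        · intro e he e' he' h
          rw [mem_coe, mem_filter] at he he'
          exact Prod.ext (he.2.trans he'.2.symm) h
      rcases Nat.eq_zero_or_pos t with h0 | h0
      · have h3 : E.filter (fun e => e.1 = u) = ∅ := by
          rw [← Finset.card_eq_zero]
          omega
        rw [h3, sum_empty]
        norm_num
      · have h0' : (0 : ℚ) < t := by exact_mod_cast h0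
        calc ∑ e ∈ E.filter (fun e => e.1 = u), (1 / (hh E e.2 : ℚ))
            ≤ ∑ _e ∈ E.filter (fun e => e.1 = u), (1 / (16 * t) : ℚ) := by
              refine Finset.sum_le_sum fun e he => ?_
              rw [mem_filter, hmemE] at he
              have h3 := hhE e.2 he.1.2.2
              have h4 := hT e.2
              have h5 := hbig e.2 he.1.2.2
              have h6 : 16 * t ≤ hh E e.2 := by omega
              apply one_div_le_one_div_of_le (by positivity)
              exact_mod_cast h6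
          _ = ((E.filter (fun e => e.1 = u)).card : ℚ) * (1 / (16 * t)) := by
              rw [sum_const, nsmul_eq_mul]
          _ ≤ (t : ℚ) * (1 / (16 * t)) := by
              apply mul_le_mul_of_nonneg_right _ (by positivity)
              exact_mod_cast h2
          _ = 1 / 16 := by
              field_simp)
    (fun e => range N \ (((nb G e.2).filter (fun u => u ∈ T)).image (f₀ e.2) ∪ blk p (g₁ e.2))) (by
      intro e he
      rw [hmemE] at he
      have h3 := hhE e.2 he.2.2
      have h4 := Finset.card_image_le (s := (nb G e.2).filter (fun u => u ∈ T)) (f := f₀ e.2)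
      have h5 := Finset.le_card_sdiff
        (((nb G e.2).filter (fun u => u ∈ T)).image (f₀ e.2) ∪ blk p (g₁ e.2)) (range N)
      have h6 := Finset.card_union_le (((nb G e.2).filter (fun u => u ∈ T)).image (f₀ e.2))
        (blk p (g₁ e.2))
      rw [card_range] at h5
      by_cases hev : e.2 = v₀
      · have h7 : (blk p (g₁ e.2)).card ≤ p := by
          rw [hev, hg10]
          exact card_blk_range p
        have h8 : dg G e.2 = D := by rw [hev, hD]
        omega
      · have h7 := card_blk p hp (g₁ e.2)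
        have h8 := hv e.2 hev
        omega)
  -- Step 4: labels of the other vertices
  obtain ⟨g, hg1, hg2, hg3⟩ := greedy_vertex G g₁ N
    (fun v => ((nb G v).filter (fun w => w ∈ T)).biUnion (fun w => blk p (col (v, w)))) Tᶜ (by
      intro v hv'
      rw [mem_compl] at hv'
      have h2 : (((nb G v).filter (fun w => w ∈ T)).biUnion (fun w => blk p (col (v, w)))).card ≤
          ((nb G v).filter (fun w => w ∈ T)).card * (2 * p - 1) := by
        apply Finset.card_biUnion_le_card_mul
        intro w _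
        have := card_blk p hp (col (v, w))
        omega
      have h3 := Nat.mul_le_mul_right (2 * p - 1) (hT v)
      have h4 := hsmall v hv'
      omega)
  have hgT : ∀ v, v ∈ T → g v = g₁ v := by
    intro v hv'
    exact hg1 v (by simpa using hv')
  -- Step 5: the other edges
  set A : V → Finset ℕ := fun a => ((nb G a).filter (fun w => w ∈ T)).image (fun w => col (a, w))
    with hA
  obtain ⟨f₁, hf11, hf12, hf13⟩ := hcol
    (fun a b => range N \ ((blk p (g a) ∪ blk p (g b)) ∪ (A a ∪ A b)))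
    (fun a b => by rw [union_comm (blk p (g a)), union_comm (A a)]) (by
      intro a b _ _ _
      have h2 := Finset.le_card_sdiff ((blk p (g a) ∪ blk p (g b)) ∪ (A a ∪ A b)) (range N)
      have h3 := Finset.card_union_le (blk p (g a) ∪ blk p (g b)) (A a ∪ A b)
      have h4 := Finset.card_union_le (blk p (g a)) (blk p (g b))
      have h5 := Finset.card_union_le (A a) (A b)
      have h6 := card_blk p hp (g a)
      have h7 := card_blk p hp (g b)
      have h8 : (A a).card ≤ t := Finset.card_image_le.trans (hT a)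
      have h9 : (A b).card ≤ t := Finset.card_image_le.trans (hT b)
      rw [card_range] at h2
      omega)
  have hadj1 : ∀ a b, G.Adj a b → a ∉ T → b ∉ T → (cutX G T).Adj a b := by
    intro a b hab ha hb
    exact (cutX_adj G T a b).2 ⟨hab, ha, hb⟩
  have hcE : ∀ a b, G.Adj a b → a ∉ T → b ∈ T → (a, b) ∈ E := by
    intro a b hab ha hb
    exact (hmemE (a, b)).2 ⟨hab, ha, hb⟩
  have hcL : ∀ a b, G.Adj a b → a ∉ T → b ∈ T → col (a, b) < N ∧
      (∀ d, G.Adj b d → d ∈ T → col (a, b) ≠ f₀ b d) ∧ col (a, b) ∉ blk p (g₁ b) := by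
    intro a b hab ha hb
    have h2 := hc1 (a, b) (hcE a b hab ha hb)
    rw [mem_sdiff, mem_union, not_or, mem_range] at h2
    refine ⟨h2.1, ?_, h2.2.2⟩
    intro d hbd hd he
    apply h2.2.1
    rw [he]
    exact mem_image_of_mem _ (mem_filter.2 ⟨(mem_nb G b d).2 hbd, hd⟩)
  have hf1L : ∀ a b, G.Adj a b → a ∉ T → b ∉ T → f₁ a b < N ∧ f₁ a b ∉ blk p (g a) ∧
      f₁ a b ∉ A a := by
    intro a b hab ha hb
    have h2 := hf12 a b (hadj1 a b hab ha hb)
    simp only [mem_sdiff, mem_union, not_or, mem_range] at h2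
    exact ⟨h2.1, h2.2.1.1, h2.2.2.1⟩
  have hf0L : ∀ a b, G.Adj a b → a ∈ T → b ∈ T → f₀ a b < N ∧ f₀ a b ∉ blk p (g₁ a) := by
    intro a b hab ha hb
    have h2 := hf02 a b ((hadjT a b).2 ⟨hab, ha, hb⟩)
    simp only [mem_sdiff, mem_union, not_or, mem_range] at h2
    exact ⟨h2.1, h2.2.1⟩
  refine ⟨fun a b => if a ∈ T then (if b ∈ T then f₀ a b else col (b, a)) else
    (if b ∈ T then col (a, b) else f₁ a b), g, ?_, ?_, ?_, ?_, ?_, ?_⟩
  · intro a b hab
    simp only
    by_cases ha : a ∈ T
    · by_cases hb : b ∈ T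
      · rw [if_pos ha, if_pos hb, if_pos hb, if_pos ha]
        exact hf01 a b ((hadjT a b).2 ⟨hab, ha, hb⟩)
      · rw [if_pos ha, if_neg hb, if_neg hb, if_pos ha]
    · by_cases hb : b ∈ T
      · rw [if_neg ha, if_pos hb, if_pos hb, if_neg ha]
      · rw [if_neg ha, if_neg hb, if_neg hb, if_neg ha]
        exact hf11 a b (hadj1 a b hab ha hb)
  · intro a b hab
    simp only
    rw [mem_range]
    by_cases ha : a ∈ T
    · by_cases hb : b ∈ T
      · rw [if_pos ha, if_pos hb]
        exact (hf0L a b hab ha hb).1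
      · rw [if_pos ha, if_neg hb]
        exact (hcL b a hab.symm hb ha).1
    · by_cases hb : b ∈ T
      · rw [if_neg ha, if_pos hb]
        exact (hcL a b hab ha hb).1
      · rw [if_neg ha, if_neg hb]
        exact (hf1L a b hab ha hb).1
  · intro a b d hab had hbd
    simp only
    by_cases ha : a ∈ T
    · rw [if_pos ha, if_pos ha]
      by_cases hb : b ∈ T
      · rw [if_pos hb]
        by_cases hd : d ∈ T
        · rw [if_pos hd]
          exact hf03 a b d ((hadjT a b).2 ⟨hab, ha, hb⟩) ((hadjT a d).2 ⟨had, ha, hd⟩) hbd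
        · rw [if_neg hd]
          exact ((hcL d a had.symm hd ha).2.1 b hab hb).symm
      · rw [if_neg hb]
        by_cases hd : d ∈ T
        · rw [if_pos hd]
          exact (hcL b a hab.symm hb ha).2.1 d had hd
        · rw [if_neg hd]
          apply hc2 _ (hcE b a hab.symm hb ha) _ (hcE d a had.symm hd ha)
          · intro h
            exact hbd (Prod.ext_iff.1 h).1
          · right
            rfl
    · rw [if_neg ha, if_neg ha]
      by_cases hb : b ∈ T
      · rw [if_pos hb]
        by_cases hd : d ∈ T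
        · rw [if_pos hd]
          apply hc2 _ (hcE a b hab ha hb) _ (hcE a d had ha hd)
          · intro h
            exact hbd (Prod.ext_iff.1 h).2
          · left
            rfl
        · rw [if_neg hd]
          intro he
          apply (hf1L a d had ha hd).2.2
          rw [← he]
          exact mem_image_of_mem _ (mem_filter.2 ⟨(mem_nb G a b).2 hab, hb⟩)
      · rw [if_neg hb]
        by_cases hd : d ∈ T
        · rw [if_pos hd]
          intro he
          apply (hf1L a b hab ha hb).2.2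
          rw [he]
          exact mem_image_of_mem _ (mem_filter.2 ⟨(mem_nb G a d).2 had, hd⟩)
        · rw [if_neg hd]
          exact hf13 a b d (hadj1 a b hab ha hb) (hadj1 a d had ha hd) hbd
  · intro a
    simp only
    rw [mem_range]
    by_cases ha : a ∈ T
    · rw [hgT a ha]
      exact hg1lt a
    · exact (hg2 a (by simpa using ha)).1
  · intro a b hab
    by_cases ha : a ∈ T
    · by_cases hb : b ∈ T
      · rw [hgT a ha, hgT b hb]
        exact hg1ne a b ha hb hab
      · exact (hg3 b (by simpa using hb) a hab.symm).symm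
    · exact hg3 a (by simpa using ha) b hab
  · intro a b hab
    simp only
    by_cases ha : a ∈ T
    · rw [if_pos ha, hgT a ha]
      by_cases hb : b ∈ T
      · rw [if_pos hb]
        exact (far_of_notMem (hf0L a b hab ha hb).2).symm
      · rw [if_neg hb]
        exact (far_of_notMem (hcL b a hab.symm hb ha).2.2).symm
    · rw [if_neg ha]
      by_cases hb : b ∈ T
      · rw [if_pos hb]
        apply far_of_notMem
        intro h
        apply (hg2 a (by simpa using ha)).2
        rw [mem_biUnion]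
        exact ⟨b, mem_filter.2 ⟨(mem_nb G a b).2 hab, hb⟩, h⟩
      · rw [if_neg hb]
        exact (far_of_notMem (hf1L a b hab ha hb).2.1).symm

/-- `Lam` is unbounded and `o(n^(2/3))` -/
theorem num (K : ℝ) (hK : 0 < K) : ∃ n₀ : ℕ, ∀ n : ℕ, n₀ ≤ n → K ≤ Lam n ∧
    K * Lam n ≤ (n : ℝ) ^ (2 / 3 : ℝ) := by
  have h1 : ∀ᶠ x : ℝ in Filter.atTop, ‖Real.log x‖ ≤ (1 / K ^ 2) * ‖x ^ (1 / 3 : ℝ)‖ :=
    (isLittleO_log_rpow_atTop (by norm_num : (0 : ℝ) < 1 / 3)).bound (by positivity)
  have h2 : ∀ᶠ n : ℕ in Filter.atTop, ‖Real.log (n : ℝ)‖ ≤ (1 / K ^ 2) * ‖(n : ℝ) ^ (1 / 3 : ℝ)‖ :=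
    tendsto_natCast_atTop_atTop.eventually h1
  have h3 : ∀ᶠ n : ℕ in Filter.atTop, K ^ 2 ≤ (n : ℝ) :=
    tendsto_natCast_atTop_atTop.eventually (Filter.eventually_ge_atTop (K ^ 2))
  obtain ⟨n₀, hn₀⟩ := Filter.eventually_atTop.1 (h2.and (h3.and (Filter.eventually_ge_atTop 3)))
  refine ⟨n₀, fun n hn => ?_⟩
  obtain ⟨h4, h5, h6⟩ := hn₀ n hn
  have hn3 : (3 : ℝ) ≤ n := by exact_mod_cast h6
  have hn0 : (0 : ℝ) < n := by linarith
  have hlog1 : 1 ≤ Real.log n := by
    rw [Real.le_log_iff_exp_le hn0]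
    have := Real.exp_one_lt_d9
    linarith
  constructor
  · unfold Lam
    apply Real.le_sqrt_of_sq_le
    nlinarith
  · have h7 : 0 < (n : ℝ) ^ (1 / 3 : ℝ) := Real.rpow_pos_of_pos hn0 _
    rw [Real.norm_of_nonneg (by linarith), Real.norm_of_nonneg h7.le] at h4
    unfold Lam
    have h8 : K ^ 2 * Real.log n ≤ (n : ℝ) ^ (1 / 3 : ℝ) := by
      calc K ^ 2 * Real.log n ≤ K ^ 2 * (1 / K ^ 2 * (n : ℝ) ^ (1 / 3 : ℝ)) :=
            mul_le_mul_of_nonneg_left h4 (by positivity)
        _ = (n : ℝ) ^ (1 / 3 : ℝ) := by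
            field_simp
    have h9 : (K * Real.sqrt (n * Real.log n)) ^ 2 ≤ ((n : ℝ) ^ (2 / 3 : ℝ)) ^ 2 := by
      rw [mul_pow, Real.sq_sqrt (by positivity), ← Real.rpow_natCast ((n : ℝ) ^ (2 / 3 : ℝ)),
        ← Real.rpow_mul hn0.le]
      have h10 : (n : ℝ) ^ (2 / 3 * ((2 : ℕ) : ℝ)) = n * (n : ℝ) ^ (1 / 3 : ℝ) := by
        rw [show (2 / 3 * ((2 : ℕ) : ℝ) : ℝ) = 1 + 1 / 3 by norm_num, Real.rpow_add hn0,
          Real.rpow_one]
      rw [h10]
      nlinarith
    exact le_of_sq_le_sq h9 (Real.rpow_nonneg hn0.le _)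

end EX

open EX

theorem EX_of (hD : T_D) (hG : T_GR) : T_EX := by
  intro p hp ε hε
  have hp' : (1 : ℝ) ≤ p := by exact_mod_cast hp
  obtain ⟨n₁, hn₁⟩ := hD (ε / 2) (by positivity)
  obtain ⟨n₂, hn₂⟩ := num (16 * p * (1 / ε + ε)) (by positivity)
  refine ⟨max n₁ n₂, fun n hn G D v₀ hv₀ hv hnD hcnt => ?_⟩
  classical
  have hn1 := hn₁ n ((le_max_left _ _).trans hn)
  obtain ⟨hL1, hL2⟩ := hn₂ n ((le_max_right _ _).trans hn)
  set Λ : ℝ := Lam n with hΛ
  have hΛ0 : 0 ≤ Λ := by
    rw [hΛ]
    unfold Lam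
    positivity
  -- the consequences
  have hb1 : 16 * p ≤ ε * Λ := by
    have h1 : 16 * p * (1 / ε) ≤ Λ := by
      refine le_trans ?_ hL1
      have : 0 ≤ 16 * (p : ℝ) * ε := by positivity
      nlinarith
    have h2 := mul_le_mul_of_nonneg_left h1 hε.le
    have h3 : ε * (16 * p * (1 / ε)) = 16 * p := by
      field_simp
    linarith
  have hb2 : 16 * (ε * Λ) ≤ D := by
    have h1 : 16 * ε * Λ ≤ 16 * p * (1 / ε + ε) * Λ := by
      apply mul_le_mul_of_nonneg_right _ hΛ0
      have h2 : 0 ≤ 1 / ε := by positivity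
      nlinarith
    linarith
  have hεΛ : 0 < ε * Λ := by
    have : (0 : ℝ) < 16 * p := by positivity
    linarith
  set τ : ℝ := ε / (8 * p) * Λ with hτ
  have hτ0 : 0 ≤ τ := by positivity
  have hτp : 8 * p * τ = ε * Λ := by
    rw [hτ]
    field_simp
  set t : ℕ := ⌊τ⌋₊ with ht
  have ht1 : (t : ℝ) ≤ τ := Nat.floor_le hτ0
  set T : Finset (Fin n) := univ.filter (fun w => (D : ℝ) - ε * Λ < dg G w) with hT
  have hmemT : ∀ w, w ∈ T ↔ (D : ℝ) - ε * Λ < dg G w := by
    intro w
    rw [hT, mem_filter]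
    simp
  have hτ8 : 8 * τ ≤ ε * Λ := by nlinarith
  apply ex_core hG p hp G T D t v₀ hv₀ hv
  · intro v
    apply Nat.le_floor
    refine le_trans (le_of_eq ?_) (hcnt v)
    rw [cnt_eq_card]
    congr 2
    ext w
    simp only [mem_filter, mem_nb, hmemT, mem_univ, true_and]
  · intro w hw
    rw [hmemT] at hw
    have h1 : (17 : ℝ) * t ≤ dg G w := by linarith
    exact_mod_cast h1
  · have h1 : (2 : ℝ) * t + 4 * p ≤ D := by linarith
    exact_mod_cast h1
  · intro v hvT
    rw [hmemT, not_lt] at hvT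
    have h2 : ((2 * p - 1 : ℕ) : ℝ) ≤ 2 * p := by
      have : 2 * p - 1 ≤ 2 * p := Nat.sub_le _ _
      exact_mod_cast this
    have h3 : (t : ℝ) * ((2 * p - 1 : ℕ) : ℝ) ≤ τ * (2 * p) :=
      mul_le_mul ht1 h2 (Nat.cast_nonneg _) hτ0
    have h1 : (dg G v : ℝ) + t * ((2 * p - 1 : ℕ) : ℝ) < D + p := by
      nlinarith
    exact_mod_cast h1
  · intro L hLsym hL
    have hd0 : 0 ≤ (D : ℝ) - ε * Λ := by linarith
    have hLC := hn1 ⌊(D : ℝ) - ε * Λ⌋₊ (cutX G T) ?_ (fun a b => if a ∈ T ∨ b ∈ T then ∅ else L a b) ?_ ?_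
    · obtain ⟨f, hf1, hf2, hf3⟩ := hLC
      refine ⟨f, hf1, ?_, hf3⟩
      intro a b hab
      have h1 := hf2 a b hab
      have h2 := (cutX_adj G T a b).1 hab
      simp only at h1
      rw [if_neg (by tauto)] at h1
      exact h1
    · intro v
      by_cases hvT : v ∈ T
      · have h1 : dg (cutX G T) v = 0 := by
          unfold dg
          rw [card_eq_zero, eq_empty_iff_forall_notMem]
          intro w hw
          rw [mem_nb, cutX_adj] at hw
          exact hw.2.1 hvT
        rw [h1]
        exact Nat.zero_le _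
      · apply Nat.le_floor
        rw [hmemT, not_lt] at hvT
        refine le_trans ?_ hvT
        have h1 := dg_mono (G := G) (H := cutX G T) (fun a b h => ((cutX_adj G T a b).1 h).1) v
        exact_mod_cast h1
    · intro a b
      simp only [or_comm, hLsym a b]
    · intro a b hab
      have h2 := (cutX_adj G T a b).1 hab
      rw [if_neg (by tauto)]
      have h3 := hL a b h2.1 h2.2.1 h2.2.2
      have h4 : (D : ℝ) + p ≤ (L a b).card + 2 * ((2 * p - 1 : ℕ) : ℝ) + 2 * t := by
        exact_mod_cast h3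
      have h5 : ((2 * p - 1 : ℕ) : ℝ) ≤ 2 * p := by
        have : 2 * p - 1 ≤ 2 * p := Nat.sub_le _ _
        exact_mod_cast this
      have h6 : ((⌊(D : ℝ) - ε * Λ⌋₊ : ℕ) : ℝ) ≤ D - ε * Λ := Nat.floor_le hd0
      linarith

end Pool.Agent.H162R2.AG
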