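import Pool.Agent.H162R2.AG.Stmts
import Pool.Agent.H162R2.Sparse.Final
import Pool.Agent.H162R2.LEC.Circ

/-!
# Final forms
-/

set_option autoImplicit false

namespace Pool.Agent.H162R2.AG

open Finset Pool.Agent.H162R2.Sparse Pool.Agent.H921R2.LEC

/-- the list edge colouring conjecture for one graph, in the form of the frozen statement -/
def LECC {V : Type} (G : SimpleGraph V) : Prop :=
  ∀ k : ℕ, G.lineGraph.Colorable k ↔
    ∀ L : G.edgeSet → Finset ℕ, (∀ e, k ≤ (L e).card) →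
      ∃ f : G.edgeSet → ℕ, (∀ e, f e ∈ L e) ∧
        ∀ e e', G.lineGraph.Adj e e' → f e ≠ f e'

theorem lecc_of_LC (n : ℕ) (hn : 0 < n) (G : SimpleGraph (Fin n))
    (h : ∀ D : ℕ, (∀ v, dg G v ≤ D) →
      ∀ L : Fin n → Fin n → Finset ℕ, (∀ a b, L a b = L b a) →
      (∀ a b, G.Adj a b → D ≤ (L a b).card) → LC G L) : LECC G := by
  classical
  intro k
  haveI : Nonempty (Fin n) := ⟨⟨0, hn⟩⟩
  obtain ⟨v, hv⟩ := Finite.exists_max (fun v : Fin n => dg G v)
  have hch : Choosable G (dg G v) := choosable_of_LC G (dg G v) (fun L hs hL => h (dg G v) hv L hs hL)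
  exact Pool.Agent.H162R2.LEC.listEdge_of_embed G (dg G v) hch G id Function.injective_id
    (fun _ _ h => h) v (by rw [dg_eq_ncard]) k

theorem almost_all (h : T_AA) : Filter.Tendsto (fun n : ℕ =>
    ({G : SimpleGraph (Fin n) | LECC G}.ncard : ℝ) / (Nat.card (SimpleGraph (Fin n)) : ℝ))
    Filter.atTop (nhds 1) := by
  classical
  rw [Metric.tendsto_atTop]
  intro ε hε
  obtain ⟨n₀, hn₀⟩ := h (ε / 2) (by linarith)
  refine ⟨max n₀ 1, fun n hn => ?_⟩
  have h1 := hn₀ n ((le_max_left _ _).trans hn)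
  have hn1 : 0 < n := (le_max_right n₀ 1).trans hn
  have hcard : (0 : ℝ) < Fintype.card (SimpleGraph (Fin n)) := by
    exact_mod_cast Fintype.card_pos
  have h2 : cnt (fun G : SimpleGraph (Fin n) => ¬ LECC G) ≤
      ε / 2 * Fintype.card (SimpleGraph (Fin n)) := by
    refine le_trans (cnt_mono ?_) h1
    intro G hG hcon
    exact hG (lecc_of_LC n hn1 G hcon)
  have h3 := cnt_not (fun G : SimpleGraph (Fin n) => LECC G)
  have h4 : ({G : SimpleGraph (Fin n) | LECC G}.ncard : ℝ) =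
      cnt (fun G : SimpleGraph (Fin n) => LECC G) := by
    unfold cnt
    rw [← Set.ncard_coe_finset]
    congr 2
    ext G
    simp
  rw [h4, Nat.card_eq_fintype_card, Real.dist_eq, abs_lt]
  have h5 : cnt (fun G : SimpleGraph (Fin n) => LECC G) / Fintype.card (SimpleGraph (Fin n)) =
      1 - cnt (fun G : SimpleGraph (Fin n) => ¬ LECC G) / Fintype.card (SimpleGraph (Fin n)) := by
    rw [eq_sub_iff_add_eq, ← add_div, h3, div_self hcard.ne']
  rw [h5]
  have h6 : cnt (fun G : SimpleGraph (Fin n) => ¬ LECC G) / Fintype.card (SimpleGraph (Fin n)) ≤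
      ε / 2 := by
    rw [div_le_iff₀ hcard]
    exact h2
  have h7 : 0 ≤ cnt (fun G : SimpleGraph (Fin n) => ¬ LECC G) /
      Fintype.card (SimpleGraph (Fin n)) := div_nonneg (cnt_nonneg _) hcard.le
  constructor <;> linarith

end Pool.Agent.H162R2.AG
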