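import Pool.Agent.H162R2.AG.Stmts3
import Mathlib

/-!
# Task G3 (helper837): in almost all graphs one vertex has a degree which exceeds the others by `g`
-/

set_option autoImplicit false

namespace Pool.Agent.H162R2.AG

open Finset Pool.Agent.H162R2.Sparse

namespace G3P

open Classical in
/-- tail of the size of a subset -/
theorem tail (h1 : T_P1) {n : ℕ} (hn : 1 ≤ n) (B : Finset (Fin n)) (c : ℝ) (hc : 0 ≤ c) :
    ((B.powerset.filter (fun s => (B.card : ℝ) / 2 + c * Lam n ≤ s.card)).card : ℝ) ≤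
      2 * (n : ℝ) ^ (-(2 * c ^ 2)) * 2 ^ B.card := by
  have hn0 : (0 : ℝ) < n := by exact_mod_cast hn
  have hcard : B.card ≤ n := (Finset.card_le_univ B).trans (by simp)
  have hcardR : (B.card : ℝ) ≤ n := by exact_mod_cast hcard
  have hL0 : 0 ≤ Lam n := Real.sqrt_nonneg _
  have hlog : 0 ≤ Real.log n := Real.log_nonneg (by exact_mod_cast hn)
  have hLsq : Lam n ^ 2 = n * Real.log n := Real.sq_sqrt (mul_nonneg hn0.le hlog)
  have h2 := h1 (↥B) (fun _ => 1) n (2 * c * Lam n) hn0 (by positivity) (by simpa using hcardR)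
  have h3 : ((B.powerset.filter (fun s => (B.card : ℝ) / 2 + c * Lam n ≤ s.card)).card : ℝ) ≤
      cnt (fun χ : ↥B → Bool => 2 * c * Lam n ≤ |∑ i, (1 : ℝ) * sg (χ i)|) := by
    unfold cnt
    refine Nat.cast_le.2 ?_
    refine Finset.card_le_card_of_injOn (fun s => fun i : ↥B => decide (i.1 ∈ s)) ?_ ?_
    · intro s hs
      obtain ⟨hs1, hs2⟩ := Finset.mem_filter.1 (Finset.mem_coe.1 hs)
      have hs3 := Finset.mem_powerset.1 hs1
      refine Finset.mem_coe.2 (Finset.mem_filter.2 ⟨Finset.mem_univ _, ?_⟩)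
      have h4 : ∑ i : ↥B, (1 : ℝ) * sg (decide (i.1 ∈ s)) = 2 * s.card - B.card := by
        have h5 : ∑ i : ↥B, (1 : ℝ) * sg (decide (i.1 ∈ s)) =
            ∑ i ∈ B, (2 * (if i ∈ s then (1 : ℝ) else 0) - 1) := by
          rw [← Finset.sum_coe_sort B]
          refine Finset.sum_congr rfl fun i _ => ?_
          by_cases hi : i.1 ∈ s
          · simp [sg, hi]; norm_num
          · simp [sg, hi]
        rw [h5, Finset.sum_sub_distrib, ← Finset.mul_sum, Finset.sum_boole,
          Finset.filter_mem_eq_inter, Finset.inter_eq_right.2 hs3]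
        simp
      change 2 * c * Lam n ≤ |∑ i : ↥B, (1 : ℝ) * sg (decide (i.1 ∈ s))|
      rw [h4]
      refine le_trans ?_ (le_abs_self _)
      linarith
    · intro s hs s' hs' h
      have hs1 := Finset.mem_powerset.1 (Finset.mem_filter.1 (Finset.mem_coe.1 hs)).1
      have hs1' := Finset.mem_powerset.1 (Finset.mem_filter.1 (Finset.mem_coe.1 hs')).1
      ext i
      by_cases hi : i ∈ B
      · have h4 := congrFun h ⟨i, hi⟩
        simpa using h4
      · exact ⟨fun h4 => absurd (hs1 h4) hi, fun h4 => absurd (hs1' h4) hi⟩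
  refine h3.trans (h2.trans (le_of_eq ?_))
  have h6 : -((2 * c * Lam n) ^ 2) / (2 * n) = Real.log n * (-(2 * c ^ 2)) := by
    rw [mul_pow, hLsq]
    field_simp
  rw [h6, Real.rpow_def_of_pos hn0, Fintype.card_coe]

theorem choose_anti (m a b : ℕ) (h : m ≤ 2 * a) (hab : a ≤ b) : m.choose b ≤ m.choose a := by
  induction b, hab using Nat.le_induction with
  | base => exact le_rfl
  | succ b hb ih =>
    refine le_trans ?_ ih
    have h1 := Nat.choose_succ_right_eq m b
    have h2 : m - b ≤ b + 1 := by omega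
    have h3 : m.choose (b + 1) * (b + 1) ≤ m.choose b * (b + 1) := by
      rw [h1]
      exact Nat.mul_le_mul_left _ h2
    exact Nat.le_of_mul_le_mul_right h3 (Nat.succ_pos b)

open Classical in
/-- the point probabilities are small -/
theorem point {n : ℕ} (B : Finset (Fin n)) (y r : ℕ) (hr : r ≤ y) (h : B.card ≤ 2 * (y - r)) :
    r * (B.card).choose y ≤ (B.powerset.filter (fun s => y - r ≤ s.card)).card := by
  have h1 : r * (B.card).choose y ≤ ∑ i ∈ range r, (B.card).choose (y - i) := by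
    have h2 := Finset.card_nsmul_le_sum (range r) (fun i => (B.card).choose (y - i))
      ((B.card).choose y) (by
        intro i hi
        rw [mem_range] at hi
        exact choose_anti _ _ _ (by omega) (by omega))
    rwa [card_range, smul_eq_mul] at h2
  refine h1.trans ?_
  have h3 : ∑ i ∈ range r, (B.card).choose (y - i) =
      ((range r).biUnion (fun i => powersetCard (y - i) B)).card := by
    rw [card_biUnion]
    · apply sum_congr rfl
      intro i _
      rw [card_powersetCard]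
    · intro i hi j hj hij
      rw [mem_coe, mem_range] at hi hj
      rw [Function.onFun, disjoint_left]
      intro s hs hs'
      rw [mem_powersetCard] at hs hs'
      apply hij
      omega
  rw [h3]
  apply card_le_card
  intro s hs
  rw [mem_biUnion] at hs
  obtain ⟨i, hi, hs⟩ := hs
  rw [mem_range] at hi
  rw [mem_powersetCard] at hs
  rw [mem_filter, mem_powerset]
  exact ⟨hs.1, by omega⟩

open Classical in
/-- the event for one ordered pair -/
theorem pair (h0 : T_G0) {n : ℕ} (u v : Fin n) (huv : u ≠ v) (g : ℕ) (T b1 pm : ℝ)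
    (hb : ((({u, v} : Finset (Fin n))ᶜ.powerset.filter (fun s => T ≤ (s.card : ℝ))).card : ℝ) ≤
      b1 * 2 ^ (({u, v} : Finset (Fin n))ᶜ).card)
    (hpm0 : 0 ≤ pm)
    (hpm : ∀ y : ℕ, T ≤ (y : ℝ) + g → (((({u, v} : Finset (Fin n))ᶜ).card.choose y : ℕ) : ℝ) ≤
      pm * 2 ^ (({u, v} : Finset (Fin n))ᶜ).card) :
    cnt (fun G : SimpleGraph (Fin n) => T ≤ ((nb G u \ {u, v}).card : ℝ) ∧
      (nb G v \ {u, v}).card ≤ (nb G u \ {u, v}).card ∧
      (nb G u \ {u, v}).card < (nb G v \ {u, v}).card + g) ≤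
      b1 * (g * pm) * Fintype.card (SimpleGraph (Fin n)) := by
  set A : Finset (Fin n) := {u, v} with hA
  set m : ℕ := (Aᶜ).card with hm
  set N : ℝ := (Fintype.card (SimpleGraph (Fin n)) : ℝ) with hN
  have hN0 : 0 ≤ N := by positivity
  have hAcard : A.card = 2 := card_pair huv
  have h2m : (0 : ℝ) < 2 ^ m := by positivity
  set X : Finset ℕ := (range (n + 1)).filter (fun x => T ≤ (x : ℝ)) with hX
  have hsub : cnt (fun G : SimpleGraph (Fin n) => T ≤ ((nb G u \ A).card : ℝ) ∧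
      (nb G v \ A).card ≤ (nb G u \ A).card ∧ (nb G u \ A).card < (nb G v \ A).card + g) ≤
      cnt (fun G : SimpleGraph (Fin n) => ∃ p ∈ X ×ˢ range g,
        (nb G u \ A).card = p.1 ∧ (nb G v \ A).card + p.2 = p.1) := by
    apply cnt_mono
    rintro G ⟨h2, h3, h4⟩
    refine ⟨((nb G u \ A).card, (nb G u \ A).card - (nb G v \ A).card), ?_, rfl, ?_⟩
    · rw [mem_product, hX, mem_filter, mem_range, mem_range]
      refine ⟨⟨?_, h2⟩, ?_⟩
      · have : (nb G u \ A).card ≤ n := (Finset.card_le_univ _).trans (by simp)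
        omega
      · show (nb G u \ A).card - (nb G v \ A).card < g
        omega
    · show (nb G v \ A).card + ((nb G u \ A).card - (nb G v \ A).card) = (nb G u \ A).card
      omega
  refine hsub.trans ((cnt_exists_le _ _).trans ?_)
  have hterm : ∀ p ∈ X ×ˢ range g, cnt (fun G : SimpleGraph (Fin n) =>
      (nb G u \ A).card = p.1 ∧ (nb G v \ A).card + p.2 = p.1) ≤
      N * (((m.choose p.1 : ℕ) : ℝ) / 2 ^ m) * pm := by
    rintro ⟨x, j⟩ hp
    rw [mem_product, hX, mem_filter, mem_range, mem_range] at hp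
    obtain ⟨⟨hx1, hx2⟩, hj⟩ := hp
    simp only at hx1 hx2 hj ⊢
    have h2 := h0 n A (fun w s => if w = u then s.card = x else s.card + j = x)
    rw [← hm, hAcard, ← hN] at h2
    have h3 : (fun G : SimpleGraph (Fin n) => ∀ w ∈ A,
        (if w = u then (nb G w \ A).card = x else (nb G w \ A).card + j = x)) =
        (fun G : SimpleGraph (Fin n) => (nb G u \ A).card = x ∧ (nb G v \ A).card + j = x) := by
      funext G
      apply propext
      rw [hA]
      constructor
      · intro h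
        have a1 := h u (mem_insert_self _ _)
        have a2 := h v (mem_insert_of_mem (mem_singleton_self _))
        rw [if_pos rfl] at a1
        rw [if_neg huv.symm] at a2
        exact ⟨a1, a2⟩
      · rintro ⟨a1, a2⟩ w hw
        rw [mem_insert, mem_singleton] at hw
        rcases hw with rfl | rfl
        · rw [if_pos rfl]; exact a1
        · rw [if_neg huv.symm]; exact a2
    rw [h3] at h2
    rw [hA, prod_pair huv, ← hA] at h2
    have h4 : (((Aᶜ).powerset.filter (fun s => if u = u then s.card = x else s.card + j = x)).card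
        : ℝ) = ((m.choose x : ℕ) : ℝ) := by
      rw [hm, ← card_powersetCard, powersetCard_eq_filter]
      congr 2
      ext s
      simp
    have h5 : (((Aᶜ).powerset.filter (fun s => if v = u then s.card = x else s.card + j = x)).card
        : ℝ) ≤ pm * 2 ^ m := by
      by_cases hjx : j ≤ x
      · refine le_trans (le_of_eq ?_) (hpm (x - j) (by
          rw [Nat.cast_sub hjx]
          have : (j : ℝ) ≤ g := by exact_mod_cast hj.le
          linarith))
        rw [← card_powersetCard, powersetCard_eq_filter]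
        congr 2
        ext s
        simp only [mem_filter, mem_powerset, if_neg huv.symm]
        constructor
        · rintro ⟨a1, a2⟩; exact ⟨a1, by omega⟩
        · rintro ⟨a1, a2⟩; exact ⟨a1, by omega⟩
      · have : ((Aᶜ).powerset.filter
            (fun s => if v = u then s.card = x else s.card + j = x)) = ∅ := by
          apply filter_false_of_mem
          intro s _
          rw [if_neg huv.symm]
          omega
        rw [this]
        simp only [card_empty, Nat.cast_zero]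
        positivity
    have h6 : cnt (fun G : SimpleGraph (Fin n) => (nb G u \ A).card = x ∧
        (nb G v \ A).card + j = x) * (2 ^ m) ^ 2 ≤ N * (((m.choose x : ℕ) : ℝ) * (pm * 2 ^ m)) := by
      rw [h2]
      apply mul_le_mul_of_nonneg_left _ hN0
      have h7 : ((((Aᶜ).powerset.filter
        (fun s => if u = u then s.card = x else s.card + j = x)).card : ℕ) : ℝ) *
        ((((Aᶜ).powerset.filter
        (fun s => if v = u then s.card = x else s.card + j = x)).card : ℕ) : ℝ) ≤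
        ((m.choose x : ℕ) : ℝ) * (pm * 2 ^ m) := by
        rw [h4]
        exact mul_le_mul_of_nonneg_left h5 (by positivity)
      refine le_trans (le_of_eq ?_) h7
      congr!
    have h8 : N * (((m.choose x : ℕ) : ℝ) / 2 ^ m) * pm * (2 ^ m) ^ 2 =
        N * (((m.choose x : ℕ) : ℝ) * (pm * 2 ^ m)) := by
      have h2m' : (2 : ℝ) ^ m ≠ 0 := h2m.ne'
      calc N * (((m.choose x : ℕ) : ℝ) / 2 ^ m) * pm * (2 ^ m) ^ 2 =
          N * (((m.choose x : ℕ) : ℝ) / 2 ^ m * 2 ^ m) * (pm * 2 ^ m) := by ring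
        _ = N * (((m.choose x : ℕ) : ℝ) * (pm * 2 ^ m)) := by
          rw [div_mul_cancel₀ _ h2m']; ring
    rw [← h8] at h6
    exact le_of_mul_le_mul_right h6 (by positivity)
  refine (sum_le_sum hterm).trans ?_
  rw [sum_product]
  simp only [sum_const, card_range, nsmul_eq_mul]
  rw [← mul_sum, ← sum_mul, ← mul_sum, ← sum_div]
  have hsumX : ∑ x ∈ X, ((m.choose x : ℕ) : ℝ) ≤ b1 * 2 ^ m := by
    refine le_trans (le_of_eq ?_) hb
    rw [← Nat.cast_sum]
    congr 1
    rw [← sum_congr rfl (fun x _ => card_powersetCard x (Aᶜ)), ← card_biUnion]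
    · congr 1
      ext s
      simp only [mem_biUnion, mem_powersetCard, mem_filter, mem_powerset, hX, mem_range]
      constructor
      · rintro ⟨x, ⟨_, hx2⟩, hs, hsx⟩
        exact ⟨hs, by rw [hsx]; exact hx2⟩
      · rintro ⟨hs, hT⟩
        refine ⟨s.card, ⟨?_, hT⟩, hs, rfl⟩
        have : s.card ≤ n := (Finset.card_le_univ _).trans (by simp)
        omega
    · intro x _ y _ hxy
      rw [Function.onFun, disjoint_left]
      intro s hs hs'
      rw [mem_powersetCard] at hs hs'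
      exact hxy (hs.2.symm.trans hs'.2)
  have h9 : (∑ x ∈ X, ((m.choose x : ℕ) : ℝ)) / 2 ^ m ≤ b1 := by
    rw [div_le_iff₀ h2m]
    exact hsumX
  calc (g : ℝ) * (N * ((∑ x ∈ X, ((m.choose x : ℕ) : ℝ)) / 2 ^ m) * pm)
      ≤ (g : ℝ) * (N * b1 * pm) := by gcongr
    _ = b1 * (g * pm) * N := by ring

theorem ev (g : ℕ) (δ : ℝ) (hδ : 0 < δ) : ∀ᶠ n : ℕ in Filter.atTop,
    4 ≤ n ∧ (g : ℝ) + Real.sqrt n ≤ 5 / 1000 * Lam n ∧
      16 * g ≤ δ * (n : ℝ) ^ (12565 / 100000 : ℝ) := by
  have t1 : Filter.Tendsto (fun n : ℕ => (n : ℝ) ^ (12565 / 100000 : ℝ)) Filter.atTop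
      Filter.atTop := (tendsto_rpow_atTop (by norm_num)).comp tendsto_natCast_atTop_atTop
  have t2 := (Real.tendsto_log_atTop.comp tendsto_natCast_atTop_atTop).eventually_ge_atTop
    (160000 : ℝ)
  filter_upwards [Filter.eventually_ge_atTop 4, Filter.eventually_ge_atTop (g ^ 2), t2,
    t1.eventually_ge_atTop (16 * g / δ)] with n h4 hg2 hlog hr
  have hlog' : 160000 ≤ Real.log n := hlog
  refine ⟨h4, ?_, ?_⟩
  · have h5 : (g : ℝ) ≤ Real.sqrt n := by
      apply Real.le_sqrt_of_sq_le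
      exact_mod_cast hg2
    have h6 : (400 : ℝ) ≤ Real.sqrt (Real.log n) := by
      apply Real.le_sqrt_of_sq_le
      linarith
    have h7 : Lam n = Real.sqrt n * Real.sqrt (Real.log n) := by
      unfold Lam
      rw [Real.sqrt_mul (by positivity)]
    rw [h7]
    have h8 : 0 ≤ Real.sqrt n := Real.sqrt_nonneg _
    nlinarith
  · rw [div_le_iff₀ hδ] at hr
    linarith

open Classical in
theorem sdiff_card_le {n : ℕ} (G : SimpleGraph (Fin n)) (u v : Fin n) :
    (nb G u \ {u, v}).card + (if G.Adj u v then 1 else 0) = dg G u := by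
  unfold dg
  rw [← Finset.card_sdiff_add_card_inter (nb G u) {u, v}]
  congr 1
  by_cases h : G.Adj u v
  · rw [if_pos h]
    have : nb G u ∩ {u, v} = {v} := by
      ext w
      simp only [mem_inter, mem_nb, mem_insert, mem_singleton]
      constructor
      · rintro ⟨h1, h2 | h2⟩
        · rw [h2] at h1; exact absurd h1 (G.irrefl)
        · exact h2
      · rintro rfl; exact ⟨h, Or.inr rfl⟩
    rw [this, card_singleton]
  · rw [if_neg h]
    have : nb G u ∩ {u, v} = ∅ := by
      rw [eq_empty_iff_forall_notMem]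
      intro w hw
      simp only [mem_inter, mem_nb, mem_insert, mem_singleton] at hw
      rcases hw.2 with h2 | h2
      · rw [h2] at hw; exact G.irrefl hw.1
      · rw [h2] at hw; exact h hw.1
    rw [this, card_empty]

end G3P

open Classical in
/-- in almost all graphs one vertex has a degree which exceeds the others by `g` -/
theorem G3_of (h0 : T_G0) (hc : T_G1c) (h1 : T_P1) : T_G3 := by
  intro g δ hδ
  obtain ⟨n1, hn1⟩ := hc (δ / 2) (by linarith)
  obtain ⟨n2, hn2⟩ := Filter.eventually_atTop.1 (G3P.ev g δ hδ)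
  refine ⟨max n1 n2, fun n hn => ?_⟩
  have A1 := hn1 n (le_trans (le_max_left _ _) hn)
  obtain ⟨hn4, hLg, hfin⟩ := hn2 n (le_trans (le_max_right _ _) hn)
  obtain ⟨N, hN⟩ : ∃ N : ℝ, N = (Fintype.card (SimpleGraph (Fin n)) : ℝ) := ⟨_, rfl⟩
  have hN0 : 0 ≤ N := by rw [hN]; positivity
  obtain ⟨T, hT⟩ : ∃ T : ℝ, T = n / 2 + 64 / 100 * Lam n - 1 := ⟨_, rfl⟩
  have hn0 : (0 : ℝ) < n := by
    have : 0 < n := by omega
    exact_mod_cast this
  have hL0 : 0 ≤ Lam n := Real.sqrt_nonneg _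
  have hmcard : ∀ u v : Fin n, u ≠ v → (({u, v} : Finset (Fin n))ᶜ).card = n - 2 := by
    intro u v huv
    rw [card_compl, card_pair huv, Fintype.card_fin]
  have hmcardR : ∀ u v : Fin n, u ≠ v → ((({u, v} : Finset (Fin n))ᶜ).card : ℝ) = n - 2 := by
    intro u v huv
    rw [hmcard u v huv, Nat.cast_sub (by omega)]
    norm_num
  obtain ⟨r, hr⟩ : ∃ r : ℕ, r = Nat.sqrt n := ⟨_, rfl⟩
  have hr1 : 1 ≤ r := by
    rw [hr, Nat.one_le_iff_ne_zero, Ne, Nat.sqrt_eq_zero]
    omega
  have hr1' : (1 : ℝ) ≤ r := by exact_mod_cast hr1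
  have hrs : (r : ℝ) ≤ Real.sqrt n := by rw [hr]; exact Real.nat_sqrt_le_real_sqrt
  have hrs2 : Real.sqrt n ≤ 2 * r := by
    have h2 : Real.sqrt n ≤ Nat.sqrt n + 1 := Real.real_sqrt_le_nat_sqrt_succ
    rw [← hr] at h2
    linarith
  obtain ⟨b1, hb1⟩ : ∃ b : ℝ, b = 2 * (n : ℝ) ^ (-(2 * (64 / 100 : ℝ) ^ 2)) := ⟨_, rfl⟩
  obtain ⟨pm, hpm⟩ : ∃ b : ℝ, b = 2 * (n : ℝ) ^ (-(2 * (635 / 1000 : ℝ) ^ 2)) / r := ⟨_, rfl⟩
  have hb10 : 0 ≤ b1 := by rw [hb1]; positivity
  have hpm0 : 0 ≤ pm := by rw [hpm]; positivity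
  have hpair : ∀ u v : Fin n, u ≠ v → cnt (fun G : SimpleGraph (Fin n) =>
      T ≤ ((nb G u \ {u, v}).card : ℝ) ∧ (nb G v \ {u, v}).card ≤ (nb G u \ {u, v}).card ∧
      (nb G u \ {u, v}).card < (nb G v \ {u, v}).card + g) ≤ b1 * (g * pm) * N := by
    intro u v huv
    rw [hN]
    apply G3P.pair h0 u v huv g T b1 pm _ hpm0
    · intro y hy
      have hy1 : (n : ℝ) / 2 - 1 + 635 / 1000 * Lam n ≤ (y : ℝ) - r := by
        rw [hT] at hy
        linarith
      have hry : r ≤ y := by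
        have : (r : ℝ) ≤ y := by
          have : (2 : ℝ) ≤ n := by
            have : 2 ≤ n := by omega
            exact_mod_cast this
          linarith
        exact_mod_cast this
      have hyr : ((y - r : ℕ) : ℝ) = (y : ℝ) - r := Nat.cast_sub hry
      have hm2 : (({u, v} : Finset (Fin n))ᶜ).card ≤ 2 * (y - r) := by
        have : ((({u, v} : Finset (Fin n))ᶜ).card : ℝ) ≤ 2 * ((y - r : ℕ) : ℝ) := by
          rw [hmcardR u v huv, hyr]
          linarith
        exact_mod_cast this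
      have h2 := G3P.point (({u, v} : Finset (Fin n))ᶜ) y r hry hm2
      have h3 := G3P.tail h1 (show 1 ≤ n by omega) (({u, v} : Finset (Fin n))ᶜ) (635 / 1000)
        (by norm_num)
      have h4 : ((({u, v} : Finset (Fin n))ᶜ.powerset.filter (fun s => y - r ≤ s.card)).card : ℝ) ≤
          ((({u, v} : Finset (Fin n))ᶜ.powerset.filter (fun s =>
            ((({u, v} : Finset (Fin n))ᶜ).card : ℝ) / 2 + 635 / 1000 * Lam n ≤ s.card)).card
              : ℝ) := by
        refine Nat.cast_le.2 (card_le_card ?_)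
        intro s hs
        rw [mem_filter] at hs ⊢
        refine ⟨hs.1, ?_⟩
        have h5 : ((y - r : ℕ) : ℝ) ≤ s.card := by exact_mod_cast hs.2
        rw [hmcardR u v huv]
        rw [hyr] at h5
        linarith
      have h6 : ((r : ℝ) * ((({u, v} : Finset (Fin n))ᶜ).card.choose y : ℕ)) ≤
          2 * (n : ℝ) ^ (-(2 * (635 / 1000 : ℝ) ^ 2)) * 2 ^ (({u, v} : Finset (Fin n))ᶜ).card := by
        refine le_trans ?_ (h4.trans h3)
        exact_mod_cast h2
      rw [hpm, div_mul_eq_mul_div, le_div_iff₀ (by linarith)]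
      linarith
    · have h2 := G3P.tail h1 (show 1 ≤ n by omega) (({u, v} : Finset (Fin n))ᶜ) (64 / 100)
        (by norm_num)
      have h3 : ((({u, v} : Finset (Fin n))ᶜ).card : ℝ) / 2 + 64 / 100 * Lam n = T := by
        rw [hmcardR u v huv, hT]; ring
      rw [h3, ← hb1] at h2
      exact h2
  have hev : cnt (fun G : SimpleGraph (Fin n) =>
      ¬ ∃ v₀, ∀ v, v ≠ v₀ → dg G v + g ≤ dg G v₀) ≤
      cnt (fun G : SimpleGraph (Fin n) => (∀ v, (dg G v : ℝ) < n / 2 + 64 / 100 * Lam n) ∨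
        ∃ p ∈ (univ : Finset (Fin n × Fin n)).filter (fun p => p.1 ≠ p.2),
          T ≤ ((nb G p.1 \ {p.1, p.2}).card : ℝ) ∧
          (nb G p.2 \ {p.1, p.2}).card ≤ (nb G p.1 \ {p.1, p.2}).card ∧
          (nb G p.1 \ {p.1, p.2}).card < (nb G p.2 \ {p.1, p.2}).card + g) := by
    apply cnt_mono
    intro G hG
    by_contra hcon
    push Not at hcon
    obtain ⟨⟨w, hw⟩, hcon⟩ := hcon
    have : Nonempty (Fin n) := ⟨w⟩
    obtain ⟨v₀, hv₀⟩ := Finite.exists_max (fun v => dg G v)
    apply hG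
    refine ⟨v₀, fun v hv => ?_⟩
    have h2 := hcon (v₀, v) (by simp [hv.symm])
    simp only at h2
    have e1 := G3P.sdiff_card_le G v₀ v
    have e2 := G3P.sdiff_card_le G v v₀
    have e3 : ({v, v₀} : Finset (Fin n)) = {v₀, v} := pair_comm v v₀
    rw [e3] at e2
    have e4 : (if G.Adj v v₀ then 1 else 0) = (if G.Adj v₀ v then 1 else 0) := by
      by_cases h : G.Adj v₀ v
      · rw [if_pos h, if_pos h.symm]
      · rw [if_neg h, if_neg (fun h' => h h'.symm)]
    rw [e4] at e2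
    have h3 : T ≤ ((nb G v₀ \ {v₀, v}).card : ℝ) := by
      have h4 : (dg G w : ℝ) ≤ dg G v₀ := by exact_mod_cast hv₀ w
      have h5 : (dg G v₀ : ℝ) ≤ (nb G v₀ \ {v₀, v}).card + 1 := by
        have : dg G v₀ ≤ (nb G v₀ \ {v₀, v}).card + 1 := by
          rw [← e1]
          split_ifs <;> omega
        exact_mod_cast this
      rw [hT]
      linarith
    have h4 : (nb G v \ {v₀, v}).card ≤ (nb G v₀ \ {v₀, v}).card := by
      have h6 : dg G v ≤ dg G v₀ := hv₀ v
      omega
    have h5 := h2 h3 h4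
    omega
  refine hev.trans ((cnt_or_le _ _).trans ?_)
  have hB : cnt (fun G : SimpleGraph (Fin n) =>
      ∃ p ∈ (univ : Finset (Fin n × Fin n)).filter (fun p => p.1 ≠ p.2),
          T ≤ ((nb G p.1 \ {p.1, p.2}).card : ℝ) ∧
          (nb G p.2 \ {p.1, p.2}).card ≤ (nb G p.1 \ {p.1, p.2}).card ∧
          (nb G p.1 \ {p.1, p.2}).card < (nb G p.2 \ {p.1, p.2}).card + g) ≤
      (n : ℝ) ^ 2 * (b1 * (g * pm) * N) := by
    refine (cnt_exists_le _ _).trans ?_
    refine (sum_le_card_nsmul _ _ (b1 * (g * pm) * N) (fun p hp => ?_)).trans ?_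
    · rw [mem_filter] at hp
      exact hpair p.1 p.2 hp.2
    · rw [nsmul_eq_mul]
      apply mul_le_mul_of_nonneg_right _ (by positivity)
      have h2 : ((univ : Finset (Fin n × Fin n)).filter (fun p => p.1 ≠ p.2)).card ≤ n ^ 2 := by
        refine (card_le_univ _).trans ?_
        rw [Fintype.card_prod, Fintype.card_fin, sq]
      exact_mod_cast h2
  have hfinal : (n : ℝ) ^ 2 * (b1 * (g * pm)) ≤ δ / 2 := by
    have hsq : 0 < Real.sqrt n := Real.sqrt_pos.2 hn0
    have hinv : (1 : ℝ) / r ≤ 2 / Real.sqrt n := by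
      rw [div_le_div_iff₀ (by linarith) hsq]
      linarith
    have h2 : pm ≤ 4 * ((n : ℝ) ^ (-(2 * (635 / 1000 : ℝ) ^ 2)) * (n : ℝ) ^ (-(1 / 2) : ℝ)) := by
      rw [hpm, Real.rpow_neg hn0.le (1 / 2), ← Real.sqrt_eq_rpow]
      have h3 : 2 * (n : ℝ) ^ (-(2 * (635 / 1000 : ℝ) ^ 2)) / r =
          2 * (n : ℝ) ^ (-(2 * (635 / 1000 : ℝ) ^ 2)) * (1 / r) := by ring
      rw [h3]
      calc 2 * (n : ℝ) ^ (-(2 * (635 / 1000 : ℝ) ^ 2)) * (1 / r)
          ≤ 2 * (n : ℝ) ^ (-(2 * (635 / 1000 : ℝ) ^ 2)) * (2 / Real.sqrt n) := by gcongr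
        _ = _ := by rw [div_eq_mul_inv]; ring
    have h3 : (n : ℝ) ^ 2 * ((n : ℝ) ^ (-(2 * (64 / 100 : ℝ) ^ 2)) *
        ((n : ℝ) ^ (-(2 * (635 / 1000 : ℝ) ^ 2)) * (n : ℝ) ^ (-(1 / 2) : ℝ))) =
        ((n : ℝ) ^ (12565 / 100000 : ℝ))⁻¹ := by
      rw [← Real.rpow_natCast (n : ℝ) 2, ← Real.rpow_add hn0, ← Real.rpow_add hn0,
        ← Real.rpow_add hn0, ← Real.rpow_neg hn0.le]
      congr 1
      norm_num
    have hX : 0 < (n : ℝ) ^ (12565 / 100000 : ℝ) := Real.rpow_pos_of_pos hn0 _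
    have key : ∀ a b c P : ℝ, P * (2 * a * (g * (4 * (b * c)))) = 8 * g * (P * (a * (b * c))) := by
      intro a b c P; ring
    calc (n : ℝ) ^ 2 * (b1 * (g * pm))
        ≤ (n : ℝ) ^ 2 * (b1 * (g * (4 * ((n : ℝ) ^ (-(2 * (635 / 1000 : ℝ) ^ 2)) *
          (n : ℝ) ^ (-(1 / 2) : ℝ))))) := by gcongr
      _ = 8 * g * ((n : ℝ) ^ 2 * ((n : ℝ) ^ (-(2 * (64 / 100 : ℝ) ^ 2)) *
        ((n : ℝ) ^ (-(2 * (635 / 1000 : ℝ) ^ 2)) * (n : ℝ) ^ (-(1 / 2) : ℝ)))) := by
          rw [hb1]; exact key _ _ _ _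
      _ = 8 * g / (n : ℝ) ^ (12565 / 100000 : ℝ) := by
        rw [h3]; exact (div_eq_mul_inv _ _).symm
      _ ≤ δ / 2 := by
        rw [div_le_iff₀ hX]
        linarith
  rw [← hN] at A1 ⊢
  calc _ ≤ δ / 2 * N + (n : ℝ) ^ 2 * (b1 * (g * pm) * N) := add_le_add A1 hB
    _ = (δ / 2 + (n : ℝ) ^ 2 * (b1 * (g * pm))) * N := by ring
    _ ≤ (δ / 2 + δ / 2) * N := by gcongr
    _ = δ * N := by ring

end Pool.Agent.H162R2.AG
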