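import Pool.Agent.H162R2.AG.FinT
import Pool.Agent.H162R2.AG.All3
import Pool.Agent.H162R2.AG.EX
import Pool.Agent.H162R2.AG.G3
import Pool.Agent.H162R2.AG.AEX

/-!
# Final forms for (p,1)-total labellings
-/

set_option autoImplicit false

namespace Pool.Agent.H162R2.AG

open Finset Pool.Agent.H162R2.Sparse

theorem tG3 : T_G3 := G3_of G0 tG1c P1
theorem tEX : T_EX := EX_of tD GR
theorem tAEX : T_AEX := AEX_of tEX tG1c tG2 tG3

theorem sym2_of_LP {V : Type} [Fintype V] [DecidableEq V] (p : ℕ) (G : SimpleGraph V)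
    (L : Sym2 V → Finset ℕ) (M : V → Finset ℕ)
    (h : LP p G (fun a b => L s(a, b)) M) :
    ∃ (fV : V → ℕ) (fE : Sym2 V → ℕ),
      (∀ v : V, fV v ∈ M v) ∧
      (∀ e ∈ G.edgeSet, fE e ∈ L e) ∧
      (∀ u v : V, G.Adj u v → fV u ≠ fV v) ∧
      (∀ u v : V, G.Adj u v → (p : ℤ) ≤ |(fV u : ℤ) - (fE s(u, v) : ℤ)|) ∧
      (∀ u v w : V, G.Adj u v → G.Adj u w → v ≠ w → fE s(u, v) ≠ fE s(u, w)) := by
  obtain ⟨f, g, hf1, hf2, hf3, hg1, hg2, hg3⟩ := h
  have key : ∀ a b, G.Adj a b →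
      (Sym2.lift ⟨fun a b => max (f a b) (f b a), fun a b => max_comm _ _⟩ : Sym2 V → ℕ) s(a, b) =
        f a b := by
    intro a b hab
    rw [Sym2.lift_mk]
    simp only
    rw [← hf1 a b hab, max_self]
  refine ⟨g, Sym2.lift ⟨fun a b => max (f a b) (f b a), fun a b => max_comm _ _⟩, hg1, ?_, hg2,
    ?_, ?_⟩
  · intro e he
    induction e using Sym2.ind with
    | _ a b =>
      rw [key a b he]
      exact hf2 a b he
  · intro u v huv
    rw [key u v huv]
    have h1 := hg3 u v huv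
    unfold Far at h1
    rw [le_abs]
    omega
  · intro u v w huv huw hvw
    rw [key u v huv, key u w huw]
    exact hf3 u v w huv huw hvw

theorem lower_p {V : Type} [Fintype V] (p : ℕ) (hp : 1 ≤ p) (G : SimpleGraph V)
    [DecidableRel G.Adj] (hD : 1 ≤ G.maxDegree) (l : ℕ) (fV : V → ℕ) (fE : Sym2 V → ℕ)
    (h1 : ∀ v : V, fV v ≤ l) (h2 : ∀ e ∈ G.edgeSet, fE e ≤ l)
    (h4 : ∀ u v : V, G.Adj u v → (p : ℤ) ≤ |(fV u : ℤ) - (fE s(u, v) : ℤ)|)
    (h5 : ∀ u v w : V, G.Adj u v → G.Adj u w → v ≠ w → fE s(u, v) ≠ fE s(u, w)) :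
    G.maxDegree + p ≤ l + 1 := by
  classical
  have hne : Nonempty V := by
    by_contra hcon
    rw [not_nonempty_iff] at hcon
    have : G.maxDegree = 0 := by simp
    omega
  obtain ⟨v, hv⟩ := G.exists_maximal_degree_vertex
  rw [hv]
  rw [hv] at hD
  have hsub : (G.neighborFinset v).image (fun w => fE s(v, w)) ⊆
      (range (fV v + 1 - p)) ∪ (Finset.Ico (fV v + p) (l + 1)) := by
    intro y hy
    rw [Finset.mem_image] at hy
    obtain ⟨w, hw, rfl⟩ := hy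
    rw [SimpleGraph.mem_neighborFinset] at hw
    have ha := h4 v w hw
    have hb := h2 s(v, w) hw
    rw [Finset.mem_union, Finset.mem_range, Finset.mem_Ico]
    rw [le_abs] at ha
    omega
  have hcard : G.degree v = ((G.neighborFinset v).image (fun w => fE s(v, w))).card := by
    rw [Finset.card_image_of_injOn]
    · rfl
    · intro a ha b hb hab
      rw [Finset.mem_coe, SimpleGraph.mem_neighborFinset] at ha hb
      by_contra hne
      exact h5 v a b ha hb hne hab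
  have hle := (Finset.card_le_card hsub).trans (Finset.card_union_le _ _)
  rw [← hcard, Finset.card_range, Nat.card_Ico] at hle
  have hx := h1 v
  omega

theorem maxDegree_eq {V : Type} [Fintype V] [DecidableEq V] (G : SimpleGraph V)
    [DecidableRel G.Adj] (D : ℕ) (h : ∀ v, dg G v ≤ D) (v : V) (hv : dg G v = D) :
    G.maxDegree = D := by
  have hdeg : ∀ w, dg G w = G.degree w := by
    intro w
    rw [dg_eq_ncard, ← SimpleGraph.card_neighborSet_eq_degree, Set.ncard_eq_toFinset_card',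
      Set.toFinset_card]
  apply le_antisymm
  · apply SimpleGraph.maxDegree_le_of_forall_degree_le
    intro w
    rw [← hdeg]
    exact h w
  · rw [← hv, hdeg]
    exact G.degree_le_maxDegree v

/-- `λ_p^T(G) = Δ(G) + p - 1` -/
def Exact (p : ℕ) {V : Type} [Fintype V] (G : SimpleGraph V) : Prop :=
  ∀ [DecidableRel G.Adj] (l : ℕ),
    (∃ (fV : V → ℕ) (fE : Sym2 V → ℕ),
      (∀ v : V, fV v ≤ l) ∧
      (∀ e ∈ G.edgeSet, fE e ≤ l) ∧
      (∀ u v : V, G.Adj u v → fV u ≠ fV v) ∧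
      (∀ u v : V, G.Adj u v → (p : ℤ) ≤ |(fV u : ℤ) - (fE s(u, v) : ℤ)|) ∧
      (∀ u v w : V, G.Adj u v → G.Adj u w → v ≠ w → fE s(u, v) ≠ fE s(u, w))) ↔
    G.maxDegree + p ≤ l + 1

theorem exact_of (p : ℕ) (hp : 1 ≤ p) {n : ℕ} (G : SimpleGraph (Fin n)) (D : ℕ)
    (hD : 1 ≤ D) (h : ∀ v, dg G v ≤ D) (v : Fin n) (hv : dg G v = D)
    (hL : LP p G (fun _ _ => range (D + p)) (fun _ => range (D + p))) : Exact p G := by
  intro _ l
  have hmax := maxDegree_eq G D h v hv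
  constructor
  · rintro ⟨fV, fE, h1, h2, _, h4, h5⟩
    exact lower_p p hp G (by rw [hmax]; exact hD) l fV fE h1 h2 h4 h5
  · intro hl
    rw [hmax] at hl
    obtain ⟨fV, fE, h1, h2, h3, h4, h5⟩ := sym2_of_LP p G (fun _ => range (D + p))
      (fun _ => range (D + p)) hL
    refine ⟨fV, fE, ?_, ?_, h3, h4, h5⟩
    · intro w
      have := Finset.mem_range.1 (h1 w)
      omega
    · intro e he
      have := Finset.mem_range.1 (h2 e he)
      omega

theorem almost_all_exact (p : ℕ) (hp : 1 ≤ p) : Filter.Tendsto (fun n : ℕ =>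
    ({G : SimpleGraph (Fin n) | Exact p G}.ncard : ℝ) / (Nat.card (SimpleGraph (Fin n)) : ℝ))
    Filter.atTop (nhds 1) := by
  apply tendsto_of_cnt (fun n G => Exact p G)
  intro δ hδ
  obtain ⟨n₁, hn₁⟩ := tAEX p hp (δ / 2) (by linarith)
  obtain ⟨n₂, hn₂⟩ := tG1c (δ / 2) (by linarith)
  refine ⟨max (max n₁ n₂) 2, fun n hn => ?_⟩
  have h1 := hn₁ n ((le_max_left _ _).trans ((le_max_left _ _).trans hn))
  have h2 := hn₂ n ((le_max_right _ _).trans ((le_max_left _ _).trans hn))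
  have hn2 : 2 ≤ n := (le_max_right _ _).trans hn
  refine le_trans (cnt_mono (Q := fun G : SimpleGraph (Fin n) =>
    (¬ ∃ D : ℕ, (∀ v, dg G v ≤ D) ∧ (∃ v, dg G v = D) ∧
      LP p G (fun _ _ => range (D + p)) (fun _ => range (D + p))) ∨
    ∀ v, (dg G v : ℝ) < n / 2 + 64 / 100 * Lam n) ?_) ?_
  · intro G hG
    by_contra hcon
    rw [not_or, not_not] at hcon
    obtain ⟨⟨D, hD1, ⟨v, hv⟩, hL⟩, h3⟩ := hcon
    push Not at h3
    obtain ⟨w, hw⟩ := h3
    have h4 : (0 : ℝ) ≤ Lam n := Real.sqrt_nonneg _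
    have h5 : (2 : ℝ) ≤ n := by exact_mod_cast hn2
    have h6 : (1 : ℝ) ≤ dg G w := by linarith
    have h7 : 1 ≤ dg G w := by exact_mod_cast h6
    exact hG (exact_of p hp G D (h7.trans (hD1 w)) hD1 v hv hL)
  · refine (cnt_or_le _ _).trans ?_
    linarith

/-- the list version -/
def Lists (p : ℕ) {V : Type} [Fintype V] (G : SimpleGraph V) : Prop :=
  ∀ [DecidableRel G.Adj] (M : V → Finset ℕ) (L : Sym2 V → Finset ℕ),
    (∀ v, G.maxDegree + 2 * p - 1 ≤ (M v).card) →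
    (∀ e ∈ G.edgeSet, G.maxDegree + 2 * p - 1 ≤ (L e).card) →
    ∃ (fV : V → ℕ) (fE : Sym2 V → ℕ),
      (∀ v : V, fV v ∈ M v) ∧
      (∀ e ∈ G.edgeSet, fE e ∈ L e) ∧
      (∀ u v : V, G.Adj u v → fV u ≠ fV v) ∧
      (∀ u v : V, G.Adj u v → (p : ℤ) ≤ |(fV u : ℤ) - (fE s(u, v) : ℤ)|) ∧
      (∀ u v w : V, G.Adj u v → G.Adj u w → v ≠ w → fE s(u, v) ≠ fE s(u, w))

theorem almost_all_lists (p : ℕ) (hp : 1 ≤ p) : Filter.Tendsto (fun n : ℕ =>
    ({G : SimpleGraph (Fin n) | Lists p G}.ncard : ℝ) / (Nat.card (SimpleGraph (Fin n)) : ℝ))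
    Filter.atTop (nhds 1) := by
  apply tendsto_of_cnt (fun n G => Lists p G)
  intro δ hδ
  obtain ⟨n₁, hn₁⟩ := tAAP p hp δ hδ
  refine ⟨max n₁ 1, fun n hn => ?_⟩
  refine le_trans (cnt_mono ?_) (hn₁ n ((le_max_left _ _).trans hn))
  intro G hG hcon
  apply hG
  intro _ M L hM hL
  have : Nonempty (Fin n) := ⟨⟨0, (le_max_right n₁ 1).trans hn⟩⟩
  obtain ⟨v, hv⟩ := Finite.exists_max (fun v : Fin n => dg G v)
  have hmax := maxDegree_eq G (dg G v) hv v rfl
  rw [hmax] at hM hL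
  apply sym2_of_LP p G L M
  apply hcon (dg G v) hv (fun a b => L s(a, b)) M
  · intro a b
    exact congrArg L Sym2.eq_swap
  · intro a b hab
    have := hL s(a, b) hab
    omega
  · intro w
    have := hM w
    omega

end Pool.Agent.H162R2.AG
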