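import Pool.Agent.H162R2.AG.Fin
import Pool.Agent.H162R2.AG.Stmts3
import Pool.Agent.H162R2.Sparse.Total

/-!
# Final forms for total colourings
-/

set_option autoImplicit false

namespace Pool.Agent.H162R2.AG

open Finset Pool.Agent.H162R2.Sparse

variable {V : Type} [Fintype V] [DecidableEq V]

theorem total_of_LP (p : ℕ) (G : SimpleGraph V) (k : ℕ)
    (h : ∀ (L : V → V → Finset ℕ) (M : V → Finset ℕ), (∀ a b, L a b = L b a) →
      (∀ a b, G.Adj a b → k ≤ (L a b).card) → (∀ v, k ≤ (M v).card) → LP p G L M)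
    (L : V ⊕ G.edgeSet → Finset ℕ) (hL : ∀ x, k ≤ (L x).card) :
    ∃ c : V ⊕ G.edgeSet → ℕ,
      (∀ x, c x ∈ L x) ∧
      (∀ u v : V, G.Adj u v → c (Sum.inl u) ≠ c (Sum.inl v)) ∧
      (∀ e f : G.edgeSet, e ≠ f →
        (∃ v : V, v ∈ (e : Sym2 V) ∧ v ∈ (f : Sym2 V)) →
          c (Sum.inr e) ≠ c (Sum.inr f)) ∧
      (∀ (v : V) (e : G.edgeSet), v ∈ (e : Sym2 V) →
          Far p (c (Sum.inl v)) (c (Sum.inr e))) := by
  classical
  let L' : V → V → Finset ℕ := fun a b =>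
    if h : G.Adj a b then L (Sum.inr ⟨s(a, b), h⟩) else ∅
  have hL'1 : ∀ a b, L' a b = L' b a := by
    intro a b
    simp only [L']
    by_cases h : G.Adj a b
    · rw [dif_pos h, dif_pos h.symm]
      congr 2
      exact Subtype.ext Sym2.eq_swap
    · rw [dif_neg h, dif_neg (fun h' => h h'.symm)]
  have hL'2 : ∀ u v (h : G.Adj u v), L' u v = L (Sum.inr ⟨s(u, v), h⟩) := by
    intro u v h
    simp only [L']
    rw [dif_pos h]
  obtain ⟨f, g, hf1, hf2, hf3, hg1, hg2, hg3⟩ := h L'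
    (fun v => L (Sum.inl v)) hL'1 (by
      intro u v huv
      rw [hL'2 u v huv]
      exact hL _) (fun v => hL _)
  have hex : ∀ e : G.edgeSet, ∃ p : V × V, s(p.1, p.2) = e.1 := by
    rintro ⟨e, he⟩
    induction e using Sym2.ind with
    | _ a b => exact ⟨(a, b), rfl⟩
  choose P hP using hex
  have hadjP : ∀ e : G.edgeSet, G.Adj (P e).1 (P e).2 := by
    intro e
    have h1 := e.2
    rw [← hP e] at h1
    exact h1
  have key : ∀ (e : G.edgeSet) (u v : V), s(u, v) = e.1 → f (P e).1 (P e).2 = f u v := by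
    intro e u v huv
    have h1 := hP e
    rw [← huv] at h1
    rcases Sym2.eq_iff.1 h1 with ⟨h2, h3⟩ | ⟨h2, h3⟩
    · rw [h2, h3]
    · rw [hf1 _ _ (hadjP e), h2, h3]
  let c : V ⊕ G.edgeSet → ℕ := fun x => Sum.elim g (fun e => f (P e).1 (P e).2) x
  have hcl : ∀ v, c (Sum.inl v) = g v := fun v => rfl
  have hcr : ∀ e, c (Sum.inr e) = f (P e).1 (P e).2 := fun v => rfl
  refine ⟨c, ?_, ?_, ?_, ?_⟩
  · intro x
    rcases x with v | e
    · rw [hcl]
      exact hg1 v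
    · rw [hcr]
      have h1 := hf2 _ _ (hadjP e)
      rw [hL'2 _ _ (hadjP e)] at h1
      have h2 : (⟨s((P e).1, (P e).2), hadjP e⟩ : G.edgeSet) = e := Subtype.ext (hP e)
      rwa [h2] at h1
  · intro u v huv
    rw [hcl, hcl]
    exact hg2 u v huv
  · intro e e' hne he
    obtain ⟨x, hx, hx'⟩ := he
    obtain ⟨b, hb⟩ := Sym2.mem_iff_exists.1 hx
    obtain ⟨d, hd⟩ := Sym2.mem_iff_exists.1 hx'
    rw [hcr, hcr, key e x b hb.symm, key e' x d hd.symm]
    have h1 : G.Adj x b := by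
      have := e.2
      rw [hb] at this
      exact this
    have h2 : G.Adj x d := by
      have := e'.2
      rw [hd] at this
      exact this
    apply hf3 x b d h1 h2
    rintro rfl
    apply hne
    exact Subtype.ext (hb.trans hd.symm)
  · intro v e hv
    obtain ⟨b, hb⟩ := Sym2.mem_iff_exists.1 hv
    rw [hcl, hcr, key e v b hb.symm]
    have h1 : G.Adj v b := by
      have := e.2
      rw [hb] at this
      exact this
    exact hg3 v b h1


/-- the list total colouring conjecture for one graph, in the form of the frozen statement -/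
def LTC {V : Type} (G : SimpleGraph V) : Prop :=
  ∀ k : ℕ, (∃ c : V ⊕ G.edgeSet → Fin k,
      (∀ u v : V, G.Adj u v → c (Sum.inl u) ≠ c (Sum.inl v)) ∧
      (∀ e f : G.edgeSet, e ≠ f →
        (∃ v : V, v ∈ (e : Sym2 V) ∧ v ∈ (f : Sym2 V)) →
          c (Sum.inr e) ≠ c (Sum.inr f)) ∧
      (∀ (v : V) (e : G.edgeSet), v ∈ (e : Sym2 V) →
          c (Sum.inl v) ≠ c (Sum.inr e))) →
    ∀ L : V ⊕ G.edgeSet → Finset ℕ, (∀ x, k ≤ (L x).card) →
      ∃ c : V ⊕ G.edgeSet → ℕ,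
        (∀ x, c x ∈ L x) ∧
        (∀ u v : V, G.Adj u v → c (Sum.inl u) ≠ c (Sum.inl v)) ∧
        (∀ e f : G.edgeSet, e ≠ f →
          (∃ v : V, v ∈ (e : Sym2 V) ∧ v ∈ (f : Sym2 V)) →
            c (Sum.inr e) ≠ c (Sum.inr f)) ∧
        (∀ (v : V) (e : G.edgeSet), v ∈ (e : Sym2 V) →
            c (Sum.inl v) ≠ c (Sum.inr e))

theorem ltc_of_LP (n : ℕ) (hn : 0 < n) (G : SimpleGraph (Fin n))
    (h : ∀ D : ℕ, (∀ v, dg G v ≤ D) →
      ∀ (L : Fin n → Fin n → Finset ℕ) (M : Fin n → Finset ℕ), (∀ a b, L a b = L b a) →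
      (∀ a b, G.Adj a b → D + 2 * 1 ≤ (L a b).card + 1) →
      (∀ v, D + 2 * 1 ≤ (M v).card + 1) → LP 1 G L M) : LTC G := by
  classical
  intro k hk L hL
  have : Nonempty (Fin n) := ⟨⟨0, hn⟩⟩
  obtain ⟨v, hv⟩ := Finite.exists_max (fun v : Fin n => dg G v)
  have hlow : dg G v + 1 ≤ k := total_lower G (dg G v) v (dg_eq_ncard G v).symm k hk
  obtain ⟨c, h1, h2, h3, h4⟩ := total_of_LP 1 G k (by
    intro L' M' hs hL' hM'
    exact h (dg G v) hv L' M' hs (fun a b hab => by have := hL' a b hab; omega)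
      (fun w => by have := hM' w; omega)) L hL
  refine ⟨c, h1, h2, h3, ?_⟩
  intro w e hw heq
  have := h4 w e hw
  unfold Far at this
  omega

/-- a property of almost all graphs -/
theorem tendsto_of_cnt (P : ∀ n : ℕ, SimpleGraph (Fin n) → Prop)
    (h : ∀ δ : ℝ, 0 < δ → ∃ n₀ : ℕ, ∀ n : ℕ, n₀ ≤ n →
      cnt (fun G : SimpleGraph (Fin n) => ¬ P n G) ≤ δ * Fintype.card (SimpleGraph (Fin n))) :
    Filter.Tendsto (fun n : ℕ =>
    ({G : SimpleGraph (Fin n) | P n G}.ncard : ℝ) / (Nat.card (SimpleGraph (Fin n)) : ℝ))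
    Filter.atTop (nhds 1) := by
  classical
  rw [Metric.tendsto_atTop]
  intro ε hε
  obtain ⟨n₀, hn₀⟩ := h (ε / 2) (by linarith)
  refine ⟨n₀, fun n hn => ?_⟩
  have h2 := hn₀ n hn
  have hcard : (0 : ℝ) < Fintype.card (SimpleGraph (Fin n)) := by
    exact_mod_cast Fintype.card_pos
  have h3 := cnt_not (fun G : SimpleGraph (Fin n) => P n G)
  have h4 : ({G : SimpleGraph (Fin n) | P n G}.ncard : ℝ) =
      cnt (fun G : SimpleGraph (Fin n) => P n G) := by
    unfold cnt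
    rw [← Set.ncard_coe_finset]
    congr 2
    ext G
    simp
  rw [h4, Nat.card_eq_fintype_card, Real.dist_eq, abs_lt]
  have h5 : cnt (fun G : SimpleGraph (Fin n) => P n G) / Fintype.card (SimpleGraph (Fin n)) =
      1 - cnt (fun G : SimpleGraph (Fin n) => ¬ P n G) / Fintype.card (SimpleGraph (Fin n)) := by
    rw [eq_sub_iff_add_eq, ← add_div, h3, div_self hcard.ne']
  rw [h5]
  have h6 : cnt (fun G : SimpleGraph (Fin n) => ¬ P n G) / Fintype.card (SimpleGraph (Fin n)) ≤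
      ε / 2 := by
    rw [div_le_iff₀ hcard]
    exact h2
  have h7 : 0 ≤ cnt (fun G : SimpleGraph (Fin n) => ¬ P n G) /
      Fintype.card (SimpleGraph (Fin n)) := div_nonneg (cnt_nonneg _) hcard.le
  constructor <;> linarith

theorem almost_all_total (h : T_AAP) : Filter.Tendsto (fun n : ℕ =>
    ({G : SimpleGraph (Fin n) | LTC G}.ncard : ℝ) / (Nat.card (SimpleGraph (Fin n)) : ℝ))
    Filter.atTop (nhds 1) := by
  apply tendsto_of_cnt (fun n G => LTC G)
  intro δ hδ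
  obtain ⟨n₀, hn₀⟩ := h 1 le_rfl δ hδ
  refine ⟨max n₀ 1, fun n hn => ?_⟩
  refine le_trans (cnt_mono ?_) (hn₀ n ((le_max_left _ _).trans hn))
  intro G hG hcon
  exact hG (ltc_of_LP n ((le_max_right n₀ 1).trans hn) G hcon)

end Pool.Agent.H162R2.AG
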