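import Mathlib
import Pool.Agent.H162R2.AG.Stmts

set_option autoImplicit false

namespace Pool.Agent.H162R2.AG

open Finset MeasureTheory ProbabilityTheory

theorem P4_lin (s : ℝ) :
    ∫ g, Real.exp (s * g) ∂(gaussianReal 0 1) = Real.exp (s ^ 2 / 2) := by
  have h := congrFun (mgf_id_gaussianReal (μ := 0) (v := 1)) s
  simpa [mgf] using h

theorem P4_lin_int (s : ℝ) : Integrable (fun g => Real.exp (s * g)) (gaussianReal 0 1) :=
  integrable_exp_mul_gaussianReal s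

theorem P4_pdf (b x : ℝ) : gaussianPDFReal 0 1 x * Real.exp (b * x ^ 2) =
    (Real.sqrt (2 * Real.pi))⁻¹ * Real.exp (-(1 / 2 - b) * x ^ 2) := by
  simp only [gaussianPDFReal, NNReal.coe_one, mul_one, sub_zero]
  rw [mul_assoc, ← Real.exp_add]
  congr 2
  ring

theorem P4_quad (b : ℝ) (hb : b < 1 / 2) :
    ∫ g, Real.exp (b * g ^ 2) ∂(gaussianReal 0 1) =
      (Real.sqrt (2 * Real.pi))⁻¹ * Real.sqrt (Real.pi / (1 / 2 - b)) := by
  rw [integral_gaussianReal_eq_integral_smul (by norm_num)]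
  simp only [smul_eq_mul]
  simp_rw [P4_pdf]
  rw [integral_const_mul, integral_gaussian]

theorem P4_quad_int (b : ℝ) (hb : b < 1 / 2) :
    Integrable (fun g => Real.exp (b * g ^ 2)) (gaussianReal 0 1) := by
  rw [gaussianReal_of_var_ne_zero _ (by norm_num)]
  rw [integrable_withDensity_iff_integrable_smul' (measurable_gaussianPDF 0 1)
    (Filter.Eventually.of_forall (fun x => gaussianPDF_lt_top))]
  simp only [toReal_gaussianPDF, smul_eq_mul]
  simp_rw [P4_pdf]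
  exact (integrable_exp_neg_mul_sq (by linarith)).const_mul _

theorem P4_quad_le (b : ℝ) (hb0 : 0 ≤ b) (hb : b ≤ 1 / 4) :
    ∫ g, Real.exp (b * g ^ 2) ∂(gaussianReal 0 1) ≤ Real.exp (2 * b) := by
  rw [P4_quad b (by linarith)]
  have hpi := Real.pi_pos
  have h1 : (Real.sqrt (2 * Real.pi))⁻¹ * Real.sqrt (Real.pi / (1 / 2 - b)) =
      Real.sqrt (1 / (1 - 2 * b)) := by
    rw [← Real.sqrt_inv, ← Real.sqrt_mul (by positivity)]
    congr 1
    have : (1 / 2 - b) ≠ 0 := by linarith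
    have : (1 - 2 * b) ≠ 0 := by linarith
    field_simp
  rw [h1]
  rw [Real.sqrt_le_left (Real.exp_pos _).le]
  rw [← Real.exp_nat_mul]
  have h2 : 1 / (1 - 2 * b) ≤ 1 + 4 * b := by
    rw [div_le_iff₀ (by linarith)]
    nlinarith
  have h3 := Real.add_one_le_exp (4 * b)
  have h4 : ((2 : ℕ) : ℝ) * (2 * b) = 4 * b := by push_cast; ring
  rw [h4]
  linarith

/-- sum over signs -/
theorem P4_signs (ι : Type) [Fintype ι] [DecidableEq ι] (z : ι → ℝ) :
    ∑ χ : ι → Bool, Real.exp (∑ c, z c * sg (χ c)) ≤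
      2 ^ Fintype.card ι * Real.exp ((∑ c, z c ^ 2) / 2) := by
  have h1 : ∑ χ : ι → Bool, Real.exp (∑ c, z c * sg (χ c)) =
      ∏ c, ∑ b : Bool, Real.exp (z c * sg b) := by
    rw [Finset.prod_univ_sum]
    simp only [Fintype.piFinset_univ]
    exact Finset.sum_congr rfl (fun χ _ => Real.exp_sum _ _)
  rw [h1]
  have h2 : ∀ c, ∑ b : Bool, Real.exp (z c * sg b) ≤ 2 * Real.exp (z c ^ 2 / 2) := by
    intro c
    have := Real.cosh_le_exp_half_sq (z c)
    rw [Real.cosh_eq] at this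
    simp only [Fintype.sum_bool, sg, if_true, mul_one]
    simp only [Bool.false_eq_true, if_false, mul_neg, mul_one]
    linarith
  calc ∏ c, ∑ b : Bool, Real.exp (z c * sg b) ≤ ∏ c, (2 * Real.exp (z c ^ 2 / 2)) :=
        Finset.prod_le_prod (fun c _ => Finset.sum_nonneg (fun b _ => (Real.exp_pos _).le))
          (fun c _ => h2 c)
    _ = 2 ^ Fintype.card ι * Real.exp ((∑ c, z c ^ 2) / 2) := by
        rw [Finset.prod_mul_distrib, Finset.prod_const, ← Real.exp_sum, Finset.sum_div]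
        rfl

theorem P4_orth (ι : Type) [Fintype ι] (J : Type) [Fintype J] [DecidableEq J]
    (w : J → ι → ℝ) (h : ∀ i j, i ≠ j → ∑ c, w i c * w j c = 0) (g : J → ℝ) :
    ∑ c, (∑ i, g i * w i c) ^ 2 = ∑ i, g i ^ 2 * ∑ c, w i c ^ 2 := by
  have h1 : ∀ c, (∑ i, g i * w i c) ^ 2 = ∑ i, ∑ j, (g i * g j) * (w i c * w j c) := by
    intro c
    rw [sq, Finset.sum_mul_sum]
    refine Finset.sum_congr rfl (fun i _ => Finset.sum_congr rfl (fun j _ => by ring))
  simp_rw [h1]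
  rw [Finset.sum_comm]
  refine Finset.sum_congr rfl (fun i _ => ?_)
  rw [Finset.sum_comm]
  rw [Finset.sum_eq_single i]
  · rw [← Finset.mul_sum, sq]
    congr 1
    exact Finset.sum_congr rfl (fun c _ => by ring)
  · intro j _ hj
    rw [← Finset.mul_sum, h i j (Ne.symm hj), mul_zero]
  · simp

theorem P4_main (ι : Type) [Fintype ι] [DecidableEq ι] (J : Type) [Fintype J] [DecidableEq J]
    (w : J → ι → ℝ) (θ : ℝ) (hθ : 0 < θ)
    (h : ∀ i j, i ≠ j → ∑ c, w i c * w j c = 0) (hw : ∀ i, θ * ∑ c, w i c ^ 2 ≤ 1 / 4) :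
    ∑ χ : ι → Bool, Real.exp (θ * ∑ i, (∑ c, w i c * sg (χ c)) ^ 2) ≤
      2 ^ Fintype.card ι * Real.exp (2 * θ * ∑ i, ∑ c, w i c ^ 2) := by
  set s := Real.sqrt (2 * θ) with hs
  have hs2 : s ^ 2 = 2 * θ := Real.sq_sqrt (by positivity)
  set μ : Measure (J → ℝ) := Measure.pi (fun _ => gaussianReal 0 1) with hμ
  have e1 : ∀ χ : ι → Bool, Real.exp (θ * ∑ i, (∑ c, w i c * sg (χ c)) ^ 2) =
      ∫ g : J → ℝ, ∏ i, Real.exp ((s * (∑ c, w i c * sg (χ c))) * g i) ∂μ := by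
    intro χ
    rw [hμ, integral_fintype_prod_eq_prod
      (f := fun i x => Real.exp ((s * (∑ c, w i c * sg (χ c))) * x))]
    simp_rw [P4_lin]
    rw [← Real.exp_sum, Finset.mul_sum]
    congr 1
    refine Finset.sum_congr rfl (fun i _ => ?_)
    rw [mul_pow, hs2]
    ring
  have i1 : ∀ χ : ι → Bool, Integrable
      (fun g : J → ℝ => ∏ i, Real.exp ((s * (∑ c, w i c * sg (χ c))) * g i)) μ := by
    intro χ
    exact Integrable.fintype_prod (f := fun i x => Real.exp ((s * (∑ c, w i c * sg (χ c))) * x))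
      (fun i => P4_lin_int _)
  have hb0 : ∀ i, 0 ≤ θ * ∑ c, w i c ^ 2 := fun i => by positivity
  have i2 : Integrable
      (fun g : J → ℝ => ∏ i, Real.exp ((θ * ∑ c, w i c ^ 2) * g i ^ 2)) μ :=
    Integrable.fintype_prod (f := fun i x => Real.exp ((θ * ∑ c, w i c ^ 2) * x ^ 2))
      (fun i => P4_quad_int _ (by linarith [hw i]))
  have e2 : ∫ g : J → ℝ, ∏ i, Real.exp ((θ * ∑ c, w i c ^ 2) * g i ^ 2) ∂μ ≤
      Real.exp (2 * θ * ∑ i, ∑ c, w i c ^ 2) := by
    rw [hμ, integral_fintype_prod_eq_prod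
      (f := fun i x => Real.exp ((θ * ∑ c, w i c ^ 2) * x ^ 2))]
    have e3 : Real.exp (2 * θ * ∑ i, ∑ c, w i c ^ 2) =
        ∏ i, Real.exp (2 * (θ * ∑ c, w i c ^ 2)) := by
      rw [← Real.exp_sum, Finset.mul_sum]
      congr 1
      exact Finset.sum_congr rfl (fun i _ => by ring)
    rw [e3]
    exact Finset.prod_le_prod (fun i _ => integral_nonneg (fun x => (Real.exp_pos _).le))
      (fun i _ => P4_quad_le _ (hb0 i) (hw i))
  have e4 : ∀ g : J → ℝ, ∑ χ : ι → Bool,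
      ∏ i, Real.exp ((s * (∑ c, w i c * sg (χ c))) * g i) ≤
      2 ^ Fintype.card ι * ∏ i, Real.exp ((θ * ∑ c, w i c ^ 2) * g i ^ 2) := by
    intro g
    have h1 := P4_signs ι (fun c => s * ∑ i, g i * w i c)
    have h2 : ∀ χ : ι → Bool, ∏ i, Real.exp ((s * (∑ c, w i c * sg (χ c))) * g i) =
        Real.exp (∑ c, (s * ∑ i, g i * w i c) * sg (χ c)) := by
      intro χ
      rw [← Real.exp_sum]
      congr 1
      simp_rw [Finset.mul_sum, Finset.sum_mul]
      rw [Finset.sum_comm]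
      exact Finset.sum_congr rfl (fun c _ => Finset.sum_congr rfl (fun i _ => by ring))
    simp_rw [h2]
    refine h1.trans (le_of_eq ?_)
    rw [← Real.exp_sum]
    congr 2
    simp_rw [mul_pow, hs2]
    rw [← Finset.mul_sum, P4_orth ι J w h g]
    have h5 : 2 * θ * (∑ i, g i ^ 2 * ∑ c, w i c ^ 2) / 2 =
        θ * ∑ i, g i ^ 2 * ∑ c, w i c ^ 2 := by ring
    rw [h5, Finset.mul_sum]
    exact Finset.sum_congr rfl (fun i _ => by ring)
  calc ∑ χ : ι → Bool, Real.exp (θ * ∑ i, (∑ c, w i c * sg (χ c)) ^ 2)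
      = ∑ χ : ι → Bool, ∫ g : J → ℝ, ∏ i, Real.exp ((s * (∑ c, w i c * sg (χ c))) * g i) ∂μ :=
        Finset.sum_congr rfl (fun χ _ => e1 χ)
    _ = ∫ g : J → ℝ, ∑ χ : ι → Bool,
          ∏ i, Real.exp ((s * (∑ c, w i c * sg (χ c))) * g i) ∂μ :=
        (integral_finsetSum _ (fun χ _ => i1 χ)).symm
    _ ≤ ∫ g : J → ℝ, 2 ^ Fintype.card ι * ∏ i, Real.exp ((θ * ∑ c, w i c ^ 2) * g i ^ 2) ∂μ :=
        integral_mono (integrable_finsetSum _ (fun χ _ => i1 χ)) (i2.const_mul _) e4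
    _ = 2 ^ Fintype.card ι *
          ∫ g : J → ℝ, ∏ i, Real.exp ((θ * ∑ c, w i c ^ 2) * g i ^ 2) ∂μ :=
        integral_const_mul _ _
    _ ≤ _ := mul_le_mul_of_nonneg_left e2 (by positivity)

theorem P4 : T_P4 := by
  intro ι _ _ J _ _ w ρ T t hρ horth hw hT
  classical
  set θ : ℝ := 1 / (4 * ρ) with hθ
  have hθ0 : 0 < θ := by positivity
  have h1 := P4_main ι J w θ hθ0 horth (fun i => by
    calc θ * ∑ c, w i c ^ 2 ≤ θ * ρ := mul_le_mul_of_nonneg_left (hw i) hθ0.le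
      _ = 1 / 4 := by rw [hθ]; field_simp)
  have h2 : cnt (fun χ : ι → Bool => t ≤ ∑ i, (∑ c, w i c * sg (χ c)) ^ 2) *
      Real.exp (θ * t) ≤ ∑ χ : ι → Bool, Real.exp (θ * ∑ i, (∑ c, w i c * sg (χ c)) ^ 2) := by
    rw [cnt_eq_sum, Finset.sum_mul]
    refine Finset.sum_le_sum (fun χ _ => ?_)
    split_ifs with h
    · rw [one_mul]
      exact Real.exp_le_exp.2 (mul_le_mul_of_nonneg_left h hθ0.le)
    · rw [zero_mul]
      exact (Real.exp_pos _).le
  have h3 : 2 ^ Fintype.card ι * Real.exp (2 * θ * ∑ i, ∑ c, w i c ^ 2) ≤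
      2 ^ Fintype.card ι * Real.exp (T / (2 * ρ)) := by
    apply mul_le_mul_of_nonneg_left _ (by positivity)
    apply Real.exp_le_exp.2
    calc 2 * θ * ∑ i, ∑ c, w i c ^ 2 ≤ 2 * θ * T :=
          mul_le_mul_of_nonneg_left hT (by positivity)
      _ = T / (2 * ρ) := by rw [hθ]; field_simp; ring
  have h4 := h2.trans (h1.trans h3)
  rw [← le_div_iff₀ (Real.exp_pos _)] at h4
  refine h4.trans (le_of_eq ?_)
  rw [mul_div_assoc, ← Real.exp_sub, mul_comm]
  congr 2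
  rw [hθ]
  field_simp

end Pool.Agent.H162R2.AG
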